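import Mathlib

/-!
# Sub-Riemannian structures on tori and their microlocal Weyl measure: definitions

`Tor d` is the torus `(ℝ/ℤ)^d`, its points are covered by `proj : ℝ^d → Tor d`. Covectors are
elements of `Fin d → ℝ`; the cosphere bundle is `Tor d × Sph d`, where `Sph d` is the unit sphere of
the sup norm (it represents the rays of `ℝ^d \ {0}`).
-/

set_option autoImplicit false

open MeasureTheory Set Filter Topology
open scoped ContDiff

namespace Pool.Agent.H223.SR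

/-- the torus `(ℝ/ℤ)^d` -/
abbrev Tor (d : ℕ) : Type := UnitAddTorus (Fin d)

/-- the Lebesgue (Haar probability) measure of the torus -/
noncomputable abbrev vol (d : ℕ) : Measure (Tor d) :=
  Measure.pi fun _ => AddCircle.haarAddCircle

/-- `L²(Tor d; ℂ)` -/
noncomputable abbrev L2 (d : ℕ) : Type := Lp ℂ 2 (vol d)

/-- the covering map `ℝ^d → Tor d` -/
def proj {d : ℕ} (x : Fin d → ℝ) : Tor d := fun i => (x i : UnitAddCircle)

/-- `F` is a `C^∞` function on the torus -/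
def IsSmooth {d : ℕ} (F : C(Tor d, ℂ)) : Prop := ContDiff ℝ ∞ fun x : Fin d → ℝ => F (proj x)

/-- the class of a continuous function in `L²` -/
noncomputable abbrev cls {d : ℕ} (F : C(Tor d, ℂ)) : L2 d := ContinuousMap.toLp 2 (vol d) ℂ F

/-! ### Sub-Riemannian structures -/

/-- `Z` is a section of the distribution spanned by `X_1, …, X_k` (a smooth periodic vector
field with values in the span) -/
def IsSection {d k : ℕ} (X : Fin k → (Fin d → ℝ) → (Fin d → ℝ))
    (Z : (Fin d → ℝ) → (Fin d → ℝ)) : Prop :=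
  ContDiff ℝ ∞ Z ∧ (∀ (x : Fin d → ℝ) (a : Fin d → ℤ), Z (fun i => x i + a i) = Z x) ∧
    ∀ x, Z x ∈ Submodule.span ℝ (range fun i => X i x)

/-- brackets of length `i` of sections (`[…[[Z₁, Z₂], Z₃], …, Z_i]`) -/
inductive IsBracket {d k : ℕ} (X : Fin k → (Fin d → ℝ) → (Fin d → ℝ)) :
    ℕ → ((Fin d → ℝ) → (Fin d → ℝ)) → Prop
  | one {Z : (Fin d → ℝ) → (Fin d → ℝ)} : IsSection X Z → IsBracket X 1 Z
  | succ {i : ℕ} {Y Z : (Fin d → ℝ) → (Fin d → ℝ)} : IsBracket X i Y → IsSection X Z →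
      IsBracket X (i + 1) (VectorField.lieBracket ℝ Y Z)

/-- `D_i(q)`: the span of the values at `q` of the brackets of length at most `i` -/
def flag {d k : ℕ} (X : Fin k → (Fin d → ℝ) → (Fin d → ℝ)) (i : ℕ) (q : Fin d → ℝ) :
    Submodule ℝ (Fin d → ℝ) :=
  Submodule.span ℝ {v | ∃ j ≤ i, ∃ Z, IsBracket X j Z ∧ v = Z q}

/-- A sub-Riemannian structure on the torus, given by a global orthonormal frame `X_1, …, X_k` of
the distribution `D`: smooth periodic vector fields, linearly independent at every point, which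
satisfy the bracket generating condition `Lie(D) = TM`. -/
structure SubRiem (d k : ℕ) where
  /-- the frame -/
  X : Fin k → (Fin d → ℝ) → (Fin d → ℝ)
  smooth : ∀ i, ContDiff ℝ ∞ (X i)
  periodic : ∀ i (x : Fin d → ℝ) (a : Fin d → ℤ), X i (fun j => x j + a j) = X i x
  indep : ∀ x, LinearIndependent ℝ fun i => X i x
  generating : ∃ r, ∀ q, flag X r q = ⊤

/-- the divergence (with respect to the Lebesgue measure) -/
noncomputable def divg {d : ℕ} (Z : (Fin d → ℝ) → (Fin d → ℝ)) (x : Fin d → ℝ) : ℝ :=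
  ∑ j, fderiv ℝ Z x (Pi.single j 1) j

/-- the derivative `Z Φ` -/
noncomputable def along {d : ℕ} (Z : (Fin d → ℝ) → (Fin d → ℝ)) (Φ : (Fin d → ℝ) → ℂ)
    (x : Fin d → ℝ) : ℂ :=
  fderiv ℝ Φ x (Z x)

/-- the sub-Laplacian `Δ = - ∑ X_i^* X_i` with respect to the Lebesgue measure,
`X_i^* = - X_i - div X_i` -/
noncomputable def SubRiem.lap {d k : ℕ} (S : SubRiem d k) (Φ : (Fin d → ℝ) → ℂ)
    (x : Fin d → ℝ) : ℂ :=
  ∑ i, (along (S.X i) (along (S.X i) Φ) x + divg (S.X i) x * along (S.X i) Φ x)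

/-- An orthonormal basis `b` of `L²` which consists of `C^∞` eigenfunctions of `-Δ` with the
eigenvalues `lam`, and every half-line `(-∞, Λ]` contains only finitely many of them. -/
structure IsEigenbasis {d k : ℕ} (S : SubRiem d k) {ι : Type} (b : HilbertBasis ι ℂ (L2 d))
    (lam : ι → ℝ) : Prop where
  eig : ∀ j, ∃ F : C(Tor d, ℂ), IsSmooth F ∧ b j = cls F ∧
    ∀ x, -S.lap (fun y => F (proj y)) x = lam j * F (proj x)
  fin : ∀ Λ : ℝ, {j | lam j ≤ Λ}.Finite

/-! ### Symbols and quantizations -/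

/-- the unit sphere of the sup norm of `ℝ^d`; it represents the directions of covectors -/
abbrev Sph (d : ℕ) : Type := Metric.sphere (0 : Fin d → ℝ) 1

/-- real symbols of order zero: functions of `x ∈ Tor d` and `ξ ∈ ℝ^d`, `C^∞` for `ξ ≠ 0` and
positively homogeneous of degree `0` in `ξ` -/
structure Symbol (d : ℕ) where
  /-- the function -/
  f : Tor d → (Fin d → ℝ) → ℝ
  smooth : ContDiffOn ℝ ∞ (fun p : (Fin d → ℝ) × (Fin d → ℝ) => f (proj p.1) p.2) {p | p.2 ≠ 0}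
  homog : ∀ x ξ (t : ℝ), 0 < t → f x (t • ξ) = f x ξ

/-- the monomial `e_κ(x) = exp (2 π i κ · x)` in `L²`, `κ ∈ ℤ^d` -/
noncomputable def mono {d : ℕ} (κ : Fin d → ℤ) : L2 d := cls (UnitAddTorus.mFourier κ)

/-- A positive quantization: a real linear map from the symbols to the bounded operators of `L²`
which takes nonnegative symbols to nonnegative operators and which coincides up to compact
operators with the standard quantization `e_κ ↦ a(·, κ) e_κ` of the torus. -/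
structure IsPosQuant {d : ℕ} (Op : Symbol d → (L2 d →L[ℂ] L2 d)) : Prop where
  add : ∀ a b c : Symbol d, (∀ x ξ, ξ ≠ 0 → c.f x ξ = a.f x ξ + b.f x ξ) → Op c = Op a + Op b
  smul : ∀ (t : ℝ) (a b : Symbol d), (∀ x ξ, ξ ≠ 0 → b.f x ξ = t * a.f x ξ) →
    Op b = (t : ℂ) • Op a
  pos : ∀ a : Symbol d, (∀ x ξ, ξ ≠ 0 → 0 ≤ a.f x ξ) → (Op a).IsPositive
  quant : ∀ a : Symbol d, ∃ K : L2 d →L[ℂ] L2 d, IsCompactOperator K ∧ ∀ κ : Fin d → ℤ, κ ≠ 0 →
    (Op a (mono κ) - K (mono κ) : L2 d) =ᵐ[vol d]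
      fun x => (a.f x (fun i => (κ i : ℝ)) : ℂ) * UnitAddTorus.mFourier κ x

/-- the mean of `⟨A φ_j, φ_j⟩` over the eigenfunctions `φ_j` with eigenvalue at most `Λ` -/
noncomputable def mean {d : ℕ} {ι : Type} (b : HilbertBasis ι ℂ (L2 d)) (lam : ι → ℝ)
    (A : L2 d →L[ℂ] L2 d) (Λ : ℝ) : ℂ :=
  (∑ᶠ (j) (_ : lam j ≤ Λ), inner ℂ (A (b j)) (b j)) / ({j | lam j ≤ Λ}.ncard : ℂ)

/-- `W` is the microlocal Weyl measure of the structure `S` -/
def IsWeylMeasure {d k : ℕ} (S : SubRiem d k) (W : Measure (Tor d × Sph d)) : Prop :=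
  IsProbabilityMeasure W ∧
  ∀ (ι : Type) (b : HilbertBasis ι ℂ (L2 d)) (lam : ι → ℝ), IsEigenbasis S b lam →
  ∀ Op : Symbol d → (L2 d →L[ℂ] L2 d), IsPosQuant Op → ∀ a : Symbol d,
    Tendsto (mean b lam (Op a)) atTop (𝓝 ((∫ p, a.f p.1 p.2 ∂W : ℝ) : ℂ))

/-- `SΣ_j`: the directions of the covectors which vanish on `D_j` -/
def SSigma {d k : ℕ} (S : SubRiem d k) (j : ℕ) : Set (Tor d × Sph d) :=
  {p | ∀ x, proj x = p.1 → ∀ v ∈ flag S.X j x, ∑ i, (p.2 : Fin d → ℝ) i * v i = 0}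

end Pool.Agent.H223.SR
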