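import Pool.Agent.H223.SR.Stm

set_option autoImplicit false

open MeasureTheory Set Filter Topology
open scoped ContDiff Real ComplexConjugate

namespace Pool.Agent.H223.SR

namespace Avg1

open Classical in
theorem est {I : Type} (S : Finset I) {L : Type} [Fintype L] (l0 : L) (lab : I → L → Prop)
    (x : I → ℂ) (B : ℝ) (v : L → ℂ) (hu : ∀ i l l', lab i l → lab i l' → l = l')
    (hc' : ∀ l l', ((S : Set I) ∩ {i | lab i l}).ncard = ((S : Set I) ∩ {i | lab i l'}).ncard)
    (hB : ∀ i, ‖x i‖ ≤ B) (η : ℝ) (hη : 0 ≤ η) :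
    ‖∑ i ∈ S, x i - (S.card : ℂ) * ((∑ l, v l) / (Fintype.card L : ℂ))‖ ≤
      η * S.card + (B + 2 * ∑ l, ‖v l‖) *
        ((S : Set I) ∩ {i | ¬ ∃ l, lab i l ∧ ‖x i - v l‖ ≤ η}).ncard := by
  have hfil : ∀ p : I → Prop, ((S : Set I) ∩ {i | p i}).ncard = (S.filter p).card := by
    intro p
    have e : (S : Set I) ∩ {i | p i} = ((S.filter p : Finset I) : Set I) := by
      ext i
      simp only [Set.mem_inter_iff, Set.mem_ofPred_eq, Finset.coe_filter, Finset.mem_coe]
    rw [e, Set.ncard_coe_finset]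
  have hc : ∀ l l', (S.filter fun i => lab i l).card = (S.filter fun i => lab i l').card := by
    intro l l'
    rw [← hfil, ← hfil]; exact hc' l l'
  set V : I → ℂ := fun i => ∑ l, if lab i l then v l else 0 with hV
  set n : ℕ := (S.filter fun i => lab i l0).card with hn
  set Vm : ℝ := ∑ l, ‖v l‖ with hVm
  have hVm0 : 0 ≤ Vm := Finset.sum_nonneg fun l _ => norm_nonneg _
  set bad := S.filter fun i => ¬ ∃ l, lab i l ∧ ‖x i - v l‖ ≤ η with hbad
  have hL0 : (0 : ℝ) < Fintype.card L := by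
    have : 0 < Fintype.card L := Fintype.card_pos_iff.2 ⟨l0⟩
    exact_mod_cast this
  have hbb : ((S : Set I) ∩ {i | ¬ ∃ l, lab i l ∧ ‖x i - v l‖ ≤ η}).ncard = bad.card := by
    rw [← Set.ncard_coe_finset]
    congr 1
    ext i
    simp only [hbad, Set.mem_inter_iff, Set.mem_ofPred_eq, Finset.coe_filter, Finset.mem_coe]
  rw [hbb]
  -- value of V
  have hV1 : ∀ i l, lab i l → V i = v l := by
    intro i l h
    rw [hV]
    dsimp only
    rw [Finset.sum_eq_single l]
    · rw [if_pos h]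
    · intro l' _ hl'
      rw [if_neg]
      intro h'
      exact hl' (hu i l' l h' h)
    · intro h'; exact absurd (Finset.mem_univ _) h'
  have hV2 : ∀ i, ‖V i‖ ≤ Vm := by
    intro i
    rw [hV]
    refine (norm_sum_le _ _).trans (Finset.sum_le_sum fun l _ => ?_)
    split_ifs
    · exact le_rfl
    · rw [norm_zero]; exact norm_nonneg _
  -- sum of V
  have hV3 : ∑ i ∈ S, V i = (n : ℂ) * ∑ l, v l := by
    rw [hV]
    rw [Finset.sum_comm, Finset.mul_sum]
    refine Finset.sum_congr rfl fun l _ => ?_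
    rw [← Finset.sum_filter, Finset.sum_const, nsmul_eq_mul, hc l l0]
  -- number of labelled
  have hlab : (S.filter fun i => ∃ l, lab i l).card = Fintype.card L * n := by
    have e : (S.filter fun i => ∃ l, lab i l) =
        Finset.univ.biUnion fun l => S.filter fun i => lab i l := by
      ext i
      simp only [Finset.mem_filter, Finset.mem_biUnion, Finset.mem_univ, true_and]
      constructor
      · rintro ⟨h1, l, h2⟩; exact ⟨l, h1, h2⟩
      · rintro ⟨l, h1, h2⟩; exact ⟨h1, l, h2⟩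
    rw [e, Finset.card_biUnion]
    · rw [Finset.sum_congr rfl fun l _ => hc l l0, Finset.sum_const, Finset.card_univ, smul_eq_mul]
    · intro l _ l' _ hll
      rw [Function.onFun, Finset.disjoint_left]
      intro i h1 h2
      rw [Finset.mem_filter] at h1 h2
      exact hll (hu i l l' h1.2 h2.2)
  have hunlab : (S.filter fun i => ¬ ∃ l, lab i l).card ≤ bad.card := by
    apply Finset.card_le_card
    intro i hi
    rw [Finset.mem_filter] at hi ⊢
    refine ⟨hi.1, ?_⟩
    rintro ⟨l, h1, -⟩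
    exact hi.2 ⟨l, h1⟩
  have hcard : (S.filter fun i => ∃ l, lab i l).card + (S.filter fun i => ¬ ∃ l, lab i l).card =
      S.card := Finset.card_filter_add_card_filter_not _
  have hdiff : |(Fintype.card L : ℝ) * n - S.card| ≤ bad.card := by
    rw [hlab] at hcard
    have h1 : ((Fintype.card L * n : ℕ) : ℝ) +
      ((S.filter fun i => ¬ ∃ l, lab i l).card : ℝ) = S.card := by exact_mod_cast hcard
    have h2 : ((S.filter fun i => ¬ ∃ l, lab i l).card : ℝ) ≤ bad.card := by exact_mod_cast hunlab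
    have h3 : (0 : ℝ) ≤ ((S.filter fun i => ¬ ∃ l, lab i l).card : ℝ) := Nat.cast_nonneg _
    push_cast at h1
    rw [abs_le]
    constructor <;> linarith
  -- first difference
  have hB0 : ∀ i ∈ bad, 0 ≤ B := fun i _ => (norm_nonneg _).trans (hB i)
  have h1 : ‖∑ i ∈ S, x i - (n : ℂ) * ∑ l, v l‖ ≤ η * S.card + (B + Vm) * bad.card := by
    rw [← hV3, ← Finset.sum_sub_distrib]
    refine (norm_sum_le _ _).trans ?_
    have h2 : ∀ i ∈ S, ‖x i - V i‖ ≤ η + if i ∈ bad then B + Vm else 0 := by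
      intro i hi
      split_ifs with hb
      · have := (norm_sub_le (x i) (V i)).trans (add_le_add (hB i) (hV2 i))
        linarith
      · rw [add_zero]
        have : ∃ l, lab i l ∧ ‖x i - v l‖ ≤ η := by
          by_contra hcon
          exact hb (Finset.mem_filter.2 ⟨hi, hcon⟩)
        obtain ⟨l, h3, h4⟩ := this
        rw [hV1 i l h3]; exact h4
    refine (Finset.sum_le_sum h2).trans ?_
    rw [Finset.sum_add_distrib, Finset.sum_const, nsmul_eq_mul, ← Finset.sum_filter]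
    have e : S.filter (fun i => i ∈ bad) = bad := by
      ext i
      rw [Finset.mem_filter]
      exact ⟨fun h => h.2, fun h => ⟨(Finset.mem_filter.1 h).1, h⟩⟩
    rw [e, Finset.sum_const, nsmul_eq_mul]
    linarith
  have h2 : ‖(n : ℂ) * ∑ l, v l - (S.card : ℂ) * ((∑ l, v l) / (Fintype.card L : ℂ))‖ ≤
      Vm * bad.card := by
    have hLc : (Fintype.card L : ℂ) ≠ 0 := by exact_mod_cast hL0.ne'
    have e : (n : ℂ) * ∑ l, v l - (S.card : ℂ) * ((∑ l, v l) / (Fintype.card L : ℂ)) =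
        (((Fintype.card L : ℝ) * n - S.card : ℝ) : ℂ) * (∑ l, v l) / (Fintype.card L : ℂ) := by
      push_cast
      field_simp
    rw [e, norm_div, norm_mul, Complex.norm_real, Real.norm_eq_abs, Complex.norm_natCast]
    have h3 : ‖∑ l, v l‖ ≤ Vm := norm_sum_le _ _
    have h4 : (1 : ℝ) ≤ Fintype.card L := by
      have : 0 < Fintype.card L := Fintype.card_pos_iff.2 ⟨l0⟩
      exact_mod_cast this
    rw [div_le_iff₀ hL0]
    calc |(Fintype.card L : ℝ) * n - S.card| * ‖∑ l, v l‖ ≤ bad.card * Vm :=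
          mul_le_mul hdiff h3 (norm_nonneg _) (Nat.cast_nonneg _)
      _ = Vm * bad.card * 1 := by ring
      _ ≤ Vm * bad.card * Fintype.card L := by
          apply mul_le_mul_of_nonneg_left h4; positivity
  calc _ = ‖(∑ i ∈ S, x i - (n : ℂ) * ∑ l, v l) + ((n : ℂ) * ∑ l, v l -
        (S.card : ℂ) * ((∑ l, v l) / (Fintype.card L : ℂ)))‖ := by congr 1; ring
    _ ≤ (η * S.card + (B + Vm) * bad.card) + Vm * bad.card :=
        (norm_add_le _ _).trans (add_le_add h1 h2)
    _ = _ := by ring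

end Avg1

open Classical in
theorem t_AVG : S_AVG := by
  intro I lv L _ lab x B v hL hfin hN hu hc hB hbad
  obtain ⟨l0⟩ := hL
  rw [Metric.tendsto_atTop]
  intro ε hε
  obtain ⟨i0, -⟩ | hI := (isEmpty_or_nonempty I).symm.imp (fun h => (h : Nonempty I)) id |>.imp
    (fun ⟨i⟩ => (⟨i, trivial⟩ : ∃ _ : I, True)) id
  swap
  · -- no index at all: impossible
    exfalso
    obtain ⟨Λ, hΛ⟩ := (hN.eventually_ge_atTop 1).exists
    have : lv Λ = ∅ := Set.eq_empty_of_isEmpty _
    rw [this, Set.ncard_empty] at hΛ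
    norm_num at hΛ
  have hB0 : 0 ≤ B := (norm_nonneg _).trans (hB i0)
  set Vm : ℝ := ∑ l, ‖v l‖ with hVm
  have hVm0 : 0 ≤ Vm := Finset.sum_nonneg fun l _ => norm_nonneg _
  have h1 := (hbad (ε / 4) (by linarith))
  rw [Metric.tendsto_atTop] at h1
  obtain ⟨Λ1, hΛ1⟩ := h1 (ε / (4 * (B + 2 * Vm + 1))) (by positivity)
  obtain ⟨Λ2, hΛ2⟩ := Filter.eventually_atTop.1 (hN.eventually_ge_atTop 1)
  refine ⟨max Λ1 Λ2, fun Λ hΛ => ?_⟩
  have hN1 := hΛ2 Λ ((le_max_right _ _).trans hΛ)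
  have hb1 := hΛ1 Λ ((le_max_left _ _).trans hΛ)
  set S : Finset I := (hfin Λ).toFinset with hS
  have hcard : (lv Λ).ncard = S.card := Set.ncard_eq_toFinset_card _ (hfin Λ)
  have hSl : (S : Set I) = lv Λ := Set.Finite.coe_toFinset _
  have hsum : (∑ᶠ (i) (_ : i ∈ lv Λ), x i) = ∑ i ∈ S, x i :=
    finsum_mem_eq_finite_toFinset_sum x (hfin Λ)
  have hest := Avg1.est S l0 lab x B v hu (fun l l' => by
    rw [hSl]; exact hc Λ l l') hB (ε / 4) (by linarith)
  rw [hSl] at hest
  rw [hsum, hcard]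
  have hS0 : (0 : ℝ) < S.card := by
    have : (1 : ℝ) ≤ (S.card : ℝ) := by rw [← hcard]; exact hN1
    linarith
  have hSc : (S.card : ℂ) ≠ 0 := by exact_mod_cast hS0.ne'
  rw [hcard, Real.dist_eq, sub_zero, abs_of_nonneg (by positivity)] at hb1
  rw [dist_eq_norm]
  have e : (∑ i ∈ S, x i) / (S.card : ℂ) - (∑ l, v l) / (Fintype.card L : ℂ) =
      (∑ i ∈ S, x i - (S.card : ℂ) * ((∑ l, v l) / (Fintype.card L : ℂ))) / (S.card : ℂ) := by
    field_simp
  rw [e, norm_div, Complex.norm_natCast, div_lt_iff₀ hS0]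
  refine lt_of_le_of_lt hest ?_
  rw [div_lt_iff₀ hS0] at hb1
  set b : ℝ := ((lv Λ ∩ {i | ¬ ∃ l, lab i l ∧ ‖x i - v l‖ ≤ ε / 4}).ncard : ℝ) with hbdef
  have hb0 : 0 ≤ b := Nat.cast_nonneg _
  have h5 : (B + 2 * Vm) * b ≤ (B + 2 * Vm + 1) * b := by nlinarith
  have h6 : (B + 2 * Vm + 1) * b ≤ (B + 2 * Vm + 1) * (ε / (4 * (B + 2 * Vm + 1)) * S.card) :=
    mul_le_mul_of_nonneg_left hb1.le (by positivity)
  have h7 : (B + 2 * Vm + 1) * (ε / (4 * (B + 2 * Vm + 1)) * S.card) = ε / 4 * S.card := by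
    have : B + 2 * Vm + 1 ≠ 0 := by positivity
    field_simp
  rw [h7] at h6
  nlinarith

end Pool.Agent.H223.SR
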