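import Pool.Agent.H223.SR.Stm

set_option autoImplicit false

open MeasureTheory Set Filter Topology
open scoped ContDiff Real ComplexConjugate

namespace Pool.Agent.H223.SR

/-- general version in a Hilbert space -/
theorem cpt_gen {E : Type*} [NormedAddCommGroup E] [InnerProductSpace ℂ E] [CompleteSpace E]
    (K : E →L[ℂ] E) (hK : IsCompactOperator K) {ι : Type*} (v : ι → E) (hv : Orthonormal ℂ v)
    (ε : ℝ) (hε : 0 < ε) : {j | ε ≤ ‖(inner ℂ (K (v j)) (v j) : ℂ)‖}.Finite := by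
  by_contra hinf
  have hinf' : {j | ε ≤ ‖(inner ℂ (K (v j)) (v j) : ℂ)‖}.Infinite := hinf
  set f := hinf'.natEmbedding with hf
  set g : ℕ → ι := fun n => (f n : ι) with hg
  have hginj : Function.Injective g := fun a b hab => f.injective (Subtype.ext hab)
  have hgs : ∀ n, ε ≤ ‖(inner ℂ (K (v (g n))) (v (g n)) : ℂ)‖ := fun n => (f n).2
  have hnorm : ∀ n, ε ≤ ‖K (v (g n))‖ := by
    intro n
    refine (hgs n).trans ((norm_inner_le_norm _ _).trans ?_)
    rw [hv.norm_eq_one (g n), mul_one]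
  obtain ⟨T, hT, hsub⟩ := hK.image_closedBall_subset_compact 1
  have hmem : ∀ n, K (v (g n)) ∈ T := by
    intro n
    apply hsub
    refine ⟨v (g n), ?_, rfl⟩
    simp [hv.norm_eq_one (g n)]
  obtain ⟨w, _, φ, hφ, hlim⟩ := hT.tendsto_subseq hmem
  -- `⟪K v, w⟫ = ⟪v, K† w⟫ → 0`
  have hsum : Tendsto (fun n => inner ℂ (v (g (φ n))) (K.adjoint w)) atTop (𝓝 (0 : ℂ)) := by
    have h1 := hv.inner_products_summable (ContinuousLinearMap.adjoint K w)
    have h2 := h1.tendsto_cofinite_zero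
    have h3 : Tendsto (fun n => g (φ n)) atTop cofinite := by
      rw [← Nat.cofinite_eq_atTop]
      exact (hginj.comp hφ.injective).tendsto_cofinite
    have h4 := h2.comp h3
    have h5 : Tendsto (fun n => Real.sqrt (‖inner ℂ (v (g (φ n))) (K.adjoint w)‖ ^ 2)) atTop
        (𝓝 (Real.sqrt 0)) := (Real.continuous_sqrt.tendsto 0).comp h4
    simp only [Real.sqrt_sq (norm_nonneg _), Real.sqrt_zero] at h5
    exact tendsto_zero_iff_norm_tendsto_zero.2 h5
  have hlim2 : Tendsto (fun n => inner ℂ (K (v (g (φ n)))) w) atTop (𝓝 (inner ℂ w w)) :=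
    (hlim.inner tendsto_const_nhds)
  have heq : (fun n => inner ℂ (K (v (g (φ n)))) w) =
      fun n => (inner ℂ (v (g (φ n))) (K.adjoint w) : ℂ) := by
    funext n
    rw [ContinuousLinearMap.adjoint_inner_right]
  rw [heq] at hlim2
  have hw : (inner ℂ w w : ℂ) = 0 := tendsto_nhds_unique hlim2 hsum
  have hw0 : w = 0 := inner_self_eq_zero.1 hw
  have hwn : Tendsto (fun n => ‖K (v (g (φ n)))‖) atTop (𝓝 ‖w‖) := hlim.norm
  have : ε ≤ ‖w‖ := ge_of_tendsto' hwn fun n => hnorm _
  rw [hw0, norm_zero] at this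
  linarith

theorem t_CPT : S_CPT := by
  intro K hK ι b ε hε
  exact cpt_gen K hK b b.orthonormal ε hε

end Pool.Agent.H223.SR
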