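import Pool.Agent.H223.SR.Stm

set_option autoImplicit false

open MeasureTheory Set Filter Topology
open scoped ContDiff Real ComplexConjugate

namespace Pool.Agent.H223.SR

namespace Eig

/-- the sequence space -/
abbrev HH : Type := lp (fun _ : ℤ => ℂ) 2

theorem norm_sq (x : HH) : HasSum (fun k => ‖x k‖ ^ 2) (‖x‖ ^ 2) := by
  have h := lp.hasSum_norm (p := 2) (by norm_num) x
  simpa using h

/-- weighted shift -/
noncomputable def ws (d : ℤ → ℝ) (C : ℝ) (h : ∀ k, |d k| ≤ C) (j : ℤ) : HH →L[ℂ] HH :=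
  LinearMap.mkContinuous
    { toFun := fun c => ⟨fun k => (d k : ℂ) * c (k + j), by
        have h1 : Summable fun k => ‖c (k + j)‖ ^ 2 :=
          (Equiv.addRight j).summable_iff.2 (norm_sq c).summable
        refine memℓp_gen ?_
        have h2 : Summable fun k => C ^ 2 * ‖c (k + j)‖ ^ 2 := h1.mul_left _
        refine h2.of_nonneg_of_le (fun k => by positivity) fun k => ?_
        have h3 : ‖(d k : ℂ) * c (k + j)‖ = |d k| * ‖c (k + j)‖ := by
          rw [norm_mul, Complex.norm_real, Real.norm_eq_abs]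
        simp only [ENNReal.toReal_ofNat, Real.rpow_ofNat]
        rw [h3, mul_pow]
        gcongr
        exact h k⟩
      map_add' := fun x y => by
        ext k
        simp only [lp.coeFn_add, Pi.add_apply, mul_add]
      map_smul' := fun a x => by
        ext k
        simp
        ring } C (fun c => by
      have hC : 0 ≤ C := (abs_nonneg _).trans (h 0)
      refine lp.norm_le_of_tsum_le (p := 2) (by norm_num) (by positivity) ?_
      have h1 : HasSum (fun k => C ^ 2 * ‖c (k + j)‖ ^ 2) (C ^ 2 * ‖c‖ ^ 2) :=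
        ((Equiv.addRight j).hasSum_iff.2 (norm_sq c)).mul_left _
      simp only [ENNReal.toReal_ofNat, Real.rpow_ofNat]
      rw [mul_pow, ← h1.tsum_eq]
      have h4 : ∀ k, ‖(d k : ℂ) * c (k + j)‖ ^ 2 ≤ C ^ 2 * ‖c (k + j)‖ ^ 2 := by
        intro k
        have h3 : ‖(d k : ℂ) * c (k + j)‖ = |d k| * ‖c (k + j)‖ := by
          rw [norm_mul, Complex.norm_real, Real.norm_eq_abs]
        rw [h3, mul_pow]
        gcongr
        exact h k
      refine Summable.tsum_le_tsum h4 ?_ h1.summable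
      exact h1.summable.of_nonneg_of_le (fun k => by positivity) h4)

theorem ws_apply (d : ℤ → ℝ) (C : ℝ) (h : ∀ k, |d k| ≤ C) (j : ℤ) (x : HH) (k : ℤ) :
    ws d C h j x k = (d k : ℂ) * x (k + j) := rfl

theorem ws_norm (d : ℤ → ℝ) (C : ℝ) (h : ∀ k, |d k| ≤ C) (j : ℤ) : ‖ws d C h j‖ ≤ C :=
  LinearMap.mkContinuous_norm_le _ ((abs_nonneg _).trans (h 0)) _

/-- diagonal entries -/
noncomputable def dd (k : ℤ) : ℝ := (√(1 + 4 * π ^ 2 * (k : ℝ) ^ 2))⁻¹

theorem one_le_sq (k : ℤ) : 1 ≤ √(1 + 4 * π ^ 2 * (k : ℝ) ^ 2) := by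
  rw [Real.one_le_sqrt]
  have : 0 ≤ 4 * π ^ 2 * (k : ℝ) ^ 2 := by positivity
  linarith

theorem dd_pos (k : ℤ) : 0 < dd k := inv_pos.2 (by linarith [one_le_sq k])

theorem dd_le (k : ℤ) : |dd k| ≤ 1 := by
  rw [abs_of_pos (dd_pos k)]
  exact inv_le_one_of_one_le₀ (one_le_sq k)

theorem dd_sq (k : ℤ) : dd k ^ 2 * (1 + 4 * π ^ 2 * (k : ℝ) ^ 2) = 1 := by
  rw [dd, inv_pow, Real.sq_sqrt (by positivity)]
  exact inv_mul_cancel₀ (by positivity)

theorem dd_small (N : ℕ) (k : ℤ) (h : (N : ℤ) < |k|) : |dd k| ≤ 1 / (N + 1 : ℝ) := by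
  rw [abs_of_pos (dd_pos k), dd, one_div]
  refine inv_anti₀ (by positivity) ?_
  refine Real.le_sqrt_of_sq_le ?_
  have h1 : (N + 1 : ℝ) ≤ |(k : ℝ)| := by
    have : (N : ℤ) + 1 ≤ |k| := h
    exact_mod_cast this
  have h2 : (N + 1 : ℝ) ^ 2 ≤ (k : ℝ) ^ 2 := by
    rw [← sq_abs (k : ℝ)]
    gcongr
  have h3 : (1 : ℝ) ≤ 4 * π ^ 2 := by nlinarith [Real.pi_gt_three]
  nlinarith [sq_nonneg (k : ℝ)]

/-- the diagonal operator -/
noncomputable def D : HH →L[ℂ] HH := ws dd 1 dd_le 0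

theorem D_apply (x : HH) (k : ℤ) : D x k = (dd k : ℂ) * x k := by
  rw [D, ws_apply, add_zero]

theorem inner_eq (x y : HH) : inner ℂ x y = ∑' k, conj (x k) * y k := by
  rw [lp.inner_eq_tsum]
  simp [mul_comm]

theorem D_symm (x y : HH) : inner ℂ (D x) y = inner ℂ x (D y) := by
  rw [inner_eq, inner_eq]
  refine tsum_congr fun k => ?_
  rw [D_apply, D_apply, map_mul, Complex.conj_ofReal]
  ring

theorem D_inj (x : HH) (h : D x = 0) : x = 0 := by
  ext k
  have h1 : D x k = 0 := by rw [h]; rfl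
  rw [D_apply] at h1
  have h2 : (dd k : ℂ) ≠ 0 := by exact_mod_cast (dd_pos k).ne'
  simpa [h2] using h1

/-- truncated diagonal operator -/
noncomputable def DN (N : ℕ) : HH →L[ℂ] HH :=
  ∑ k ∈ Finset.Icc (-(N : ℤ)) N,
    (lp.singleContinuousLinearMap ℂ (fun _ : ℤ => ℂ) 2 k).comp ((dd k : ℂ) • lp.evalCLM ℂ (fun _ : ℤ => ℂ) 2 k)

theorem DN_apply (N : ℕ) (x : HH) (k : ℤ) : DN N x k = if |k| ≤ N then (dd k : ℂ) * x k else 0 := by
  have h1 : DN N x = ∑ j ∈ Finset.Icc (-(N : ℤ)) N, lp.single 2 j ((dd j : ℂ) * x j) := by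
    rw [DN, sum_apply]
    rfl
  rw [h1, lp.coeFn_sum, Finset.sum_apply]
  have h2 : ∀ j, (lp.single 2 j ((dd j : ℂ) * x j) : HH) k = if j = k then (dd k : ℂ) * x k else 0 := by
    intro j
    by_cases h : j = k
    · subst h; simp
    · rw [lp.single_apply_ne _ _ _ (Ne.symm h), if_neg h]
  simp only [h2]
  rw [Finset.sum_ite_eq']
  simp only [Finset.mem_Icc, abs_le]

theorem DN_compact (N : ℕ) : IsCompactOperator (DN N) := by
  have h1 : ∀ s : Finset ℤ, IsCompactOperator (∑ k ∈ s,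
      (lp.singleContinuousLinearMap ℂ (fun _ : ℤ => ℂ) 2 k).comp
        ((dd k : ℂ) • lp.evalCLM ℂ (fun _ : ℤ => ℂ) 2 k) : HH →L[ℂ] HH) := by
    intro s
    induction s using Finset.induction_on with
    | empty => simpa using isCompactOperator_zero
    | insert a s ha ih =>
      rw [Finset.sum_insert ha]
      have h2 : IsCompactOperator ((dd a : ℂ) • lp.evalCLM ℂ (fun _ : ℤ => ℂ) 2 a : HH →L[ℂ] ℂ) :=
        isCompactOperator_of_locallyCompactSpace_dom _
      have h3 : IsCompactOperator ((lp.singleContinuousLinearMap ℂ (fun _ : ℤ => ℂ) 2 a).comp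
          ((dd a : ℂ) • lp.evalCLM ℂ (fun _ : ℤ => ℂ) 2 a) : HH →L[ℂ] HH) :=
        h2.clm_comp (lp.singleContinuousLinearMap ℂ (fun _ : ℤ => ℂ) 2 a)
      exact IsCompactOperator.add h3 ih
  exact h1 _

theorem D_compact : IsCompactOperator D := by
  refine isCompactOperator_of_tendsto (l := atTop) (F := DN) ?_ (Eventually.of_forall DN_compact)
  rw [tendsto_iff_norm_sub_tendsto_zero]
  refine squeeze_zero (fun _ => norm_nonneg _) (fun N => ?_) tendsto_one_div_add_atTop_nhds_zero_nat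
  refine ContinuousLinearMap.opNorm_le_bound _ (by positivity) fun x => ?_
  have h1 : ‖(DN N - D) x‖ ≤ ‖((1 / (N + 1 : ℝ) : ℝ) : ℂ) • x‖ := by
    refine lp.norm_mono (by norm_num) fun k => ?_
    rw [sub_apply, lp.coeFn_sub, Pi.sub_apply, DN_apply, D_apply, lp.coeFn_smul,
      Pi.smul_apply, smul_eq_mul, norm_mul, Complex.norm_real, Real.norm_of_nonneg (by positivity)]
    by_cases h : |k| ≤ N
    · rw [if_pos h, sub_self, norm_zero]; positivity
    · rw [if_neg h, zero_sub, norm_neg, norm_mul, Complex.norm_real, Real.norm_eq_abs]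
      gcongr
      exact dd_small N k (not_le.1 h)
  refine h1.trans_eq ?_
  rw [norm_smul, Complex.norm_real, Real.norm_of_nonneg (by positivity)]

/-- multiplication by `2 π (m + n cos (2 π x))` -/
noncomputable def W (m n : ℕ) : HH →L[ℂ] HH :=
  (2 * π * m : ℂ) • ContinuousLinearMap.id ℂ HH +
    (π * n : ℂ) • (ws (fun _ => 1) 1 (by simp) 1 + ws (fun _ => 1) 1 (by simp) (-1))

/-- the formula -/
noncomputable def Wf (m n : ℕ) (c : ℤ → ℂ) (k : ℤ) : ℂ :=
  2 * π * m * c k + π * n * (c (k + 1) + c (k + -1))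

theorem W_apply (m n : ℕ) (x : HH) (k : ℤ) : W m n x k = Wf m n x k := by
  rw [W, Wf]
  simp only [add_apply, smul_apply, lp.coeFn_add,
    lp.coeFn_smul, Pi.add_apply, Pi.smul_apply, ws_apply, ContinuousLinearMap.id_apply,
    smul_eq_mul, Complex.ofReal_one, one_mul]

theorem shift_symm (x y : HH) :
    inner ℂ (ws (fun _ => 1) 1 (by simp) 1 x) y = inner ℂ x (ws (fun _ => 1) 1 (by simp) (-1) y) := by
  rw [inner_eq, inner_eq, ← (Equiv.addRight (-1 : ℤ)).tsum_eq]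
  refine tsum_congr fun k => ?_
  simp [ws_apply]

theorem W_symm (m n : ℕ) (x y : HH) : inner ℂ (W m n x) y = inner ℂ x (W m n y) := by
  have h1 := shift_symm x y
  have h2 := shift_symm y x
  have h3 : inner ℂ (ws (fun _ => 1) 1 (by simp) (-1) x) y =
      inner ℂ x (ws (fun _ => 1) 1 (by simp) 1 y) := by
    rw [← inner_conj_symm, ← h2, inner_conj_symm]
  simp only [W, add_apply, smul_apply,
    ContinuousLinearMap.id_apply, inner_add_left, inner_add_right, inner_smul_left,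
    inner_smul_right, h1, h3]
  have h4 : conj (2 * π * m : ℂ) = 2 * π * m := by
    rw [map_mul, map_mul, Complex.conj_ofReal, map_natCast, map_ofNat]
  have h5 : conj (π * n : ℂ) = π * n := by
    rw [map_mul, Complex.conj_ofReal, map_natCast]
  rw [h4, h5]
  ring

/-- `B = D W W D` -/
noncomputable def B (m n : ℕ) : HH →L[ℂ] HH := D ∘L W m n ∘L W m n ∘L D

theorem B_symm (m n : ℕ) (x y : HH) : inner ℂ (B m n x) y = inner ℂ x (B m n y) := by
  simp only [B, ContinuousLinearMap.comp_apply]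
  rw [D_symm, W_symm, W_symm, D_symm]

theorem B_inner (m n : ℕ) (x : HH) : inner ℂ x (B m n x) = ((‖W m n (D x)‖ ^ 2 : ℝ) : ℂ) := by
  simp only [B, ContinuousLinearMap.comp_apply]
  rw [← D_symm, ← W_symm, inner_self_eq_norm_sq_to_K]
  simp

theorem oneB_inner (m n : ℕ) (x : HH) :
    inner ℂ x ((1 + B m n) x) = ((‖x‖ ^ 2 + ‖W m n (D x)‖ ^ 2 : ℝ) : ℂ) := by
  rw [add_apply, one_apply_eq_self, inner_add_right, B_inner,
    inner_self_eq_norm_sq_to_K]
  simp

theorem oneB_symm (m n : ℕ) (x y : HH) :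
    inner ℂ ((1 + B m n) x) y = inner ℂ x ((1 + B m n) y) := by
  rw [add_apply, one_apply_eq_self, inner_add_left, B_symm,
    add_apply, one_apply_eq_self, inner_add_right]

theorem oneB_unit (m n : ℕ) : IsUnit (1 + B m n) := by
  refine ContinuousLinearMap.isUnit_of_forall_le_norm_inner_map _ (c := 1) one_pos fun x => ?_
  rw [oneB_symm, oneB_inner, Complex.norm_real, Real.norm_of_nonneg (by positivity)]
  simp

/-- the inverse -/
noncomputable def Bi (m n : ℕ) : HH →L[ℂ] HH := ((oneB_unit m n).unit⁻¹ : (HH →L[ℂ] HH)ˣ)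

theorem Bi_right (m n : ℕ) (x : HH) : (1 + B m n) (Bi m n x) = x := by
  have h : (1 + B m n) * Bi m n = 1 := (oneB_unit m n).mul_val_inv
  have := congrArg (fun T : HH →L[ℂ] HH => T x) h
  simpa using this

/-- the compact operator -/
noncomputable def R (m n : ℕ) : HH →L[ℂ] HH := D ∘L Bi m n ∘L D

theorem R_apply (m n : ℕ) (x : HH) : R m n x = D (Bi m n (D x)) := rfl

theorem R_compact (m n : ℕ) : IsCompactOperator (R m n) :=
  D_compact.comp_clm (Bi m n ∘L D)

theorem R_symm (m n : ℕ) (x y : HH) : inner ℂ (R m n x) y = inner ℂ x (R m n y) := by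
  rw [R_apply, R_apply, D_symm, ← D_symm x]
  conv_lhs => rw [← Bi_right m n (D y)]
  conv_rhs => rw [← Bi_right m n (D x)]
  rw [oneB_symm]

theorem R_inj (m n : ℕ) (x : HH) (h : R m n x = 0) : x = 0 := by
  rw [R_apply] at h
  have h1 := D_inj _ h
  have h2 := Bi_right m n (D x)
  rw [h1, map_zero] at h2
  exact D_inj _ h2.symm

/-- eigenvalues are positive -/
theorem R_eig (m n : ℕ) (x : HH) (μ : ℂ) (hx : x ≠ 0) (h : R m n x = μ • x) :
    ∃ r : ℝ, 0 < r ∧ μ = r := by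
  have h1 : inner ℂ x (R m n x) =
      ((‖Bi m n (D x)‖ ^ 2 + ‖W m n (D (Bi m n (D x)))‖ ^ 2 : ℝ) : ℂ) := by
    rw [R_apply, ← D_symm, ← oneB_inner]
    conv_lhs => rw [← Bi_right m n (D x)]
    rw [oneB_symm]
    simp only [Bi_right]
  rw [h, inner_smul_right, inner_self_eq_norm_sq_to_K] at h1
  have hx' : 0 < ‖x‖ ^ 2 := by positivity
  have hB : 0 < ‖Bi m n (D x)‖ ^ 2 := by
    have : Bi m n (D x) ≠ 0 := by
      intro h0
      apply hx
      apply R_inj m n
      rw [R_apply, h0, map_zero]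
    positivity
  refine ⟨(‖Bi m n (D x)‖ ^ 2 + ‖W m n (D (Bi m n (D x)))‖ ^ 2) / ‖x‖ ^ 2, by positivity, ?_⟩
  rw [Complex.ofReal_div, ← h1]
  have : (((‖x‖ ^ 2 : ℝ)) : ℂ) ≠ 0 := by exact_mod_cast hx'.ne'
  rw [eq_div_iff this]
  simp

/-- the equation for the coefficients -/
theorem R_eqn (m n : ℕ) (x : HH) (r : ℝ) (hr : 0 < r) (h : R m n x = (r : ℂ) • x) (k : ℤ) :
    (1 + 4 * π ^ 2 * (k : ℝ) ^ 2 : ℝ) * x k = (r⁻¹ : ℝ) * x k - Wf m n (Wf m n x) k := by
  have h1 := congrArg (fun z : HH => z k) (Bi_right m n (D x))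
  simp only [add_apply, one_apply_eq_self, B,
    ContinuousLinearMap.comp_apply, ← R_apply, h] at h1
  have h2 := congrArg (fun z : HH => z k) h
  simp only [R_apply, D_apply, lp.coeFn_smul, Pi.smul_apply, smul_eq_mul] at h2
  simp only [lp.coeFn_add, Pi.add_apply, D_apply, map_smul, lp.coeFn_smul, Pi.smul_apply,
    smul_eq_mul] at h1
  have h3 : W m n (W m n x) k = Wf m n (Wf m n x) k := by
    rw [W_apply]
    congr 1
    funext j
    exact W_apply m n x j
  rw [h3] at h1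
  have hd : ((dd k : ℝ) : ℂ) ≠ 0 := by exact_mod_cast (dd_pos k).ne'
  have hr' : (r : ℂ) ≠ 0 := by exact_mod_cast hr.ne'
  have hsq : ((dd k : ℝ) : ℂ) ^ 2 * ((1 + 4 * π ^ 2 * (k : ℝ) ^ 2 : ℝ) : ℂ) = 1 := by
    exact_mod_cast dd_sq k
  have h4 : (Bi m n (D x) : HH) k = r * x k / dd k := by
    rw [eq_div_iff hd, ← h2]; ring
  rw [h4] at h1
  rw [Complex.ofReal_inv]
  set a := ((1 + 4 * π ^ 2 * (k : ℝ) ^ 2 : ℝ) : ℂ)
  have h5 : r * x k + (dd k : ℂ) ^ 2 * (r * Wf m n (Wf m n x) k) = (dd k : ℂ) ^ 2 * x k := by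
    field_simp at h1
    linear_combination h1
  have h6 : a * (r * x k) + r * Wf m n (Wf m n x) k = x k := by
    linear_combination a * h5 - (r * Wf m n (Wf m n x) k - x k) * hsq
  field_simp
  linear_combination h6

end Eig

namespace Eig

open Module.End in
theorem exists_basis_aux {H : Type} [NormedAddCommGroup H] [InnerProductSpace ℂ H]
    [CompleteSpace H] (T : H →L[ℂ] H) (hcpt : IsCompactOperator T)
    (hsym : T.IsSymmetric) (hinj : ∀ x, T x = 0 → x = 0)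
    (hev : ∀ (x : H) (μ : ℂ), x ≠ 0 → T x = μ • x → ∃ r : ℝ, 0 < r ∧ μ = r)
    (w : ℤ → H) (hw : LinearIndependent ℂ w) :
    ∃ (v : ℕ → H) (r : ℕ → ℝ), Orthonormal ℂ v ∧
    (Submodule.span ℂ (range v))ᗮ = ⊥ ∧ (∀ i, 0 < r i) ∧
    (∀ i, T (v i) = (r i : ℂ) • v i) ∧ ∀ δ : ℝ, 0 < δ → {i | δ ≤ r i}.Finite := by
  have hfd : ∀ μ : ℂ, FiniteDimensional ℂ (eigenspace (T : Module.End ℂ H) μ) := by
    intro μ
    by_cases hμ : μ = 0
    · have h0 : eigenspace (T : Module.End ℂ H) μ = ⊥ := by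
        rw [eq_bot_iff]
        intro x hx
        rw [mem_eigenspace_iff, hμ, zero_smul] at hx
        exact hinj x hx
      rw [h0]
      infer_instance
    · exact ContinuousLinearMap.finite_dimensional_eigenspace hcpt μ hμ
  have hof := hsym.orthogonalFamily_eigenspaces
  let ι := Σ μ : ℂ, Fin (Module.finrank ℂ (eigenspace (T : Module.End ℂ H) μ))
  let v : ι → H := fun a => (stdOrthonormalBasis ℂ (eigenspace (T : Module.End ℂ H) a.1) a.2 : H)
  have hv : Orthonormal ℂ v :=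
    hof.orthonormal_sigma_orthonormal fun μ => (stdOrthonormalBasis ℂ _).orthonormal
  have hvR : ∀ a : ι, T (v a) = a.1 • v a := fun a =>
    mem_eigenspace_iff.1 (stdOrthonormalBasis ℂ (eigenspace (T : Module.End ℂ H) a.1) a.2).2
  have hsp : (Submodule.span ℂ (range v))ᗮ = ⊥ := by
    rw [eq_bot_iff, ← ContinuousLinearMap.orthogonalComplement_iSup_eigenspaces_eq_bot hcpt hsym]
    refine Submodule.orthogonal_le (iSup_le fun μ => ?_)
    intro x hx
    have h1 := (stdOrthonormalBasis ℂ (eigenspace (T : Module.End ℂ H) μ)).sum_repr ⟨x, hx⟩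
    have h2 : x = ∑ i, (stdOrthonormalBasis ℂ (eigenspace (T : Module.End ℂ H) μ)).repr ⟨x, hx⟩ i •
        v ⟨μ, i⟩ := by
      have := congrArg (fun z : eigenspace (T : Module.End ℂ H) μ => (z : H)) h1
      simp only [Submodule.coe_sum, Submodule.coe_smul] at this
      exact this.symm
    rw [h2]
    exact Submodule.sum_mem _ fun i _ => Submodule.smul_mem _ _ (Submodule.subset_span ⟨_, rfl⟩)
  have hpos : ∀ a : ι, ∃ r : ℝ, 0 < r ∧ a.1 = r := fun a =>
    hev (v a) a.1 (hv.ne_zero a) (hvR a)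
  choose r hr0 hr using hpos
  have hfin : ∀ δ : ℝ, 0 < δ → {a : ι | δ ≤ r a}.Finite := by
    intro δ hδ
    by_contra hinf
    have hinf' : {a : ι | δ ≤ r a}.Infinite := hinf
    let e := hinf'.natEmbedding
    obtain ⟨K, hK, hK'⟩ := hcpt.image_closedBall_subset_compact 1
    obtain ⟨y, -, ψ, hψ, hy⟩ := hK.tendsto_subseq (x := fun k => T (v (e k).1))
      (fun k => hK' ⟨v (e k).1, by simp [hv.1], rfl⟩)
    have hc := hy.cauchySeq
    rw [Metric.cauchySeq_iff'] at hc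
    obtain ⟨N, hN⟩ := hc δ hδ
    have h1 := hN (N + 1) (by omega)
    have hne : (e (ψ (N + 1))).1 ≠ (e (ψ N)).1 := by
      intro h
      have h3 : ψ N < ψ (N + 1) := hψ (Nat.lt_succ_self N)
      have h2 := e.injective (Subtype.ext h)
      omega
    set a := (e (ψ (N + 1))).1
    set b := (e (ψ N)).1
    have ha : δ ≤ r a := (e (ψ (N + 1))).2
    have hb : δ ≤ r b := (e (ψ N)).2
    simp only [Function.comp_apply, dist_eq_norm] at h1
    change ‖T (v a) - T (v b)‖ < δ at h1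
    rw [hvR, hvR, hr a, hr b] at h1
    have h3 : ‖(r a : ℂ) • v a - (r b : ℂ) • v b‖ * ‖(r a : ℂ) • v a - (r b : ℂ) • v b‖ =
        ‖(r a : ℂ) • v a‖ * ‖(r a : ℂ) • v a‖ + ‖(r b : ℂ) • v b‖ * ‖(r b : ℂ) • v b‖ := by
      rw [sub_eq_add_neg, norm_add_sq_eq_norm_sq_add_norm_sq_of_inner_eq_zero (𝕜 := ℂ), norm_neg]
      rw [inner_neg_right, inner_smul_left, inner_smul_right, hv.2 hne, mul_zero, mul_zero, neg_zero]
    rw [norm_smul, norm_smul, hv.1, hv.1, Complex.norm_real, Complex.norm_real,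
      Real.norm_of_nonneg (hr0 a).le, Real.norm_of_nonneg (hr0 b).le] at h3
    nlinarith [norm_nonneg ((r a : ℂ) • v a - (r b : ℂ) • v b), hr0 a, hr0 b]
  have hcount : Countable ι := by
    rw [← Set.countable_univ_iff]
    have h1 : (univ : Set ι) = ⋃ k : ℕ, {a : ι | 1 / (k + 1 : ℝ) ≤ r a} := by
      refine (Set.eq_univ_of_forall fun a => ?_).symm
      obtain ⟨k, hk⟩ := exists_nat_one_div_lt (hr0 a)
      exact mem_iUnion.2 ⟨k, hk.le⟩
    rw [h1]
    exact countable_iUnion fun k => (hfin _ (by positivity)).countable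
  have hinf : Infinite ι := by
    by_contra hni
    rw [not_infinite_iff_finite] at hni
    have hf : FiniteDimensional ℂ (Submodule.span ℂ (range v)) :=
      FiniteDimensional.span_of_finite ℂ (Set.finite_range v)
    have htop := (Submodule.orthogonal_eq_bot_iff (K := Submodule.span ℂ (range v))).1 hsp
    rw [htop] at hf
    have hf' : FiniteDimensional ℂ H :=
      LinearEquiv.finiteDimensional (Submodule.topEquiv : (⊤ : Submodule ℂ H) ≃ₗ[ℂ] H)
    exact @_root_.not_finite ℤ _ hw.finite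
  obtain ⟨e⟩ : Nonempty (ℕ ≃ ι) := nonempty_equiv_of_countable
  refine ⟨v ∘ e, r ∘ e, hv.comp e e.injective, ?_, fun i => hr0 _, fun i => ?_, fun δ hδ => ?_⟩
  · rw [e.surjective.range_comp]
    exact hsp
  · simp only [Function.comp_apply]
    rw [hvR, hr]
  · exact Set.Finite.preimage (f := e) e.injective.injOn (hfin δ hδ)

theorem exists_basis (m n : ℕ) : ∃ (v : ℕ → HH) (r : ℕ → ℝ), Orthonormal ℂ v ∧
    (Submodule.span ℂ (range v))ᗮ = ⊥ ∧ (∀ i, 0 < r i) ∧
    (∀ i, R m n (v i) = (r i : ℂ) • v i) ∧ ∀ δ : ℝ, 0 < δ → {i | δ ≤ r i}.Finite :=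
  exists_basis_aux (R m n) (R_compact m n) (fun x y => R_symm m n x y) (R_inj m n) (R_eig m n)
    (HilbertBasis.ofRepr (LinearIsometryEquiv.refl ℂ HH))
    (HilbertBasis.orthonormal _).linearIndependent

end Eig

namespace Eig

/-- decay of order `j` -/
def P (j : ℕ) (c : ℤ → ℂ) : Prop := ∃ C : ℝ, ∀ k : ℤ, ‖c k‖ * (1 + (k : ℝ) ^ 2) ^ j ≤ C

theorem P.add {j : ℕ} {a b : ℤ → ℂ} (ha : P j a) (hb : P j b) : P j fun k => a k + b k := by
  obtain ⟨A, hA⟩ := ha
  obtain ⟨B, hB⟩ := hb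
  refine ⟨A + B, fun k => ?_⟩
  calc ‖a k + b k‖ * (1 + (k : ℝ) ^ 2) ^ j ≤ (‖a k‖ + ‖b k‖) * (1 + (k : ℝ) ^ 2) ^ j := by
        gcongr
        exact norm_add_le _ _
    _ = ‖a k‖ * (1 + (k : ℝ) ^ 2) ^ j + ‖b k‖ * (1 + (k : ℝ) ^ 2) ^ j := by ring
    _ ≤ _ := add_le_add (hA k) (hB k)

theorem P.cmul {j : ℕ} {a : ℤ → ℂ} (z : ℂ) (ha : P j a) : P j fun k => z * a k := by
  obtain ⟨A, hA⟩ := ha
  refine ⟨‖z‖ * A, fun k => ?_⟩
  rw [norm_mul, mul_assoc]
  gcongr
  exact hA k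

theorem P.shift {j : ℕ} {a : ℤ → ℂ} (s : ℤ) (hs : s ^ 2 ≤ 1) (ha : P j a) :
    P j fun k => a (k + s) := by
  obtain ⟨A, hA⟩ := ha
  refine ⟨3 ^ j * A, fun k => ?_⟩
  have h1 : (1 + (k : ℝ) ^ 2) ≤ 3 * (1 + ((k + s : ℤ) : ℝ) ^ 2) := by
    push_cast
    have hs' : (s : ℝ) ^ 2 ≤ 1 := by exact_mod_cast hs
    nlinarith [sq_nonneg ((k : ℝ) + 2 * s), sq_nonneg ((k : ℝ) + s), sq_nonneg (k : ℝ)]
  calc ‖a (k + s)‖ * (1 + (k : ℝ) ^ 2) ^ j ≤ ‖a (k + s)‖ * (3 * (1 + ((k + s : ℤ) : ℝ) ^ 2)) ^ j := by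
        gcongr
    _ = 3 ^ j * (‖a (k + s)‖ * (1 + ((k + s : ℤ) : ℝ) ^ 2) ^ j) := by rw [mul_pow]; ring
    _ ≤ _ := by
        gcongr
        exact hA _

theorem P.Wf {j : ℕ} {a : ℤ → ℂ} (m n : ℕ) (ha : P j a) : P j (Wf m n a) :=
  (ha.cmul _).add (((ha.shift 1 (by norm_num)).add (ha.shift (-1) (by norm_num))).cmul _)

theorem P.mulk {j : ℕ} {a : ℤ → ℂ} (ha : P (j + 1) a) :
    P j fun k => 2 * π * Complex.I * k * a k := by
  obtain ⟨A, hA⟩ := ha
  refine ⟨2 * π * A, fun k => ?_⟩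
  have h1 : |(k : ℝ)| ≤ 1 + (k : ℝ) ^ 2 := by
    rw [abs_le]
    constructor <;> nlinarith [sq_nonneg ((k : ℝ) - 1), sq_nonneg ((k : ℝ) + 1)]
  have h2 : ‖(2 * π * Complex.I * k * a k : ℂ)‖ = 2 * π * |(k : ℝ)| * ‖a k‖ := by
    rw [norm_mul, norm_mul, norm_mul, norm_mul, Complex.norm_I, Complex.norm_real,
      Real.norm_of_nonneg Real.pi_pos.le, Complex.norm_intCast]
    simp
  rw [h2]
  calc 2 * π * |(k : ℝ)| * ‖a k‖ * (1 + (k : ℝ) ^ 2) ^ j ≤
        2 * π * (1 + (k : ℝ) ^ 2) * ‖a k‖ * (1 + (k : ℝ) ^ 2) ^ j := by gcongr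
    _ = 2 * π * (‖a k‖ * (1 + (k : ℝ) ^ 2) ^ (j + 1)) := by ring
    _ ≤ _ := by
        gcongr
        exact hA k

theorem P.summable {a : ℤ → ℂ} (ha : P 1 a) : Summable fun k => ‖a k‖ := by
  obtain ⟨A, hA⟩ := ha
  have h1 : Summable fun k : ℤ => 1 / (k : ℝ) ^ 2 := Real.summable_one_div_int_pow.2 (by norm_num)
  have h2 : Summable fun k : ℤ => if k = 0 then (1 : ℝ) else 0 :=
    summable_of_ne_finset_zero (s := {0}) fun k hk => by
      rw [Finset.mem_singleton] at hk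
      simp [hk]
  have h3 := (h1.add h2).mul_left |A|
  refine h3.of_nonneg_of_le (fun k => norm_nonneg _) fun k => ?_
  have h4 : ‖a k‖ * (1 + (k : ℝ) ^ 2) ≤ |A| := by simpa using (hA k).trans (le_abs_self A)
  by_cases hk : k = 0
  · subst hk
    simpa using h4
  · have hk' : (0 : ℝ) < (k : ℝ) ^ 2 := by positivity
    rw [if_neg hk, add_zero, mul_one_div, le_div_iff₀ hk']
    nlinarith [norm_nonneg (a k)]

theorem decay (m n : ℕ) (x : HH) (r : ℝ)
    (h : ∀ k : ℤ, (1 + 4 * π ^ 2 * (k : ℝ) ^ 2 : ℝ) * x k = (r⁻¹ : ℝ) * x k - Wf m n (Wf m n x) k) :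
    ∀ j, P j x := by
  intro j
  induction j with
  | zero =>
    exact ⟨‖x‖, fun k => by
      rw [pow_zero, mul_one]
      exact lp.norm_apply_le_norm (by norm_num) x k⟩
  | succ j ih =>
    obtain ⟨C, hC⟩ := (ih.cmul ((r⁻¹ : ℝ) : ℂ)).add (((ih.Wf m n).Wf m n).cmul (-1))
    refine ⟨C, fun k => ?_⟩
    have h1 : (((r⁻¹ : ℝ) : ℂ) * x k + -1 * Wf m n (Wf m n x) k) =
        (1 + 4 * π ^ 2 * (k : ℝ) ^ 2 : ℝ) * x k := by rw [h k]; ring
    have h5 : ‖((r⁻¹ : ℝ) : ℂ) * x k + -1 * Wf m n (Wf m n x) k‖ * (1 + (k : ℝ) ^ 2) ^ j ≤ C := hC k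
    rw [h1, norm_mul, Complex.norm_real, Real.norm_of_nonneg (by positivity)] at h5
    refine le_trans ?_ h5
    rw [pow_succ]
    have h2 : (1 + (k : ℝ) ^ 2) ≤ 1 + 4 * π ^ 2 * (k : ℝ) ^ 2 := by
      have h3 : (1 : ℝ) ≤ 4 * π ^ 2 := by nlinarith [Real.pi_gt_three]
      nlinarith [sq_nonneg (k : ℝ)]
    calc ‖x k‖ * ((1 + (k : ℝ) ^ 2) ^ j * (1 + (k : ℝ) ^ 2)) ≤
          ‖x k‖ * ((1 + (k : ℝ) ^ 2) ^ j * (1 + 4 * π ^ 2 * (k : ℝ) ^ 2)) := by gcongr
      _ = _ := by ring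

/-- the function with given Fourier coefficients -/
noncomputable def U (c : ℤ → ℂ) : C(UnitAddCircle, ℂ) := ∑' k, c k • fourier k

theorem hasSum_U {c : ℤ → ℂ} (hc : P 1 c) : HasSum (fun k => c k • fourier (T := (1 : ℝ)) k) (U c) := by
  refine Summable.hasSum (Summable.of_norm ?_)
  simpa [norm_smul, fourier_norm] using hc.summable

theorem hasSum_U_apply {c : ℤ → ℂ} (hc : P 1 c) (x : UnitAddCircle) :
    HasSum (fun k => c k * fourier k x) (U c x) := by
  have h := ContinuousMap.hasSum_apply (hasSum_U hc) x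
  simpa using h

theorem deriv_U {c : ℤ → ℂ} (hc : ∀ j, P j c) (x : ℝ) :
    HasDerivAt (fun t : ℝ => U c t) (U (fun k => 2 * π * Complex.I * k * c k) x) x := by
  have hc' : ∀ j, P j fun k => 2 * π * Complex.I * k * c k := fun j => (hc (j + 1)).mulk
  have h1 : (fun t : ℝ => U c t) = fun t : ℝ => ∑' k : ℤ, c k * fourier k (t : UnitAddCircle) := by
    funext t
    exact (hasSum_U_apply (hc 1) _).tsum_eq.symm
  rw [h1, ← (hasSum_U_apply (hc' 1) _).tsum_eq]
  refine hasDerivAt_tsum (y₀ := 0) (hc' 1).summable (g := fun k (t : ℝ) => c k * fourier k (t : UnitAddCircle))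
    (g' := fun k (t : ℝ) => 2 * π * Complex.I * k * c k * fourier k (t : UnitAddCircle)) ?_ ?_ ?_ x
  · intro k y
    have h2 := (hasDerivAt_fourier (1 : ℝ) k y).const_mul (c k)
    refine h2.congr_deriv ?_
    simp
    ring
  · intro k y
    rw [norm_mul]
    have h3 : ‖fourier k (y : UnitAddCircle)‖ ≤ 1 :=
      (ContinuousMap.norm_coe_le_norm (fourier (T := (1 : ℝ)) k) (y : UnitAddCircle)).trans_eq
        (fourier_norm k)
    calc _ ≤ ‖2 * π * Complex.I * k * c k‖ * 1 := by gcongr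
      _ = _ := mul_one _
  · exact (hasSum_U_apply (hc 1) _).summable

theorem smooth_aux (n : ℕ) : ∀ c : ℤ → ℂ, (∀ j, P j c) →
    ContDiff ℝ n fun t : ℝ => U c t := by
  induction n with
  | zero =>
    intro c hc
    rw [Nat.cast_zero, contDiff_zero]
    exact (U c).continuous.comp (AddCircle.continuous_mk' 1)
  | succ n ih =>
    intro c hc
    rw [Nat.cast_succ, contDiff_succ_iff_deriv]
    refine ⟨fun x => (deriv_U hc x).differentiableAt, by simp, ?_⟩
    have h1 : deriv (fun t : ℝ => U c t) = fun t : ℝ => U (fun k => 2 * π * Complex.I * k * c k) t :=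
      funext fun x => (deriv_U hc x).deriv
    rw [h1]
    exact ih _ fun j => (hc (j + 1)).mulk

theorem smooth_U {c : ℤ → ℂ} (hc : ∀ j, P j c) : ContDiff ℝ ∞ fun t : ℝ => U c t :=
  contDiff_infty.2 fun n => smooth_aux n c hc

theorem U_shift {c : ℤ → ℂ} (hc : P 1 c) (s : ℤ) (x : UnitAddCircle) :
    HasSum (fun k => c (k + s) * fourier k x) (fourier (-s) x * U c x) := by
  have h1 := (hasSum_U_apply hc x).mul_left (fourier (-s) x)
  have h2 := (Equiv.addRight s).hasSum_iff.2 h1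
  have h3 : (fun k => c (k + s) * fourier k x) =
      (fun k => fourier (-s) x * (c k * fourier k x)) ∘ (Equiv.addRight s) := by
    funext k
    have h4 : fourier (-s) x * fourier (k + s) x = (fourier k x : ℂ) := by
      rw [← fourier_add]
      congr 1
      ring_nf
    simp only [Function.comp_apply, Equiv.coe_addRight]
    rw [← h4]
    ring
  rw [h3]
  exact h2

theorem cos_eq (x : ℝ) : (fourier (-1) (x : UnitAddCircle) : ℂ) + fourier 1 (x : UnitAddCircle) =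
    2 * (Real.cos (2 * π * x) : ℂ) := by
  rw [fourier_coe_apply, fourier_coe_apply, Complex.ofReal_cos, Complex.cos]
  push_cast
  rw [mul_div_cancel₀ _ (two_ne_zero' ℂ), add_comm]
  congr 2 <;> (simp; ring)

theorem U_Wf {c : ℤ → ℂ} (hc : P 1 c) (m n : ℕ) (x : ℝ) :
    U (Wf m n c) (x : UnitAddCircle) =
      ((2 * π * ((m : ℝ) + n * Real.cos (2 * π * x)) : ℝ) : ℂ) * U c (x : UnitAddCircle) := by
  have h1 := ((hasSum_U_apply hc (x : UnitAddCircle)).mul_left (2 * π * m : ℂ)).add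
    (((U_shift hc 1 (x : UnitAddCircle)).add (U_shift hc (-1) (x : UnitAddCircle))).mul_left
      (π * n : ℂ))
  have h2 := hasSum_U_apply (hc.Wf m n) (x : UnitAddCircle)
  have h3 : (fun k => Wf m n c k * fourier k (x : UnitAddCircle)) = fun k =>
      2 * π * m * (c k * fourier k (x : UnitAddCircle)) +
        π * n * (c (k + 1) * fourier k (x : UnitAddCircle) +
          c (k + -1) * fourier k (x : UnitAddCircle)) := by
    funext k
    rw [Wf]
    ring
  rw [h3] at h2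
  rw [h2.unique h1]
  have h4 := cos_eq x
  push_cast at h4 ⊢
  linear_combination (π * n * U c (x : UnitAddCircle)) * h4

theorem eqn_U {c : ℤ → ℂ} (hc : ∀ j, P j c) (m n : ℕ) (r : ℝ)
    (h : ∀ k : ℤ, (1 + 4 * π ^ 2 * (k : ℝ) ^ 2 : ℝ) * c k = (r⁻¹ : ℝ) * c k - Wf m n (Wf m n c) k)
    (x : ℝ) : -deriv (deriv fun t : ℝ => U c t) x + (pot m n x : ℂ) * U c x =
      ((r⁻¹ - 1 : ℝ) : ℂ) * U c x := by
  have hc' : ∀ j, P j fun k => 2 * π * Complex.I * k * c k := fun j => (hc (j + 1)).mulk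
  have hc'' : ∀ j, P j fun k => 2 * π * Complex.I * k * (2 * π * Complex.I * k * c k) :=
    fun j => (hc' (j + 1)).mulk
  have h1 : deriv (fun t : ℝ => U c t) = fun t : ℝ => U (fun k => 2 * π * Complex.I * k * c k) t :=
    funext fun x => (deriv_U hc x).deriv
  rw [h1, (deriv_U hc' x).deriv]
  have h2 := hasSum_U_apply (hc'' 1) (x : UnitAddCircle)
  have h3 := hasSum_U_apply (((hc 1).Wf m n).Wf m n) (x : UnitAddCircle)
  have h4 := (hasSum_U_apply (hc 1) (x : UnitAddCircle)).mul_left ((r⁻¹ - 1 : ℝ) : ℂ)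
  have h5 : (fun k : ℤ => ((r⁻¹ - 1 : ℝ) : ℂ) * (c k * fourier k (x : UnitAddCircle))) = fun k : ℤ =>
      -(2 * π * Complex.I * k * (2 * π * Complex.I * k * c k) * fourier k (x : UnitAddCircle)) +
        Wf m n (Wf m n c) k * fourier k (x : UnitAddCircle) := by
    funext k
    have h6 := h k
    push_cast at h6 ⊢
    linear_combination (-fourier k (x : UnitAddCircle)) * h6 +
      4 * π ^ 2 * k ^ 2 * c k * fourier k (x : UnitAddCircle) * Complex.I_sq
  rw [h5] at h4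
  rw [h4.unique (h2.neg.add h3), U_Wf ((hc 1).Wf m n), U_Wf (hc 1)]
  congr 1
  rw [← mul_assoc, ← Complex.ofReal_mul, pot]
  congr 2
  push_cast
  ring

/-- relation with `L²` -/
theorem toLp_U (x : HH) (hx : P 1 x) : ContinuousMap.toLp 2 hm ℂ (U x) =
    (fourierBasis (T := (1 : ℝ))).repr.symm x := by
  have h1 := (ContinuousMap.toLp (E := ℂ) 2 hm ℂ).hasSum (hasSum_U hx)
  have h2 := (fourierBasis (T := (1 : ℝ))).hasSum_repr_symm x
  refine h1.unique ?_
  have h3 : (fun k => ContinuousMap.toLp (E := ℂ) 2 hm ℂ (x k • fourier (T := (1 : ℝ)) k)) =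
      fun k => x k • fourierBasis (T := (1 : ℝ)) k := by
    funext k
    rw [map_smul, coe_fourierBasis]
  rw [h3]
  exact h2

theorem toLp_fourier (k : ℤ) : ContinuousMap.toLp 2 hm ℂ (fourier (T := (1 : ℝ)) k) =
    (fourierBasis (T := (1 : ℝ))).repr.symm (lp.single 2 k 1) := by
  rw [HilbertBasis.repr_symm_single, coe_fourierBasis]

theorem norm_toLp_sq (f : C(UnitAddCircle, ℂ)) :
    ∫ t, ‖f t‖ ^ 2 ∂hm = ‖ContinuousMap.toLp 2 hm ℂ f‖ ^ 2 := by
  have h1 := ContinuousMap.inner_toLp (𝕜 := ℂ) hm f f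
  rw [inner_self_eq_norm_sq_to_K] at h1
  have h2 : ∀ x, f x * conj (f x) = ((‖f x‖ ^ 2 : ℝ) : ℂ) := fun x => by
    rw [Complex.mul_conj, Complex.normSq_eq_norm_sq]
  simp only [h2] at h1
  rw [integral_complex_ofReal] at h1
  refine Complex.ofReal_injective ?_
  rw [← h1, Complex.ofReal_pow]
  rfl

end Eig

open Eig in
theorem t_EIG : S_EIG := by
  intro m n
  obtain ⟨v, r, hv, hsp, hr0, hR, hfin⟩ := exists_basis m n
  have heq : ∀ i, ∀ k : ℤ, (1 + 4 * π ^ 2 * (k : ℝ) ^ 2 : ℝ) * v i k =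
      ((r i)⁻¹ : ℝ) * v i k - Wf m n (Wf m n (v i)) k := fun i =>
    R_eqn m n (v i) (r i) (hr0 i) (hR i)
  have hP : ∀ i j, P j (v i) := fun i => decay m n (v i) (r i) (heq i)
  refine ⟨fun i => U (v i), fun i => (r i)⁻¹ - 1, fun i => smooth_U (hP i),
    fun i x => ?_, fun i j => ?_, fun k ε hε => ?_, fun Λ => ?_⟩
  · exact eqn_U (hP i) m n (r i) (heq i) x
  · have h1 := ContinuousMap.inner_toLp (𝕜 := ℂ) hm (U (v i)) (U (v j))
    rw [toLp_U _ (hP i 1), toLp_U _ (hP j 1), LinearIsometryEquiv.inner_map_map,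
      orthonormal_iff_ite.1 hv i j] at h1
    rw [h1]
    refine integral_congr_ae (Eventually.of_forall fun t => ?_)
    exact mul_comm _ _
  · let b := HilbertBasis.mkOfOrthogonalEqBot hv hsp
    have hb : ⇑b = v := HilbertBasis.coe_mkOfOrthogonalEqBot hv hsp
    have h1 := b.hasSum_repr (lp.single 2 k 1)
    rw [hb] at h1
    have h1' : Tendsto (fun s : Finset ℕ => ∑ i ∈ s, b.repr (lp.single 2 k 1) i • v i) atTop
        (𝓝 (lp.single 2 k 1)) := by
      simpa only [HasSum, SummationFilter.unconditional_filter] using h1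
    obtain ⟨s, hs⟩ := (Metric.tendsto_atTop.1 h1') (√ε) (Real.sqrt_pos.2 hε)
    have h3 := hs s le_rfl
    refine ⟨s, fun i => b.repr (lp.single 2 k 1) i, ?_⟩
    have h4 := norm_toLp_sq (fourier (T := (1 : ℝ)) k -
      ∑ i ∈ s, b.repr (lp.single 2 k 1) i • U (v i))
    have h5 : ContinuousMap.toLp 2 hm ℂ (fourier (T := (1 : ℝ)) k -
        ∑ i ∈ s, b.repr (lp.single 2 k 1) i • U (v i)) = (fourierBasis (T := (1 : ℝ))).repr.symm
          (lp.single 2 k 1 - ∑ i ∈ s, b.repr (lp.single 2 k 1) i • v i) := by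
      rw [map_sub, map_sum, map_sub, map_sum, toLp_fourier]
      congr 1
      refine Finset.sum_congr rfl fun i _ => ?_
      rw [map_smul, map_smul, toLp_U _ (hP i 1)]
    rw [h5, LinearIsometryEquiv.norm_map, ← dist_eq_norm, dist_comm] at h4
    have h6 : dist (∑ i ∈ s, b.repr (lp.single 2 k 1) i • v i) (lp.single 2 k 1) ^ 2 ≤ ε := by
      rw [← Real.sq_sqrt hε.le]
      gcongr
    rw [← h4] at h6
    refine le_trans (le_of_eq ?_) h6
    refine integral_congr_ae (Eventually.of_forall fun t => ?_)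
    simp
  · refine (hfin (1 / (|Λ| + 1)) (by positivity)).subset fun i hi => ?_
    have h1 : (r i)⁻¹ ≤ |Λ| + 1 := by
      have h2 : (r i)⁻¹ - 1 ≤ Λ := hi
      have := le_abs_self Λ
      linarith
    change 1 / (|Λ| + 1) ≤ r i
    rw [one_div]
    exact inv_le_of_inv_le₀ (hr0 i) h1

end Pool.Agent.H223.SR
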