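import Pool.Agent.H223.SR.Stm

set_option autoImplicit false

open MeasureTheory Set Filter Topology
open scoped ContDiff Real ComplexConjugate

namespace Pool.Agent.H223.SR

/-- integral over the circle = integral over `[0,1]` -/
theorem energy_tr {F : Type*} [NormedAddCommGroup F] [NormedSpace ℝ F] (f : UnitAddCircle → F) :
    ∫ t, f t ∂hm = ∫ x in (0 : ℝ)..1, f (x : UnitAddCircle) := by
  have h := UnitAddCircle.intervalIntegral_preimage 0 f
  rw [zero_add] at h
  rw [h, AddCircle.volume_eq_smul_haarAddCircle, ENNReal.ofReal_one, one_smul]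

theorem energy_deriv_per (v : ℝ → ℂ) (hper : ∀ x, v (x + 1) = v x) (x : ℝ) :
    deriv v (x + 1) = deriv v x := by
  rw [← deriv_comp_add_const]
  congr 1
  funext y
  exact hper y

/-- the energy identity -/
theorem energy_id (v : ℝ → ℂ) (hv : ContDiff ℝ ∞ v) (hper : ∀ x, v (x + 1) = v x)
    (q : ℝ → ℝ) (hq : Continuous q) (w : ℝ → ℂ)
    (hw : ∀ x, -deriv (deriv v) x + (q x : ℂ) * v x = w x) :
    ((∫ x in (0 : ℝ)..1, ‖deriv v x‖ ^ 2 : ℝ) : ℂ) +
      ((∫ x in (0 : ℝ)..1, q x * ‖v x‖ ^ 2 : ℝ) : ℂ) =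
      ∫ x in (0 : ℝ)..1, conj (v x) * w x := by
  have hd : ContDiff ℝ ∞ (deriv v) := by
    have := (contDiff_infty_iff_deriv (𝕜 := ℝ) (f := v)).1 hv
    exact this.2
  have hdd : ContDiff ℝ ∞ (deriv (deriv v)) :=
    ((contDiff_infty_iff_deriv (𝕜 := ℝ) (f := deriv v)).1 hd).2
  have hcv : Continuous v := hv.continuous
  have hcd : Continuous (deriv v) := hd.continuous
  have hcdd : Continuous (deriv (deriv v)) := hdd.continuous
  have hHv : ∀ x, HasDerivAt v (deriv v x) x := fun x =>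
    (hv.differentiable (by simp) x).hasDerivAt
  have hHd : ∀ x, HasDerivAt (deriv v) (deriv (deriv v) x) x := fun x =>
    (hd.differentiable (by simp) x).hasDerivAt
  have hHc : ∀ x, HasDerivAt (fun x => conj (v x)) (conj (deriv v x)) x := fun x => by
    have := (hHv x).star
    simpa using this
  have hibp := intervalIntegral.integral_mul_deriv_eq_deriv_mul (a := (0 : ℝ)) (b := 1)
    (u := fun x => conj (v x)) (v := deriv v) (u' := fun x => conj (deriv v x))
    (v' := deriv (deriv v)) (fun x _ => hHc x) (fun x _ => hHd x)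
    ((by fun_prop : Continuous fun x => conj (deriv v x)).intervalIntegrable _ _)
    (hcdd.intervalIntegrable _ _)
  have hv1 : v 1 = v 0 := by
    have := hper 0
    rwa [zero_add] at this
  have hd1 : deriv v 1 = deriv v 0 := by
    have := energy_deriv_per v hper 0
    rwa [zero_add] at this
  rw [hv1, hd1, sub_self, zero_sub] at hibp
  rw [← intervalIntegral.integral_ofReal, ← intervalIntegral.integral_ofReal]
  have e1 : ∀ x : ℝ, ((‖deriv v x‖ ^ 2 : ℝ) : ℂ) = conj (deriv v x) * deriv v x := fun x => by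
    rw [Complex.conj_mul']
    push_cast
    rfl
  have e2 : ∀ x : ℝ, ((q x * ‖v x‖ ^ 2 : ℝ) : ℂ) = (q x : ℂ) * (conj (v x) * v x) := fun x => by
    rw [Complex.conj_mul']
    push_cast
    rfl
  have e3 : ∀ x : ℝ, conj (v x) * w x =
      -(conj (v x) * deriv (deriv v) x) + (q x : ℂ) * (conj (v x) * v x) := fun x => by
    rw [← hw x]
    ring
  simp_rw [e1, e2, e3]
  rw [intervalIntegral.integral_add, intervalIntegral.integral_neg, hibp, neg_neg]
  · exact (by fun_prop : Continuous fun x => -(conj (v x) * deriv (deriv v) x)).intervalIntegrable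
      _ _
  · exact (by fun_prop : Continuous fun x => (q x : ℂ) * (conj (v x) * v x)).intervalIntegrable
      _ _

/-- the Sobolev inequality on the circle -/
theorem energy_sob (v : ℝ → ℂ) (hv : ContDiff ℝ ∞ v) (hper : ∀ x, v (x + 1) = v x)
    (κ : ℝ) (hκ : 0 < κ) (x : ℝ) :
    ‖v x‖ ^ 2 ≤ (1 + κ) * (∫ t in (0 : ℝ)..1, ‖v t‖ ^ 2) +
      κ⁻¹ * ∫ t in (0 : ℝ)..1, ‖deriv v t‖ ^ 2 := by
  have hd : ContDiff ℝ ∞ (deriv v) :=
    ((contDiff_infty_iff_deriv (𝕜 := ℝ) (f := v)).1 hv).2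
  have hcv : Continuous v := hv.continuous
  have hcd : Continuous (deriv v) := hd.continuous
  have hHv : ∀ x, HasDerivAt v (deriv v x) x := fun x =>
    (hv.differentiable (by simp) x).hasDerivAt
  set h : ℝ → ℝ := fun t => κ * ‖v t‖ ^ 2 + κ⁻¹ * ‖deriv v t‖ ^ 2 with hdef
  have hch : Continuous h := by
    rw [hdef]
    fun_prop
  have hh0 : ∀ t, 0 ≤ h t := fun t => by
    rw [hdef]
    positivity
  have hHg : ∀ t, HasDerivAt (fun t => ‖v t‖ ^ 2) (2 * inner ℝ (v t) (deriv v t)) t := fun t =>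
    (hHv t).norm_sq
  have hcg' : Continuous fun t => 2 * inner ℝ (v t) (deriv v t) := by fun_prop
  have hle : ∀ t, 2 * inner ℝ (v t) (deriv v t) ≤ h t := by
    intro t
    have h1 : inner ℝ (v t) (deriv v t) ≤ ‖v t‖ * ‖deriv v t‖ := real_inner_le_norm _ _
    have h2 : 2 * (‖v t‖ * ‖deriv v t‖) ≤ κ * ‖v t‖ ^ 2 + κ⁻¹ * ‖deriv v t‖ ^ 2 := by
      have h3 : κ * ‖v t‖ ^ 2 + κ⁻¹ * ‖deriv v t‖ ^ 2 - 2 * (‖v t‖ * ‖deriv v t‖) =
          κ⁻¹ * (κ * ‖v t‖ - ‖deriv v t‖) ^ 2 := by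
        field_simp
        ring
      have h4 : 0 ≤ κ⁻¹ * (κ * ‖v t‖ - ‖deriv v t‖) ^ 2 := by positivity
      linarith
    simp only [hdef]
    linarith
  have hperh : Function.Periodic h 1 := fun t => by
    simp only [hdef]
    rw [hper, energy_deriv_per v hper]
  have hperg : Function.Periodic (fun t => ‖v t‖ ^ 2) 1 := fun t => by
    simp only
    rw [hper]
  have hH : ∫ t in (x - 1)..x, h t = ∫ t in (0 : ℝ)..1, h t := by
    have := hperh.intervalIntegral_add_eq (x - 1) 0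
    rwa [sub_add_cancel, zero_add] at this
  have hG : ∫ t in (x - 1)..x, ‖v t‖ ^ 2 = ∫ t in (0 : ℝ)..1, ‖v t‖ ^ 2 := by
    have := hperg.intervalIntegral_add_eq (x - 1) 0
    rwa [sub_add_cancel, zero_add] at this
  have hkey : ∀ y ∈ Icc (x - 1) x, ‖v x‖ ^ 2 - ∫ t in (0 : ℝ)..1, h t ≤ ‖v y‖ ^ 2 := by
    intro y hy
    have h1 : ∫ t in y..x, 2 * inner ℝ (v t) (deriv v t) = ‖v x‖ ^ 2 - ‖v y‖ ^ 2 :=
      intervalIntegral.integral_eq_sub_of_hasDerivAt (fun t _ => hHg t)
        (hcg'.intervalIntegrable _ _)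
    have h2 : ∫ t in y..x, 2 * inner ℝ (v t) (deriv v t) ≤ ∫ t in y..x, h t :=
      intervalIntegral.integral_mono_on hy.2 (hcg'.intervalIntegrable _ _)
        (hch.intervalIntegrable _ _) (fun t _ => hle t)
    have h3 : ∫ t in y..x, h t ≤ ∫ t in (x - 1)..x, h t :=
      intervalIntegral.integral_mono_interval hy.1 hy.2 le_rfl
        (Filter.Eventually.of_forall fun t => hh0 t) (hch.intervalIntegrable _ _)
    rw [hH] at h3
    linarith
  have havg : ∫ _y in (x - 1)..x, (‖v x‖ ^ 2 - ∫ t in (0 : ℝ)..1, h t) ≤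
      ∫ y in (x - 1)..x, ‖v y‖ ^ 2 :=
    intervalIntegral.integral_mono_on (by linarith) intervalIntegrable_const
      ((by fun_prop : Continuous fun y => ‖v y‖ ^ 2).intervalIntegrable _ _) hkey
  rw [intervalIntegral.integral_const, hG] at havg
  have hhint : ∫ t in (0 : ℝ)..1, h t = κ * (∫ t in (0 : ℝ)..1, ‖v t‖ ^ 2) +
      κ⁻¹ * ∫ t in (0 : ℝ)..1, ‖deriv v t‖ ^ 2 := by
    simp only [hdef]
    rw [intervalIntegral.integral_add, intervalIntegral.integral_const_mul,
      intervalIntegral.integral_const_mul]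
    · exact (by fun_prop : Continuous fun t => κ * ‖v t‖ ^ 2).intervalIntegrable _ _
    · exact (by fun_prop : Continuous fun t => κ⁻¹ * ‖deriv v t‖ ^ 2).intervalIntegrable _ _
  rw [hhint] at havg
  simp only [sub_sub_cancel, one_smul] at havg
  linarith

/-- the integral of the product of two finite sums -/
theorem energy_bil {m n : ℤ} {u : ℕ → C(UnitAddCircle, ℂ)} {E : ℕ → ℝ} (h : OneD m n u E)
    (s : Finset ℕ) (a b : ℕ → ℂ) :
    ∫ x in (0 : ℝ)..1, conj (∑ i ∈ s, a i * u i x) * (∑ j ∈ s, b j * u j x) =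
      ∑ i ∈ s, conj (a i) * b i := by
  have e1 : ∀ x : ℝ, conj (∑ i ∈ s, a i * u i x) * (∑ j ∈ s, b j * u j x) =
      ∑ i ∈ s, ∑ j ∈ s, (conj (a i) * b j) * (conj (u i x) * u j x) := by
    intro x
    rw [map_sum, Finset.sum_mul_sum]
    refine Finset.sum_congr rfl fun i _ => Finset.sum_congr rfl fun j _ => ?_
    rw [map_mul]
    ring
  simp_rw [e1]
  rw [intervalIntegral.integral_finsetSum]
  · refine Finset.sum_congr rfl fun i hi => ?_
    rw [intervalIntegral.integral_finsetSum]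
    · rw [Finset.sum_eq_single i]
      · rw [intervalIntegral.integral_const_mul]
        have h1 := h.orth i i
        rw [energy_tr, if_pos rfl] at h1
        rw [h1, mul_one]
      · intro j _ hj
        rw [intervalIntegral.integral_const_mul]
        have h1 := h.orth i j
        rw [energy_tr, if_neg (Ne.symm hj)] at h1
        rw [h1, mul_zero]
      · intro hi'
        exact absurd hi hi'
    · intro j _
      exact (by fun_prop : Continuous fun x : ℝ => (conj (a i) * b j) *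
        (conj (u i x) * u j x)).intervalIntegrable _ _
  · intro i _
    exact (by fun_prop : Continuous fun x : ℝ => ∑ j ∈ s, (conj (a i) * b j) *
        (conj (u i x) * u j x)).intervalIntegrable _ _

theorem energy_pot_cont (m n : ℤ) : Continuous (pot m n) := by
  unfold pot
  fun_prop

theorem energy_pot_nonneg (m n : ℤ) (x : ℝ) : 0 ≤ pot m n x := by
  unfold pot
  positivity

theorem energy_coe_add (x : ℝ) : ((x + 1 : ℝ) : UnitAddCircle) = (x : UnitAddCircle) := by
  rw [AddCircle.coe_add, AddCircle.coe_period, add_zero]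

/-- energy of finite sums -/
theorem energy_sum {m n : ℤ} {u : ℕ → C(UnitAddCircle, ℂ)} {E : ℕ → ℝ} (h : OneD m n u E)
    (s : Finset ℕ) (c : ℕ → ℂ) :
    ContDiff ℝ ∞ (fun t : ℝ => ∑ i ∈ s, c i * u i t) ∧
    (∫ t in (0 : ℝ)..1, ‖∑ i ∈ s, c i * u i t‖ ^ 2) = ∑ i ∈ s, ‖c i‖ ^ 2 ∧
    (∫ t in (0 : ℝ)..1, ‖deriv (fun t : ℝ => ∑ i ∈ s, c i * u i t) t‖ ^ 2) +
      (∫ t in (0 : ℝ)..1, pot m n t * ‖∑ i ∈ s, c i * u i t‖ ^ 2) =
        ∑ i ∈ s, E i * ‖c i‖ ^ 2 := by
  have hsm : ∀ i, ContDiff ℝ ∞ fun x : ℝ => u i x := h.smooth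
  have hsm' : ∀ i, ContDiff ℝ ∞ (deriv fun x : ℝ => u i x) := fun i =>
    ((contDiff_infty_iff_deriv (𝕜 := ℝ) (f := fun x : ℝ => u i x)).1 (hsm i)).2
  have hC : ContDiff ℝ ∞ (fun t : ℝ => ∑ i ∈ s, c i * u i t) :=
    ContDiff.sum fun i _ => contDiff_const.mul (hsm i)
  refine ⟨hC, ?_, ?_⟩
  · have h1 := energy_bil h s c c
    have h2 : ∀ x : ℝ, conj (∑ i ∈ s, c i * u i x) * (∑ j ∈ s, c j * u j x) =
        ((‖∑ i ∈ s, c i * u i x‖ ^ 2 : ℝ) : ℂ) := fun x => by
      rw [Complex.conj_mul']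
      push_cast
      rfl
    simp_rw [h2] at h1
    rw [intervalIntegral.integral_ofReal] at h1
    have h3 : ∑ i ∈ s, conj (c i) * c i = ((∑ i ∈ s, ‖c i‖ ^ 2 : ℝ) : ℂ) := by
      push_cast
      exact Finset.sum_congr rfl fun i _ => Complex.conj_mul' _
    rw [h3] at h1
    exact_mod_cast h1
  · have hd1 : deriv (fun t : ℝ => ∑ i ∈ s, c i * u i t) =
        fun t : ℝ => ∑ i ∈ s, c i * deriv (fun t : ℝ => u i t) t := by
      funext t
      rw [deriv_fun_sum fun i _ => ((hsm i).differentiable (by simp) t).const_mul _]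
      exact Finset.sum_congr rfl fun i _ =>
        deriv_const_mul _ ((hsm i).differentiable (by simp) t)
    have hd2 : deriv (deriv (fun t : ℝ => ∑ i ∈ s, c i * u i t)) =
        fun t : ℝ => ∑ i ∈ s, c i * deriv (deriv (fun t : ℝ => u i t)) t := by
      rw [hd1]
      funext t
      rw [deriv_fun_sum fun i _ => ((hsm' i).differentiable (by simp) t).const_mul _]
      exact Finset.sum_congr rfl fun i _ =>
        deriv_const_mul _ ((hsm' i).differentiable (by simp) t)
    have hid := energy_id (fun t : ℝ => ∑ i ∈ s, c i * u i t) hC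
      (fun x => by simp only [energy_coe_add]) (pot m n) (energy_pot_cont m n)
      (fun t : ℝ => ∑ i ∈ s, ((E i : ℂ) * c i) * u i t) (fun x => by
        rw [hd2]
        simp only
        rw [← Finset.sum_neg_distrib, Finset.mul_sum, ← Finset.sum_add_distrib]
        refine Finset.sum_congr rfl fun i _ => ?_
        have := h.eqn i x
        linear_combination (c i) * this)
    rw [energy_bil h s c (fun i => (E i : ℂ) * c i)] at hid
    have h3 : ∑ i ∈ s, conj (c i) * ((E i : ℂ) * c i) =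
        ((∑ i ∈ s, E i * ‖c i‖ ^ 2 : ℝ) : ℂ) := by
      push_cast
      refine Finset.sum_congr rfl fun i _ => ?_
      rw [← Complex.conj_mul']
      ring
    rw [h3] at hid
    exact_mod_cast hid

theorem energy_main : S_ENERGY := by
  intro m n u E h i
  have h1 := (energy_sum h {i} (fun _ => 1)).2.2
  simp only [Finset.sum_singleton, one_mul, norm_one, one_pow, mul_one] at h1
  have h2 : 0 ≤ ∫ t in (0 : ℝ)..1, ‖deriv (fun t : ℝ => u i t) t‖ ^ 2 :=
    intervalIntegral.integral_nonneg zero_le_one fun t _ => by positivity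
  have h3 : 0 ≤ ∫ t in (0 : ℝ)..1, pot m n t * ‖u i t‖ ^ 2 :=
    intervalIntegral.integral_nonneg zero_le_one fun t _ =>
      mul_nonneg (energy_pot_nonneg m n t) (by positivity)
  exact ⟨by linarith, by linarith, by linarith⟩

theorem energy_sup : S_SUP := by
  intro m n u E h Λ hΛ s hs x
  set ρ : ℝ := ∑ i ∈ s, ‖u i x‖ ^ 2 with hρ
  have hρ0 : 0 ≤ ρ := Finset.sum_nonneg fun i _ => by positivity
  obtain ⟨hC, h1, h2⟩ := energy_sum h s (fun i => conj (u i x))
  have h3 : 0 ≤ ∫ t in (0 : ℝ)..1, pot m n t * ‖∑ i ∈ s, conj (u i x) * u i t‖ ^ 2 :=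
    intervalIntegral.integral_nonneg zero_le_one fun t _ =>
      mul_nonneg (energy_pot_nonneg m n t) (by positivity)
  have h4 : ∑ i ∈ s, ‖(conj (u i x) : ℂ)‖ ^ 2 = ρ := by
    rw [hρ]
    exact Finset.sum_congr rfl fun i _ => by rw [RCLike.norm_conj]
  have h5 : ∑ i ∈ s, E i * ‖(conj (u i x) : ℂ)‖ ^ 2 ≤ Λ * ρ := by
    rw [← h4, Finset.mul_sum]
    exact Finset.sum_le_sum fun i hi => mul_le_mul_of_nonneg_right (hs i hi) (by positivity)
  have h6 : (∫ t in (0 : ℝ)..1, ‖deriv (fun t : ℝ => ∑ i ∈ s, conj (u i x) * u i t) t‖ ^ 2)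
      ≤ Λ * ρ := by linarith
  have h7 : ‖∑ i ∈ s, conj (u i x) * u i x‖ = ρ := by
    have h8 : ∑ i ∈ s, conj (u i x) * u i x = ((ρ : ℝ) : ℂ) := by
      rw [hρ]
      push_cast
      exact Finset.sum_congr rfl fun i _ => Complex.conj_mul' _
    rw [h8, Complex.norm_real, Real.norm_of_nonneg hρ0]
  have hmain : ∀ κ : ℝ, 0 < κ → ρ ≤ 1 + κ + κ⁻¹ * Λ := by
    intro κ hκ
    have h9 := energy_sob (fun t : ℝ => ∑ i ∈ s, conj (u i x) * u i t) hC
      (fun x => by simp only [energy_coe_add]) κ hκ x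
    rw [h7, h1, h4] at h9
    have h10 : κ⁻¹ * (∫ t in (0 : ℝ)..1,
        ‖deriv (fun t : ℝ => ∑ i ∈ s, conj (u i x) * u i t) t‖ ^ 2) ≤ κ⁻¹ * (Λ * ρ) :=
      mul_le_mul_of_nonneg_left h6 (by positivity)
    have h11 : ρ ^ 2 ≤ (1 + κ + κ⁻¹ * Λ) * ρ := by nlinarith
    rcases hρ0.eq_or_lt with h0 | h0
    · rw [← h0]
      positivity
    · have h12 : ρ * ρ ≤ (1 + κ + κ⁻¹ * Λ) * ρ := by rw [← sq]; exact h11
      exact le_of_mul_le_mul_right h12 h0
  rcases hΛ.eq_or_lt with h0 | h0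
  · rw [← h0, Real.sqrt_zero, mul_zero, add_zero]
    refine le_of_forall_pos_le_add fun ε hε => ?_
    have := hmain ε hε
    rw [← h0, mul_zero, add_zero] at this
    exact this
  · have h13 := hmain (√Λ) (Real.sqrt_pos.2 h0)
    have h14 : (√Λ)⁻¹ * Λ = √Λ := by
      have h15 : Λ = √Λ * √Λ := (Real.mul_self_sqrt hΛ).symm
      conv_lhs => rw [h15]
      rw [Real.sqrt_mul_self (Real.sqrt_nonneg _), inv_mul_cancel_left₀]
      exact (Real.sqrt_pos.2 h0).ne'
    rw [h14] at h13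
    linarith

theorem t_ENERGY : S_ENERGY ∧ S_SUP := ⟨energy_main, energy_sup⟩

end Pool.Agent.H223.SR
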