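import Pool.Agent.H223.SR.Stm

set_option autoImplicit false

open MeasureTheory Set Filter Topology
open scoped ContDiff Real ComplexConjugate

namespace Pool.Agent.H223.SR

namespace EQL

/-- product functions -/
noncomputable def Pr (h : Fin 6 → ℝ → ℂ) (x : Fin 6 → ℝ) : ℂ := ∏ i, h i (x i)

lemma Pr_update (h : Fin 6 → ℝ → ℂ) (i : Fin 6) (g : ℝ → ℂ) (x : Fin 6 → ℝ) :
    Pr (Function.update h i g) x = g (x i) * ∏ j ∈ Finset.univ.erase i, h j (x j) := by
  unfold Pr
  rw [← Finset.mul_prod_erase Finset.univ _ (Finset.mem_univ i), Function.update_self]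
  congr 1
  refine Finset.prod_congr rfl fun j hj => ?_
  rw [Function.update_of_ne (Finset.ne_of_mem_erase hj)]

lemma Pr_update_mul (h : Fin 6 → ℝ → ℂ) (i : Fin 6) (c : ℝ → ℂ) (x : Fin 6 → ℝ) :
    Pr (Function.update h i fun t => c t * h i t) x = c (x i) * Pr h x := by
  rw [Pr_update, Pr, ← Finset.mul_prod_erase Finset.univ (fun j => h j (x j)) (Finset.mem_univ i)]
  ring

lemma along_Pr (h : Fin 6 → ℝ → ℂ) (hd : ∀ i, Differentiable ℝ (h i))
    (Z : (Fin 6 → ℝ) → (Fin 6 → ℝ)) (x : Fin 6 → ℝ) :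
    along Z (Pr h) x = ∑ i, (Z x i : ℂ) * Pr (Function.update h i (deriv (h i))) x := by
  have h1 : ∀ i ∈ (Finset.univ : Finset (Fin 6)), HasFDerivAt (fun y : Fin 6 → ℝ => h i (y i))
      ((ContinuousLinearMap.toSpanSingleton ℝ (deriv (h i) (x i))).comp
        (ContinuousLinearMap.proj (R := ℝ) (φ := fun _ : Fin 6 => ℝ) i)) x := by
    intro i _
    exact ((hd i (x i)).hasDerivAt.hasFDerivAt).comp x
      (ContinuousLinearMap.proj (R := ℝ) (φ := fun _ : Fin 6 => ℝ) i).hasFDerivAt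
  have h2 := HasFDerivAt.finsetProd h1
  have h3 : HasFDerivAt (Pr h) (∑ i, (∏ j ∈ Finset.univ.erase i, h j (x j)) •
      ((ContinuousLinearMap.toSpanSingleton ℝ (deriv (h i) (x i))).comp
        (ContinuousLinearMap.proj (R := ℝ) (φ := fun _ : Fin 6 => ℝ) i))) x := h2
  unfold along
  rw [h3.fderiv, sum_apply]
  refine Finset.sum_congr rfl fun i _ => ?_
  rw [Pr_update]
  simp
  ring

lemma diff_update {h : Fin 6 → ℝ → ℂ} (hd : ∀ i, Differentiable ℝ (h i)) (i : Fin 6) {g : ℝ → ℂ}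
    (hg : Differentiable ℝ g) (j : Fin 6) : Differentiable ℝ (Function.update h i g j) := by
  by_cases hj : j = i
  · subst hj
    rw [Function.update_self]
    exact hg
  · rw [Function.update_of_ne hj]
    exact hd j

/-- the multiplier -/
noncomputable def kap (m n : ℤ) (t : ℝ) : ℂ :=
  2 * π * Complex.I * (m + n * (Real.cos (2 * π * t) : ℂ))

lemma kap_diff (m n : ℤ) : Differentiable ℝ (kap m n) := by
  unfold kap
  intro t
  have h1 : DifferentiableAt ℝ (fun t : ℝ => Real.cos (2 * π * t)) t := by fun_prop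
  have h2 : DifferentiableAt ℝ (fun t : ℝ => ((Real.cos (2 * π * t) : ℝ) : ℂ)) t :=
    (Complex.ofRealCLM.differentiableAt).comp t h1
  fun_prop

lemma kap_sq (m n : ℤ) (t : ℝ) : kap m n t * kap m n t = -(pot m n t : ℂ) := by
  unfold kap pot
  push_cast
  linear_combination (4 * (π : ℂ) ^ 2 * (m + n * Complex.cos (2 * π * t)) ^ 2) * Complex.I_sq

lemma pr_deriv {h : Fin 6 → ℝ → ℂ} {i : Fin 6} {c : ℂ} (hc : ∀ t, deriv (h i) t = c * h i t)
    (x : Fin 6 → ℝ) : Pr (Function.update h i (deriv (h i))) x = c * Pr h x := by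
  have h1 : deriv (h i) = fun t => c * h i t := funext hc
  rw [h1]
  exact Pr_update_mul h i (fun _ => c) x

lemma along0 (h : Fin 6 → ℝ → ℂ) (hd : ∀ i, Differentiable ℝ (h i)) :
    along (MX 0) (Pr h) = Pr (Function.update h 0 (deriv (h 0))) := by
  funext x
  rw [along_Pr h hd]
  simp [Fin.sum_univ_six, MX]

lemma along2 (h : Fin 6 → ℝ → ℂ) (hd : ∀ i, Differentiable ℝ (h i)) :
    along (MX 2) (Pr h) = Pr (Function.update h 3 (deriv (h 3))) := by
  funext x
  rw [along_Pr h hd]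
  simp [Fin.sum_univ_six, MX]

lemma along1 (h : Fin 6 → ℝ → ℂ) (hd : ∀ i, Differentiable ℝ (h i)) {m n : ℤ}
    (h1 : ∀ t, deriv (h 1) t = (2 * π * Complex.I * m) * h 1 t)
    (h2 : ∀ t, deriv (h 2) t = (2 * π * Complex.I * n) * h 2 t) :
    along (MX 1) (Pr h) = Pr (Function.update h 0 fun t => kap m n t * h 0 t) := by
  funext x
  rw [along_Pr h hd, Pr_update_mul]
  have h3 := pr_deriv h1 x
  have h4 := pr_deriv h2 x
  simp only [Fin.sum_univ_six, MX, h3, h4, kap]
  simp
  ring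

lemma along3 (h : Fin 6 → ℝ → ℂ) (hd : ∀ i, Differentiable ℝ (h i)) {m n : ℤ}
    (h1 : ∀ t, deriv (h 4) t = (2 * π * Complex.I * m) * h 4 t)
    (h2 : ∀ t, deriv (h 5) t = (2 * π * Complex.I * n) * h 5 t) :
    along (MX 3) (Pr h) = Pr (Function.update h 3 fun t => kap m n t * h 3 t) := by
  funext x
  rw [along_Pr h hd, Pr_update_mul]
  have h3 := pr_deriv h1 x
  have h4 := pr_deriv h2 x
  simp only [Fin.sum_univ_six, MX, h3, h4, kap]
  simp
  ring

lemma mlap_Pr (h : Fin 6 → ℝ → ℂ) (hd : ∀ i, Differentiable ℝ (h i))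
    (hd0 : Differentiable ℝ (deriv (h 0))) (hd3 : Differentiable ℝ (deriv (h 3)))
    {m n m' n' : ℤ} {e e' : ℝ}
    (h1 : ∀ t, deriv (h 1) t = (2 * π * Complex.I * m) * h 1 t)
    (h2 : ∀ t, deriv (h 2) t = (2 * π * Complex.I * n) * h 2 t)
    (h4 : ∀ t, deriv (h 4) t = (2 * π * Complex.I * m') * h 4 t)
    (h5 : ∀ t, deriv (h 5) t = (2 * π * Complex.I * n') * h 5 t)
    (he : ∀ t, -deriv (deriv (h 0)) t + (pot m n t : ℂ) * h 0 t = e * h 0 t)
    (he' : ∀ t, -deriv (deriv (h 3)) t + (pot m' n' t : ℂ) * h 3 t = e' * h 3 t)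
    (x : Fin 6 → ℝ) : mlap (Pr h) x = ((e + e' : ℝ) : ℂ) * Pr h x := by
  have a0 : along (MX 0) (along (MX 0) (Pr h)) x =
      (pot m n (x 0) - e : ℂ) * Pr h x := by
    rw [along0 h hd, along0 _ (diff_update hd 0 hd0)]
    rw [Function.update_idem, Function.update_self]
    have h6 : deriv (deriv (h 0)) = fun t => (pot m n t - e : ℂ) * h 0 t := by
      funext t
      have := he t
      linear_combination -this
    rw [h6]
    exact Pr_update_mul h 0 (fun t => (pot m n t - e : ℂ)) x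
  have a2 : along (MX 2) (along (MX 2) (Pr h)) x =
      (pot m' n' (x 3) - e' : ℂ) * Pr h x := by
    rw [along2 h hd, along2 _ (diff_update hd 3 hd3)]
    rw [Function.update_idem, Function.update_self]
    have h6 : deriv (deriv (h 3)) = fun t => (pot m' n' t - e' : ℂ) * h 3 t := by
      funext t
      have := he' t
      linear_combination -this
    rw [h6]
    exact Pr_update_mul h 3 (fun t => (pot m' n' t - e' : ℂ)) x
  have k1 : Differentiable ℝ (fun t => kap m n t * h 0 t) := (kap_diff m n).mul (hd 0)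
  have k3 : Differentiable ℝ (fun t => kap m' n' t * h 3 t) := (kap_diff m' n').mul (hd 3)
  have a1 : along (MX 1) (along (MX 1) (Pr h)) x = -(pot m n (x 0) : ℂ) * Pr h x := by
    rw [along1 h hd h1 h2, along1 (m := m) (n := n) _
      (diff_update hd 0 k1)
      (by rw [Function.update_of_ne (by decide)]; exact h1)
      (by rw [Function.update_of_ne (by decide)]; exact h2)]
    rw [Pr_update_mul, Pr_update_mul, ← mul_assoc, kap_sq]
  have a3 : along (MX 3) (along (MX 3) (Pr h)) x = -(pot m' n' (x 3) : ℂ) * Pr h x := by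
    rw [along3 h hd h4 h5, along3 (m := m') (n := n') _
      (diff_update hd 3 k3)
      (by rw [Function.update_of_ne (by decide)]; exact h4)
      (by rw [Function.update_of_ne (by decide)]; exact h5)]
    rw [Pr_update_mul, Pr_update_mul, ← mul_assoc, kap_sq]
  unfold mlap
  rw [Fin.sum_univ_four, a0, a1, a2, a3]
  push_cast
  ring

lemma deriv_fourier (m : ℤ) (t : ℝ) :
    deriv (fun t : ℝ => (fourier m (t : UnitAddCircle) : ℂ)) t =
      (2 * π * Complex.I * m) * fourier m (t : UnitAddCircle) := by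
  have h := (hasDerivAt_fourier 1 m t).deriv
  simpa using h

lemma smooth_fourier (m : ℤ) :
    ContDiff ℝ ∞ (fun t : ℝ => (fourier m (t : UnitAddCircle) : ℂ)) := by
  have h1 : (fun t : ℝ => (fourier m (t : UnitAddCircle) : ℂ)) =
      fun t : ℝ => Complex.exp ((2 * π * Complex.I * m) * (Complex.ofRealCLM t)) := by
    funext t
    rw [fourier_coe_apply]
    congr 1
    simp
  rw [h1]
  exact (contDiff_const.mul (Complex.ofRealCLM.contDiff)).cexp

end EQL

open EQL in
theorem t_EQ : S_EQ := by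
  intro u E hu γ
  set h : Fin 6 → ℝ → ℂ := fun i t =>
    (![u γ.1.1 γ.1.2.1 γ.1.2.2, fourier γ.1.1, fourier γ.1.2.1,
      u γ.2.1 γ.2.2.1 γ.2.2.2, fourier γ.2.1, fourier γ.2.2.1] : Fin 6 → C(UnitAddCircle, ℂ)) i
        (t : UnitAddCircle) with hh
  have hpr : (fun y : Fin 6 → ℝ => psi u γ (proj y)) = Pr h := rfl
  have hs : ∀ i, ContDiff ℝ ∞ (h i) := by
    intro i
    fin_cases i
    · exact (hu _ _).smooth _
    · exact smooth_fourier _
    · exact smooth_fourier _
    · exact (hu _ _).smooth _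
    · exact smooth_fourier _
    · exact smooth_fourier _
  have hd : ∀ i, Differentiable ℝ (h i) := fun i => (hs i).differentiable (by simp)
  have hdd : ∀ i, Differentiable ℝ (deriv (h i)) := fun i =>
    ((contDiff_infty_iff_deriv.1 (hs i)).2).differentiable (by simp)
  constructor
  · unfold IsSmooth
    rw [hpr]
    unfold Pr
    exact contDiff_prod fun i _ => (hs i).comp (contDiff_apply ℝ ℝ i)
  · intro x
    rw [hpr, show psi u γ (proj x) = Pr h x from rfl]
    exact mlap_Pr h hd (hdd 0) (hdd 3) (m := γ.1.1) (n := γ.1.2.1) (m' := γ.2.1) (n' := γ.2.2.1)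
      (e := ev E γ.1) (e' := ev E γ.2) (deriv_fourier _) (deriv_fourier _) (deriv_fourier _)
      (deriv_fourier _) ((hu γ.1.1 γ.1.2.1).eqn γ.1.2.2) ((hu γ.2.1 γ.2.2.1).eqn γ.2.2.2) x

end Pool.Agent.H223.SR
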