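import Pool.Agent.H223.SR.Stm

set_option autoImplicit false

open MeasureTheory Set Filter Topology
open scoped ContDiff Real ComplexConjugate

namespace Pool.Agent.H223.SR

namespace Fam1

/-- the real shift: half a period if `m n < 0` -/
noncomputable def rs (m n : ℤ) : ℝ := if m * n < 0 then 1 / 2 else 0

/-- translation of a continuous function on the circle -/
noncomputable def tr (s : ℝ) (f : C(UnitAddCircle, ℂ)) : C(UnitAddCircle, ℂ) :=
  f.comp ⟨fun t => t + (s : UnitAddCircle), by fun_prop⟩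

lemma tr_coe (s : ℝ) (f : C(UnitAddCircle, ℂ)) (x : ℝ) :
    tr s f (x : UnitAddCircle) = f ((x + s : ℝ) : UnitAddCircle) := by
  simp only [tr, ContinuousMap.comp_apply, ContinuousMap.coe_mk, AddCircle.coe_add]

lemma tr_apply (s : ℝ) (f : C(UnitAddCircle, ℂ)) (t : UnitAddCircle) :
    tr s f t = f (t + (s : UnitAddCircle)) := rfl

lemma pot_shift (m n : ℤ) (x : ℝ) :
    pot (m.natAbs : ℤ) (n.natAbs : ℤ) (x + rs m n) = pot m n x := by
  unfold pot rs
  congr 1
  have hm : (((m.natAbs : ℕ) : ℤ) : ℝ) = |(m : ℝ)| := by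
    rw [Int.natCast_natAbs]; push_cast; rfl
  have hn : (((n.natAbs : ℕ) : ℤ) : ℝ) = |(n : ℝ)| := by
    rw [Int.natCast_natAbs]; push_cast; rfl
  rw [hm, hn]
  split_ifs with h
  · have e : Real.cos (2 * π * (x + 1 / 2)) = - Real.cos (2 * π * x) := by
      rw [show 2 * π * (x + 1 / 2) = 2 * π * x + π by ring, Real.cos_add_pi]
    rw [e]
    have h' : (m : ℝ) * n < 0 := by exact_mod_cast h
    rcases lt_trichotomy (m : ℝ) 0 with hm0 | hm0 | hm0
    · have hn0 : 0 < (n : ℝ) := by nlinarith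
      rw [abs_of_neg hm0, abs_of_pos hn0]; ring
    · rw [hm0] at h'; linarith
    · have hn0 : (n : ℝ) < 0 := by nlinarith
      rw [abs_of_pos hm0, abs_of_neg hn0]; ring
  · rw [add_zero]
    have h' : 0 ≤ (m : ℝ) * n := by exact_mod_cast not_lt.1 h
    rcases lt_trichotomy (m : ℝ) 0 with hm0 | hm0 | hm0
    · have hn0 : (n : ℝ) ≤ 0 := by nlinarith
      rw [abs_of_neg hm0, abs_of_nonpos hn0]; ring
    · rw [hm0]
      rcases le_total 0 (n : ℝ) with hn0 | hn0
      · rw [abs_of_nonneg hn0]; simp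
      · rw [abs_of_nonpos hn0]; simp
    · have hn0 : 0 ≤ (n : ℝ) := by nlinarith
      rw [abs_of_pos hm0, abs_of_nonneg hn0]

theorem main (u0 : ℕ → C(UnitAddCircle, ℂ)) (E0 : ℕ → ℝ) (m n : ℤ)
    (h : OneD (m.natAbs : ℤ) (n.natAbs : ℤ) u0 E0) :
    OneD m n (fun i => tr (rs m n) (u0 i)) E0 := by
  obtain ⟨h1, h2, h3, h4, h5⟩ := h
  refine ⟨fun i => ?_, fun i x => ?_, fun i j => ?_, fun k ε hε => ?_, h5⟩
  · have e : (fun x : ℝ => tr (rs m n) (u0 i) (x : UnitAddCircle)) =
        (fun x : ℝ => u0 i (x : UnitAddCircle)) ∘ fun x => x + rs m n := by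
      funext x
      rw [tr_coe]; rfl
    rw [e]
    exact (h1 i).comp (contDiff_id.add contDiff_const)
  · have e : (fun t : ℝ => tr (rs m n) (u0 i) (t : UnitAddCircle)) =
        fun t : ℝ => (fun y : ℝ => u0 i (y : UnitAddCircle)) (t + rs m n) := by
      funext t
      rw [tr_coe]
    have e1 : deriv (fun t : ℝ => tr (rs m n) (u0 i) (t : UnitAddCircle)) =
        fun t : ℝ => deriv (fun y : ℝ => u0 i (y : UnitAddCircle)) (t + rs m n) := by
      rw [e]
      funext t
      exact deriv_comp_add_const (fun y : ℝ => u0 i (y : UnitAddCircle)) (rs m n) t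
    rw [e1, deriv_comp_add_const (deriv fun y : ℝ => u0 i (y : UnitAddCircle)) (rs m n) x, tr_coe,
      ← pot_shift m n x]
    exact h2 i (x + rs m n)
  · have := h3 i j
    rw [← integral_add_right_eq_self (fun t => conj (u0 i t) * u0 j t)
      ((rs m n : ℝ) : UnitAddCircle)] at this
    exact this
  · obtain ⟨s, c, hs⟩ := h4 k ε hε
    have hz : ‖fourier k (-((rs m n : ℝ) : UnitAddCircle))‖ = 1 := by
      rw [fourier_apply]; exact Circle.norm_coe _
    refine ⟨s, fun i => fourier k (-((rs m n : ℝ) : UnitAddCircle)) * c i, ?_⟩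
    refine le_trans (le_of_eq ?_) hs
    rw [← integral_add_right_eq_self (fun t => ‖fourier k t - ∑ i ∈ s, c i * u0 i t‖ ^ 2)
      ((rs m n : ℝ) : UnitAddCircle)]
    congr 1
    funext t
    have e1 : fourier k t = fourier k (-((rs m n : ℝ) : UnitAddCircle)) *
        fourier k (t + ((rs m n : ℝ) : UnitAddCircle)) := by
      rw [fourier_apply, fourier_apply, fourier_apply, ← Circle.coe_mul, ← AddCircle.toCircle_add,
        ← smul_add]
      congr 3
      abel
    have e2 : ∑ i ∈ s, fourier k (-((rs m n : ℝ) : UnitAddCircle)) * c i * tr (rs m n) (u0 i) t =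
        fourier k (-((rs m n : ℝ) : UnitAddCircle)) *
          ∑ i ∈ s, c i * u0 i (t + ((rs m n : ℝ) : UnitAddCircle)) := by
      rw [Finset.mul_sum]
      refine Finset.sum_congr rfl fun i _ => ?_
      rw [tr_apply]; ring
    rw [e2, e1, ← mul_sub, norm_mul, hz, one_mul]

end Fam1

theorem t_FAM : S_EIG → S_FAM := by
  intro h
  choose u0 E0 h0 using h
  refine ⟨fun m n i => Fam1.tr (Fam1.rs m n) (u0 m.natAbs n.natAbs i),
    fun m n i => E0 m.natAbs n.natAbs i, fun m n => ?_, fun m n i => ?_⟩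
  · exact Fam1.main _ _ m n (h0 m.natAbs n.natAbs)
  · simp only [Int.natAbs_abs]

end Pool.Agent.H223.SR
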