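import Pool.Agent.H223.SR.Stm

set_option autoImplicit false

open MeasureTheory Set Filter Topology
open scoped ContDiff Real ComplexConjugate

namespace Pool.Agent.H223.SR

namespace Lab1

/-- integer sign -/
def sz (b : Bool) : ℤ := if b then 1 else -1

/-- give the pair the signs of `l` -/
def setS (l : Lab) (γ : I3 × I3) : I3 × I3 :=
  ((sz l.1 * |γ.1.1|, sz l.2.1 * |γ.1.2.1|, γ.1.2.2),
    (sz l.2.2.1 * |γ.2.1|, sz l.2.2.2.1 * |γ.2.2.1|, γ.2.2.2))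

lemma abs_sz (b : Bool) (a : ℤ) : |(sz b * |a|)| = |a| := by
  cases b <;> simp [sz]

lemma sz_ne (b : Bool) (a : ℤ) (h : a ≠ 0) : sz b * |a| ≠ 0 := by
  cases b <;> simp [sz, h]

lemma sz_pos (b : Bool) (a : ℤ) (h : a ≠ 0) : 0 < sz b * |a| ↔ b = true := by
  cases b
  · simp [sz]
  · simp [sz, h]

lemma sz_eq (b : Bool) (a : ℤ) (h : a ≠ 0) (hb : 0 < a ↔ b = true) : sz b * |a| = a := by
  cases b
  · have : a < 0 := by
      rcases lt_trichotomy a 0 with h1 | h1 | h1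
      · exact h1
      · exact absurd h1 h
      · exact absurd (hb.1 h1) (by simp)
    simp [sz, abs_of_neg this]
  · have : 0 < a := hb.2 rfl
    simp [sz, abs_of_pos this]

lemma setS_lab (l l' : Lab) (hw : l.2.2.2.2 = l'.2.2.2.2) (γ : I3 × I3) (h : HasLab γ l) :
    HasLab (setS l' γ) l' := by
  obtain ⟨h1, h2, h3, h4, h5, -, -, -, -, h10⟩ := h
  refine ⟨sz_ne _ _ h1, sz_ne _ _ h2, sz_ne _ _ h3, sz_ne _ _ h4, ?_, sz_pos _ _ h1,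
    sz_pos _ _ h2, sz_pos _ _ h3, sz_pos _ _ h4, ?_⟩
  · simp only [setS, abs_sz]; exact h5
  · simp only [setS, abs_sz]; rw [← hw]; exact h10

lemma setS_lev (E : ℤ → ℤ → ℕ → ℝ) (hs : ∀ m n i, E m n i = E |m| |n| i) (Λ : ℝ) (l : Lab)
    (γ : I3 × I3) (h : γ ∈ lev E Λ) : setS l γ ∈ lev E Λ := by
  have h' : ev E γ.1 + ev E γ.2 ≤ Λ := h
  show ev E (setS l γ).1 + ev E (setS l γ).2 ≤ Λ
  have e1 : ev E (setS l γ).1 = ev E γ.1 := by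
    unfold ev
    rw [hs (setS l γ).1.1, hs γ.1.1]
    simp only [setS, abs_sz]
  have e2 : ev E (setS l γ).2 = ev E γ.2 := by
    unfold ev
    rw [hs (setS l γ).2.1, hs γ.2.1]
    simp only [setS, abs_sz]
  rw [e1, e2]; exact h'

lemma setS_setS (l l' : Lab) (γ : I3 × I3) (h : HasLab γ l) : setS l (setS l' γ) = γ := by
  obtain ⟨h1, h2, h3, h4, -, h6, h7, h8, h9, -⟩ := h
  simp only [setS, abs_sz]
  rw [sz_eq _ _ h1 h6, sz_eq _ _ h2 h7, sz_eq _ _ h3 h8, sz_eq _ _ h4 h9]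

/-- the swapped label -/
def swL (l : Lab) : Lab := (l.2.2.1, l.2.2.2.1, l.1, l.2.1, !l.2.2.2.2)

lemma swap_lab (l : Lab) (γ : I3 × I3) (h : HasLab γ l) : HasLab γ.swap (swL l) := by
  obtain ⟨h1, h2, h3, h4, h5, h6, h7, h8, h9, h10⟩ := h
  refine ⟨h3, h4, h1, h2, h5.symm, h8, h9, h6, h7, ?_⟩
  show |γ.1.2.1| < |γ.2.2.1| ↔ (!l.2.2.2.2) = true
  rw [Bool.not_eq_true', ← Bool.not_eq_true, ← h10]
  constructor
  · intro h; exact h.le.not_gt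
  · intro h
    exact lt_of_le_of_ne (not_lt.1 h) h5

lemma swap_lev (E : ℤ → ℤ → ℕ → ℝ) (Λ : ℝ) (γ : I3 × I3) (h : γ ∈ lev E Λ) :
    γ.swap ∈ lev E Λ := by
  have h' : ev E γ.1 + ev E γ.2 ≤ Λ := h
  show ev E γ.2 + ev E γ.1 ≤ Λ
  linarith

theorem same (E : ℤ → ℤ → ℕ → ℝ) (hs : ∀ m n i, E m n i = E |m| |n| i) (Λ : ℝ) (l l' : Lab)
    (hw : l.2.2.2.2 = l'.2.2.2.2) :
    (lev E Λ ∩ {γ | HasLab γ l}).ncard = (lev E Λ ∩ {γ | HasLab γ l'}).ncard := by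
  refine Set.ncard_congr (fun γ _ => setS l' γ) ?_ ?_ ?_
  · rintro γ ⟨h1, h2⟩
    exact ⟨setS_lev E hs Λ l' γ h1, setS_lab l l' hw γ h2⟩
  · rintro γ γ' ⟨-, h2⟩ ⟨-, h4⟩ h
    have := congrArg (setS l) h
    simpa only [setS_setS l l' γ h2, setS_setS l l' γ' h4] using this
  · rintro γ ⟨h1, h2⟩
    exact ⟨setS l γ, ⟨setS_lev E hs Λ l γ h1, setS_lab l' l hw.symm γ h2⟩, setS_setS l' l γ h2⟩

theorem swp (E : ℤ → ℤ → ℕ → ℝ) (Λ : ℝ) (l : Lab) :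
    (lev E Λ ∩ {γ | HasLab γ l}).ncard = (lev E Λ ∩ {γ | HasLab γ (swL l)}).ncard := by
  refine Set.ncard_congr (fun γ _ => γ.swap) ?_ ?_ ?_
  · rintro γ ⟨h1, h2⟩
    exact ⟨swap_lev E Λ γ h1, swap_lab l γ h2⟩
  · intro γ γ' _ _ h
    exact Prod.swap_injective h
  · rintro γ ⟨h1, h2⟩
    refine ⟨γ.swap, ⟨swap_lev E Λ γ h1, ?_⟩, Prod.swap_swap γ⟩
    have := swap_lab _ γ h2
    simpa [swL] using this

end Lab1

theorem t_LAB : S_LAB := by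
  intro u E hF Λ l l'
  by_cases hw : l.2.2.2.2 = l'.2.2.2.2
  · exact Lab1.same E hF.symm Λ l l' hw
  · rw [Lab1.swp E Λ l]
    refine Lab1.same E hF.symm Λ _ l' ?_
    show (!l.2.2.2.2) = l'.2.2.2.2
    cases h1 : l.2.2.2.2 <;> cases h2 : l'.2.2.2.2 <;> simp_all

end Pool.Agent.H223.SR
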