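import Pool.Agent.H223.SR.Stm

set_option autoImplicit false

open MeasureTheory Set Filter Topology
open scoped ContDiff Real ComplexConjugate

namespace Pool.Agent.H223.SR

namespace LOC

theorem mean_circle (G : UnitAddCircle → ℝ) :
    ∫ t, G t ∂hm = ∫ x in (0 : ℝ)..1, G x := by
  have h1 := UnitAddCircle.intervalIntegral_preimage 0 G
  rw [zero_add] at h1
  rw [h1]
  have h2 : (volume : Measure UnitAddCircle) = AddCircle.haarAddCircle := by
    have := AddCircle.volume_eq_smul_haarAddCircle (T := (1 : ℝ))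
    rw [ENNReal.ofReal_one, one_smul] at this
    exact this
  rw [h2]

theorem unit_mass {m n : ℤ} {u : ℕ → C(UnitAddCircle, ℂ)} {E : ℕ → ℝ} (h : OneD m n u E) (i : ℕ) :
    ∫ x in (0 : ℝ)..1, ‖u i x‖ ^ 2 = 1 := by
  have h1 := h.orth i i
  rw [if_pos rfl] at h1
  have h2 : (fun t => conj (u i t) * u i t) = fun t => (((‖u i t‖ ^ 2 : ℝ)) : ℂ) := by
    funext t
    rw [Complex.conj_mul']
    push_cast
    rfl
  rw [h2, integral_complex_ofReal] at h1
  have h3 : ∫ t, ‖u i t‖ ^ 2 ∂hm = 1 := by exact_mod_cast h1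
  exact (mean_circle (fun t => ‖u i t‖ ^ 2)).symm.trans h3

/-- properties of the lifted eigenfunction -/
theorem lift {m n : ℤ} {u : ℕ → C(UnitAddCircle, ℂ)} {E : ℕ → ℝ} (h : OneD m n u E) (i : ℕ) :
    ∃ F F' : ℝ → ℂ, (∀ x, F x = u i x) ∧ (∀ x, HasDerivAt F (F' x) x) ∧
      (∀ x, HasDerivAt F' ((((pot m n x - E i : ℝ)) : ℂ) * F x) x) ∧
      F 1 = F 0 ∧ F' 1 = F' 0 := by
  have hF : ContDiff ℝ ∞ (fun x : ℝ => u i x) := h.smooth i
  have hF1 : ContDiff ℝ ∞ (deriv fun x : ℝ => u i x) := (contDiff_infty_iff_deriv.1 hF).2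
  have hper : ∀ x : ℝ, u i ((x + 1 : ℝ) : UnitAddCircle) = u i x := fun x => by
    rw [AddCircle.coe_add_period]
  refine ⟨fun x => u i x, deriv fun x : ℝ => u i x, fun x => rfl, fun x => ?_, fun x => ?_, ?_, ?_⟩
  · exact (hF.differentiable (by simp)).differentiableAt.hasDerivAt
  · have h1 := (hF1.differentiable (by simp)).differentiableAt.hasDerivAt (x := x)
    have h2 := h.eqn i x
    have h3 : deriv (deriv fun x : ℝ => u i x) x = (((pot m n x - E i : ℝ)) : ℂ) * u i x := by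
      push_cast
      linear_combination -h2
    rw [h3] at h1
    exact h1
  · have := hper 0
    simpa using this
  · have h1 : deriv (fun x : ℝ => u i ((x + 1 : ℝ) : UnitAddCircle)) 0 =
        deriv (fun x : ℝ => u i x) (0 + 1) :=
      deriv_comp_add_const (f := fun x : ℝ => u i x) 1 0
    rw [zero_add] at h1
    rw [← h1]
    congr 1
    funext x
    exact hper x

/-- energy identity -/
theorem energy {m n : ℤ} {e : ℝ} {F F' : ℝ → ℂ} (h1 : ∀ x, HasDerivAt F (F' x) x)
    (h2 : ∀ x, HasDerivAt F' ((((pot m n x - e : ℝ)) : ℂ) * F x) x)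
    (h3 : F 1 = F 0) (h4 : F' 1 = F' 0) (h5 : ∫ x in (0 : ℝ)..1, ‖F x‖ ^ 2 = 1) :
    (∫ x in (0 : ℝ)..1, ‖F' x‖ ^ 2) + ∫ x in (0 : ℝ)..1, pot m n x * ‖F x‖ ^ 2 = e := by
  have cF : Continuous F := continuous_iff_continuousAt.2 fun x => (h1 x).continuousAt
  have cF' : Continuous F' := continuous_iff_continuousAt.2 fun x => (h2 x).continuousAt
  have cp : Continuous (pot m n) := by unfold pot; fun_prop
  have hd : ∀ x, HasDerivAt (fun x => inner ℝ (F x) (F' x))
      (pot m n x * ‖F x‖ ^ 2 - e * ‖F x‖ ^ 2 + ‖F' x‖ ^ 2) x := by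
    intro x
    have h7 := (h1 x).inner ℝ (h2 x)
    have h6 : inner ℝ (F x) ((((pot m n x - e : ℝ)) : ℂ) * F x) = (pot m n x - e) * ‖F x‖ ^ 2 := by
      rw [← real_inner_self_eq_norm_sq (F x), ← real_inner_smul_right (F x) (F x) (pot m n x - e)]
      congr 1
    have h8 : inner ℝ (F' x) (F' x) = ‖F' x‖ ^ 2 := real_inner_self_eq_norm_sq (F' x)
    rw [h6, h8] at h7
    have h9 : (pot m n x - e) * ‖F x‖ ^ 2 + ‖F' x‖ ^ 2 =
      pot m n x * ‖F x‖ ^ 2 - e * ‖F x‖ ^ 2 + ‖F' x‖ ^ 2 := by ring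
    rw [h9] at h7
    exact h7
  have hi : IntervalIntegrable
      (fun x => pot m n x * ‖F x‖ ^ 2 - e * ‖F x‖ ^ 2 + ‖F' x‖ ^ 2) volume 0 1 := by
    apply Continuous.intervalIntegrable
    fun_prop
  have key := intervalIntegral.integral_eq_sub_of_hasDerivAt (fun x _ => hd x) hi
  rw [h3, h4, sub_self] at key
  rw [intervalIntegral.integral_add, intervalIntegral.integral_sub,
    intervalIntegral.integral_const_mul, h5] at key
  · linarith
  all_goals
    apply Continuous.intervalIntegrable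
    fun_prop

theorem main {m n : ℤ} {e : ℝ} {F F' : ℝ → ℂ} (h1 : ∀ x, HasDerivAt F (F' x) x)
    (h2 : ∀ x, HasDerivAt F' ((((pot m n x - e : ℝ)) : ℂ) * F x) x)
    (h3 : F 1 = F 0) (h4 : F' 1 = F' 0) (h5 : ∫ x in (0 : ℝ)..1, ‖F x‖ ^ 2 = 1)
    {ε : ℝ} (hε : 0 < ε) :
    (2 * π) ^ 2 * |(n : ℝ)| * ((∫ x in (0 : ℝ)..1, |Real.sin (2 * π * x)| * ‖F x‖ ^ 2) - ε) ≤
      e + 2 * π / ε * √e := by
  have cF : Continuous F := continuous_iff_continuousAt.2 fun x => (h1 x).continuousAt
  have cF' : Continuous F' := continuous_iff_continuousAt.2 fun x => (h2 x).continuousAt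
  have cp : Continuous (pot m n) := by unfold pot; fun_prop
  have hen := energy h1 h2 h3 h4 h5
  -- the multiplier
  set f : ℝ → ℝ := fun x => 2 * π * ((m : ℝ) + n * Real.cos (2 * π * x)) with hf
  have hpot : ∀ x, pot m n x = f x ^ 2 := fun x => by simp only [pot, hf]; ring
  have cf : Continuous f := by simp only [hf]; fun_prop
  set σ : ℝ := (SignType.sign (n : ℝ) : ℝ) with hσ
  have hσ1 : |σ| ≤ 1 := by
    rw [hσ]
    rcases lt_trichotomy (n : ℝ) 0 with h | h | h
    · simp [sign_neg h]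
    · simp [h]
    · simp [sign_pos h]
  have hσn : σ * n = |(n : ℝ)| := sign_mul_self (n : ℝ)
  have hpos : ∀ x : ℝ, 0 < Real.sin (2 * π * x) ^ 2 + ε ^ 2 := fun x => by positivity
  set r : ℝ → ℝ := fun x => √(Real.sin (2 * π * x) ^ 2 + ε ^ 2) with hr
  have hrpos : ∀ x, 0 < r x := fun x => Real.sqrt_pos.2 (hpos x)
  have hrsq : ∀ x, r x ^ 2 = Real.sin (2 * π * x) ^ 2 + ε ^ 2 := fun x =>
    Real.sq_sqrt (hpos x).le
  have cr : Continuous r := by simp only [hr]; fun_prop
  have hrε : ∀ x, ε ≤ r x := fun x => by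
    apply Real.le_sqrt_of_sq_le
    nlinarith [sq_nonneg (Real.sin (2 * π * x))]
  have hs : ∀ x : ℝ, HasDerivAt (fun x => Real.sin (2 * π * x)) (Real.cos (2 * π * x) * (2 * π)) x := by
    intro x
    have := (Real.hasDerivAt_sin (2 * π * x)).comp x ((hasDerivAt_id x).const_mul (2 * π))
    simpa [Function.comp_def] using this
  have hc : ∀ x : ℝ, HasDerivAt (fun x => Real.cos (2 * π * x)) (-Real.sin (2 * π * x) * (2 * π)) x := by
    intro x
    have := (Real.hasDerivAt_cos (2 * π * x)).comp x ((hasDerivAt_id x).const_mul (2 * π))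
    simpa [Function.comp_def] using this
  have hfd : ∀ x, HasDerivAt f (2 * π * (n * (-Real.sin (2 * π * x) * (2 * π)))) x := by
    intro x
    exact (((hc x).const_mul (n : ℝ)).const_add (m : ℝ)).const_mul (2 * π)
  have hrd : ∀ x, HasDerivAt r ((2 * Real.sin (2 * π * x) * (Real.cos (2 * π * x) * (2 * π))) /
      (2 * r x)) x := by
    intro x
    have h6 : HasDerivAt (fun x => Real.sin (2 * π * x) ^ 2 + ε ^ 2)
        (2 * Real.sin (2 * π * x) * (Real.cos (2 * π * x) * (2 * π))) x := by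
      have := ((hs x).pow 2).add_const (ε ^ 2)
      simpa using this
    exact h6.sqrt (hpos x).ne'
  -- g
  set g : ℝ → ℝ := fun x => -σ * (Real.sin (2 * π * x) / r x) with hg
  set g' : ℝ → ℝ := fun x => -σ * (Real.cos (2 * π * x) * (2 * π) * ε ^ 2 / r x ^ 3) with hg'
  have hgd : ∀ x, HasDerivAt g (g' x) x := by
    intro x
    have h6 := ((hs x).div (hrd x) (hrpos x).ne').const_mul (-σ)
    have h9 : -σ * ((Real.cos (2 * π * x) * (2 * π) * r x -
          Real.sin (2 * π * x) * (2 * Real.sin (2 * π * x) * (Real.cos (2 * π * x) * (2 * π)) /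
            (2 * r x))) / r x ^ 2) = g' x := by
      show _ = -σ * (Real.cos (2 * π * x) * (2 * π) * ε ^ 2 / r x ^ 3)
      congr 1
      have h7 := hrsq x
      have h8 := (hrpos x).ne'
      have h10 : ε ^ 2 = r x ^ 2 - Real.sin (2 * π * x) ^ 2 := by rw [h7]; ring
      rw [h10]
      field_simp
    rw [h9] at h6
    exact h6
  have hgle : ∀ x, |g x| ≤ 1 := by
    intro x
    simp only [hg]
    rw [abs_mul, abs_neg, abs_div, abs_of_pos (hrpos x)]
    have h6 : |Real.sin (2 * π * x)| ≤ r x := by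
      rw [← Real.sqrt_sq_eq_abs]
      exact Real.sqrt_le_sqrt (by nlinarith [sq_nonneg ε])
    have h7 : |Real.sin (2 * π * x)| / r x ≤ 1 := (div_le_one (hrpos x)).2 h6
    have h8 : 0 ≤ |Real.sin (2 * π * x)| / r x := by positivity
    calc |σ| * (|Real.sin (2 * π * x)| / r x) ≤ 1 * 1 :=
          mul_le_mul hσ1 h7 h8 zero_le_one
      _ = 1 := one_mul 1
  have hg'le : ∀ x, |g' x| ≤ 2 * π / ε := by
    intro x
    simp only [hg']
    rw [abs_mul, abs_neg, abs_div, abs_mul, abs_mul, abs_of_pos (pow_pos (hrpos x) 3),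
      abs_of_pos (by positivity : (0 : ℝ) < 2 * π), abs_of_pos (by positivity : (0 : ℝ) < ε ^ 2)]
    have h6 : |Real.cos (2 * π * x)| ≤ 1 := Real.abs_cos_le_one _
    have h7 : ε ^ 3 ≤ r x ^ 3 := pow_le_pow_left₀ hε.le (hrε x) 3
    have h8 : |Real.cos (2 * π * x)| * (2 * π) * ε ^ 2 / r x ^ 3 ≤ 2 * π / ε := by
      rw [div_le_div_iff₀ (pow_pos (hrpos x) 3) hε]
      calc |Real.cos (2 * π * x)| * (2 * π) * ε ^ 2 * ε
          ≤ 1 * (2 * π) * ε ^ 2 * ε := by gcongr
        _ = 2 * π * ε ^ 3 := by ring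
        _ ≤ 2 * π * r x ^ 3 := by gcongr
    calc |σ| * (|Real.cos (2 * π * x)| * (2 * π) * ε ^ 2 / r x ^ 3)
        ≤ 1 * (2 * π / ε) := mul_le_mul hσ1 h8 (by positivity) zero_le_one
      _ = 2 * π / ε := one_mul _
  have cg : Continuous g := continuous_iff_continuousAt.2 fun x => (hgd x).continuousAt
  have cg' : Continuous g' := by
    simp only [hg']
    apply Continuous.mul continuous_const
    apply Continuous.div
    · fun_prop
    · fun_prop
    · intro x
      exact (pow_pos (hrpos x) 3).ne'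
  -- the derivative of g f |F|^2
  set D : ℝ → ℝ := fun x => (g' x * f x + g x * (2 * π * (n * (-Real.sin (2 * π * x) * (2 * π))))) *
      ‖F x‖ ^ 2 with hD
  set Q : ℝ → ℝ := fun x => g x * f x * (2 * inner ℝ (F x) (F' x)) with hQ
  have hder : ∀ x, HasDerivAt (fun x => g x * f x * ‖F x‖ ^ 2) (D x + Q x) x := by
    intro x
    exact ((hgd x).mul (hfd x)).mul (h1 x).norm_sq
  have cD : Continuous D := by simp only [hD]; fun_prop
  have cQ : Continuous Q := by simp only [hQ]; fun_prop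
  have hint : ∫ x in (0 : ℝ)..1, (D x + Q x) = 0 := by
    rw [intervalIntegral.integral_eq_sub_of_hasDerivAt (fun x _ => hder x)
      ((cD.add cQ).intervalIntegrable 0 1), h3]
    have e1 : g 1 = g 0 := by simp [hg, hr]
    have e2 : f 1 = f 0 := by simp [hf]
    rw [e1, e2, sub_self]
  rw [intervalIntegral.integral_add (cD.intervalIntegrable 0 1) (cQ.intervalIntegrable 0 1)] at hint
  -- bound of Q
  have hQle : -(∫ x in (0 : ℝ)..1, Q x) ≤ e := by
    rw [← hen, ← intervalIntegral.integral_neg, ← intervalIntegral.integral_add]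
    · apply intervalIntegral.integral_mono_on zero_le_one
      · apply Continuous.intervalIntegrable; fun_prop
      · apply Continuous.intervalIntegrable; fun_prop
      · intro x _
        have h6 : |inner ℝ (F x) (F' x)| ≤ ‖F x‖ * ‖F' x‖ := abs_real_inner_le_norm _ _
        have h7 : |Q x| ≤ |f x| * (2 * (‖F x‖ * ‖F' x‖)) := by
          have hQx : Q x = g x * f x * (2 * inner ℝ (F x) (F' x)) := rfl
          rw [hQx, abs_mul (g x * f x), abs_mul (g x), abs_mul (2 : ℝ),
            abs_of_pos (by norm_num : (0 : ℝ) < 2)]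
          calc |g x| * |f x| * (2 * |inner ℝ (F x) (F' x)|)
              ≤ 1 * |f x| * (2 * (‖F x‖ * ‖F' x‖)) := by
                gcongr
                exact hgle x
            _ = _ := by ring
        have h8 : pot m n x = |f x| ^ 2 := by rw [hpot, sq_abs]
        rw [h8]
        have h9 : -Q x ≤ |Q x| := neg_le_abs (Q x)
        nlinarith [sq_nonneg (|f x| * ‖F x‖ - ‖F' x‖)]
    · apply Continuous.intervalIntegrable; fun_prop
    · apply Continuous.intervalIntegrable; fun_prop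
  -- bound of the mean of |f|
  obtain ⟨lam, hlam⟩ : ∃ lam : ℝ, ∫ x in (0 : ℝ)..1, |f x| * ‖F x‖ ^ 2 = lam := ⟨_, rfl⟩
  have hlamle : lam ≤ √e := by
    apply Real.le_sqrt_of_sq_le
    have h6 : 0 ≤ ∫ x in (0 : ℝ)..1, (|f x| - lam) ^ 2 * ‖F x‖ ^ 2 :=
      intervalIntegral.integral_nonneg zero_le_one fun x _ => by positivity
    have h7 : ∫ x in (0 : ℝ)..1, (|f x| - lam) ^ 2 * ‖F x‖ ^ 2 =
        (∫ x in (0 : ℝ)..1, pot m n x * ‖F x‖ ^ 2) - 2 * lam * lam + lam ^ 2 * 1 := by
      have h8 : ∫ x in (0 : ℝ)..1, (|f x| - lam) ^ 2 * ‖F x‖ ^ 2 =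
          ∫ x in (0 : ℝ)..1, (pot m n x * ‖F x‖ ^ 2 - 2 * lam * (|f x| * ‖F x‖ ^ 2) +
            lam ^ 2 * ‖F x‖ ^ 2) := by
        apply intervalIntegral.integral_congr
        intro x _
        show (|f x| - lam) ^ 2 * ‖F x‖ ^ 2 = pot m n x * ‖F x‖ ^ 2 - 2 * lam * (|f x| * ‖F x‖ ^ 2) +
          lam ^ 2 * ‖F x‖ ^ 2
        rw [hpot, ← sq_abs (f x)]
        ring
      rw [h8, intervalIntegral.integral_add, intervalIntegral.integral_sub,
        intervalIntegral.integral_const_mul, intervalIntegral.integral_const_mul, h5, hlam]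
      all_goals
        apply Continuous.intervalIntegrable
        fun_prop
    have h8 : 0 ≤ ∫ x in (0 : ℝ)..1, ‖F' x‖ ^ 2 :=
      intervalIntegral.integral_nonneg zero_le_one fun x _ => by positivity
    nlinarith
  -- lower bound of D
  have hDge : (2 * π) ^ 2 * |(n : ℝ)| *
      ((∫ x in (0 : ℝ)..1, |Real.sin (2 * π * x)| * ‖F x‖ ^ 2) - ε) - 2 * π / ε * lam ≤
      ∫ x in (0 : ℝ)..1, D x := by
    have h6 : (2 * π) ^ 2 * |(n : ℝ)| *
      ((∫ x in (0 : ℝ)..1, |Real.sin (2 * π * x)| * ‖F x‖ ^ 2) - ε) - 2 * π / ε * lam =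
      ∫ x in (0 : ℝ)..1, ((2 * π) ^ 2 * |(n : ℝ)| *
        (|Real.sin (2 * π * x)| * ‖F x‖ ^ 2 - ε * ‖F x‖ ^ 2) -
        2 * π / ε * (|f x| * ‖F x‖ ^ 2)) := by
      rw [intervalIntegral.integral_sub, intervalIntegral.integral_const_mul,
        intervalIntegral.integral_sub, intervalIntegral.integral_const_mul,
        intervalIntegral.integral_const_mul, h5, mul_one, hlam]
      all_goals
        apply Continuous.intervalIntegrable
        fun_prop
    rw [h6]
    apply intervalIntegral.integral_mono_on zero_le_one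
    · apply Continuous.intervalIntegrable; fun_prop
    · exact cD.intervalIntegrable 0 1
    · intro x _
      have h7 : |Real.sin (2 * π * x)| - ε ≤ Real.sin (2 * π * x) ^ 2 / r x := by
        rw [le_div_iff₀ (hrpos x)]
        have h8 : r x ≤ |Real.sin (2 * π * x)| + ε := by
          apply Real.sqrt_le_iff.2
          refine ⟨by positivity, ?_⟩
          have := abs_nonneg (Real.sin (2 * π * x))
          nlinarith [sq_abs (Real.sin (2 * π * x))]
        by_cases h9 : |Real.sin (2 * π * x)| ≤ ε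
        · have := hrpos x
          nlinarith [sq_nonneg (Real.sin (2 * π * x))]
        · push Not at h9
          nlinarith [sq_abs (Real.sin (2 * π * x))]
      have h10 : g x * (2 * π * (n * (-Real.sin (2 * π * x) * (2 * π)))) =
          (2 * π) ^ 2 * |(n : ℝ)| * (Real.sin (2 * π * x) ^ 2 / r x) := by
        rw [← hσn]
        simp only [hg]
        ring
      have h11 : -(2 * π / ε * |f x|) ≤ g' x * f x := by
        have : |g' x * f x| ≤ 2 * π / ε * |f x| := by
          rw [abs_mul]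
          gcongr
          exact hg'le x
        exact (abs_le.1 this).1
      simp only [hD]
      rw [h10]
      have h12 : (0 : ℝ) ≤ ‖F x‖ ^ 2 := by positivity
      have h13 : (2 * π) ^ 2 * |(n : ℝ)| * (|Real.sin (2 * π * x)| - ε) ≤
          (2 * π) ^ 2 * |(n : ℝ)| * (Real.sin (2 * π * x) ^ 2 / r x) := by
        gcongr
      have h14 := mul_le_mul_of_nonneg_right (add_le_add h11 h13) h12
      calc (2 * π) ^ 2 * |(n : ℝ)| * (|Real.sin (2 * π * x)| * ‖F x‖ ^ 2 - ε * ‖F x‖ ^ 2) -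
            2 * π / ε * (|f x| * ‖F x‖ ^ 2)
          = (-(2 * π / ε * |f x|) + (2 * π) ^ 2 * |(n : ℝ)| * (|Real.sin (2 * π * x)| - ε)) *
            ‖F x‖ ^ 2 := by ring
        _ ≤ _ := h14
  have h15 : 2 * π / ε * lam ≤ 2 * π / ε * √e := by
    gcongr
  linarith

end LOC

theorem t_LOC : S_ENERGY → S_LOC := by
  intro _ m n u E h i ε hε
  obtain ⟨F, F', h0, h1, h2, h3, h4⟩ := LOC.lift h i
  have h5 := LOC.unit_mass h i
  simp only [← h0] at h5 ⊢
  exact LOC.main h1 h2 h3 h4 h5 hε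

end Pool.Agent.H223.SR
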