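import Pool.Agent.H223.SR.Stm

/-!
(D) Lower bound for the counting functions: `t_LOWER : S_LOWER`.
-/

set_option autoImplicit false

open MeasureTheory Set Filter Topology
open scoped ContDiff Real ComplexConjugate

namespace Pool.Agent.H223.SR

namespace LowerL

/-- continuous 1-periodic functions descend to the circle -/
theorem exists_circ (f : ℝ → ℂ) (hf : Continuous f) (hp : ∀ x, f (x + 1) = f x) :
    ∃ F : C(UnitAddCircle, ℂ), ∀ x : ℝ, F x = f x := by
  have hper : Function.Periodic f 1 := hp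
  exact ⟨⟨hper.lift, continuous_coinduced_dom.2 hf⟩, fun x => hper.lift_coe x⟩

theorem int_circ (F : UnitAddCircle → ℂ) : ∫ t, F t ∂hm = ∫ x in (0 : ℝ)..1, F x := by
  have h := UnitAddCircle.intervalIntegral_preimage 0 F
  rw [zero_add] at h
  rw [h, AddCircle.volume_eq_smul_haarAddCircle]
  simp

/-- integration by parts, twice -/
theorem parts (f g : ℝ → ℂ) (hf : ContDiff ℝ ∞ f) (hg : ContDiff ℝ ∞ g)
    (hfp : ∀ x, f (x + 1) = f x) (hgp : ∀ x, g (x + 1) = g x) :
    ∫ x in (0 : ℝ)..1, deriv (deriv f) x * g x = ∫ x in (0 : ℝ)..1, f x * deriv (deriv g) x := by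
  have hf1 : ContDiff ℝ ∞ (deriv f) := (contDiff_infty_iff_deriv.1 hf).2
  have hg1 : ContDiff ℝ ∞ (deriv g) := (contDiff_infty_iff_deriv.1 hg).2
  have hf2 : ContDiff ℝ ∞ (deriv (deriv f)) := (contDiff_infty_iff_deriv.1 hf1).2
  have hg2 : ContDiff ℝ ∞ (deriv (deriv g)) := (contDiff_infty_iff_deriv.1 hg1).2
  have hd : ∀ {φ : ℝ → ℂ}, ContDiff ℝ ∞ φ → ∀ x, HasDerivAt φ (deriv φ x) x := fun hφ x =>
    (hφ.differentiable (by simp) x).hasDerivAt
  have hder : ∀ x : ℝ, HasDerivAt (fun x => deriv f x * g x - f x * deriv g x)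
      (deriv (deriv f) x * g x - f x * deriv (deriv g) x) x := by
    intro x
    have h1 := (hd hf1 x).mul (hd hg x)
    have h2 := (hd hf x).mul (hd hg1 x)
    convert! h1.sub h2 using 1
    ring
  have hdp : ∀ {φ : ℝ → ℂ}, (∀ x, φ (x + 1) = φ x) → ∀ x, deriv φ (x + 1) = deriv φ x := by
    intro φ hφ x
    have : deriv (fun y => φ (y + 1)) x = deriv φ (x + 1) := deriv_comp_add_const _ _ _
    rw [← this]
    congr 1
    funext y
    exact hφ y
  have hint : ∫ x in (0 : ℝ)..1, (deriv (deriv f) x * g x - f x * deriv (deriv g) x) = 0 := by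
    rw [intervalIntegral.integral_eq_sub_of_hasDerivAt (fun x _ => hder x)]
    · have a := hfp 0
      have b := hgp 0
      have c := hdp hfp 0
      have d := hdp hgp 0
      rw [zero_add] at a b c d
      rw [a, b, c, d, sub_self]
    · refine Continuous.intervalIntegrable ?_ _ _
      exact (hf2.continuous.mul hg.continuous).sub (hf.continuous.mul hg2.continuous)
  rw [intervalIntegral.integral_sub] at hint
  · exact sub_eq_zero.1 hint
  · exact (hf2.continuous.mul hg.continuous).intervalIntegrable _ _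
  · exact (hf.continuous.mul hg2.continuous).intervalIntegrable _ _

/-- the Hilbert basis -/
theorem exists_basis {m n : ℤ} {u : ℕ → C(UnitAddCircle, ℂ)} {E : ℕ → ℝ} (h : OneD m n u E) :
    ∃ b : HilbertBasis ℕ ℂ (Lp ℂ 2 hm), ∀ i, b i = ContinuousMap.toLp 2 hm ℂ (u i) := by
  have horth : Orthonormal ℂ fun i => (ContinuousMap.toLp 2 hm ℂ (u i) : Lp ℂ 2 hm) := by
    rw [orthonormal_iff_ite]
    intro i j
    rw [ContinuousMap.inner_toLp, ← h.orth i j]
    refine integral_congr_ae (Eventually.of_forall fun t => ?_)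
    exact mul_comm _ _
  have hsp : ⊤ ≤ (Submodule.span ℂ (Set.range fun i =>
      (ContinuousMap.toLp 2 hm ℂ (u i) : Lp ℂ 2 hm))).topologicalClosure := by
    rw [← span_fourierLp_closure_eq_top (T := 1) (p := 2) (by simp)]
    refine Submodule.topologicalClosure_minimal _ ?_ (Submodule.isClosed_topologicalClosure _)
    rw [Submodule.span_le]
    rintro _ ⟨k, rfl⟩
    rw [SetLike.mem_coe, ← SetLike.mem_coe, Submodule.topologicalClosure_coe,
      Metric.mem_closure_iff]
    intro ε hε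
    obtain ⟨s, c, hc⟩ := h.compl k (ε ^ 2 / 2) (by positivity)
    refine ⟨∑ i ∈ s, c i • ContinuousMap.toLp 2 hm ℂ (u i), ?_, ?_⟩
    · exact Submodule.sum_mem _ fun i _ => Submodule.smul_mem _ _
        (Submodule.subset_span ⟨i, rfl⟩)
    · have e : fourierLp 2 k - ∑ i ∈ s, c i • (ContinuousMap.toLp 2 hm ℂ (u i) : Lp ℂ 2 hm) =
          ContinuousMap.toLp 2 hm ℂ (fourier k - ∑ i ∈ s, c i • u i) := by
        simp [map_sub, map_sum]
      rw [dist_eq_norm, e]
      set F : C(UnitAddCircle, ℂ) := fourier k - ∑ i ∈ s, c i • u i with hF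
      have h1 : ‖(ContinuousMap.toLp 2 hm ℂ F : Lp ℂ 2 hm)‖ ^ 2 = ∫ t, ‖F t‖ ^ 2 ∂hm := by
        have h2 := inner_self_eq_norm_sq_to_K (𝕜 := ℂ) (ContinuousMap.toLp 2 hm ℂ F : Lp ℂ 2 hm)
        rw [ContinuousMap.inner_toLp] at h2
        have h3 : ∫ x, F x * conj (F x) ∂hm = ((∫ t, ‖F t‖ ^ 2 ∂hm : ℝ) : ℂ) := by
          rw [← integral_complex_ofReal]
          refine integral_congr_ae (Eventually.of_forall fun t => ?_)
          show F t * conj (F t) = ((‖F t‖ ^ 2 : ℝ) : ℂ)
          rw [Complex.mul_conj, Complex.normSq_eq_norm_sq]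
        rw [h3] at h2
        have h4 : ((∫ t, ‖F t‖ ^ 2 ∂hm : ℝ) : ℂ) =
          ((‖(ContinuousMap.toLp 2 hm ℂ F : Lp ℂ 2 hm)‖ ^ 2 : ℝ) : ℂ) := by
          rw [h2]
          push_cast
          rfl
        exact (Complex.ofReal_injective h4).symm
      have h2 : ∫ t, ‖F t‖ ^ 2 ∂hm ≤ ε ^ 2 / 2 := by
        refine le_trans (le_of_eq ?_) hc
        refine integral_congr_ae (Eventually.of_forall fun t => ?_)
        simp [hF]
      rw [← h1] at h2
      have h3 : ‖(ContinuousMap.toLp 2 hm ℂ F : Lp ℂ 2 hm)‖ ^ 2 < ε ^ 2 := by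
        have : 0 < ε ^ 2 := by positivity
        linarith
      exact lt_of_pow_lt_pow_left₀ 2 hε.le h3
  exact ⟨HilbertBasis.mk horth hsp, fun i => by rw [HilbertBasis.coe_mk]⟩

theorem pot_smooth (m n : ℤ) : ContDiff ℝ ∞ (pot m n) := by
  unfold pot
  fun_prop

theorem pot_per (m n : ℤ) (x : ℝ) : pot m n (x + 1) = pot m n x := by
  unfold pot
  rw [show 2 * π * (x + 1) = 2 * π * x + 2 * π by ring, Real.cos_add_two_pi]

/-- the variational inequality -/
theorem rayleigh {m n : ℤ} {u : ℕ → C(UnitAddCircle, ℂ)} {E : ℕ → ℝ} (h : OneD m n u E) {Λ : ℝ}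
    (hE : ∀ i, Λ < E i) (v : ℝ → ℝ) (hv : ContDiff ℝ ∞ v) (hp : ∀ x, v (x + 1) = v x) :
    Λ * ∫ x in (0 : ℝ)..1, v x ^ 2 ≤ (∫ x in (0 : ℝ)..1, deriv v x ^ 2) +
      ∫ x in (0 : ℝ)..1, pot m n x * v x ^ 2 := by
  have hv1 : ContDiff ℝ ∞ (deriv v) := (contDiff_infty_iff_deriv.1 hv).2
  have hv2 : ContDiff ℝ ∞ (deriv (deriv v)) := (contDiff_infty_iff_deriv.1 hv1).2
  have hdp : ∀ {φ : ℝ → ℝ}, (∀ x, φ (x + 1) = φ x) → ∀ x, deriv φ (x + 1) = deriv φ x := by
    intro φ hφ x
    have : deriv (fun y => φ (y + 1)) x = deriv φ (x + 1) := deriv_comp_add_const _ _ _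
    rw [← this]
    congr 1
    funext y
    exact hφ y
  obtain ⟨V, hV⟩ := exists_circ (fun x => (v x : ℂ)) (Complex.continuous_ofReal.comp hv.continuous)
    (fun x => by simp only [hp])
  obtain ⟨W, hW⟩ := exists_circ (fun x => ((-deriv (deriv v) x + pot m n x * v x : ℝ) : ℂ))
    (Complex.continuous_ofReal.comp
      (hv2.continuous.neg.add ((pot_smooth m n).continuous.mul hv.continuous)))
    (fun x => by simp only [hp, hdp (hdp hp), pot_per])
  obtain ⟨b, hb⟩ := exists_basis h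
  -- real and complex derivatives of `v`
  have hvc : ContDiff ℝ ∞ fun x : ℝ => (v x : ℂ) := Complex.ofRealCLM.contDiff.comp hv
  have hdc : ∀ {φ : ℝ → ℝ}, ContDiff ℝ ∞ φ → (deriv fun x : ℝ => (φ x : ℂ)) =
      fun x => ((deriv φ x : ℝ) : ℂ) := by
    intro φ hφ
    funext x
    exact ((hφ.differentiable (by simp) x).hasDerivAt.ofReal_comp).deriv
  have hvdd : deriv (deriv fun x : ℝ => (v x : ℂ)) = fun x => ((deriv (deriv v) x : ℝ) : ℂ) := by
    rw [hdc hv, hdc hv1]
  -- the coefficients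
  have hcoef : ∀ i, (inner ℂ (b i) (ContinuousMap.toLp 2 hm ℂ W : Lp ℂ 2 hm) : ℂ) =
      E i * inner ℂ (b i) (ContinuousMap.toLp 2 hm ℂ V : Lp ℂ 2 hm) := by
    intro i
    rw [hb i, ContinuousMap.inner_toLp, ContinuousMap.inner_toLp, int_circ, int_circ]
    have hu := h.smooth i
    have hup : ∀ x : ℝ, u i ((x + 1 : ℝ) : UnitAddCircle) = u i (x : UnitAddCircle) := by
      intro x
      congr 1
      rw [AddCircle.coe_add, AddCircle.coe_period, add_zero]
    have hcu : ContDiff ℝ ∞ fun x : ℝ => conj (u i x) :=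
      Complex.conjCLE.contDiff.comp hu
    have hcup : ∀ x : ℝ, conj (u i ((x + 1 : ℝ) : UnitAddCircle)) =
        conj (u i (x : UnitAddCircle)) := by
      intro x
      rw [hup x]
    have hcd : ∀ {φ : ℝ → ℂ}, ContDiff ℝ ∞ φ → (deriv fun x : ℝ => conj (φ x)) =
        fun x => conj (deriv φ x) := by
      intro φ hφ
      funext x
      exact (Complex.conjCLE.toContinuousLinearMap.hasFDerivAt.comp_hasDerivAt x
        (hφ.differentiable (by simp) x).hasDerivAt).deriv
    have hu1 : ContDiff ℝ ∞ (deriv fun x : ℝ => u i x) := (contDiff_infty_iff_deriv.1 hu).2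
    have hcdd : deriv (deriv fun x : ℝ => conj (u i x)) =
        fun x : ℝ => conj (deriv (deriv fun x : ℝ => u i x) x) := by
      rw [hcd hu, hcd hu1]
    have hpart := parts (fun x : ℝ => (v x : ℂ)) (fun x : ℝ => conj (u i x)) hvc hcu
      (fun x => by simp only [hp]) hcup
    rw [hvdd, hcdd] at hpart
    have e1 : ∫ x in (0 : ℝ)..1, W x * conj (u i x) =
        -(∫ x in (0 : ℝ)..1, ((deriv (deriv v) x : ℝ) : ℂ) * conj (u i x)) +
          ∫ x in (0 : ℝ)..1, (pot m n x : ℂ) * v x * conj (u i x) := by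
      rw [← intervalIntegral.integral_neg, ← intervalIntegral.integral_add]
      · refine intervalIntegral.integral_congr fun x _ => ?_
        simp only [hW]
        push_cast
        ring
      · exact ((Complex.continuous_ofReal.comp hv2.continuous).mul hcu.continuous).neg.intervalIntegrable _ _
      · exact (((Complex.continuous_ofReal.comp (pot_smooth m n).continuous).mul
          hvc.continuous).mul hcu.continuous).intervalIntegrable _ _
    rw [e1, hpart, ← intervalIntegral.integral_neg, ← intervalIntegral.integral_add,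
      ← intervalIntegral.integral_const_mul]
    · refine intervalIntegral.integral_congr fun x _ => ?_
      simp only [hV]
      have e2 := congrArg conj (h.eqn i x)
      simp only [map_add, map_neg, map_mul, Complex.conj_ofReal] at e2
      linear_combination (v x : ℂ) * e2
    · have hu2 : Continuous fun x : ℝ => conj (deriv (deriv fun x : ℝ => u i x) x) :=
        Complex.continuous_conj.comp (contDiff_infty_iff_deriv.1 hu1).2.continuous
      exact (hvc.continuous.mul hu2).neg.intervalIntegrable _ _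
    · exact (((Complex.continuous_ofReal.comp (pot_smooth m n).continuous).mul
          hvc.continuous).mul hcu.continuous).intervalIntegrable _ _
  -- the sums
  set v' : Lp ℂ 2 hm := ContinuousMap.toLp 2 hm ℂ V with hv'
  set w' : Lp ℂ 2 hm := ContinuousMap.toLp 2 hm ℂ W with hw'
  have s1 := b.hasSum_inner_mul_inner v' v'
  have s2 := b.hasSum_inner_mul_inner w' v'
  have t1 : HasSum (fun i => ‖(inner ℂ (b i) v' : ℂ)‖ ^ 2) (inner ℂ v' v' : ℂ).re := by
    convert! Complex.hasSum_re s1 using 1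
    funext i
    rw [← inner_conj_symm v' (b i), ← Complex.normSq_eq_conj_mul_self, Complex.ofReal_re,
      Complex.normSq_eq_norm_sq]
  have t2 : HasSum (fun i => E i * ‖(inner ℂ (b i) v' : ℂ)‖ ^ 2) (inner ℂ w' v' : ℂ).re := by
    convert! Complex.hasSum_re s2 using 1
    funext i
    rw [← inner_conj_symm w' (b i), hcoef i, map_mul, Complex.conj_ofReal, mul_assoc,
      ← Complex.normSq_eq_conj_mul_self, ← Complex.ofReal_mul, Complex.ofReal_re,
      Complex.normSq_eq_norm_sq]
  have key : Λ * (inner ℂ v' v' : ℂ).re ≤ (inner ℂ w' v' : ℂ).re := by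
    refine hasSum_le (fun i => ?_) (t1.mul_left Λ) t2
    exact mul_le_mul_of_nonneg_right (hE i).le (by positivity)
  have r1 : (inner ℂ v' v' : ℂ).re = ∫ x in (0 : ℝ)..1, v x ^ 2 := by
    rw [hv', ContinuousMap.inner_toLp, int_circ]
    have : ∫ x in (0 : ℝ)..1, V x * conj (V x) = ((∫ x in (0 : ℝ)..1, v x ^ 2 : ℝ) : ℂ) := by
      rw [← intervalIntegral.integral_ofReal]
      refine intervalIntegral.integral_congr fun x _ => ?_
      simp only [hV, Complex.conj_ofReal]
      push_cast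
      ring
    rw [this, Complex.ofReal_re]
  have r2 : (inner ℂ w' v' : ℂ).re = (∫ x in (0 : ℝ)..1, deriv v x ^ 2) +
      ∫ x in (0 : ℝ)..1, pot m n x * v x ^ 2 := by
    rw [hv', hw', ContinuousMap.inner_toLp, int_circ]
    have : ∫ x in (0 : ℝ)..1, V x * conj (W x) =
        ((∫ x in (0 : ℝ)..1, (-(deriv (deriv v) x * v x) + pot m n x * v x ^ 2) : ℝ) : ℂ) := by
      rw [← intervalIntegral.integral_ofReal]
      refine intervalIntegral.integral_congr fun x _ => ?_
      simp only [hV, hW, Complex.conj_ofReal]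
      push_cast
      ring
    rw [this, Complex.ofReal_re, intervalIntegral.integral_add]
    · congr 1
      have hz : ∫ x in (0 : ℝ)..1, (deriv (deriv v) x * v x + deriv v x * deriv v x) = 0 := by
        rw [intervalIntegral.integral_eq_sub_of_hasDerivAt (f := fun x => deriv v x * v x)
          (fun x _ => ((hv1.differentiable (by simp) x).hasDerivAt).mul
            ((hv.differentiable (by simp) x).hasDerivAt))]
        · have a := hp 0
          have c := hdp hp 0
          rw [zero_add] at a c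
          show deriv v 1 * v 1 - deriv v 0 * v 0 = 0
          rw [a, c, sub_self]
        · exact ((hv2.continuous.mul hv.continuous).add
            (hv1.continuous.mul hv1.continuous)).intervalIntegrable _ _
      have i1 : IntervalIntegrable (fun x => deriv (deriv v) x * v x) volume 0 1 :=
        (hv2.continuous.mul hv.continuous).intervalIntegrable _ _
      have i2 : IntervalIntegrable (fun x => deriv v x * deriv v x) volume 0 1 :=
        (hv1.continuous.mul hv1.continuous).intervalIntegrable _ _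
      rw [intervalIntegral.integral_add i1 i2] at hz
      rw [intervalIntegral.integral_neg]
      have e3 : ∫ x in (0 : ℝ)..1, deriv v x * deriv v x = ∫ x in (0 : ℝ)..1, deriv v x ^ 2 :=
        intervalIntegral.integral_congr fun x _ => by simp only [pow_two]
      rw [e3] at hz
      linarith
    · exact (hv2.continuous.mul hv.continuous).neg.intervalIntegrable _ _
    · exact ((pot_smooth m n).continuous.mul (hv.continuous.pow 2)).intervalIntegrable _ _
  rwa [r1, r2] at key

/-- `∫ cos (π (x - x₀)) ^ (2 q)` -/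
noncomputable def K (x0 : ℝ) (q : ℕ) : ℝ := ∫ x in (0 : ℝ)..1, Real.cos (π * (x - x0)) ^ (2 * q)

theorem K_rec (x0 : ℝ) (q : ℕ) : (2 * q + 2) * K x0 (q + 1) = (2 * q + 1) * K x0 q := by
  have hder : ∀ x : ℝ, HasDerivAt
      (fun x => Real.cos (π * (x - x0)) ^ (2 * q + 1) * Real.sin (π * (x - x0)))
      (π * ((2 * q + 2) * Real.cos (π * (x - x0)) ^ (2 * (q + 1)) -
        (2 * q + 1) * Real.cos (π * (x - x0)) ^ (2 * q))) x := by
    intro x
    have h0 : HasDerivAt (fun x : ℝ => π * (x - x0)) π x := by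
      simpa using ((hasDerivAt_id x).sub_const x0).const_mul π
    have h1 := (h0.cos.pow (2 * q + 1)).mul h0.sin
    convert! h1 using 1
    have hs := Real.sin_sq (π * (x - x0))
    push_cast
    simp only [Pi.pow_apply]
    have e1 : Real.cos (π * (x - x0)) ^ (2 * (q + 1)) =
        Real.cos (π * (x - x0)) ^ (2 * q) * Real.cos (π * (x - x0)) ^ 2 := by ring
    have e2 : Real.cos (π * (x - x0)) ^ (2 * q + 1) =
        Real.cos (π * (x - x0)) ^ (2 * q) * Real.cos (π * (x - x0)) := by ring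
    rw [e1, e2]
    linear_combination ((2 * q + 1) * Real.cos (π * (x - x0)) ^ (2 * q) * π) * hs
  have hc : Continuous fun x : ℝ => Real.cos (π * (x - x0)) := by fun_prop
  have hint : ∫ x in (0 : ℝ)..1, (π * ((2 * q + 2) * Real.cos (π * (x - x0)) ^ (2 * (q + 1)) -
        (2 * q + 1) * Real.cos (π * (x - x0)) ^ (2 * q))) = 0 := by
    rw [intervalIntegral.integral_eq_sub_of_hasDerivAt (fun x _ => hder x)]
    · have a : π * (1 - x0) = π * (0 - x0) + π := by ring
      rw [a, Real.cos_add_pi, Real.sin_add_pi, Odd.neg_pow ⟨q, rfl⟩]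
      ring
    · exact Continuous.intervalIntegrable (by fun_prop) _ _
  rw [intervalIntegral.integral_const_mul, intervalIntegral.integral_sub,
    intervalIntegral.integral_const_mul, intervalIntegral.integral_const_mul] at hint
  · have := (mul_eq_zero.1 hint).resolve_left Real.pi_ne_zero
    exact sub_eq_zero.1 this
  · exact Continuous.intervalIntegrable (by fun_prop) _ _
  · exact Continuous.intervalIntegrable (by fun_prop) _ _

theorem K_pos (x0 : ℝ) (q : ℕ) : 0 < K x0 q := by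
  induction q with
  | zero => simp [K]
  | succ q ih =>
    have h := K_rec x0 q
    have h1 : (0 : ℝ) < (2 * q + 1) * K x0 q := by positivity
    rw [← h] at h1
    exact (pos_iff_pos_of_mul_pos h1).1 (by positivity)

theorem final_arith {Λ P k N T a : ℝ} (hΛ : 100 ≤ Λ) (hk : 0 < k) (hP : 2 ≤ P) (hp1 : P ≤ Λ / 40)
    (hp2 : Λ / 80 ≤ P) (ha : a < 9.87) (ha0 : 0 < a) (hN0 : 0 ≤ N) (hN : N ≤ Λ ^ 3 / 9000000)
    (hT : T ≤ 2 * Λ ^ 2 / 100000) :
    4 * a * P ^ 2 * (k / (4 * P - 1)) + 32 * a * N * (3 * k / ((4 * P + 2) * (4 * P + 4))) +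
      32 * a * (T * (k / (4 * P + 2))) < Λ * k := by
  have hΛ0 : 0 < Λ := by linarith
  have hP0 : 0 < P := by linarith
  have b1 : 4 * a * P ^ 2 * (k / (4 * P - 1)) ≤ 0.33 * Λ * k := by
    have h1 : (0 : ℝ) < 4 * P - 1 := by linarith
    have h2 : 4 * a * P ^ 2 ≤ 0.33 * Λ * (4 * P - 1) := by
      have h3 : 4 * a * P ^ 2 ≤ 39.48 * P ^ 2 :=
        mul_le_mul_of_nonneg_right (by linarith) (sq_nonneg P)
      have h4 : 0.33 * (40 * P) * (4 * P - 1) ≤ 0.33 * Λ * (4 * P - 1) :=
        mul_le_mul_of_nonneg_right (by linarith) h1.le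
      have h5 : 0 ≤ P * (P - 2) := mul_nonneg hP0.le (by linarith)
      nlinarith
    rw [mul_div_assoc', div_le_iff₀ h1]
    calc 4 * a * P ^ 2 * k ≤ 0.33 * Λ * (4 * P - 1) * k := mul_le_mul_of_nonneg_right h2 hk.le
      _ = 0.33 * Λ * k * (4 * P - 1) := by ring
  have b2 : 32 * a * N * (3 * k / ((4 * P + 2) * (4 * P + 4))) ≤ 0.05 * Λ * k := by
    have h1 : (0 : ℝ) < (4 * P + 2) * (4 * P + 4) := by positivity
    have h2 : 32 * a * N * 3 ≤ 0.05 * Λ * ((4 * P + 2) * (4 * P + 4)) := by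
      have h3 : 32 * a * N * 3 ≤ 947.52 * N := by
        have : 32 * a * 3 * N ≤ 947.52 * N := mul_le_mul_of_nonneg_right (by linarith) hN0
        linarith
      have h4 : (Λ / 80) ^ 2 ≤ P ^ 2 := pow_le_pow_left₀ (by positivity) hp2 2
      have h5 : 16 * P ^ 2 ≤ (4 * P + 2) * (4 * P + 4) := by
        have : (4 * P + 2) * (4 * P + 4) = 16 * P ^ 2 + 24 * P + 8 := by ring
        linarith
      have h6 : 0.05 * Λ * (16 * (Λ / 80) ^ 2) ≤ 0.05 * Λ * ((4 * P + 2) * (4 * P + 4)) := by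
        refine mul_le_mul_of_nonneg_left ?_ (by positivity)
        linarith
      have h8 : 0 < Λ ^ 3 := by positivity
      have h9 : 0.05 * Λ * (16 * (Λ / 80) ^ 2) = 0.000125 * Λ ^ 3 := by ring
      linarith
    rw [mul_div_assoc', div_le_iff₀ h1]
    calc 32 * a * N * (3 * k) = (32 * a * N * 3) * k := by ring
      _ ≤ (0.05 * Λ * ((4 * P + 2) * (4 * P + 4))) * k := mul_le_mul_of_nonneg_right h2 hk.le
      _ = 0.05 * Λ * k * ((4 * P + 2) * (4 * P + 4)) := by ring
  have b3 : 32 * a * (T * (k / (4 * P + 2))) ≤ 0.13 * Λ * k := by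
    have h1 : (0 : ℝ) < 4 * P + 2 := by positivity
    have h2 : 32 * a * T ≤ 0.13 * Λ * (4 * P + 2) := by
      have h3 : 32 * a * T ≤ 32 * a * (2 * Λ ^ 2 / 100000) :=
        mul_le_mul_of_nonneg_left hT (by positivity)
      have h4 : 32 * a * (2 * Λ ^ 2 / 100000) ≤ 32 * 9.87 * (2 * Λ ^ 2 / 100000) :=
        mul_le_mul_of_nonneg_right (by linarith) (by positivity)
      have h5 : 0.13 * Λ * (4 * (Λ / 80)) ≤ 0.13 * Λ * (4 * P + 2) := by
        refine mul_le_mul_of_nonneg_left ?_ (by positivity)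
        linarith
      have h6 : 0 < Λ ^ 2 := by positivity
      have h7 : 0.13 * Λ * (4 * (Λ / 80)) = 0.0065 * Λ ^ 2 := by ring
      linarith
    rw [mul_div_assoc', mul_div_assoc', div_le_iff₀ h1]
    calc 32 * a * (T * k) = (32 * a * T) * k := by ring
      _ ≤ (0.13 * Λ * (4 * P + 2)) * k := mul_le_mul_of_nonneg_right h2 hk.le
      _ = 0.13 * Λ * k * (4 * P + 2) := by ring
  have : 0 < Λ * k := by positivity
  linarith

end LowerL

open LowerL in
theorem t_LOWER : S_LOWER := by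
  intro m n u E h Λ hΛ hn hn1 hmn hn2
  by_contra hcon
  push Not at hcon
  -- notation
  have hnR : (0 : ℝ) < |(n : ℝ)| := abs_pos.2 (by exact_mod_cast hn)
  have hnR' : (n : ℝ) ≠ 0 := by exact_mod_cast hn
  set x0 : ℝ := Real.arccos (-(m : ℝ) / n) / (2 * π) with hx0
  have hmn' : |(m : ℝ) / n| ≤ 1 := by
    rw [abs_div]
    exact (div_le_one hnR).2 hmn
  have hC : Real.cos (2 * π * x0) = -(m : ℝ) / n := by
    rw [hx0, mul_div_cancel₀ _ (by positivity), Real.cos_arccos]
    · rw [neg_div]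
      linarith [(abs_le.1 hmn').2]
    · rw [neg_div]
      linarith [(abs_le.1 hmn').1]
  set S2 : ℝ := Real.sin (2 * π * x0) ^ 2 with hS2
  have hS2' : S2 = 1 - ((m : ℝ) / n) ^ 2 := by
    rw [hS2, Real.sin_sq, hC]
    ring
  -- bound for `S2`
  have hS2n : S2 * n ^ 2 ≤ 2 * Λ ^ 2 / 100000 := by
    have e1 : S2 * n ^ 2 = (|(n : ℝ)| - |(m : ℝ)|) * (|(n : ℝ)| + |(m : ℝ)|) := by
      rw [hS2']
      have h1 := sq_abs (n : ℝ)
      have h2 := sq_abs (m : ℝ)
      have h3 : (1 - ((m : ℝ) / n) ^ 2) * (n : ℝ) ^ 2 = (n : ℝ) ^ 2 - (m : ℝ) ^ 2 := by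
        field_simp
      rw [h3]
      linear_combination h2 - h1
    rw [e1]
    have h1 : |(n : ℝ)| + |(m : ℝ)| ≤ 2 * |(n : ℝ)| := by linarith
    calc (|(n : ℝ)| - |(m : ℝ)|) * (|(n : ℝ)| + |(m : ℝ)|)
        ≤ (|(n : ℝ)| - |(m : ℝ)|) * (2 * |(n : ℝ)|) :=
          mul_le_mul_of_nonneg_left h1 (by linarith)
      _ ≤ (Λ ^ 2 / (100000 * |(n : ℝ)|)) * (2 * |(n : ℝ)|) :=
          mul_le_mul_of_nonneg_right hn2 (by positivity)
      _ = 2 * Λ ^ 2 / 100000 := by field_simp
  have hn2' : (n : ℝ) ^ 2 ≤ Λ ^ 3 / 9000000 := by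
    have h1 : (Λ ^ (3 / 2 : ℝ)) ^ 2 = Λ ^ 3 := by
      rw [← Real.rpow_natCast, ← Real.rpow_mul (by linarith)]
      norm_num
    rw [← sq_abs]
    calc |(n : ℝ)| ^ 2 ≤ (Λ ^ (3 / 2 : ℝ) / 3000) ^ 2 := pow_le_pow_left₀ hnR.le hn1 2
      _ = Λ ^ 3 / 9000000 := by rw [div_pow, h1]; norm_num
  -- the exponent
  set p : ℕ := ⌊Λ / 40⌋₊ with hp
  have hp1 : (p : ℝ) ≤ Λ / 40 := Nat.floor_le (by positivity)
  have hp2 : Λ / 80 ≤ p := by
    have := Nat.lt_floor_add_one (Λ / 40)
    rw [← hp] at this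
    linarith
  have hp3 : 2 ≤ p := by
    rw [hp]
    refine Nat.le_floor ?_
    push_cast
    linarith
  have hpR : (2 : ℝ) ≤ p := by exact_mod_cast hp3
  -- the test function
  have hv : ContDiff ℝ ∞ fun x : ℝ => Real.cos (π * (x - x0)) ^ (2 * p) := by fun_prop
  have hvp : ∀ x : ℝ, Real.cos (π * ((x + 1) - x0)) ^ (2 * p) =
      Real.cos (π * (x - x0)) ^ (2 * p) := by
    intro x
    rw [show π * ((x + 1) - x0) = π * (x - x0) + π by ring, Real.cos_add_pi,
      Even.neg_pow ⟨p, by ring⟩]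
  have hR := rayleigh h hcon _ hv hvp
  have i1 : ∫ x in (0 : ℝ)..1, (Real.cos (π * (x - x0)) ^ (2 * p)) ^ 2 = K x0 (2 * p) := by
    refine intervalIntegral.integral_congr fun x _ => ?_
    show (Real.cos (π * (x - x0)) ^ (2 * p)) ^ 2 = Real.cos (π * (x - x0)) ^ (2 * (2 * p))
    rw [← pow_mul]
    congr 1
    ring
  have hci : ∀ q : ℕ, IntervalIntegrable (fun x : ℝ => Real.cos (π * (x - x0)) ^ (2 * q))
      volume 0 1 := fun q => Continuous.intervalIntegrable (by fun_prop) _ _
  have i2 : ∫ x in (0 : ℝ)..1, deriv (fun x : ℝ => Real.cos (π * (x - x0)) ^ (2 * p)) x ^ 2 =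
      4 * π ^ 2 * p ^ 2 * (K x0 (2 * p - 1) - K x0 (2 * p)) := by
    unfold K
    rw [← intervalIntegral.integral_sub (hci _) (hci _), ← intervalIntegral.integral_const_mul]
    refine intervalIntegral.integral_congr fun x _ => ?_
    have h0 : HasDerivAt (fun x : ℝ => π * (x - x0)) π x := by
      simpa using ((hasDerivAt_id x).sub_const x0).const_mul π
    have h1 := (h0.cos.pow (2 * p)).deriv
    have h1' : deriv (fun x : ℝ => Real.cos (π * (x - x0)) ^ (2 * p)) x =
        ((2 * p : ℕ) : ℝ) * Real.cos (π * (x - x0)) ^ (2 * p - 1) *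
          (-Real.sin (π * (x - x0)) * π) := h1
    show deriv (fun x : ℝ => Real.cos (π * (x - x0)) ^ (2 * p)) x ^ 2 = 4 * π ^ 2 * p ^ 2 *
      (Real.cos (π * (x - x0)) ^ (2 * (2 * p - 1)) - Real.cos (π * (x - x0)) ^ (2 * (2 * p)))
    rw [h1']
    have hs := Real.sin_sq (π * (x - x0))
    have e1 : (Real.cos (π * (x - x0)) ^ (2 * p - 1)) ^ 2 =
        Real.cos (π * (x - x0)) ^ (2 * (2 * p - 1)) := by
      rw [← pow_mul]
      congr 1
      ring
    have e2 : Real.cos (π * (x - x0)) ^ (2 * (2 * p)) =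
        Real.cos (π * (x - x0)) ^ (2 * (2 * p - 1)) * Real.cos (π * (x - x0)) ^ 2 := by
      rw [← pow_add]
      congr 1
      omega
    rw [e2, ← e1]
    push_cast
    linear_combination (4 * π ^ 2 * (p : ℝ) ^ 2 *
      (Real.cos (π * (x - x0)) ^ (2 * p - 1)) ^ 2) * hs
  have i3 : ∫ x in (0 : ℝ)..1, pot m n x * (Real.cos (π * (x - x0)) ^ (2 * p)) ^ 2 ≤
      32 * π ^ 2 * n ^ 2 * ((K x0 (2 * p) - 2 * K x0 (2 * p + 1) + K x0 (2 * p + 2)) +
        S2 * (K x0 (2 * p) - K x0 (2 * p + 1))) := by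
    have e : 32 * π ^ 2 * n ^ 2 * ((K x0 (2 * p) - 2 * K x0 (2 * p + 1) + K x0 (2 * p + 2)) +
        S2 * (K x0 (2 * p) - K x0 (2 * p + 1))) =
        ∫ x in (0 : ℝ)..1, 32 * π ^ 2 * n ^ 2 * ((Real.cos (π * (x - x0)) ^ (2 * (2 * p)) -
          2 * Real.cos (π * (x - x0)) ^ (2 * (2 * p + 1)) +
            Real.cos (π * (x - x0)) ^ (2 * (2 * p + 2))) +
          S2 * (Real.cos (π * (x - x0)) ^ (2 * (2 * p)) -
            Real.cos (π * (x - x0)) ^ (2 * (2 * p + 1)))) := by
      unfold K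
      rw [intervalIntegral.integral_const_mul, intervalIntegral.integral_add,
        intervalIntegral.integral_add, intervalIntegral.integral_sub,
        intervalIntegral.integral_const_mul, intervalIntegral.integral_const_mul,
        intervalIntegral.integral_sub (hci _) (hci _)]
      all_goals exact Continuous.intervalIntegrable (by fun_prop) _ _
    rw [e]
    refine intervalIntegral.integral_mono_on (by norm_num) ?_ ?_ ?_
    · exact Continuous.intervalIntegrable ((pot_smooth m n).continuous.mul (by fun_prop)) _ _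
    · exact Continuous.intervalIntegrable (by fun_prop) _ _
    · intro x _
      have hs := Real.sin_sq (π * (x - x0))
      have hcos : Real.cos (2 * π * x) = Real.cos (2 * π * x0) *
          (2 * Real.cos (π * (x - x0)) ^ 2 - 1) -
          Real.sin (2 * π * x0) * (2 * Real.sin (π * (x - x0)) * Real.cos (π * (x - x0))) := by
        rw [show 2 * π * x = 2 * π * x0 + 2 * (π * (x - x0)) by ring, Real.cos_add,
          Real.cos_two_mul, Real.sin_two_mul]
      set c := Real.cos (π * (x - x0)) with hc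
      set s := Real.sin (π * (x - x0)) with hs'
      set C0 := Real.cos (2 * π * x0) with hC0
      set S0 := Real.sin (2 * π * x0) with hS0
      have hm : (m : ℝ) = -n * C0 := by
        rw [hC]
        field_simp
      have hC1 : C0 ^ 2 ≤ 1 := by
        rw [hC0]
        exact Real.cos_sq_le_one _
      have hc1 : c ^ 2 ≤ 1 := Real.cos_sq_le_one _
      have e1 : pot m n x = 16 * π ^ 2 * n ^ 2 * (C0 * s ^ 2 + S0 * s * c) ^ 2 := by
        unfold pot
        rw [hcos, hm]
        have : c ^ 2 = 1 - s ^ 2 := by linarith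
        have e0 : -(n : ℝ) * C0 + n * (C0 * (2 * c ^ 2 - 1) - S0 * (2 * s * c)) =
            -2 * n * (C0 * s ^ 2 + S0 * s * c) := by
          rw [this]
          ring
        rw [e0]
        ring
      have e2 : (C0 * s ^ 2 + S0 * s * c) ^ 2 ≤ 2 * (s ^ 4 + S2 * s ^ 2) := by
        have h1 : (C0 * s ^ 2 + S0 * s * c) ^ 2 ≤ 2 * ((C0 * s ^ 2) ^ 2 + (S0 * s * c) ^ 2) := by
          nlinarith [sq_nonneg (C0 * s ^ 2 - S0 * s * c)]
        have h2 : (C0 * s ^ 2) ^ 2 ≤ s ^ 4 := by
          have : 0 ≤ s ^ 4 := by positivity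
          calc (C0 * s ^ 2) ^ 2 = C0 ^ 2 * s ^ 4 := by ring
            _ ≤ 1 * s ^ 4 := mul_le_mul_of_nonneg_right hC1 this
            _ = s ^ 4 := one_mul _
        have h3 : (S0 * s * c) ^ 2 ≤ S2 * s ^ 2 := by
          have : 0 ≤ S0 ^ 2 * s ^ 2 := by positivity
          calc (S0 * s * c) ^ 2 = (S0 ^ 2 * s ^ 2) * c ^ 2 := by ring
            _ ≤ (S0 ^ 2 * s ^ 2) * 1 := mul_le_mul_of_nonneg_left hc1 this
            _ = S2 * s ^ 2 := by rw [mul_one]
        linarith
      have e3 : (c ^ (2 * p)) ^ 2 = c ^ (2 * (2 * p)) := by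
        rw [← pow_mul]
        congr 1
        ring
      have e4 : c ^ (2 * (2 * p + 1)) = c ^ (2 * (2 * p)) * c ^ 2 := by ring
      have e5 : c ^ (2 * (2 * p + 2)) = c ^ (2 * (2 * p)) * c ^ 4 := by ring
      have hP : 0 ≤ c ^ (2 * (2 * p)) := by
        rw [← e3]
        positivity
      rw [e1, e3, e4, e5]
      have hs4 : s ^ 4 = 1 - 2 * c ^ 2 + c ^ 4 := by
        have : s ^ 4 = (s ^ 2) ^ 2 := by ring
        rw [this, hs]
        ring
      calc 16 * π ^ 2 * n ^ 2 * (C0 * s ^ 2 + S0 * s * c) ^ 2 * c ^ (2 * (2 * p))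
          ≤ 16 * π ^ 2 * n ^ 2 * (2 * (s ^ 4 + S2 * s ^ 2)) * c ^ (2 * (2 * p)) :=
            mul_le_mul_of_nonneg_right (mul_le_mul_of_nonneg_left e2 (by positivity)) hP
        _ = _ := by
            rw [hs4, hs]
            ring
  rw [i1, i2] at hR
  -- arithmetic
  have r1 := K_rec x0 (2 * p - 1)
  have r2 := K_rec x0 (2 * p)
  have r3 := K_rec x0 (2 * p + 1)
  have hpos := K_pos x0 (2 * p)
  have hcast : ((2 * p - 1 : ℕ) : ℝ) = 2 * p - 1 := by
    rw [Nat.cast_sub (by omega)]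
    push_cast
    ring
  rw [show 2 * p - 1 + 1 = 2 * p by omega, hcast] at r1
  push_cast at r2 r3
  rw [show 2 * p + 1 + 1 = 2 * p + 2 by ring] at r3
  set P : ℝ := (p : ℝ) with hPdef
  set k := K x0 (2 * p) with hk
  have q1 : K x0 (2 * p - 1) - k = k / (4 * P - 1) := by
    have : (0 : ℝ) < 4 * P - 1 := by linarith
    field_simp
    linarith
  have q2 : k - K x0 (2 * p + 1) = k / (4 * P + 2) := by
    have : (0 : ℝ) < 4 * P + 2 := by linarith
    field_simp
    linarith
  have q3 : k - 2 * K x0 (2 * p + 1) + K x0 (2 * p + 2) = 3 * k / ((4 * P + 2) * (4 * P + 4)) := by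
    have h1 : (0 : ℝ) < 4 * P + 2 := by linarith
    have h2 : (0 : ℝ) < 4 * P + 4 := by linarith
    have h3 : K x0 (2 * p + 1) = (4 * P + 1) / (4 * P + 2) * k := by
      field_simp
      linarith
    have h4 : K x0 (2 * p + 2) = (4 * P + 3) / (4 * P + 4) * K x0 (2 * p + 1) := by
      field_simp
      linarith
    rw [h4, h3]
    field_simp
    ring
  rw [q1] at hR
  rw [q2, q3] at i3
  have hpi : π ^ 2 < 9.87 := by
    have := Real.pi_lt_d4
    have h0 := Real.pi_pos
    nlinarith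
  have hpi0 : 0 < π ^ 2 := by positivity
  have hfin := final_arith hΛ hpos hpR hp1 hp2 hpi hpi0 (sq_nonneg (n : ℝ)) hn2' hS2n
  have hsum : 32 * π ^ 2 * (n : ℝ) ^ 2 * (3 * k / ((4 * P + 2) * (4 * P + 4)) +
      S2 * (k / (4 * P + 2))) = 32 * π ^ 2 * n ^ 2 * (3 * k / ((4 * P + 2) * (4 * P + 4))) +
        32 * π ^ 2 * (S2 * n ^ 2 * (k / (4 * P + 2))) := by ring
  rw [hsum] at i3
  linarith

end Pool.Agent.H223.SR
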