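import Pool.Agent.H223.SR.Stm

set_option autoImplicit false

open MeasureTheory Set Filter Topology
open scoped ContDiff Real ComplexConjugate

namespace Pool.Agent.H223.SR

namespace Mat1

/-! ### Integrals of products -/

lemma integral_prod6 (h : Fin 6 → UnitAddCircle → ℂ) :
    ∫ x : Tor 6, ∏ i, h i (x i) ∂vol 6 = ∏ i, ∫ t, h i t ∂hm :=
  integral_fintype_prod_eq_prod h

lemma integral_prod6r (h : Fin 6 → UnitAddCircle → ℝ) :
    ∫ x : Tor 6, ∏ i, h i (x i) ∂vol 6 = ∏ i, ∫ t, h i t ∂hm :=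
  integral_fintype_prod_eq_prod h

/-- Fourier coefficients of products -/
lemma coef (g : Fin 6 → C(UnitAddCircle, ℂ)) (κ : Fin 6 → ℤ) :
    inner ℂ (mono κ) (cls (tens g)) = ∏ i, fourierCoeff (g i) (κ i) := by
  have h1 : inner ℂ (mono κ) (cls (tens g)) =
      ∫ x : Tor 6, tens g x * conj (UnitAddTorus.mFourier κ x) ∂vol 6 :=
    ContinuousMap.inner_toLp (vol 6) (UnitAddTorus.mFourier κ) (tens g)
  have h2 : ∀ x : Tor 6, tens g x * conj (UnitAddTorus.mFourier κ x) =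
      ∏ i, (fun i t => fourier (-κ i) t • g i t) i (x i) := by
    intro x
    rw [← UnitAddTorus.mFourier_neg]
    simp only [tens, UnitAddTorus.mFourier, ContinuousMap.coe_mk, Pi.neg_apply, smul_eq_mul]
    rw [← Finset.prod_mul_distrib]
    exact Finset.prod_congr rfl fun i _ => mul_comm _ _
  rw [h1]
  refine (integral_congr_ae (Eventually.of_forall h2)).trans ?_
  refine (integral_prod6 (fun i t => fourier (-κ i) t • g i t)).trans ?_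
  rfl

lemma norm_tens (g : Fin 6 → C(UnitAddCircle, ℂ)) (f : Fin 6 → UnitAddCircle → ℝ) :
    ∫ x : Tor 6, (∏ i, f i (x i)) * ‖tens g x‖ ^ 2 ∂vol 6 =
      ∏ i, ∫ t, f i t * ‖g i t‖ ^ 2 ∂hm := by
  rw [← integral_prod6r]
  congr 1
  funext x
  simp only [tens, ContinuousMap.coe_mk, norm_prod]
  rw [← Finset.prod_pow, ← Finset.prod_mul_distrib]

lemma cls_norm (ψ : C(Tor 6, ℂ)) : ‖cls ψ‖ ^ 2 = ∫ x, ‖ψ x‖ ^ 2 ∂vol 6 := by
  have h1 : (inner ℂ (cls ψ) (cls ψ) : ℂ) = ∫ x : Tor 6, ψ x * conj (ψ x) ∂vol 6 :=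
    ContinuousMap.inner_toLp (vol 6) ψ ψ
  have h2 : (inner ℂ (cls ψ) (cls ψ) : ℂ) = ((‖cls ψ‖ ^ 2 : ℝ) : ℂ) := by
    rw [inner_self_eq_norm_sq_to_K]; push_cast; rfl
  have h3 : ∫ x : Tor 6, ψ x * conj (ψ x) ∂vol 6 = ((∫ x, ‖ψ x‖ ^ 2 ∂vol 6 : ℝ) : ℂ) := by
    rw [← integral_complex_ofReal]
    congr 1
    funext x
    rw [Complex.mul_conj, Complex.normSq_eq_norm_sq]
  rw [h2, h3] at h1
  exact_mod_cast h1

lemma fourierCoeff_fourier (m k : ℤ) :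
    fourierCoeff (fourier m : C(UnitAddCircle, ℂ)) k = if k = m then 1 else 0 := by
  have h := orthonormal_iff_ite.1 (orthonormal_fourier (T := (1 : ℝ))) k m
  rw [← h]
  have h1 : inner ℂ (fourierLp 2 k) (fourierLp 2 m) =
      ∫ t : UnitAddCircle, fourier m t * conj (fourier k t) ∂hm :=
    ContinuousMap.inner_toLp hm (fourier k) (fourier m)
  rw [h1]
  unfold fourierCoeff
  congr 1
  funext t
  rw [← fourier_neg, smul_eq_mul, mul_comm]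

lemma bessel (u : C(UnitAddCircle, ℂ)) (hu : ∫ t, ‖u t‖ ^ 2 ∂hm = 1) (s : Finset ℤ) :
    ∑ k ∈ s, ‖fourierCoeff u k‖ ^ 2 ≤ 1 := by
  have h := (orthonormal_fourier (T := (1 : ℝ))).sum_inner_products_le
    (ContinuousMap.toLp 2 hm ℂ u) (s := s)
  have h1 : ∀ k, inner ℂ (fourierLp 2 k) (ContinuousMap.toLp 2 hm ℂ u) = fourierCoeff u k := by
    intro k
    have h2 : inner ℂ (fourierLp 2 k) (ContinuousMap.toLp 2 hm ℂ u) =
        ∫ t : UnitAddCircle, u t * conj (fourier k t) ∂hm :=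
      ContinuousMap.inner_toLp hm (fourier k) u
    rw [h2]
    unfold fourierCoeff
    congr 1
    funext t
    rw [← fourier_neg, smul_eq_mul, mul_comm]
  simp_rw [h1] at h
  refine h.trans (le_of_eq ?_)
  have h1 : (inner ℂ (ContinuousMap.toLp 2 hm ℂ u) (ContinuousMap.toLp 2 hm ℂ u) : ℂ) =
      ∫ t, u t * conj (u t) ∂hm := ContinuousMap.inner_toLp hm u u
  have h2 : (inner ℂ (ContinuousMap.toLp 2 hm ℂ u) (ContinuousMap.toLp 2 hm ℂ u) : ℂ) =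
      ((‖ContinuousMap.toLp 2 hm ℂ u‖ ^ 2 : ℝ) : ℂ) := by
    rw [inner_self_eq_norm_sq_to_K]; push_cast; rfl
  have h3 : ∫ t, u t * conj (u t) ∂hm = ((∫ t, ‖u t‖ ^ 2 ∂hm : ℝ) : ℂ) := by
    rw [← integral_complex_ofReal]
    congr 1
    funext x
    rw [Complex.mul_conj, Complex.normSq_eq_norm_sq]
  rw [h2, h3, hu] at h1
  exact_mod_cast h1

lemma unit (m n : ℤ) (u : ℕ → C(UnitAddCircle, ℂ)) (E : ℕ → ℝ) (h : OneD m n u E) (i : ℕ) :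
    ∫ t, ‖u i t‖ ^ 2 ∂hm = 1 := by
  have h1 := h.orth i i
  rw [if_pos rfl] at h1
  have h3 : ∫ t, conj (u i t) * u i t ∂hm = ((∫ t, ‖u i t‖ ^ 2 ∂hm : ℝ) : ℂ) := by
    rw [← integral_complex_ofReal]
    congr 1
    funext x
    rw [mul_comm, Complex.mul_conj, Complex.normSq_eq_norm_sq]
  rw [h3] at h1
  exact_mod_cast h1

lemma unit_fourier (m : ℤ) : ∫ t, ‖(fourier m : C(UnitAddCircle, ℂ)) t‖ ^ 2 ∂hm = 1 := by
  have : ∀ t : UnitAddCircle, ‖(fourier m : C(UnitAddCircle, ℂ)) t‖ ^ 2 = 1 := by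
    intro t
    rw [fourier_apply, Circle.norm_coe, one_pow]
  simp_rw [this]
  simp

/-! ### Labels -/

lemma pos_xs (m n : ℤ) (hm : m ≠ 0) (hn : n ≠ 0) :
    pos (decide (0 < m)) (decide (0 < n)) = xs m n := by
  have h : (decide (0 < m) = decide (0 < n)) ↔ 0 < m * n := by
    rw [decide_eq_decide, mul_pos_iff]
    omega
  unfold pos xs
  by_cases h1 : 0 < m * n
  · rw [if_pos h1, if_pos (h.2 h1)]
  · rw [if_neg h1, if_neg fun h2 => h1 (h.1 h2)]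

lemma sg_mul (m : ℤ) (hm : m ≠ 0) : sg (decide (0 < m)) * |(m : ℝ)| = m := by
  unfold sg
  rcases lt_or_gt_of_ne hm with h | h
  · have h1 : ¬ 0 < m := by omega
    have h2 : (m : ℝ) < 0 := by exact_mod_cast h
    simp [h1, abs_of_neg h2]
  · have h2 : 0 < (m : ℝ) := by exact_mod_cast h
    simp [h, abs_of_pos h2]

lemma sg_abs (b : Bool) : |sg b| = 1 := by
  unfold sg
  cases b <;> simp

lemma dir_ne (l : Lab) : dir l ≠ 0 := by
  unfold dir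
  split
  · intro h
    have := congrFun h 1
    simp at this
    have h2 := sg_abs l.1
    rw [this] at h2
    simp at h2
  · intro h
    have := congrFun h 4
    simp at this
    have h2 := sg_abs l.2.2.1
    rw [this] at h2
    simp at h2

/-! ### Sums of the Fourier coefficients -/

lemma coef_psi (u : ℤ → ℤ → ℕ → C(UnitAddCircle, ℂ)) (γ : I3 × I3) (κ : Fin 6 → ℤ) :
    inner ℂ (mono κ) (cls (psi u γ)) =
      if κ 1 = γ.1.1 ∧ κ 2 = γ.1.2.1 ∧ κ 4 = γ.2.1 ∧ κ 5 = γ.2.2.1 then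
        fourierCoeff (u γ.1.1 γ.1.2.1 γ.1.2.2) (κ 0) * fourierCoeff (u γ.2.1 γ.2.2.1 γ.2.2.2) (κ 3)
      else 0 := by
  unfold psi
  rw [coef, Fin.prod_univ_six]
  simp only [Matrix.cons_val_zero, Matrix.cons_val_one, Matrix.cons_val, fourierCoeff_fourier]
  by_cases h1 : κ 1 = γ.1.1
  · by_cases h2 : κ 2 = γ.1.2.1
    · by_cases h4 : κ 4 = γ.2.1
      · by_cases h5 : κ 5 = γ.2.2.1
        · simp [h1, h2, h4, h5]
        · simp [h5]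
      · simp [h4]
    · simp [h2]
  · simp [h1]

lemma sum_bd (a b : ℤ → ℝ) (ha : ∀ k, 0 ≤ a k) (hb : ∀ k, 0 ≤ b k)
    (ha1 : ∀ s : Finset ℤ, ∑ k ∈ s, a k ≤ 1) (hb1 : ∀ s : Finset ℤ, ∑ k ∈ s, b k ≤ 1)
    (D η : ℝ) (hη : 0 ≤ η) (haf : ∀ s : Finset ℤ, (∀ k ∈ s, D ≤ |(k : ℝ)|) → ∑ k ∈ s, a k ≤ η)
    (hbf : ∀ s : Finset ℤ, (∀ k ∈ s, D ≤ |(k : ℝ)|) → ∑ k ∈ s, b k ≤ η)
    (p q r t : ℤ) (w : (Fin 6 → ℤ) → ℝ) (om B : ℝ) (hom : 0 ≤ om) (hB : 0 ≤ B)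
    (hw : ∀ κ : Fin 6 → ℤ, κ 1 = p → κ 2 = q → κ 4 = r → κ 5 = t → |(κ 0 : ℝ)| < D →
      |(κ 3 : ℝ)| < D → w κ ≤ om) (hwB : ∀ κ, w κ ≤ B) (s : Finset (Fin 6 → ℤ)) :
    ∑ κ ∈ s, w κ * (if κ 1 = p ∧ κ 2 = q ∧ κ 4 = r ∧ κ 5 = t then a (κ 0) * b (κ 3) else 0) ≤
      om + 2 * B * η := by
  classical
  set F : ℤ × ℤ → ℝ := fun k => (om + B * (if D ≤ |(k.1 : ℝ)| then 1 else 0) +
    B * (if D ≤ |(k.2 : ℝ)| then 1 else 0)) * (a k.1 * b k.2) with hF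
  have hF0 : ∀ k, 0 ≤ F k := by
    intro k
    have := ha k.1
    have := hb k.2
    rw [hF]
    dsimp only
    split_ifs <;> positivity
  have h1 : ∀ κ ∈ s, w κ * (if κ 1 = p ∧ κ 2 = q ∧ κ 4 = r ∧ κ 5 = t then a (κ 0) * b (κ 3)
      else 0) ≤ if κ 1 = p ∧ κ 2 = q ∧ κ 4 = r ∧ κ 5 = t then F (κ 0, κ 3) else 0 := by
    intro κ _
    by_cases h : κ 1 = p ∧ κ 2 = q ∧ κ 4 = r ∧ κ 5 = t
    · rw [if_pos h, if_pos h]
      rw [hF]
      dsimp only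
      refine mul_le_mul_of_nonneg_right ?_ (mul_nonneg (ha _) (hb _))
      by_cases h0 : D ≤ |(κ 0 : ℝ)|
      · rw [if_pos h0]
        have := hwB κ
        have : 0 ≤ B * (if D ≤ |(κ 3 : ℝ)| then (1 : ℝ) else 0) := by
          split_ifs <;> simp [hB]
        linarith
      · by_cases h3 : D ≤ |(κ 3 : ℝ)|
        · rw [if_pos h3]
          have := hwB κ
          have : 0 ≤ B * (if D ≤ |(κ 0 : ℝ)| then (1 : ℝ) else 0) := by
            split_ifs <;> simp [hB]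
          linarith
        · rw [if_neg h0, if_neg h3]
          have := hw κ h.1 h.2.1 h.2.2.1 h.2.2.2 (not_le.1 h0) (not_le.1 h3)
          linarith
    · rw [if_neg h, if_neg h, mul_zero]
  refine (Finset.sum_le_sum h1).trans ?_
  rw [← Finset.sum_filter]
  set s' := s.filter fun κ : Fin 6 → ℤ => κ 1 = p ∧ κ 2 = q ∧ κ 4 = r ∧ κ 5 = t with hs'
  have hinj : Set.InjOn (fun κ : Fin 6 → ℤ => (κ 0, κ 3)) s' := by
    intro κ hκ κ' hκ' h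
    simp only [hs', Finset.coe_filter, Set.mem_setOf_eq] at hκ hκ'
    simp only [Prod.mk.injEq] at h
    funext i
    fin_cases i
    · exact h.1
    · exact hκ.2.1.trans hκ'.2.1.symm
    · exact hκ.2.2.1.trans hκ'.2.2.1.symm
    · exact h.2
    · exact hκ.2.2.2.1.trans hκ'.2.2.2.1.symm
    · exact hκ.2.2.2.2.trans hκ'.2.2.2.2.symm
  have h2 : ∑ κ ∈ s', F (κ 0, κ 3) = ∑ k ∈ s'.image (fun κ : Fin 6 → ℤ => (κ 0, κ 3)), F k := by
    rw [Finset.sum_image hinj]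
  rw [h2]
  set S0 := s'.image fun κ : Fin 6 → ℤ => κ 0
  set S3 := s'.image fun κ : Fin 6 → ℤ => κ 3
  have h3 : s'.image (fun κ : Fin 6 → ℤ => (κ 0, κ 3)) ⊆ S0 ×ˢ S3 := by
    intro k hk
    obtain ⟨κ, hκ, rfl⟩ := Finset.mem_image.1 hk
    exact Finset.mem_product.2 ⟨Finset.mem_image_of_mem _ hκ, Finset.mem_image_of_mem _ hκ⟩
  refine (Finset.sum_le_sum_of_subset_of_nonneg h3 fun k _ _ => hF0 k).trans ?_
  have h4 : ∑ k ∈ S0 ×ˢ S3, F k = om * ((∑ k ∈ S0, a k) * ∑ k ∈ S3, b k) +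
      B * ((∑ k ∈ S0.filter (fun k : ℤ => D ≤ |(k : ℝ)|), a k) * ∑ k ∈ S3, b k) +
      B * ((∑ k ∈ S0, a k) * ∑ k ∈ S3.filter (fun k : ℤ => D ≤ |(k : ℝ)|), b k) := by
    rw [Finset.sum_product, Finset.sum_filter, Finset.sum_filter, Finset.sum_mul_sum,
      Finset.sum_mul_sum, Finset.sum_mul_sum, Finset.mul_sum, Finset.mul_sum, Finset.mul_sum,
      ← Finset.sum_add_distrib, ← Finset.sum_add_distrib]
    refine Finset.sum_congr rfl fun k _ => ?_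
    rw [Finset.mul_sum, Finset.mul_sum, Finset.mul_sum, ← Finset.sum_add_distrib,
      ← Finset.sum_add_distrib]
    refine Finset.sum_congr rfl fun k' _ => ?_
    rw [hF]
    dsimp only
    split_ifs <;> ring
  rw [h4]
  have e1 := ha1 S0
  have e2 := hb1 S3
  have e3 := haf (S0.filter fun k : ℤ => D ≤ |(k : ℝ)|) (fun k hk => (Finset.mem_filter.1 hk).2)
  have e4 := hbf (S3.filter fun k : ℤ => D ≤ |(k : ℝ)|) (fun k hk => (Finset.mem_filter.1 hk).2)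
  have n1 : 0 ≤ ∑ k ∈ S0, a k := Finset.sum_nonneg fun k _ => ha k
  have n2 : 0 ≤ ∑ k ∈ S3, b k := Finset.sum_nonneg fun k _ => hb k
  have n3 : 0 ≤ ∑ k ∈ S0.filter (fun k : ℤ => D ≤ |(k : ℝ)|), a k := Finset.sum_nonneg fun k _ => ha k
  have n4 : 0 ≤ ∑ k ∈ S3.filter (fun k : ℤ => D ≤ |(k : ℝ)|), b k := Finset.sum_nonneg fun k _ => hb k
  have m1 : (∑ k ∈ S0, a k) * ∑ k ∈ S3, b k ≤ 1 := mul_le_one₀ e1 n2 e2
  have m2 : (∑ k ∈ S0.filter (fun k : ℤ => D ≤ |(k : ℝ)|), a k) * ∑ k ∈ S3, b k ≤ η :=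
    (mul_le_mul e3 e2 n2 hη).trans (by rw [mul_one])
  have m3 : (∑ k ∈ S0, a k) * ∑ k ∈ S3.filter (fun k : ℤ => D ≤ |(k : ℝ)|), b k ≤ η :=
    (mul_le_mul e1 e4 n4 zero_le_one).trans (by rw [one_mul])
  have q1 := mul_le_mul_of_nonneg_left m1 hom
  have q2 := mul_le_mul_of_nonneg_left m2 hB
  have q3 := mul_le_mul_of_nonneg_left m3 hB
  linarith

/-! ### Bounds and continuity of the symbol -/

lemma dir_cont (e : Elem) (om : ℝ) (hom : 0 < om) : ∃ δ : ℝ, 0 < δ ∧ ∀ l : Lab,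
    ∀ ξ : Fin 6 → ℝ, (∀ i, |ξ i - dir l i| ≤ δ) → |e.β ξ - e.β (dir l)| ≤ om := by
  have h : ∀ l : Lab, ∃ δ : ℝ, 0 < δ ∧ ∀ ξ : Fin 6 → ℝ, (∀ i, |ξ i - dir l i| ≤ δ) →
      |e.β ξ - e.β (dir l)| ≤ om := by
    intro l
    have hc : ContinuousAt e.β (dir l) :=
      e.smoothβ.continuousOn.continuousAt (isOpen_ne.mem_nhds (dir_ne l))
    obtain ⟨δ, hδ, h⟩ := Metric.continuousAt_iff.1 hc om hom
    refine ⟨δ / 2, half_pos hδ, fun ξ hξ => ?_⟩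
    have h1 : dist ξ (dir l) < δ := by
      rw [dist_pi_lt_iff hδ]
      intro i
      rw [Real.dist_eq]
      linarith [hξ i]
    have := h h1
    rw [Real.dist_eq] at this
    exact this.le
  choose δ hδ h using h
  obtain ⟨l0, -, hl0⟩ := Finset.exists_min_image (Finset.univ : Finset Lab) δ
    Finset.univ_nonempty
  exact ⟨δ l0, hδ l0, fun l ξ hξ => h l ξ fun i => (hξ i).trans (hl0 l (Finset.mem_univ _))⟩

lemma beta_bd (e : Elem) : ∃ B : ℝ, 0 < B ∧ ∀ ξ, |e.β ξ| ≤ B := by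
  have hK : IsCompact (Metric.sphere (0 : Fin 6 → ℝ) 1) := isCompact_sphere _ _
  have hc : ContinuousOn e.β (Metric.sphere (0 : Fin 6 → ℝ) 1) := by
    refine e.smoothβ.continuousOn.mono fun ξ hξ => ?_
    have h1 : ‖ξ‖ = 1 := mem_sphere_zero_iff_norm.1 hξ
    intro h0
    rw [h0, norm_zero] at h1
    exact zero_ne_one h1
  obtain ⟨B, hB⟩ := hK.exists_bound_of_continuousOn hc
  refine ⟨max B |e.β 0| + 1, ?_, fun ξ => ?_⟩
  · have := (abs_nonneg (e.β 0)).trans (le_max_right B |e.β 0|)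
    linarith
  · by_cases h : ξ = 0
    · rw [h]
      have := le_max_right B |e.β 0|
      linarith
    · have hn : 0 < ‖ξ‖ := norm_pos_iff.2 h
      have h1 : e.β (‖ξ‖⁻¹ • ξ) = e.β ξ := e.homog ξ _ (inv_pos.2 hn)
      have h2 := hB (‖ξ‖⁻¹ • ξ) (by
        rw [mem_sphere_zero_iff_norm, norm_smul, norm_inv, norm_norm, inv_mul_cancel₀ hn.ne'])
      rw [h1, Real.norm_eq_abs] at h2
      have := le_max_left B |e.β 0|
      linarith

lemma g_bd (e : Elem) : ∃ G : ℝ, 1 ≤ G ∧ ∀ i t, |e.g i t| ≤ G := by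
  refine ⟨1 + ∑ i, ‖e.g i‖, ?_, fun i t => ?_⟩
  · have : 0 ≤ ∑ i, ‖e.g i‖ := Finset.sum_nonneg fun i _ => norm_nonneg _
    linarith
  · have h1 : |e.g i t| ≤ ‖e.g i‖ := (e.g i).norm_coe_le_norm t
    have h2 : ‖e.g i‖ ≤ ∑ i, ‖e.g i‖ :=
      Finset.single_le_sum (f := fun i => ‖e.g i‖) (fun i _ => norm_nonneg _) (Finset.mem_univ i)
    linarith

lemma close0 (x N δ : ℝ) (hN : 0 < N) (h : |x| ≤ δ * N) : |x / N - 0| ≤ δ := by
  rw [sub_zero, abs_div, abs_of_pos hN, div_le_iff₀ hN]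
  exact h

lemma close1 (δ N : ℝ) (hN : 0 < N) (m : ℤ) (hm : m ≠ 0) (h : |(|(m : ℝ)| - N)| ≤ δ * N) :
    |(m : ℝ) / N - sg (decide (0 < m))| ≤ δ := by
  have h1 := sg_mul m hm
  have h2 : (m : ℝ) / N - sg (decide (0 < m)) = sg (decide (0 < m)) * ((|(m : ℝ)| - N) / N) := by
    field_simp
    rw [mul_sub, h1]
    ring
  rw [h2, abs_mul, sg_abs, one_mul, abs_div, abs_of_pos hN, div_le_iff₀ hN]
  exact h

/-- the main closeness of the directions -/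
lemma close (m1 n1 m2 n2 : ℤ) (hm1 : m1 ≠ 0) (hn1 : n1 ≠ 0) (hm2 : m2 ≠ 0) (hn2 : n2 ≠ 0)
    (δ N : ℝ) (hN : 0 < N) (hδ : 0 < δ) (hδ1 : δ ≤ 1 / 2)
    (h1 : |(|(m1 : ℝ)| - |(n1 : ℝ)|)| ≤ δ * |(n1 : ℝ)|)
    (h2 : |(|(m2 : ℝ)| - |(n2 : ℝ)|)| ≤ δ * |(n2 : ℝ)|)
    (hg : (|n2| < |n1| ∧ N = |(n1 : ℝ)| ∧ |(n2 : ℝ)| ≤ δ / 2 * |(n1 : ℝ)|) ∨
      (¬ |n2| < |n1| ∧ N = |(n2 : ℝ)| ∧ |(n1 : ℝ)| ≤ δ / 2 * |(n2 : ℝ)|))
    (κ : Fin 6 → ℤ) (k1 : κ 1 = m1) (k2 : κ 2 = n1) (k4 : κ 4 = m2) (k5 : κ 5 = n2)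
    (k0 : |(κ 0 : ℝ)| < δ * N) (k3 : |(κ 3 : ℝ)| < δ * N) (i : Fin 6) :
    |(N⁻¹ • fun i => (κ i : ℝ)) i - dir (decide (0 < m1), decide (0 < n1), decide (0 < m2),
      decide (0 < n2), decide (|n2| < |n1|)) i| ≤ δ := by
  have hsm : (N⁻¹ • fun i => (κ i : ℝ)) i = (κ i : ℝ) / N := by
    rw [Pi.smul_apply, smul_eq_mul, inv_mul_eq_div]
  rw [hsm]
  rcases hg with ⟨g1, g2, g3⟩ | ⟨g1, g2, g3⟩
  · have hd : dir (decide (0 < m1), decide (0 < n1), decide (0 < m2), decide (0 < n2),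
        decide (|n2| < |n1|)) = ![0, sg (decide (0 < m1)), sg (decide (0 < n1)), 0, 0, 0] := by
      unfold dir
      rw [if_pos (decide_eq_true g1)]
    rw [hd]
    fin_cases i
    · exact close0 _ N δ hN k0.le
    · change |(κ 1 : ℝ) / N - sg (decide (0 < m1))| ≤ δ
      rw [k1]
      exact close1 δ N hN m1 hm1 (by rw [g2]; exact h1)
    · change |(κ 2 : ℝ) / N - sg (decide (0 < n1))| ≤ δ
      rw [k2]
      refine close1 δ N hN n1 hn1 ?_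
      rw [g2, sub_self, abs_zero]
      positivity
    · exact close0 _ N δ hN k3.le
    · change |(κ 4 : ℝ) / N - 0| ≤ δ
      rw [k4]
      refine close0 _ N δ hN ?_
      rw [g2]
      have e1 := abs_le.1 h2
      have e2 := abs_nonneg (n2 : ℝ)
      nlinarith
    · change |(κ 5 : ℝ) / N - 0| ≤ δ
      rw [k5]
      refine close0 _ N δ hN ?_
      rw [g2]
      have e2 := abs_nonneg (n1 : ℝ)
      nlinarith
  · have hd : dir (decide (0 < m1), decide (0 < n1), decide (0 < m2), decide (0 < n2),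
        decide (|n2| < |n1|)) = ![0, 0, 0, 0, sg (decide (0 < m2)), sg (decide (0 < n2))] := by
      unfold dir
      rw [if_neg (by simpa using g1)]
    rw [hd]
    fin_cases i
    · exact close0 _ N δ hN k0.le
    · change |(κ 1 : ℝ) / N - 0| ≤ δ
      rw [k1]
      refine close0 _ N δ hN ?_
      rw [g2]
      have e1 := abs_le.1 h1
      have e2 := abs_nonneg (n1 : ℝ)
      nlinarith
    · change |(κ 2 : ℝ) / N - 0| ≤ δ
      rw [k2]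
      refine close0 _ N δ hN ?_
      rw [g2]
      have e2 := abs_nonneg (n2 : ℝ)
      nlinarith
    · exact close0 _ N δ hN k3.le
    · change |(κ 4 : ℝ) / N - sg (decide (0 < m2))| ≤ δ
      rw [k4]
      exact close1 δ N hN m2 hm2 (by rw [g2]; exact h2)
    · change |(κ 5 : ℝ) / N - sg (decide (0 < n2))| ≤ δ
      rw [k5]
      refine close1 δ N hN n2 hn2 ?_
      rw [g2, sub_self, abs_zero]
      positivity

lemma nrm_fourier (m : ℤ) (t : UnitAddCircle) : ‖(fourier m : C(UnitAddCircle, ℂ)) t‖ ^ 2 = 1 := by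
  rw [fourier_apply, Circle.norm_coe, one_pow]

/-- the position density of the product functions -/
lemma psi_int (u : ℤ → ℤ → ℕ → C(UnitAddCircle, ℂ)) (m1 n1 m2 n2 : ℤ) (i1 i2 : ℕ)
    (f : Fin 6 → UnitAddCircle → ℝ) :
    ∫ x : Tor 6, (∏ i, f i (x i)) * ‖psi u ((m1, n1, i1), (m2, n2, i2)) x‖ ^ 2 ∂vol 6 =
      (∫ t, f 0 t * ‖u m1 n1 i1 t‖ ^ 2 ∂hm) * (∫ t, f 1 t ∂hm) * (∫ t, f 2 t ∂hm) *
        (∫ t, f 3 t * ‖u m2 n2 i2 t‖ ^ 2 ∂hm) * (∫ t, f 4 t ∂hm) * (∫ t, f 5 t ∂hm) := by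
  unfold psi
  rw [norm_tens, Fin.prod_univ_six]
  simp only [Matrix.cons_val_zero, Matrix.cons_val_one, Matrix.cons_val, nrm_fourier, mul_one]

lemma psi_norm (u : ℤ → ℤ → ℕ → C(UnitAddCircle, ℂ)) (E : ℤ → ℤ → ℕ → ℝ)
    (h : ∀ m n, OneD m n (u m n) (E m n)) (m1 n1 m2 n2 : ℤ) (i1 i2 : ℕ) :
    ‖cls (psi u ((m1, n1, i1), (m2, n2, i2)))‖ = 1 := by
  have h1 := psi_int u m1 n1 m2 n2 i1 i2 fun _ _ => 1
  simp only [Finset.prod_const_one, one_mul, unit _ _ _ _ (h _ _)] at h1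
  rw [← cls_norm] at h1
  have h2 : ∫ _ : UnitAddCircle, (1 : ℝ) ∂hm = 1 := by simp
  rw [h2] at h1
  norm_num at h1
  rcases h1 with h1 | h1
  · exact h1
  · have := norm_nonneg (cls (psi u ((m1, n1, i1), (m2, n2, i2))))
    linarith

lemma avg_bd (g : C(UnitAddCircle, ℝ)) (G : ℝ) (h : ∀ t, |g t| ≤ G) : |∫ t, g t ∂hm| ≤ G := by
  have := norm_integral_le_of_norm_le_const (μ := hm) (f := fun t => g t) (C := G)
    (Eventually.of_forall h)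
  simpa using this

/-- product estimate -/
lemma prod_est (a0 b0 a3 b3 c1 c2 c4 c5 G η : ℝ) (hG : 1 ≤ G) (h0 : |a0 - b0| ≤ η)
    (h3 : |a3 - b3| ≤ η) (ha3 : |a3| ≤ G) (hb0 : |b0| ≤ G) (h1 : |c1| ≤ G) (h2 : |c2| ≤ G)
    (h4 : |c4| ≤ G) (h5 : |c5| ≤ G) :
    |a0 * c1 * c2 * a3 * c4 * c5 - b0 * c1 * c2 * b3 * c4 * c5| ≤ 2 * G ^ 5 * η := by
  have e : a0 * c1 * c2 * a3 * c4 * c5 - b0 * c1 * c2 * b3 * c4 * c5 =
      ((a0 - b0) * a3 + b0 * (a3 - b3)) * (c1 * c2 * c4 * c5) := by ring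
  have hη : 0 ≤ η := (abs_nonneg _).trans h0
  have hG0 : 0 ≤ G := by linarith
  rw [e, abs_mul]
  have e1 : |(a0 - b0) * a3 + b0 * (a3 - b3)| ≤ η * G + G * η := by
    refine (abs_add_le _ _).trans (add_le_add ?_ ?_)
    · rw [abs_mul]
      exact mul_le_mul h0 ha3 (abs_nonneg _) hη
    · rw [abs_mul]
      exact mul_le_mul hb0 h3 (abs_nonneg _) hG0
  have e2 : |c1 * c2 * c4 * c5| ≤ G * G * G * G := by
    rw [abs_mul, abs_mul, abs_mul]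
    gcongr
  calc _ ≤ (η * G + G * η) * (G * G * G * G) :=
        mul_le_mul e1 e2 (abs_nonneg _) (by positivity)
    _ = _ := by ring

end Mat1

open Mat1 in
theorem t_MAT : S_LOC1 → S_OPEST → S_ENERGY → S_MAT := by
  intro hLOC hOP hEN u E hone e A hA η hη
  obtain ⟨hL1, hL2, hL3⟩ := hLOC u E hone
  obtain ⟨B, hB, hβ⟩ := beta_bd e
  obtain ⟨G, hG, hg⟩ := g_bd e
  have hG0 : 0 < G := by linarith
  obtain ⟨ρ, hρ, hρ'⟩ : ∃ ρ : ℝ, 0 < ρ ∧ G ^ 6 * ρ = η / 2 :=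
    ⟨η / (2 * G ^ 6), by positivity, by field_simp⟩
  obtain ⟨δ0, hδ0, hdir⟩ := dir_cont e (ρ / 2) (half_pos hρ)
  obtain ⟨δ, hδ, hδ1, hδ2⟩ : ∃ δ : ℝ, 0 < δ ∧ δ ≤ 1 / 2 ∧ δ ≤ δ0 :=
    ⟨min (1 / 2) δ0, lt_min (by norm_num) hδ0, min_le_left _ _, min_le_right _ _⟩
  obtain ⟨η1, hη1, hη1'⟩ : ∃ η1 : ℝ, 0 < η1 ∧ B * (2 * G ^ 5 * η1) = η / 2 :=
    ⟨η / (4 * B * G ^ 5), by positivity, by field_simp; ring⟩
  obtain ⟨η2, hη2, hη2'⟩ : ∃ η2 : ℝ, 0 < η2 ∧ 2 * (4 * B ^ 2) * η2 = ρ ^ 2 / 2 :=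
    ⟨ρ ^ 2 / (16 * B ^ 2), by positivity, by field_simp; ring⟩
  obtain ⟨K1, hK1, h1⟩ := hL1 δ hδ
  obtain ⟨K2, hK2, h2⟩ := hL2 (e.g 0) η1 hη1
  obtain ⟨K3, hK3, h3⟩ := hL2 (e.g 3) η1 hη1
  obtain ⟨K4, hK4, h4⟩ := hL3 δ η2 hδ hη2
  refine ⟨max (max K1 K2) (max K3 K4), δ / 2, lt_of_lt_of_le hK1
    ((le_max_left _ _).trans (le_max_left _ _)), half_pos hδ, ?_⟩
  rintro Λ hΛ ⟨⟨m1, n1, i1⟩, ⟨m2, n2, i2⟩⟩ hγ ⟨gd1, gd2, gd3⟩
  simp only at gd1 gd2 gd3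
  have hγ' : E m1 n1 i1 + E m2 n2 i2 ≤ Λ := hγ
  have p1 := (hEN m1 n1 (u m1 n1) (E m1 n1) (hone m1 n1) i1).1
  have p2 := (hEN m2 n2 (u m2 n2) (E m2 n2) (hone m2 n2) i2).1
  have E1 : E m1 n1 i1 ≤ Λ := by linarith
  have E2 : E m2 n2 i2 ≤ Λ := by linarith
  have hΛ0 : 0 < Λ := by linarith
  have kk : ∀ K', K' ≤ max (max K1 K2) (max K3 K4) → ∀ x : ℝ,
      max (max K1 K2) (max K3 K4) * Λ ≤ x → K' * Λ ≤ x := fun K' hK' x hx =>
    (mul_le_mul_of_nonneg_right hK' hΛ0.le).trans hx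
  have q1 : K1 ≤ max (max K1 K2) (max K3 K4) := (le_max_left _ _).trans (le_max_left _ _)
  have q2 : K2 ≤ max (max K1 K2) (max K3 K4) := (le_max_right _ _).trans (le_max_left _ _)
  have q3 : K3 ≤ max (max K1 K2) (max K3 K4) := (le_max_left _ _).trans (le_max_right _ _)
  have q4 : K4 ≤ max (max K1 K2) (max K3 K4) := (le_max_right _ _).trans (le_max_right _ _)
  have N1 : 0 < |(n1 : ℝ)| := lt_of_lt_of_le (mul_pos hK1 hΛ0) (kk K1 q1 _ gd1)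
  have N2 : 0 < |(n2 : ℝ)| := lt_of_lt_of_le (mul_pos hK1 hΛ0) (kk K1 q1 _ gd2)
  have hn1 : n1 ≠ 0 := by
    rintro rfl
    simp at N1
  have hn2 : n2 ≠ 0 := by
    rintro rfl
    simp at N2
  have M1 := h1 Λ hΛ m1 n1 i1 E1 (kk K1 q1 _ gd1)
  have M2 := h1 Λ hΛ m2 n2 i2 E2 (kk K1 q1 _ gd2)
  have hm1 : m1 ≠ 0 := by
    rintro rfl
    simp only [Int.cast_zero, abs_zero, zero_sub, abs_neg, abs_abs] at M1
    nlinarith
  have hm2 : m2 ≠ 0 := by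
    rintro rfl
    simp only [Int.cast_zero, abs_zero, zero_sub, abs_neg, abs_abs] at M2
    nlinarith
  -- the two cases
  have hcase : ∃ N : ℝ, 0 < N ∧ |(n1 : ℝ)| ≤ N ∧ |(n2 : ℝ)| ≤ N ∧
      ((|n2| < |n1| ∧ N = |(n1 : ℝ)| ∧ |(n2 : ℝ)| ≤ δ / 2 * |(n1 : ℝ)|) ∨
      (¬ |n2| < |n1| ∧ N = |(n2 : ℝ)| ∧ |(n1 : ℝ)| ≤ δ / 2 * |(n2 : ℝ)|)) := by
    rcases gd3 with g | g
    · have l1 : |(n2 : ℝ)| < |(n1 : ℝ)| := by nlinarith
      refine ⟨|(n1 : ℝ)|, N1, le_rfl, l1.le, Or.inl ⟨?_, rfl, g⟩⟩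
      exact_mod_cast l1
    · have l1 : |(n1 : ℝ)| < |(n2 : ℝ)| := by nlinarith
      refine ⟨|(n2 : ℝ)|, N2, l1.le, le_rfl, Or.inr ⟨?_, rfl, g⟩⟩
      have : |n1| < |n2| := by exact_mod_cast l1
      exact not_lt.2 this.le
  obtain ⟨N, hN, hN1, hN2, hc⟩ := hcase
  have hne : |n1| ≠ |n2| := by
    intro h
    have h' : |(n1 : ℝ)| = |(n2 : ℝ)| := by exact_mod_cast h
    rcases gd3 with g | g <;> nlinarith
  set l : Lab := (decide (0 < m1), decide (0 < n1), decide (0 < m2), decide (0 < n2),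
    decide (|n2| < |n1|)) with hl
  refine ⟨l, ⟨hm1, hn1, hm2, hn2, hne, ?_, ?_, ?_, ?_, ?_⟩, ?_⟩
  · simp [hl]
  · simp [hl]
  · simp [hl]
  · simp [hl]
  · simp [hl]
  -- the operator estimate
  have hop := hOP A ⟨fun x => ∏ i, e.g i (x i), by fun_prop⟩ (G ^ 6)
    (fun κ => e.β fun i => (κ i : ℝ)) B (e.β (dir l)) (psi u ((m1, n1, i1), (m2, n2, i2))) ρ
    (by
      intro x
      simp only [ContinuousMap.coe_mk, Finset.abs_prod]
      calc ∏ i, |e.g i (x i)| ≤ ∏ _i : Fin 6, G :=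
            Finset.prod_le_prod (fun i _ => abs_nonneg _) fun i _ => hg i (x i)
        _ = G ^ 6 := by simp)
    (fun κ => hβ _) hρ.le
    (by
      intro κ hκ
      have hκ1 : κ ≠ 0 := by
        rintro rfl
        rw [coef_psi, if_neg] at hκ
        · exact hκ rfl
        · rintro ⟨h, -⟩
          exact hm1 h.symm
      have := hA κ hκ1
      simp only [Elem.val] at this
      exact this)
    (by
      intro s
      have hs := sum_bd (fun k => ‖fourierCoeff (u m1 n1 i1) k‖ ^ 2)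
        (fun k => ‖fourierCoeff (u m2 n2 i2) k‖ ^ 2) (fun k => by positivity)
        (fun k => by positivity) (bessel _ (unit _ _ _ _ (hone m1 n1) i1))
        (bessel _ (unit _ _ _ _ (hone m2 n2) i2)) (δ * N) η2 hη2.le
        (fun s hs => h4 Λ hΛ m1 n1 i1 E1 (kk K4 q4 _ gd1) s fun k hk =>
          (mul_le_mul_of_nonneg_left hN1 hδ.le).trans (hs k hk))
        (fun s hs => h4 Λ hΛ m2 n2 i2 E2 (kk K4 q4 _ gd2) s fun k hk =>
          (mul_le_mul_of_nonneg_left hN2 hδ.le).trans (hs k hk))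
        m1 n1 m2 n2 (fun κ => (e.β (fun i => (κ i : ℝ)) - e.β (dir l)) ^ 2) ((ρ / 2) ^ 2)
        (4 * B ^ 2) (by positivity) (by positivity) ?_ ?_ s
      · have e1 : ∀ κ : Fin 6 → ℤ, ‖(inner ℂ (mono κ)
            (cls (psi u ((m1, n1, i1), (m2, n2, i2)))) : ℂ)‖ ^ 2 =
            if κ 1 = m1 ∧ κ 2 = n1 ∧ κ 4 = m2 ∧ κ 5 = n2 then
              ‖fourierCoeff (u m1 n1 i1) (κ 0)‖ ^ 2 * ‖fourierCoeff (u m2 n2 i2) (κ 3)‖ ^ 2
            else 0 := by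
          intro κ
          rw [coef_psi]
          split_ifs
          · rw [norm_mul, mul_pow]
          · simp
        simp only [e1]
        refine hs.trans ?_
        rw [hη2']
        nlinarith [sq_nonneg ρ]
      · intro κ k1 k2 k4 k5 k0 k3
        have e1 := hdir l (N⁻¹ • fun i => (κ i : ℝ)) fun i =>
          (close m1 n1 m2 n2 hm1 hn1 hm2 hn2 δ N hN hδ hδ1 M1 M2 hc κ k1 k2 k4 k5 k0 k3 i).trans hδ2
        rw [e.homog _ _ (inv_pos.2 hN)] at e1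
        rw [← sq_abs]
        exact pow_le_pow_left₀ (abs_nonneg _) e1 2
      · intro κ
        have e1 := abs_le.1 (hβ fun i => (κ i : ℝ))
        have e2 := abs_le.1 (hβ (dir l))
        nlinarith)
  rw [psi_norm u E hone, mul_one, hρ'] at hop
  have hint := psi_int u m1 n1 m2 n2 i1 i2 fun i t => e.g i t
  have hint' : ∫ x : Tor 6, (⟨fun x => ∏ i, e.g i (x i), by fun_prop⟩ : C(Tor 6, ℝ)) x *
      ‖psi u ((m1, n1, i1), (m2, n2, i2)) x‖ ^ 2 ∂vol 6 = _ := hint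
  rw [hint'] at hop
  have hP0 := h2 Λ hΛ m1 n1 i1 E1 (kk K2 q2 _ gd1)
  have hP3 := h3 Λ hΛ m2 n2 i2 E2 (kk K3 q3 _ gd2)
  have hpr := prod_est (∫ t, e.g 0 t * ‖u m1 n1 i1 t‖ ^ 2 ∂hm) (e.g 0 (xs m1 n1))
    (∫ t, e.g 3 t * ‖u m2 n2 i2 t‖ ^ 2 ∂hm) (e.g 3 (xs m2 n2)) (∫ t, e.g 1 t ∂hm)
    (∫ t, e.g 2 t ∂hm) (∫ t, e.g 4 t ∂hm) (∫ t, e.g 5 t ∂hm) G η1 hG hP0 hP3
    (by
      have e1 : ∀ t, ‖e.g 3 t * ‖u m2 n2 i2 t‖ ^ 2‖ ≤ G * ‖u m2 n2 i2 t‖ ^ 2 := by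
        intro t
        rw [norm_mul, norm_pow, norm_norm]
        exact mul_le_mul_of_nonneg_right (hg 3 t) (by positivity)
      have e2 := norm_integral_le_of_norm_le (μ := hm)
        (g := fun t => G * ‖u m2 n2 i2 t‖ ^ 2) (f := fun t => e.g 3 t * ‖u m2 n2 i2 t‖ ^ 2) (by
          refine Continuous.integrable_of_hasCompactSupport (by fun_prop) ?_
          exact HasCompactSupport.of_compactSpace _) (Eventually.of_forall e1)
      rw [integral_const_mul, unit _ _ _ _ (hone m2 n2) i2, mul_one] at e2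
      exact e2)
    (hg 0 _) (avg_bd _ G (hg 1)) (avg_bd _ G (hg 2)) (avg_bd _ G (hg 4)) (avg_bd _ G (hg 5))
  have hat : e.at l = e.g 0 (xs m1 n1) * (∫ t, e.g 1 t ∂hm) * (∫ t, e.g 2 t ∂hm) *
      e.g 3 (xs m2 n2) * (∫ t, e.g 4 t ∂hm) * (∫ t, e.g 5 t ∂hm) * e.β (dir l) := by
    unfold Elem.at
    rw [← pos_xs m1 n1 hm1 hn1, ← pos_xs m2 n2 hm2 hn2]
  rw [hat]
  set I := (∫ t, e.g 0 t * ‖u m1 n1 i1 t‖ ^ 2 ∂hm) * (∫ t, e.g 1 t ∂hm) * (∫ t, e.g 2 t ∂hm) *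
        (∫ t, e.g 3 t * ‖u m2 n2 i2 t‖ ^ 2 ∂hm) * (∫ t, e.g 4 t ∂hm) * (∫ t, e.g 5 t ∂hm) with hI
  set J := e.g 0 (xs m1 n1) * (∫ t, e.g 1 t ∂hm) * (∫ t, e.g 2 t ∂hm) *
      e.g 3 (xs m2 n2) * (∫ t, e.g 4 t ∂hm) * (∫ t, e.g 5 t ∂hm) with hJ
  set V := (inner ℂ (A (cls (psi u ((m1, n1, i1), (m2, n2, i2)))))
    (cls (psi u ((m1, n1, i1), (m2, n2, i2)))) : ℂ) with hV
  have hlast : ‖((e.β (dir l) * I : ℝ) : ℂ) - ((J * e.β (dir l) : ℝ) : ℂ)‖ ≤ η / 2 := by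
    rw [← Complex.ofReal_sub, Complex.norm_real, Real.norm_eq_abs]
    have e1 : e.β (dir l) * I - J * e.β (dir l) = e.β (dir l) * (I - J) := by ring
    rw [e1, abs_mul, ← hη1']
    exact mul_le_mul (hβ _) hpr (abs_nonneg _) hB.le
  calc ‖V - ((J * e.β (dir l) : ℝ) : ℂ)‖ =
        ‖(V - ((e.β (dir l) * I : ℝ) : ℂ)) +
          (((e.β (dir l) * I : ℝ) : ℂ) - ((J * e.β (dir l) : ℝ) : ℂ))‖ := by ring_nf
    _ ≤ η / 2 + η / 2 := (norm_add_le _ _).trans (add_le_add hop hlast)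
    _ = η := by ring

end Pool.Agent.H223.SR
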