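import Pool.Agent.H223.SR.Stm

set_option autoImplicit false

open MeasureTheory Set Filter Topology
open scoped ContDiff Real ComplexConjugate

namespace Pool.Agent.H223.SR

/-- the Fourier basis of `L²(Tor 6)` -/
noncomputable def opest_hb : HilbertBasis (Fin 6 → ℤ) ℂ (L2 6) :=
  UnitAddTorus.mFourierBasis (d := Fin 6)

theorem opest_hb_apply (κ : Fin 6 → ℤ) : opest_hb κ = mono κ := by
  have := congrFun (UnitAddTorus.coe_mFourierBasis (d := Fin 6)) κ
  exact this

theorem opest_sum (x : L2 6) : HasSum (fun κ => (inner ℂ (mono κ) x : ℂ) • mono κ) x := by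
  have h := opest_hb.hasSum_repr x
  simpa only [opest_hb_apply, HilbertBasis.repr_apply_apply] using h

theorem opest_on : Orthonormal ℂ (fun κ : Fin 6 → ℤ => (mono κ : L2 6)) := by
  have h := opest_hb.orthonormal
  have e : (opest_hb : (Fin 6 → ℤ) → L2 6) = fun κ => mono κ := funext opest_hb_apply
  rwa [e] at h

/-- multiplication by a real continuous function -/
noncomputable def opest_mul (f : C(Tor 6, ℝ)) (h : C(Tor 6, ℂ)) : C(Tor 6, ℂ) :=
  ⟨fun x => (f x : ℂ) * h x, by fun_prop⟩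

theorem opest_coe (h : C(Tor 6, ℂ)) : (cls h : L2 6) =ᵐ[vol 6] h :=
  ContinuousMap.coeFn_toLp (vol 6) h

theorem opest_norm {f : C(Tor 6, ℝ)} {Bf : ℝ} (hf : ∀ x, |f x| ≤ Bf) (h : C(Tor 6, ℂ)) :
    ‖(cls (opest_mul f h) : L2 6)‖ ≤ Bf * ‖(cls h : L2 6)‖ := by
  refine Lp.norm_le_mul_norm_of_ae_le_mul ?_
  filter_upwards [opest_coe (opest_mul f h), opest_coe h] with x h1 h2
  rw [h1, h2]
  change ‖(f x : ℂ) * h x‖ ≤ Bf * ‖h x‖
  rw [norm_mul, Complex.norm_real, Real.norm_eq_abs]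
  exact mul_le_mul_of_nonneg_right (hf x) (norm_nonneg _)

theorem t_OPEST : S_OPEST := by
  classical
  intro A f Bf c B c0 ψ ρ hf hc hρ hA hs
  have hBf : 0 ≤ Bf := (abs_nonneg _).trans (hf 0)
  set x : L2 6 := cls ψ with hx
  let a : (Fin 6 → ℤ) → ℂ := fun κ => inner ℂ (mono κ) x
  -- the partial sums
  let hS : Finset (Fin 6 → ℤ) → C(Tor 6, ℂ) := fun s => ∑ κ ∈ s, a κ • UnitAddTorus.mFourier κ
  let gS : Finset (Fin 6 → ℤ) → C(Tor 6, ℂ) := fun s =>
    ∑ κ ∈ s, (((c κ - c0 : ℝ) : ℂ) * a κ) • UnitAddTorus.mFourier κ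
  have hlim : Tendsto (fun s => (cls (hS s) : L2 6)) atTop (𝓝 x) := by
    have h := opest_sum x
    have e : ∀ s, (cls (hS s) : L2 6) = ∑ κ ∈ s, (inner ℂ (mono κ) x : ℂ) • mono κ := by
      intro s
      simp only [hS, map_sum, map_smul]
      rfl
    have h' : Tendsto (fun s : Finset (Fin 6 → ℤ) =>
        ∑ κ ∈ s, (inner ℂ (mono κ) x : ℂ) • (mono κ : L2 6)) atTop (𝓝 x) := h
    refine h'.congr fun s => (e s).symm
  -- the action of `A` on the partial sums
  have hAκ : ∀ κ, a κ • A (mono κ) =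
      (cls (opest_mul f ((((c κ : ℝ) : ℂ) * a κ) • UnitAddTorus.mFourier κ)) : L2 6) := by
    intro κ
    by_cases h0 : a κ = 0
    · have : (opest_mul f ((((c κ : ℝ) : ℂ) * a κ) • UnitAddTorus.mFourier κ)) = 0 := by
        ext y
        simp [opest_mul, h0]
      rw [this, h0, zero_smul]
      exact (map_zero (ContinuousMap.toLp (E := ℂ) 2 (vol 6) ℂ)).symm
    · have h1 := hA κ h0
      have h2 : A (mono κ) = (cls (opest_mul f (((c κ : ℝ) : ℂ) • UnitAddTorus.mFourier κ)) :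
          L2 6) := by
        refine Lp.ext (h1.trans ?_)
        refine EventuallyEq.trans ?_ (opest_coe _).symm
        refine Eventually.of_forall fun y => ?_
        simp only [opest_mul, ContinuousMap.coe_mk, ContinuousMap.smul_apply, smul_eq_mul]
        push_cast
        ring
      rw [h2, ← map_smul]
      congr 1
      ext y
      simp only [opest_mul, ContinuousMap.coe_mk, ContinuousMap.smul_apply, smul_eq_mul]
      ring
  have hAs : ∀ s, A (cls (hS s)) - (c0 : ℂ) • (cls (opest_mul f (hS s)) : L2 6) =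
      (cls (opest_mul f (gS s)) : L2 6) := by
    intro s
    have e1 : A (cls (hS s)) = ∑ κ ∈ s, a κ • A (mono κ) := by
      simp only [hS, map_sum, map_smul]
      rfl
    rw [e1, Finset.sum_congr rfl fun κ _ => hAκ κ, ← map_sum, ← map_smul, ← map_sub]
    congr 1
    ext y
    simp only [opest_mul, gS, hS, ContinuousMap.coe_sub, ContinuousMap.coe_smul, Pi.sub_apply,
      Pi.smul_apply, ContinuousMap.coe_sum, Finset.sum_apply, ContinuousMap.coe_mk, smul_eq_mul,
      Finset.mul_sum, ← Finset.sum_sub_distrib]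
    refine Finset.sum_congr rfl fun κ _ => ?_
    push_cast
    ring
  have hgn : ∀ s, ‖(cls (gS s) : L2 6)‖ ≤ ρ := by
    intro s
    have e1 : (cls (gS s) : L2 6) = ∑ κ ∈ s, (((c κ - c0 : ℝ) : ℂ) * a κ) • (mono κ : L2 6) := by
      simp only [gS, map_sum, map_smul]
      rfl
    have e2 : ‖(cls (gS s) : L2 6)‖ ^ 2 = ∑ κ ∈ s, (c κ - c0) ^ 2 * ‖a κ‖ ^ 2 := by
      have h1 : inner ℂ (cls (gS s) : L2 6) (cls (gS s) : L2 6) =
          ((∑ κ ∈ s, (c κ - c0) ^ 2 * ‖a κ‖ ^ 2 : ℝ) : ℂ) := by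
        rw [e1, opest_on.inner_sum, Complex.ofReal_sum]
        refine Finset.sum_congr rfl fun κ _ => ?_
        rw [map_mul, Complex.conj_ofReal]
        have h3 : (starRingEnd ℂ) (a κ) * a κ = (‖a κ‖ : ℂ) ^ 2 := by
          rw [Complex.conj_mul']
        push_cast
        linear_combination ((c κ : ℂ) - c0) ^ 2 * h3
      rw [inner_self_eq_norm_sq_to_K] at h1
      have h2 : ((‖(cls (gS s) : L2 6)‖ ^ 2 : ℝ) : ℂ) =
          ((∑ κ ∈ s, (c κ - c0) ^ 2 * ‖a κ‖ ^ 2 : ℝ) : ℂ) := by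
        rw [← h1]; push_cast; rfl
      exact_mod_cast h2
    have e3 : ‖(cls (gS s) : L2 6)‖ ^ 2 ≤ ρ ^ 2 := by rw [e2]; exact hs s
    exact (pow_le_pow_iff_left₀ (norm_nonneg _) hρ two_ne_zero).1 e3
  have hb : ∀ s, ‖A (cls (hS s)) - (c0 : ℂ) • (cls (opest_mul f (hS s)) : L2 6)‖ ≤ Bf * ρ := by
    intro s
    rw [hAs s]
    exact (opest_norm hf _).trans (mul_le_mul_of_nonneg_left (hgn s) hBf)
  -- the limit
  have hlim2 : Tendsto (fun s => (cls (opest_mul f (hS s)) : L2 6)) atTop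
      (𝓝 (cls (opest_mul f ψ))) := by
    rw [tendsto_iff_norm_sub_tendsto_zero]
    have h1 : Tendsto (fun s => Bf * ‖(cls (hS s) : L2 6) - x‖) atTop (𝓝 0) := by
      have := (tendsto_iff_norm_sub_tendsto_zero.1 hlim).const_mul Bf
      simpa using this
    refine squeeze_zero (fun s => norm_nonneg _) (fun s => ?_) h1
    have e : (cls (opest_mul f (hS s)) : L2 6) - cls (opest_mul f ψ) =
        cls (opest_mul f (hS s - ψ)) := by
      rw [← map_sub]
      congr 1
      ext y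
      simp only [opest_mul, ContinuousMap.coe_sub, Pi.sub_apply, ContinuousMap.coe_mk]
      ring
    rw [e]
    refine (opest_norm hf _).trans (le_of_eq ?_)
    have e4 : (cls (hS s - ψ) : L2 6) = cls (hS s) - x :=
      map_sub (ContinuousMap.toLp (E := ℂ) 2 (vol 6) ℂ) _ _
    rw [e4]
  have hfin : ‖A x - (c0 : ℂ) • (cls (opest_mul f ψ) : L2 6)‖ ≤ Bf * ρ := by
    have h1 : Tendsto (fun s => ‖A (cls (hS s)) - (c0 : ℂ) • (cls (opest_mul f (hS s)) : L2 6)‖)
        atTop (𝓝 ‖A x - (c0 : ℂ) • (cls (opest_mul f ψ) : L2 6)‖) :=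
      (((A.continuous.tendsto x).comp hlim).sub (hlim2.const_smul (c0 : ℂ))).norm
    exact le_of_tendsto h1 (Eventually.of_forall hb)
  -- the inner product
  have e1 : (inner ℂ ((c0 : ℂ) • (cls (opest_mul f ψ) : L2 6)) x : ℂ) =
      ((c0 * ∫ x, f x * ‖ψ x‖ ^ 2 ∂vol 6 : ℝ) : ℂ) := by
    rw [inner_smul_left, Complex.conj_ofReal, hx, ContinuousMap.inner_toLp]
    push_cast
    congr 1
    rw [← integral_complex_ofReal]
    refine integral_congr_ae (Eventually.of_forall fun y => ?_)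
    simp only [opest_mul, ContinuousMap.coe_mk, map_mul, Complex.conj_ofReal]
    push_cast
    have : ψ y * (starRingEnd ℂ) (ψ y) = (‖ψ y‖ : ℂ) ^ 2 := Complex.mul_conj' _
    linear_combination (f y : ℂ) * this
  rw [← e1, ← inner_sub_left]
  exact (norm_inner_le_norm _ _).trans (mul_le_mul_of_nonneg_right hfin (norm_nonneg _))

end Pool.Agent.H223.SR
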