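import Pool.Agent.H223.SR.Stm

/-! Subtask PAIR of project SR (helper223), by helper282. -/

set_option autoImplicit false

open MeasureTheory Set Filter Topology
open scoped ContDiff Real ComplexConjugate

namespace Pool.Agent.H223.SR

namespace PairL

/-- `|n|` -/
def hh (α : I3) : ℕ := α.2.1.natAbs

theorem hh_cast (α : I3) : (hh α : ℝ) = |(α.2.1 : ℝ)| := by
  unfold hh
  rw [Nat.cast_natAbs, Int.cast_abs]

/-- size of a fibre -/
noncomputable def sz (F : Finset I3) (k : ℕ) : ℝ := ((F.filter fun α => hh α = k).card : ℝ)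

theorem sz_nonneg (F : Finset I3) (k : ℕ) : 0 ≤ sz F k := Nat.cast_nonneg _

/-- the bounds -/
structure Bd (F : Finset I3) (D L : ℝ) : Prop where
  b1 : ∀ k, sz F k ≤ D * L
  b2 : ∀ k : ℕ, 1 ≤ k → sz F k ≤ D * L ^ 2 / k
  b3 : ∀ α ∈ F, (hh α : ℝ) < 200 * L ^ (3 / 2 : ℝ)

theorem card_le_sum (F : Finset I3) (p : I3 → Prop) [DecidablePred p] (T : Finset ℕ)
    (h : ∀ α ∈ F, p α → hh α ∈ T) : ((F.filter p).card : ℝ) ≤ ∑ k ∈ T, sz F k := by
  classical
  have h1 : (F.filter p).card = ∑ k ∈ T, ((F.filter p).filter fun α => hh α = k).card := by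
    refine Finset.card_eq_sum_card_fiberwise ?_
    intro α hα
    have hα' := Finset.mem_coe.1 hα
    rw [Finset.mem_filter] at hα'
    exact Finset.mem_coe.2 (h α hα'.1 hα'.2)
  rw [h1]
  push_cast
  refine Finset.sum_le_sum fun k _ => ?_
  unfold sz
  have : ((F.filter p).filter fun α => hh α = k).card ≤ (F.filter fun α => hh α = k).card := by
    refine Finset.card_le_card fun α hα => ?_
    simp only [Finset.mem_filter] at hα ⊢
    exact ⟨hα.1.1, hα.2⟩
  exact_mod_cast this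

theorem sum_le_card (F : Finset I3) (T : Finset ℕ) : ∑ k ∈ T, sz F k ≤ F.card := by
  classical
  have h1 : (F.filter fun α => hh α ∈ T).card =
      ∑ k ∈ T, ((F.filter fun α => hh α ∈ T).filter fun α => hh α = k).card := by
    refine Finset.card_eq_sum_card_fiberwise ?_
    intro α hα
    have hα' := Finset.mem_coe.1 hα
    rw [Finset.mem_filter] at hα'
    exact Finset.mem_coe.2 hα'.2
  have h2 : ∑ k ∈ T, sz F k = ((F.filter fun α => hh α ∈ T).card : ℝ) := by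
    rw [h1]
    push_cast
    refine Finset.sum_congr rfl fun k hk => ?_
    unfold sz
    congr 2
    ext α
    simp only [Finset.mem_filter]
    constructor
    · rintro ⟨h3, h4⟩
      exact ⟨⟨h3, by rw [h4]; exact hk⟩, h4⟩
    · rintro ⟨⟨h3, _⟩, h4⟩
      exact ⟨h3, h4⟩
  rw [h2]
  exact_mod_cast Finset.card_filter_le _ _

theorem cardB (F : Finset I3) (P : I3 → I3 → Prop) [∀ α, DecidablePred (P α)]
    [DecidablePred fun γ : I3 × I3 => P γ.1 γ.2] (b : ℝ)
    (h : ∀ α ∈ F, ((F.filter (P α)).card : ℝ) ≤ b) :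
    (((F ×ˢ F).filter fun γ => P γ.1 γ.2).card : ℝ) ≤ F.card * b := by
  classical
  have h1 : ((F ×ˢ F).filter fun γ => P γ.1 γ.2) ⊆
      F.biUnion fun α => (F.filter (P α)).image fun β => (α, β) := by
    rintro ⟨α, β⟩ hγ
    simp only [Finset.mem_filter, Finset.mem_product] at hγ
    simp only [Finset.mem_biUnion, Finset.mem_image, Finset.mem_filter]
    exact ⟨α, hγ.1.1, β, ⟨hγ.1.2, hγ.2⟩, rfl⟩
  have h2 := (Finset.card_le_card h1).trans Finset.card_biUnion_le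
  have h3 : (((F ×ˢ F).filter fun γ => P γ.1 γ.2).card : ℝ) ≤
      ∑ α ∈ F, ((F.filter (P α)).card : ℝ) := by
    have h4 : ((F ×ˢ F).filter fun γ => P γ.1 γ.2).card ≤ ∑ α ∈ F, (F.filter (P α)).card :=
      h2.trans (Finset.sum_le_sum fun α _ => Finset.card_image_le)
    exact_mod_cast h4
  refine h3.trans ?_
  have := Finset.sum_le_card_nsmul F (fun α => ((F.filter (P α)).card : ℝ)) b h
  rwa [nsmul_eq_mul] at this

theorem Hm (n : ℕ) : (harmonic n : ℝ) = ∑ k ∈ Finset.Icc 1 n, ((k : ℝ))⁻¹ := by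
  rw [harmonic_eq_sum_Icc]
  push_cast
  rfl

/-- upper bound for the number of all elements -/
theorem up {F : Finset I3} {D L : ℝ} (hD : 0 ≤ D) (hL : 1 ≤ L) (h : Bd F D L)
    (hL2 : 2 + Real.log 200 ≤ Real.log L) : (F.card : ℝ) ≤ 3 * D * L ^ 2 * Real.log L := by
  classical
  have hL0 : 0 < L := by linarith
  have hL32 : 1 ≤ L ^ (3 / 2 : ℝ) := Real.one_le_rpow hL (by norm_num)
  set M : ℕ := ⌈200 * L ^ (3 / 2 : ℝ)⌉₊ with hM
  have hM1 : (M : ℝ) < 200 * L ^ (3 / 2 : ℝ) + 1 := Nat.ceil_lt_add_one (by positivity)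
  have hM2 : 200 * L ^ (3 / 2 : ℝ) ≤ M := Nat.le_ceil _
  have hM3 : 1 < M := by
    have : (1 : ℝ) < M := by linarith
    exact_mod_cast this
  have h1 : (F.card : ℝ) ≤ ∑ k ∈ Finset.range M, sz F k := by
    have := card_le_sum F (fun _ => True) (Finset.range M) (fun α hα _ => by
      rw [Finset.mem_range]
      have := (h.b3 α hα).trans_le hM2
      exact_mod_cast this)
    simpa using this
  obtain ⟨M', hM'⟩ : ∃ M', M = M' + 1 := ⟨M - 1, by omega⟩
  have h2 : ∑ k ∈ Finset.range M, sz F k ≤ D * L + D * L ^ 2 * (harmonic M' : ℝ) := by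
    rw [hM', Finset.sum_range_succ', add_comm]
    refine add_le_add (h.b1 0) ?_
    rw [Hm, Finset.mul_sum]
    have h3 : ∑ k ∈ Finset.Icc 1 M', D * L ^ 2 * ((k : ℝ))⁻¹ =
        ∑ k ∈ Finset.range M', D * L ^ 2 * (((k + 1 : ℕ) : ℝ))⁻¹ := by
      rw [Finset.range_eq_Ico, Finset.sum_Ico_add' (fun k : ℕ => D * L ^ 2 * ((k : ℝ))⁻¹) 0 M' 1]
      refine Finset.sum_congr ?_ fun _ _ => rfl
      ext k
      simp only [Finset.mem_Icc, Finset.mem_Ico]
      omega
    rw [h3]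
    refine Finset.sum_le_sum fun k _ => ?_
    have := h.b2 (k + 1) (by omega)
    rwa [div_eq_mul_inv] at this
  have h3 : (harmonic M' : ℝ) ≤ 1 + (Real.log 200 + 3 / 2 * Real.log L) := by
    refine (harmonic_le_one_add_log M').trans ?_
    have h4 : (0 : ℝ) < M' := by
      have : 0 < M' := by omega
      exact_mod_cast this
    have h5 : (M' : ℝ) ≤ 200 * L ^ (3 / 2 : ℝ) := by
      rw [hM'] at hM1
      push_cast at hM1
      linarith
    have h6 := Real.log_le_log h4 h5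
    rw [Real.log_mul (by norm_num) (by positivity), Real.log_rpow hL0] at h6
    linarith
  have hDL : 0 ≤ D * L ^ 2 := by positivity
  have h4 : D * L ≤ D * L ^ 2 := mul_le_mul_of_nonneg_left (by nlinarith) hD
  calc (F.card : ℝ) ≤ D * L + D * L ^ 2 * (harmonic M' : ℝ) := h1.trans h2
    _ ≤ D * L ^ 2 + D * L ^ 2 * (1 + (Real.log 200 + 3 / 2 * Real.log L)) :=
        add_le_add h4 (mul_le_mul_of_nonneg_left h3 hDL)
    _ = D * L ^ 2 * (2 + Real.log 200 + 3 / 2 * Real.log L) := by ring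
    _ ≤ D * L ^ 2 * (3 * Real.log L) := by
        refine mul_le_mul_of_nonneg_left ?_ hDL
        have : 0 ≤ Real.log L := Real.log_nonneg hL
        linarith
    _ = _ := by ring

/-- lower bound for the number of all elements -/
theorem low {F : Finset I3} {L : ℝ} (hL : 1 ≤ L) (h : ∀ k : ℕ, L ≤ k →
    (k : ℝ) ≤ L ^ (3 / 2 : ℝ) / 3000 → L ^ 2 / (100000 * k) ≤ sz F k)
    (hL2 : 4 * (Real.log 3000 + 1) ≤ Real.log L) :
    1 / 400000 * L ^ 2 * Real.log L ≤ F.card := by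
  classical
  have hL0 : 0 < L := by linarith
  set a : ℕ := ⌈L⌉₊ with ha
  set b : ℕ := ⌊L ^ (3 / 2 : ℝ) / 3000⌋₊ with hb
  have ha1 : (a : ℝ) < L + 1 := Nat.ceil_lt_add_one hL0.le
  have ha2 : L ≤ a := Nat.le_ceil _
  have hb1 : L ^ (3 / 2 : ℝ) / 3000 < b + 1 := Nat.lt_floor_add_one _
  have hb2 : (b : ℝ) ≤ L ^ (3 / 2 : ℝ) / 3000 := Nat.floor_le (by positivity)
  obtain ⟨a', ha'⟩ : ∃ a', a = a' + 1 := ⟨a - 1, by
    have : 0 < a := by
      have : (0 : ℝ) < a := by linarith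
      exact_mod_cast this
    omega⟩
  have hlog0 : 0 ≤ Real.log L := Real.log_nonneg hL
  have h1 : (harmonic b : ℝ) - harmonic a' ≤ ∑ k ∈ Finset.Icc a b, ((k : ℝ))⁻¹ := by
    rw [Hm, Hm, sub_le_iff_le_add']
    rw [← Finset.sum_union_inter]
    refine (Finset.sum_le_sum_of_subset_of_nonneg ?_ fun k _ _ => by positivity).trans
      (le_add_of_nonneg_right (Finset.sum_nonneg fun k _ => by positivity))
    intro k hk
    simp only [Finset.mem_union, Finset.mem_Icc] at hk ⊢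
    omega
  have h2 : 3 / 2 * Real.log L - Real.log 3000 ≤ harmonic b := by
    refine le_trans ?_ (log_add_one_le_harmonic b)
    push_cast
    have h3 : Real.log (L ^ (3 / 2 : ℝ) / 3000) ≤ Real.log ((b : ℝ) + 1) :=
      Real.log_le_log (by positivity) hb1.le
    rw [Real.log_div (by positivity) (by norm_num), Real.log_rpow hL0] at h3
    exact h3
  have h3 : (harmonic a' : ℝ) ≤ 1 + Real.log L := by
    refine (harmonic_le_one_add_log a').trans ?_
    rcases Nat.eq_zero_or_pos a' with h4 | h4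
    · rw [h4]
      simpa using hlog0
    · have h5 : (a' : ℝ) ≤ L := by
        rw [ha'] at ha1
        push_cast at ha1
        linarith
      have h6 : (0 : ℝ) < a' := by exact_mod_cast h4
      linarith [Real.log_le_log h6 h5]
  have h4 : 1 / 4 * Real.log L ≤ ∑ k ∈ Finset.Icc a b, ((k : ℝ))⁻¹ := by
    linarith
  calc 1 / 400000 * L ^ 2 * Real.log L = L ^ 2 / 100000 * (1 / 4 * Real.log L) := by ring
    _ ≤ L ^ 2 / 100000 * ∑ k ∈ Finset.Icc a b, ((k : ℝ))⁻¹ :=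
        mul_le_mul_of_nonneg_left h4 (by positivity)
    _ = ∑ k ∈ Finset.Icc a b, L ^ 2 / (100000 * k) := by
        rw [Finset.mul_sum]
        refine Finset.sum_congr rfl fun k _ => ?_
        rw [← div_div, div_eq_mul_inv _ (k : ℝ)]
    _ ≤ ∑ k ∈ Finset.Icc a b, sz F k := by
        refine Finset.sum_le_sum fun k hk => ?_
        rw [Finset.mem_Icc] at hk
        refine h k (ha2.trans (by exact_mod_cast hk.1)) (le_trans ?_ hb2)
        exact_mod_cast hk.2
    _ ≤ F.card := sum_le_card F _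

/-- few elements with small `n` -/
theorem small {F : Finset I3} {D L : ℝ} (hD : 0 ≤ D) (hL : 1 ≤ L) (h : Bd F D L) (K : ℝ)
    (hK : 0 ≤ K) [DecidablePred fun α : I3 => (hh α : ℝ) < K * L] :
    ((F.filter fun α => (hh α : ℝ) < K * L).card : ℝ) ≤ (K + 1) * D * L ^ 2 := by
  have h1 := card_le_sum F (fun α => (hh α : ℝ) < K * L) (Finset.range ⌈K * L⌉₊) (fun α _ hα => by
    rw [Finset.mem_range]
    exact Nat.lt_ceil.2 hα)
  refine h1.trans ?_
  have h2 : ∑ k ∈ Finset.range ⌈K * L⌉₊, sz F k ≤ (⌈K * L⌉₊ : ℝ) * (D * L) := by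
    have := Finset.sum_le_card_nsmul (Finset.range ⌈K * L⌉₊) (sz F) (D * L) fun k _ => h.b1 k
    rwa [nsmul_eq_mul, Finset.card_range] at this
  refine h2.trans ?_
  have h3 : (⌈K * L⌉₊ : ℝ) ≤ (K + 1) * L := by
    have := (Nat.ceil_lt_add_one (show 0 ≤ K * L by positivity)).le
    linarith
  have h4 : 0 ≤ D * L := by positivity
  nlinarith

/-- few elements with `n` comparable to a given number -/
theorem comp {F : Finset I3} {D L : ℝ} (hD : 0 ≤ D) (hL : 1 ≤ L) (h : Bd F D L) (ε : ℝ)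
    (hε : 0 < ε) (x : ℝ) (hx : 1 ≤ x)
    [DecidablePred fun α : I3 => ε * x < hh α ∧ ε * (hh α : ℝ) < x] :
    ((F.filter fun α => ε * x < hh α ∧ ε * (hh α : ℝ) < x).card : ℝ) ≤
      (1 / ε ^ 2 + 1 / ε) * D * L ^ 2 := by
  classical
  have hxε : 0 < x / ε := by positivity
  have h1 := card_le_sum F (fun α => ε * x < hh α ∧ ε * (hh α : ℝ) < x)
    ((Finset.range ⌈x / ε⌉₊).filter fun k : ℕ => ε * x < k) (fun α _ hα => by
    rw [Finset.mem_filter, Finset.mem_range]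
    refine ⟨Nat.lt_ceil.2 ?_, hα.1⟩
    rw [lt_div_iff₀ hε, mul_comm]
    exact hα.2)
  refine h1.trans ?_
  have h2 : ∀ k ∈ (Finset.range ⌈x / ε⌉₊).filter (fun k : ℕ => ε * x < k), sz F k ≤
      D * L ^ 2 / (ε * x) := by
    intro k hk
    rw [Finset.mem_filter] at hk
    have h3 : 0 < ε * x := by positivity
    have h4 : (0 : ℝ) < k := h3.trans hk.2
    refine (h.b2 k (by exact_mod_cast h4)).trans ?_
    have := hk.2.le
    gcongr
  have h3 := Finset.sum_le_card_nsmul _ (sz F) _ h2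
  rw [nsmul_eq_mul] at h3
  refine h3.trans ?_
  have h4 : ((((Finset.range ⌈x / ε⌉₊).filter fun k : ℕ => ε * x < k).card : ℕ) : ℝ) ≤
      x / ε + 1 := by
    have h5 : ((Finset.range ⌈x / ε⌉₊).filter fun k : ℕ => ε * x < k).card ≤ ⌈x / ε⌉₊ := by
      refine (Finset.card_filter_le _ _).trans ?_
      rw [Finset.card_range]
    have h6 : ((((Finset.range ⌈x / ε⌉₊).filter fun k : ℕ => ε * x < k).card : ℕ) : ℝ) ≤
        (⌈x / ε⌉₊ : ℝ) := by exact_mod_cast h5
    exact h6.trans (Nat.ceil_lt_add_one hxε.le).le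
  have h5 : 0 ≤ D * L ^ 2 / (ε * x) := by positivity
  refine (mul_le_mul_of_nonneg_right h4 h5).trans ?_
  have h6 : (x / ε + 1) * (D * L ^ 2 / (ε * x)) = (1 / ε ^ 2 + 1 / ε * (1 / x)) * D * L ^ 2 := by
    field_simp
  rw [h6]
  have h7 : 1 / ε * (1 / x) ≤ 1 / ε := by
    have : 1 / x ≤ 1 := by rw [div_le_one (by linarith)]; exact hx
    exact mul_le_of_le_one_right (by positivity) this
  have h8 : 0 ≤ D * L ^ 2 := by positivity
  have h9 : 1 / ε ^ 2 + 1 / ε * (1 / x) ≤ 1 / ε ^ 2 + 1 / ε := by linarith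
  nlinarith [mul_le_mul_of_nonneg_right h9 h8]

/-- finiteness and bounds of the fibres -/
theorem fin_bd {E : ℤ → ℤ → ℕ → ℝ} {C : ℝ}
    (hC : ∀ Λ : ℝ, 1 ≤ Λ → ∀ n : ℤ,
    {p : ℤ × ℕ | E p.1 n p.2 ≤ Λ}.Finite ∧
    ({p : ℤ × ℕ | E p.1 n p.2 ≤ Λ}.ncard : ℝ) ≤ C * Λ ∧
    (n ≠ 0 → ({p : ℤ × ℕ | E p.1 n p.2 ≤ Λ}.ncard : ℝ) ≤ C * Λ ^ 2 / |(n : ℝ)|) ∧
    (200 * Λ ^ (3 / 2 : ℝ) ≤ |(n : ℝ)| → {p : ℤ × ℕ | E p.1 n p.2 ≤ Λ} = ∅))
    {L : ℝ} (hL : 1 ≤ L) :
    ∃ F : Finset I3, (∀ α, α ∈ F ↔ ev E α ≤ L) ∧ Bd F (2 * C) L := by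
  classical
  have hn : ∀ α : I3, ev E α ≤ L → (hh α : ℝ) < 200 * L ^ (3 / 2 : ℝ) := by
    intro α hα
    by_contra h1
    rw [not_lt, hh_cast] at h1
    have h2 := (hC L hL α.2.1).2.2.2 h1
    have h3 : (α.1, α.2.2) ∈ {p : ℤ × ℕ | E p.1 α.2.1 p.2 ≤ L} := hα
    rw [h2] at h3
    exact h3
  have hfin : {α : I3 | ev E α ≤ L}.Finite := by
    refine Set.Finite.subset (Set.Finite.biUnion (Set.finite_Icc (-(⌈200 * L ^ (3 / 2 : ℝ)⌉₊ : ℤ))
      (⌈200 * L ^ (3 / 2 : ℝ)⌉₊ : ℤ)) fun n _ => ((hC L hL n).1).image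
        fun p : ℤ × ℕ => ((p.1, n, p.2) : I3)) ?_
    intro α hα
    rw [Set.mem_iUnion₂]
    refine ⟨α.2.1, ?_, (α.1, α.2.2), hα, rfl⟩
    have h1 := hn α hα
    have h2 : (hh α : ℝ) < (⌈200 * L ^ (3 / 2 : ℝ)⌉₊ : ℝ) := h1.trans_le (Nat.le_ceil _)
    have h3 : hh α < ⌈200 * L ^ (3 / 2 : ℝ)⌉₊ := by exact_mod_cast h2
    unfold hh at h3
    rw [Set.mem_Icc]
    omega
  refine ⟨hfin.toFinset, fun α => by simp, ?_⟩
  have hfib : ∀ k : ℕ, sz hfin.toFinset k ≤
      ({p : ℤ × ℕ | E p.1 k p.2 ≤ L}.ncard : ℝ) + ({p : ℤ × ℕ | E p.1 (-(k : ℤ)) p.2 ≤ L}.ncard : ℝ) := by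
    intro k
    have h1 : (hfin.toFinset.filter fun α => hh α = k) ⊆
        ((hC L hL k).1.toFinset.image fun p : ℤ × ℕ => ((p.1, (k : ℤ), p.2) : I3)) ∪
          ((hC L hL (-(k : ℤ))).1.toFinset.image fun p : ℤ × ℕ => ((p.1, -(k : ℤ), p.2) : I3)) := by
      intro α hα
      simp only [Finset.mem_filter, Set.Finite.mem_toFinset, Set.mem_ofPred_eq] at hα
      simp only [Finset.mem_union, Finset.mem_image, Set.Finite.mem_toFinset, Set.mem_ofPred_eq]
      obtain ⟨h2, h3⟩ := hα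
      unfold hh at h3
      rcases Int.natAbs_eq α.2.1 with h4 | h4
      · left
        rw [h3] at h4
        refine ⟨(α.1, α.2.2), ?_, ?_⟩
        · show E α.1 k α.2.2 ≤ L
          rw [← h4]
          exact h2
        · rw [← h4]
      · right
        rw [h3] at h4
        refine ⟨(α.1, α.2.2), ?_, ?_⟩
        · show E α.1 (-(k : ℤ)) α.2.2 ≤ L
          rw [← h4]
          exact h2
        · rw [← h4]
    have h2 := (Finset.card_le_card h1).trans (Finset.card_union_le _ _)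
    rw [Set.ncard_eq_toFinset_card _ (hC L hL k).1, Set.ncard_eq_toFinset_card _ (hC L hL (-(k : ℤ))).1]
    unfold sz
    have h3 := h2.trans (add_le_add Finset.card_image_le Finset.card_image_le)
    exact_mod_cast h3
  refine ⟨fun k => ?_, fun k hk => ?_, fun α hα => ?_⟩
  · refine (hfib k).trans ?_
    have h1 := (hC L hL k).2.1
    have h2 := (hC L hL (-(k : ℤ))).2.1
    linarith
  · refine (hfib k).trans ?_
    have hk0 : (k : ℤ) ≠ 0 := by omega
    have h1 := (hC L hL k).2.2.1 hk0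
    have h2 := (hC L hL (-(k : ℤ))).2.2.1 (neg_ne_zero.2 hk0)
    have h3 : |((k : ℤ) : ℝ)| = k := by
      rw [Int.cast_natCast, abs_of_nonneg (Nat.cast_nonneg k)]
    have h4 : |((-(k : ℤ) : ℤ) : ℝ)| = k := by
      rw [Int.cast_neg, abs_neg, h3]
    rw [h3] at h1
    rw [h4] at h2
    have h5 : 2 * C * L ^ 2 / (k : ℝ) = C * L ^ 2 / k + C * L ^ 2 / k := by ring
    rw [h5]
    exact add_le_add h1 h2
  · rw [Set.Finite.mem_toFinset] at hα
    exact hn α hα

/-- lower bound of the fibres -/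
theorem fib_low {E : ℤ → ℤ → ℕ → ℝ}
    (hlow : ∀ m n : ℤ, ∀ Λ : ℝ, 100 ≤ Λ → n ≠ 0 → |(n : ℝ)| ≤ Λ ^ (3 / 2 : ℝ) / 3000 →
      |(m : ℝ)| ≤ |(n : ℝ)| → |(n : ℝ)| - |(m : ℝ)| ≤ Λ ^ 2 / (100000 * |(n : ℝ)|) →
      ∃ i, E m n i ≤ Λ) {L : ℝ} (hL : 100 ≤ L) {F : Finset I3} (hF : ∀ α, α ∈ F ↔ ev E α ≤ L)
    (k : ℕ) (hk1 : L ≤ k) (hk2 : (k : ℝ) ≤ L ^ (3 / 2 : ℝ) / 3000) :
    L ^ 2 / (100000 * k) ≤ sz F k := by
  classical
  have hk0 : (0 : ℝ) < k := by linarith
  have hk0' : (k : ℤ) ≠ 0 := by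
    have : 0 < k := by exact_mod_cast hk0
    omega
  have hkabs : |((k : ℤ) : ℝ)| = k := by
    rw [Int.cast_natCast, abs_of_nonneg (Nat.cast_nonneg k)]
  set w : ℝ := L ^ 2 / (100000 * k) with hw
  have hw0 : 0 ≤ w := by positivity
  have hwk : w ≤ k := by
    rw [hw, div_le_iff₀ (by positivity)]
    nlinarith
  have hex : ∀ j : ℕ, (j : ℝ) ≤ w → ∃ i, E ((k : ℤ) - j) k i ≤ L := by
    intro j hj
    have hjk : (j : ℝ) ≤ k := hj.trans hwk
    have h1 : |(((k : ℤ) - j : ℤ) : ℝ)| = k - j := by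
      push_cast
      exact abs_of_nonneg (by linarith)
    refine hlow ((k : ℤ) - j) k L hL hk0' ?_ ?_ ?_
    · rw [hkabs]; exact hk2
    · rw [hkabs, h1]
      have : (0 : ℝ) ≤ j := Nat.cast_nonneg j
      linarith
    · rw [hkabs, h1]
      linarith
  have hex' : ∀ j : ℕ, ∃ i, (j : ℝ) ≤ w → E ((k : ℤ) - j) k i ≤ L := by
    intro j
    by_cases hj : (j : ℝ) ≤ w
    · obtain ⟨i, hi⟩ := hex j hj
      exact ⟨i, fun _ => hi⟩
    · exact ⟨0, fun h => absurd h hj⟩
  choose i hi using hex'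
  have h1 : (Finset.range (⌊w⌋₊ + 1)).card ≤ (F.filter fun α => hh α = k).card := by
    refine Finset.card_le_card_of_injOn (fun j : ℕ => (((k : ℤ) - j, (k : ℤ), i j) : I3)) ?_ ?_
    · intro j hj
      rw [Finset.mem_coe, Finset.mem_range] at hj
      rw [Finset.mem_coe, Finset.mem_filter, hF]
      refine ⟨hi j ?_, ?_⟩
      · exact (Nat.le_floor_iff hw0).1 (by omega)
      · unfold hh
        simp
    · intro j _ j' _ h
      simp only [Prod.mk.injEq] at h
      have := h.1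
      omega
  rw [Finset.card_range] at h1
  have h2 : w ≤ (⌊w⌋₊ : ℝ) + 1 := (Nat.lt_floor_add_one w).le
  refine h2.trans ?_
  unfold sz
  exact_mod_cast h1

end PairL

open PairL

theorem t_PAIR : S_UP → S_LOWER → S_ENERGY → S_PAIR := by
  classical
  rintro ⟨C, hC0, hUP⟩ hLOW hEN u E hFam
  have hone := hFam.one
  have hC := hUP u E hone
  have hE0 : ∀ α, 0 ≤ ev E α := fun α => (hEN _ _ _ _ (hone α.1 α.2.1) α.2.2).1
  have hlow : ∀ m n : ℤ, ∀ Λ : ℝ, 100 ≤ Λ → n ≠ 0 → |(n : ℝ)| ≤ Λ ^ (3 / 2 : ℝ) / 3000 →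
      |(m : ℝ)| ≤ |(n : ℝ)| → |(n : ℝ)| - |(m : ℝ)| ≤ Λ ^ 2 / (100000 * |(n : ℝ)|) →
      ∃ i, E m n i ≤ Λ := fun m n Λ h1 h2 h3 h4 h5 => hLOW m n _ _ (hone m n) Λ h1 h2 h3 h4 h5
  have hF : ∀ L : ℝ, ∃ F : Finset I3, 1 ≤ L → (∀ α, α ∈ F ↔ ev E α ≤ L) ∧ Bd F (2 * C) L := by
    intro L
    by_cases hL : 1 ≤ L
    · obtain ⟨F, hF⟩ := fin_bd hC hL
      exact ⟨F, fun _ => hF⟩
    · exact ⟨∅, fun h => absurd h hL⟩
  choose F hF using hF
  have hsub : ∀ L : ℝ, 1 ≤ L → lev E L ⊆ ((F L ×ˢ F L : Finset (I3 × I3)) : Set (I3 × I3)) := by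
    intro L hL γ hγ
    have h1 : ev E γ.1 + ev E γ.2 ≤ L := hγ
    rw [Finset.coe_product, Set.mem_prod, Finset.mem_coe, Finset.mem_coe, (hF L hL).1, (hF L hL).1]
    have h2 := hE0 γ.1
    have h3 := hE0 γ.2
    constructor <;> linarith
  have hfin : ∀ L, (lev E L).Finite := by
    intro L
    refine Set.Finite.subset (Finset.finite_toSet (F (max L 1) ×ˢ F (max L 1))) ?_
    refine Set.Subset.trans ?_ (hsub (max L 1) (le_max_right _ _))
    intro γ hγ
    have hγ' : ev E γ.1 + ev E γ.2 ≤ L := hγ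
    exact hγ'.trans (le_max_left _ _)
  -- lower bound for the number of pairs
  have hNlow : ∀ L : ℝ, 2 ≤ L → ((F (L / 2)).card : ℝ) ^ 2 ≤ ((lev E L).ncard : ℝ) := by
    intro L hL
    have h1 : ((F (L / 2) ×ˢ F (L / 2) : Finset (I3 × I3)) : Set (I3 × I3)) ⊆ lev E L := by
      intro γ hγ
      rw [Finset.coe_product, Set.mem_prod, Finset.mem_coe, Finset.mem_coe,
        (hF (L / 2) (by linarith)).1, (hF (L / 2) (by linarith)).1] at hγ
      show ev E γ.1 + ev E γ.2 ≤ L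
      linarith [hγ.1, hγ.2]
    have h2 := Set.ncard_le_ncard h1 (hfin L)
    rw [Set.ncard_coe_finset, Finset.card_product] at h2
    rw [sq]
    exact_mod_cast h2
  set c : ℝ := 1 / 400000 with hc
  have hc0 : 0 < c := by norm_num
  -- everything for large `L`
  have hlog : ∀ᶠ L : ℝ in atTop, 4 * (Real.log 3000 + 1) + 2 + Real.log 200 + 2 ≤
      Real.log L / 2 := by
    have h1 : Tendsto (fun L : ℝ => Real.log L / 2) atTop atTop :=
      Real.tendsto_log_atTop.atTop_div_const (by norm_num)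
    exact h1.eventually_ge_atTop _
  have hev : ∀ᶠ L : ℝ in atTop, 200 ≤ L ∧ 0 < Real.log L ∧
      c * (L / 2) ^ 2 * (Real.log L / 2) ≤ ((F (L / 2)).card : ℝ) ∧
      ((F L).card : ℝ) ≤ 3 * (2 * C) * L ^ 2 * Real.log L := by
    filter_upwards [hlog, eventually_ge_atTop (200 : ℝ)] with L h1 h2
    have h3 : 0 ≤ Real.log 3000 := Real.log_nonneg (by norm_num)
    have h4 : 0 ≤ Real.log 200 := Real.log_nonneg (by norm_num)
    have h5 : Real.log L / 2 ≤ Real.log (L / 2) := by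
      rw [Real.log_div (by linarith) (by norm_num)]
      have : Real.log 2 ≤ 1 := by
        have := Real.log_two_lt_d9
        linarith
      linarith
    refine ⟨h2, by linarith, ?_, ?_⟩
    · have h6 := low (F := F (L / 2)) (L := L / 2) (by linarith)
        (fun k hk1 hk2 => fib_low hlow (by linarith) (hF (L / 2) (by linarith)).1 k hk1 hk2)
        (by linarith)
      refine le_trans ?_ h6
      rw [hc]
      gcongr
    · exact up (by positivity) (by linarith) (hF L (by linarith)).2 (by linarith)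
  have hNbig : ∀ᶠ L : ℝ in atTop, (c * (L / 2) ^ 2 * (Real.log L / 2)) ^ 2 ≤
      ((lev E L).ncard : ℝ) := by
    filter_upwards [hev] with L ⟨h1, h2, h3, h4⟩
    refine le_trans ?_ (hNlow L (by linarith))
    gcongr
  refine ⟨hfin, ?_, ?_⟩
  · have h1 : Tendsto (fun L : ℝ => (c * (L / 2) ^ 2 * (Real.log L / 2)) ^ 2) atTop atTop := by
      have h2 : Tendsto (fun L : ℝ => (L / 2) ^ 2) atTop atTop :=
        (tendsto_pow_atTop (by norm_num)).comp (tendsto_id.atTop_div_const (by norm_num))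
      have h3 : Tendsto (fun L : ℝ => Real.log L / 2) atTop atTop :=
        Real.tendsto_log_atTop.atTop_div_const (by norm_num)
      have h4 := (h2.const_mul_atTop hc0).atTop_mul_atTop₀ h3
      exact (tendsto_pow_atTop (by norm_num)).comp h4
    exact tendsto_atTop_mono' _ hNbig h1
  · intro K ε hK hε
    set D : ℝ := 2 * C with hD
    have hD0 : 0 ≤ D := by positivity
    set B : ℝ := 2 * (K + 1) + (1 / ε ^ 2 + 1 / ε) with hB
    have hB0 : 0 < B := by positivity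
    -- bad pairs
    have hbad : ∀ L : ℝ, 1 ≤ L → ((lev E L ∩ {γ | ¬ Good K ε L γ}).ncard : ℝ) ≤
        B * D * L ^ 2 * ((F L).card : ℝ) := by
      intro L hL
      have hbd := (hF L hL).2
      set B1 : Finset (I3 × I3) := ((F L).filter fun α => (hh α : ℝ) < K * L) ×ˢ F L with hB1
      set B2 : Finset (I3 × I3) := F L ×ˢ ((F L).filter fun α => (hh α : ℝ) < K * L) with hB2
      set B3 : Finset (I3 × I3) := (F L ×ˢ F L).filter fun γ =>
        1 ≤ (hh γ.1 : ℝ) ∧ ε * hh γ.1 < hh γ.2 ∧ ε * (hh γ.2 : ℝ) < hh γ.1 with hB3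
      have h1 : lev E L ∩ {γ | ¬ Good K ε L γ} ⊆ ((B1 ∪ B2 ∪ B3 : Finset (I3 × I3)) : Set (I3 × I3)) := by
        rintro γ ⟨hγ, hbad⟩
        have h2 := hsub L hL hγ
        rw [Finset.coe_product, Set.mem_prod, Finset.mem_coe, Finset.mem_coe] at h2
        rw [Finset.mem_coe, Finset.mem_union, Finset.mem_union, hB1, hB2, hB3]
        simp only [Finset.mem_product, Finset.mem_filter]
        by_cases h3 : (hh γ.1 : ℝ) < K * L
        · exact Or.inl (Or.inl ⟨⟨h2.1, h3⟩, h2.2⟩)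
        by_cases h4 : (hh γ.2 : ℝ) < K * L
        · exact Or.inl (Or.inr ⟨h2.1, h2.2, h4⟩)
        refine Or.inr ⟨h2, ?_⟩
        rw [not_lt] at h3 h4
        have h5 : 1 ≤ (hh γ.1 : ℝ) := by
          have h6 : (0 : ℝ) < hh γ.1 := lt_of_lt_of_le (by positivity) h3
          have h7 : 0 < hh γ.1 := by exact_mod_cast h6
          exact_mod_cast h7
        rw [hh_cast] at h3 h4
        have h6 : ¬ (|(γ.2.2.1 : ℝ)| ≤ ε * |(γ.1.2.1 : ℝ)| ∨ |(γ.1.2.1 : ℝ)| ≤ ε * |(γ.2.2.1 : ℝ)|) :=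
          fun h7 => hbad ⟨h3, h4, h7⟩
        rw [not_or, not_le, not_le] at h6
        refine ⟨h5, ?_, ?_⟩
        · rw [hh_cast, hh_cast]; exact h6.1
        · rw [hh_cast, hh_cast]; exact h6.2
      have h2 := Set.ncard_le_ncard h1 (Finset.finite_toSet _)
      rw [Set.ncard_coe_finset] at h2
      have h3 := h2.trans ((Finset.card_union_le _ _).trans
        (Nat.add_le_add_right (Finset.card_union_le _ _) _))
      have h4 : ((lev E L ∩ {γ | ¬ Good K ε L γ}).ncard : ℝ) ≤ (B1.card : ℝ) + B2.card + B3.card := by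
        exact_mod_cast h3
      have h5 : (B1.card : ℝ) ≤ (K + 1) * D * L ^ 2 * (F L).card := by
        rw [hB1, Finset.card_product]
        push_cast
        exact mul_le_mul_of_nonneg_right (small hD0 hL hbd K hK.le) (Nat.cast_nonneg _)
      have h6 : (B2.card : ℝ) ≤ (K + 1) * D * L ^ 2 * (F L).card := by
        rw [hB2, Finset.card_product, mul_comm]
        push_cast
        exact mul_le_mul_of_nonneg_right (small hD0 hL hbd K hK.le) (Nat.cast_nonneg _)
      have h7 : (B3.card : ℝ) ≤ (F L).card * ((1 / ε ^ 2 + 1 / ε) * D * L ^ 2) := by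
        refine cardB (F L) (fun α β => 1 ≤ (hh α : ℝ) ∧ ε * hh α < hh β ∧ ε * (hh β : ℝ) < hh α) _ ?_
        intro α hα
        by_cases h8 : 1 ≤ (hh α : ℝ)
        · refine le_trans ?_ (comp hD0 hL hbd ε hε (hh α) h8)
          have : ((F L).filter fun β => 1 ≤ (hh α : ℝ) ∧ ε * hh α < hh β ∧ ε * (hh β : ℝ) < hh α) ⊆
              (F L).filter fun β => ε * (hh α : ℝ) < hh β ∧ ε * (hh β : ℝ) < hh α := by
            intro β hβ
            rw [Finset.mem_filter] at hβ ⊢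
            exact ⟨hβ.1, hβ.2.2⟩
          exact_mod_cast Finset.card_le_card this
        · have : ((F L).filter fun β => 1 ≤ (hh α : ℝ) ∧ ε * hh α < hh β ∧ ε * (hh β : ℝ) < hh α) =
              ∅ := by
            rw [Finset.filter_eq_empty_iff]
            intro β _ h9
            exact h8 h9.1
          rw [this, Finset.card_empty, Nat.cast_zero]
          positivity
      refine h4.trans ?_
      rw [hB]
      nlinarith
    have hlim : Tendsto (fun L : ℝ => 192 * B * D ^ 2 / c ^ 2 * (Real.log L)⁻¹) atTop (𝓝 0) := by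
      have := Real.tendsto_log_atTop.inv_tendsto_atTop.const_mul (192 * B * D ^ 2 / c ^ 2)
      simpa using this
    refine squeeze_zero' (Eventually.of_forall fun L => by positivity) ?_ hlim
    filter_upwards [hev, hNbig] with L ⟨h1, h2, h3, h4⟩ h5
    have hL0 : 0 < L := by linarith
    have h6 := hbad L (by linarith)
    have h7 : 0 < (c * (L / 2) ^ 2 * (Real.log L / 2)) ^ 2 := by positivity
    have h8 : B * D * L ^ 2 * ((F L).card : ℝ) ≤ B * D * L ^ 2 * (3 * D * L ^ 2 * Real.log L) := by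
      gcongr
    calc ((lev E L ∩ {γ | ¬ Good K ε L γ}).ncard : ℝ) / ((lev E L).ncard : ℝ) ≤
          (B * D * L ^ 2 * (3 * D * L ^ 2 * Real.log L)) /
            (c * (L / 2) ^ 2 * (Real.log L / 2)) ^ 2 := by
          exact div_le_div₀ (by positivity) (h6.trans h8) h7 h5
      _ = 192 * B * D ^ 2 / c ^ 2 * (Real.log L)⁻¹ := by
          field_simp
          ring

end Pool.Agent.H223.SR
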