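import Pool.Agent.H223.SR.Stm

set_option autoImplicit false

open MeasureTheory Set Filter Topology
open scoped ContDiff Real ComplexConjugate

namespace Pool.Agent.H223.SR

theorem sw_quot : IsOpenQuotientMap (proj : (Fin 6 → ℝ) → Tor 6) := by
  have h : ∀ _ : Fin 6, IsOpenQuotientMap
      (QuotientAddGroup.mk : ℝ → ℝ ⧸ AddSubgroup.zmultiples (1 : ℝ)) :=
    fun _ => QuotientAddGroup.isOpenQuotientMap_mk
  exact IsOpenQuotientMap.piMap h

theorem sw_cont : S_CONT := by
  intro a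
  have h := (sw_quot.prodMap (IsOpenQuotientMap.id (X := Sph 6))).isQuotientMap
  rw [h.continuous_iff]
  have h1 : Continuous (fun p : (Fin 6 → ℝ) × Sph 6 => ((p.1, (p.2 : Fin 6 → ℝ)) :
      (Fin 6 → ℝ) × (Fin 6 → ℝ))) := by fun_prop
  have h2 := a.smooth.continuousOn.comp_continuous h1 (by
    intro p
    simp only [mem_setOf_eq]
    intro h0
    have := mem_sphere_zero_iff_norm.1 p.2.2
    rw [h0, norm_zero] at this
    norm_num at this)
  exact h2

/-- constant elementary symbol -/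
def sw_one : Elem where
  g := fun _ => 1
  smooth := fun _ => by simpa using contDiff_const
  β := fun _ => 1
  smoothβ := contDiffOn_const
  homog := fun _ _ _ => rfl

/-- product -/
def sw_mul (e f : Elem) : Elem where
  g := fun i => e.g i * f.g i
  smooth := fun i => by simpa using (e.smooth i).mul (f.smooth i)
  β := fun ξ => e.β ξ * f.β ξ
  smoothβ := e.smoothβ.mul f.smoothβ
  homog := fun ξ t ht => by rw [e.homog ξ t ht, f.homog ξ t ht]

/-- multiple -/
def sw_smul (c : ℝ) (e : Elem) : Elem where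
  g := e.g
  smooth := e.smooth
  β := fun ξ => c * e.β ξ
  smoothβ := contDiffOn_const.mul e.smoothβ
  homog := fun ξ t ht => by rw [e.homog ξ t ht]

theorem sw_one_val (x : Tor 6) (ξ : Fin 6 → ℝ) : sw_one.val x ξ = 1 := by
  simp [Elem.val, sw_one]

theorem sw_mul_val (e f : Elem) (x : Tor 6) (ξ : Fin 6 → ℝ) :
    (sw_mul e f).val x ξ = e.val x ξ * f.val x ξ := by
  simp [Elem.val, sw_mul, Finset.prod_mul_distrib]
  ring

theorem sw_smul_val (c : ℝ) (e : Elem) (x : Tor 6) (ξ : Fin 6 → ℝ) :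
    (sw_smul c e).val x ξ = c * e.val x ξ := by
  simp [Elem.val, sw_smul]
  ring

/-- the submonoid of elementary symbols -/
def sw_M : Submonoid C(Tor 6 × Sph 6, ℝ) where
  carrier := {F | ∃ e : Elem, ∀ p, F p = e.val p.1 p.2}
  one_mem' := ⟨sw_one, fun p => by simp [sw_one_val]⟩
  mul_mem' := by
    rintro F G ⟨e, he⟩ ⟨f, hf⟩
    exact ⟨sw_mul e f, fun p => by simp [sw_mul_val, he, hf]⟩

/-- every elementary symbol is a continuous function -/
theorem sw_elem_cont (e : Elem) : Continuous fun p : Tor 6 × Sph 6 => e.val p.1 p.2 := by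
  unfold Elem.val
  apply Continuous.mul
  · exact continuous_finset_prod _ fun i _ => (e.g i).continuous.comp
      ((continuous_apply i).comp continuous_fst)
  · have h1 : Continuous (fun p : Tor 6 × Sph 6 => (p.2 : Fin 6 → ℝ)) := by fun_prop
    refine e.smoothβ.continuousOn.comp_continuous h1 ?_
    intro p h0
    have := mem_sphere_zero_iff_norm.1 p.2.2
    rw [h0, norm_zero] at this
    norm_num at this

/-- a trigonometric elementary symbol -/
noncomputable def sw_trig (i : Fin 6) (φ : ℂ →L[ℝ] ℝ) : Elem where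
  g := fun j => if j = i then ⟨fun t => φ (fourier 1 t), by fun_prop⟩ else 1
  smooth := fun j => by
    by_cases h : j = i
    · simp only [h, if_true]
      have : (fun x : ℝ => φ (fourier 1 (x : UnitAddCircle))) =
          fun x : ℝ => φ (Complex.exp (2 * π * Complex.I * x)) := by
        funext x
        rw [fourier_coe_apply]
        simp
      change ContDiff ℝ ∞ (fun x : ℝ => φ (fourier 1 (x : UnitAddCircle)))
      rw [this]
      refine φ.contDiff.comp ?_
      refine ContDiff.cexp ?_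
      exact contDiff_const.mul Complex.ofRealCLM.contDiff
    · simp only [h, if_false]
      simpa using contDiff_const
  β := fun _ => 1
  smoothβ := contDiffOn_const
  homog := fun _ _ _ => rfl

theorem sw_trig_val (i : Fin 6) (φ : ℂ →L[ℝ] ℝ) (x : Tor 6) (ξ : Fin 6 → ℝ) :
    (sw_trig i φ).val x ξ = φ (fourier 1 (x i)) := by
  simp only [Elem.val, sw_trig, mul_one]
  rw [Finset.prod_eq_single i]
  · simp
  · intro j _ hj
    simp [hj]
  · simp

theorem sw_sum_pos {ξ : Fin 6 → ℝ} (h : ξ ≠ 0) : 0 < ∑ j, ξ j ^ 2 := by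
  obtain ⟨i, hi⟩ := Function.ne_iff.1 h
  have h1 : 0 < ξ i ^ 2 := by
    have : ξ i ≠ 0 := hi
    positivity
  exact lt_of_lt_of_le h1 (Finset.single_le_sum (f := fun j => ξ j ^ 2)
    (fun j _ => sq_nonneg _) (Finset.mem_univ i))

/-- a directional elementary symbol -/
noncomputable def sw_dir (i : Fin 6) : Elem where
  g := fun _ => 1
  smooth := fun _ => by simpa using contDiff_const
  β := fun ξ => ξ i / √(∑ j, ξ j ^ 2)
  smoothβ := by
    refine ContDiffOn.div ?_ ?_ ?_
    · fun_prop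
    · refine ContDiffOn.sqrt ?_ ?_
      · fun_prop
      · intro ξ hξ
        exact (sw_sum_pos hξ).ne'
    · intro ξ hξ
      exact (Real.sqrt_pos.2 (sw_sum_pos hξ)).ne'
  homog := fun ξ t ht => by
    have h1 : ∑ j, (t • ξ) j ^ 2 = t ^ 2 * ∑ j, ξ j ^ 2 := by
      rw [Finset.mul_sum]
      refine Finset.sum_congr rfl fun j _ => ?_
      simp
      ring
    rw [h1, Real.sqrt_mul (sq_nonneg t), Real.sqrt_sq ht.le]
    simp only [Pi.smul_apply, smul_eq_mul]
    rw [mul_div_mul_left _ _ ht.ne']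

theorem sw_dir_val (i : Fin 6) (x : Tor 6) (ξ : Fin 6 → ℝ) :
    (sw_dir i).val x ξ = ξ i / √(∑ j, ξ j ^ 2) := by
  simp [Elem.val, sw_dir]

theorem sw_sep : (Algebra.adjoin ℝ (sw_M : Set C(Tor 6 × Sph 6, ℝ))).SeparatesPoints := by
  intro p q hpq
  by_contra hcon
  push_neg at hcon
  have key : ∀ e : Elem, e.val p.1 p.2 = e.val q.1 q.2 := by
    intro e
    have := hcon (fun r : Tor 6 × Sph 6 => e.val r.1 r.2)
      ⟨⟨fun r : Tor 6 × Sph 6 => e.val r.1 r.2, sw_elem_cont e⟩,
        Algebra.subset_adjoin ⟨e, fun _ => rfl⟩, rfl⟩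
    exact this
  apply hpq
  refine Prod.ext ?_ ?_
  · funext i
    have h1 := key (sw_trig i Complex.reCLM)
    have h2 := key (sw_trig i Complex.imCLM)
    rw [sw_trig_val, sw_trig_val] at h1 h2
    have h3 : fourier 1 (p.1 i) = fourier 1 (q.1 i) := Complex.ext h1 h2
    rw [fourier_one, fourier_one] at h3
    exact AddCircle.injective_toCircle one_ne_zero (Circle.ext h3)
  · have hp0 : (p.2 : Fin 6 → ℝ) ≠ 0 := by
      intro h0
      have := mem_sphere_zero_iff_norm.1 p.2.2
      rw [h0, norm_zero] at this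
      norm_num at this
    have hq0 : (q.2 : Fin 6 → ℝ) ≠ 0 := by
      intro h0
      have := mem_sphere_zero_iff_norm.1 q.2.2
      rw [h0, norm_zero] at this
      norm_num at this
    set s := √(∑ j, (p.2 : Fin 6 → ℝ) j ^ 2) with hs
    set t := √(∑ j, (q.2 : Fin 6 → ℝ) j ^ 2) with ht
    have hs0 : 0 < s := Real.sqrt_pos.2 (sw_sum_pos hp0)
    have ht0 : 0 < t := Real.sqrt_pos.2 (sw_sum_pos hq0)
    have h1 : (p.2 : Fin 6 → ℝ) = (s / t) • (q.2 : Fin 6 → ℝ) := by
      funext i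
      have := key (sw_dir i)
      rw [sw_dir_val, sw_dir_val, ← hs, ← ht] at this
      simp only [Pi.smul_apply, smul_eq_mul]
      field_simp at this ⊢
      linarith
    have h2 : s / t = 1 := by
      have h3 := mem_sphere_zero_iff_norm.1 p.2.2
      rw [h1, norm_smul, mem_sphere_zero_iff_norm.1 q.2.2, mul_one, Real.norm_eq_abs,
        abs_of_pos (div_pos hs0 ht0)] at h3
      exact h3
    apply Subtype.ext
    rw [h1, h2, one_smul]

theorem sw_sw : S_SW := by
  intro a ε hε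
  set G : C(Tor 6 × Sph 6, ℝ) := ⟨fun p => a.f p.1 p.2, sw_cont a⟩ with hG
  have htop := ContinuousMap.subalgebra_topologicalClosure_eq_top_of_separatesPoints
    (Algebra.adjoin ℝ (sw_M : Set C(Tor 6 × Sph 6, ℝ))) sw_sep
  have hmem : G ∈ (Algebra.adjoin ℝ (sw_M : Set C(Tor 6 × Sph 6, ℝ))).topologicalClosure := by
    rw [htop]; trivial
  have hmem2 : G ∈ closure ((Algebra.adjoin ℝ (sw_M : Set C(Tor 6 × Sph 6, ℝ)) :
      Subalgebra ℝ C(Tor 6 × Sph 6, ℝ)) : Set C(Tor 6 × Sph 6, ℝ)) := hmem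
  obtain ⟨F, hF, hd⟩ := Metric.mem_closure_iff.1 hmem2 ε hε
  have hF2 : F ∈ Submodule.span ℝ ((sw_M : Submonoid C(Tor 6 × Sph 6, ℝ)) :
      Set C(Tor 6 × Sph 6, ℝ)) := by
    have := Algebra.adjoin_eq_span ℝ (sw_M : Set C(Tor 6 × Sph 6, ℝ))
    rw [Submonoid.closure_eq] at this
    rw [← this]
    exact hF
  obtain ⟨n, c, g, hsum⟩ := Submodule.mem_span_set'.1 hF2
  choose e he using fun i => (g i).2
  refine ⟨n, fun i => sw_smul (c i) (e i), ?_⟩
  intro x ξ hξ
  have hn : 0 < ‖ξ‖ := norm_pos_iff.2 hξ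
  have hsph : (‖ξ‖⁻¹ • ξ) ∈ Metric.sphere (0 : Fin 6 → ℝ) 1 := by
    rw [mem_sphere_zero_iff_norm, norm_smul, norm_inv, norm_norm, inv_mul_cancel₀ hn.ne']
  have h1 : a.f x ξ = G (x, ⟨‖ξ‖⁻¹ • ξ, hsph⟩) := by
    simp only [hG, ContinuousMap.coe_mk]
    rw [a.homog x ξ _ (inv_pos.2 hn)]
  have h2 : ∑ l, (sw_smul (c l) (e l)).val x ξ = F (x, ⟨‖ξ‖⁻¹ • ξ, hsph⟩) := by
    rw [← hsum, ContinuousMap.coe_sum, Finset.sum_apply]
    refine Finset.sum_congr rfl fun l _ => ?_
    rw [sw_smul_val, ContinuousMap.smul_apply, he, smul_eq_mul]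
    simp only [Elem.val]
    rw [(e l).homog ξ _ (inv_pos.2 hn)]
  rw [h1, h2, ← Real.dist_eq]
  exact (ContinuousMap.dist_apply_le_dist _).trans hd.le

theorem t_SW : S_CONT ∧ S_SW := ⟨sw_cont, sw_sw⟩

end Pool.Agent.H223.SR
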