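import Pool.Agent.H223.SR.Stm

set_option autoImplicit false

open MeasureTheory Set Filter Topology
open scoped ContDiff Real ComplexConjugate

namespace Pool.Agent.H223.SR

namespace SymL

/-- periodicity -/
def Per (P : (Fin 6 → ℝ) → ℂ) : Prop := ∀ (x : Fin 6 → ℝ) (a : Fin 6), P (x + Pi.single a 1) = P x

theorem insertNth_one (a : Fin 6) (x : Fin 5 → ℝ) :
    (a.insertNth (1 : ℝ) x : Fin 6 → ℝ) = (a.insertNth (0 : ℝ) x : Fin 6 → ℝ) + Pi.single a 1 := by
  funext j
  rcases eq_or_ne j a with rfl | hj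
  · simp
  · obtain ⟨i, rfl⟩ := Fin.exists_succAbove_eq hj
    simp

theorem int_partial (P : (Fin 6 → ℝ) → ℂ) (hP : ContDiff ℝ 1 P) (per : Per P) (a : Fin 6) :
    ∫ x in Icc (0 : Fin 6 → ℝ) 1, fderiv ℝ P x (Pi.single a 1) = 0 := by
  have hc : Continuous fun x => fderiv ℝ P x (Pi.single a 1) :=
    (hP.continuous_fderiv (by norm_num)).clm_apply continuous_const
  have key := integral_divergence_of_hasFDerivAt_off_countable' (n := 5) (0 : Fin 6 → ℝ) 1
    (fun _ => zero_le_one)
    (fun i => if i = a then P else 0) (fun i => if i = a then fderiv ℝ P else 0) ∅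
    Set.countable_empty
    (fun i => by
      by_cases h : i = a
      · simp only [h, if_true]; exact hP.continuous.continuousOn
      · simp only [h, if_false]; exact continuousOn_const)
    (fun x _ i => by
      by_cases h : i = a
      · simp only [h, if_true]
        exact (hP.differentiable (by norm_num) x).hasFDerivAt
      · simp only [h, if_false]
        exact hasFDerivAt_const (0 : ℂ) x)
    (by
      have : (fun x : Fin 6 → ℝ => ∑ i, (if i = a then fderiv ℝ P else 0) x (Pi.single i 1))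
          = fun x => fderiv ℝ P x (Pi.single a 1) := by
        funext x
        rw [Finset.sum_eq_single a]
        · simp
        · intro b _ hb; simp [hb]
        · intro h; exact absurd (Finset.mem_univ a) h
      rw [this]
      exact hc.continuousOn.integrableOn_compact isCompact_Icc)
  have h1 : (fun x : Fin 6 → ℝ => ∑ i, (if i = a then fderiv ℝ P else 0) x (Pi.single i 1))
      = fun x => fderiv ℝ P x (Pi.single a 1) := by
    funext x
    rw [Finset.sum_eq_single a]
    · simp
    · intro b _ hb; simp [hb]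
    · intro h; exact absurd (Finset.mem_univ a) h
  rw [h1] at key
  rw [key]
  refine Finset.sum_eq_zero fun i _ => ?_
  by_cases h : i = a
  · subst h
    simp only [if_true]
    rw [sub_eq_zero]
    congr 1
    funext x
    have := insertNth_one i x
    simp only [Pi.one_apply, Pi.zero_apply]
    rw [this, per]
  · simp [h]

theorem int_shear (c : (Fin 6 → ℝ) → ℝ) (hc : ContDiff ℝ 1 c)
    (hcper : ∀ (x : Fin 6 → ℝ) (a : Fin 6), c (x + Pi.single a 1) = c x) (b : Fin 6)
    (hcb : ∀ (x : Fin 6 → ℝ) (t : ℝ), c (x + t • Pi.single b 1) = c x)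
    (P : (Fin 6 → ℝ) → ℂ) (hP : ContDiff ℝ 1 P) (per : Per P) :
    ∫ x in Icc (0 : Fin 6 → ℝ) 1, (c x : ℂ) * fderiv ℝ P x (Pi.single b 1) = 0 := by
  have hc' : ContDiff ℝ 1 fun x => (c x : ℂ) := Complex.ofRealCLM.contDiff.comp hc
  have hzero : ∀ x, fderiv ℝ (fun x => (c x : ℂ)) x (Pi.single b 1) = 0 := by
    intro x
    rw [← ((hc'.differentiable (by norm_num)) x).lineDeriv_eq_fderiv]
    unfold lineDeriv
    have : (fun t : ℝ => ((c (x + t • Pi.single b 1) : ℝ) : ℂ)) = fun _ => (c x : ℂ) := by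
      funext t; rw [hcb]
    rw [this]
    simp
  have h1 := int_partial (fun x => (c x : ℂ) * P x) (hc'.mul hP) (fun x a => by
    simp only [hcper x a, per x a]) b
  rw [← h1]
  congr 1
  funext x
  have h2 : fderiv ℝ (fun x => (c x : ℂ) * P x) x
      = (c x : ℂ) • fderiv ℝ P x + P x • fderiv ℝ (fun x => (c x : ℂ)) x :=
    fderiv_fun_mul ((hc'.differentiable (by norm_num)) x) ((hP.differentiable (by norm_num)) x)
  rw [h2]
  simp [hzero x]

theorem MX0 (x : Fin 6 → ℝ) : MX 0 x = Pi.single 0 1 := by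
  funext j; fin_cases j <;> simp [MX, Pi.single_apply]

theorem MX1 (x : Fin 6 → ℝ) :
    MX 1 x = Pi.single 1 1 + Real.cos (2 * π * x 0) • Pi.single 2 1 := by
  funext j; fin_cases j <;> simp [MX, Pi.single_apply]

theorem MX2 (x : Fin 6 → ℝ) : MX 2 x = Pi.single 3 1 := by
  funext j; fin_cases j <;> simp [MX, Pi.single_apply]

theorem MX3 (x : Fin 6 → ℝ) :
    MX 3 x = Pi.single 4 1 + Real.cos (2 * π * x 3) • Pi.single 5 1 := by
  funext j; fin_cases j <;> simp [MX, Pi.single_apply]

theorem cos_smooth (j : Fin 6) : ContDiff ℝ ∞ fun x : Fin 6 → ℝ => Real.cos (2 * π * x j) :=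
  Real.contDiff_cos.comp (contDiff_const.mul (contDiff_apply ℝ ℝ j))

theorem MX_smooth (i : Fin 4) : ContDiff ℝ ∞ (MX i) := by
  fin_cases i
  · have : MX 0 = fun _ => Pi.single 0 1 := funext MX0
    change ContDiff ℝ ∞ (MX 0)
    rw [this]; exact contDiff_const
  · have : MX 1 = fun x => Pi.single 1 1 + Real.cos (2 * π * x 0) • Pi.single 2 1 := funext MX1
    change ContDiff ℝ ∞ (MX 1)
    rw [this]; exact contDiff_const.add ((cos_smooth 0).smul contDiff_const)
  · have : MX 2 = fun _ => Pi.single 3 1 := funext MX2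
    change ContDiff ℝ ∞ (MX 2)
    rw [this]; exact contDiff_const
  · have : MX 3 = fun x => Pi.single 4 1 + Real.cos (2 * π * x 3) • Pi.single 5 1 := funext MX3
    change ContDiff ℝ ∞ (MX 3)
    rw [this]; exact contDiff_const.add ((cos_smooth 3).smul contDiff_const)

theorem cos_per (j : Fin 6) (x : Fin 6 → ℝ) (a : Fin 6) :
    Real.cos (2 * π * (x + Pi.single a 1 : Fin 6 → ℝ) j) = Real.cos (2 * π * x j) := by
  rcases eq_or_ne j a with rfl | h
  · simp only [Pi.add_apply, Pi.single_eq_same]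
    rw [mul_add, mul_one, Real.cos_add_two_pi]
  · simp [h]

theorem MX_per (i : Fin 4) (x : Fin 6 → ℝ) (a : Fin 6) : MX i (x + Pi.single a 1) = MX i x := by
  fin_cases i
  · change MX 0 _ = MX 0 _; rw [MX0, MX0]
  · change MX 1 _ = MX 1 _; rw [MX1, MX1, cos_per]
  · change MX 2 _ = MX 2 _; rw [MX2, MX2]
  · change MX 3 _ = MX 3 _; rw [MX3, MX3, cos_per]

theorem int_along (i : Fin 4) (P : (Fin 6 → ℝ) → ℂ) (hP : ContDiff ℝ 1 P) (per : Per P) :
    ∫ x in Icc (0 : Fin 6 → ℝ) 1, along (MX i) P x = 0 := by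
  have hcont : ∀ a : Fin 6, Continuous fun x => fderiv ℝ P x (Pi.single a 1) := fun a =>
    (hP.continuous_fderiv (by norm_num)).clm_apply continuous_const
  have hi : ∀ a : Fin 6, IntegrableOn (fun x => fderiv ℝ P x (Pi.single a 1))
      (Icc (0 : Fin 6 → ℝ) 1) := fun a =>
    (hcont a).continuousOn.integrableOn_compact isCompact_Icc
  have hi2 : ∀ (j a : Fin 6), IntegrableOn
      (fun x => ((Real.cos (2 * π * x j) : ℝ) : ℂ) * fderiv ℝ P x (Pi.single a 1))
      (Icc (0 : Fin 6 → ℝ) 1) := fun j a =>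
    ((Complex.continuous_ofReal.comp (cos_smooth j).continuous).mul
      (hcont a)).continuousOn.integrableOn_compact isCompact_Icc
  have hs : ∀ (j b : Fin 6), j ≠ b → ∫ x in Icc (0 : Fin 6 → ℝ) 1,
      ((Real.cos (2 * π * x j) : ℝ) : ℂ) * fderiv ℝ P x (Pi.single b 1) = 0 := by
    intro j b hjb
    refine int_shear (fun x => Real.cos (2 * π * x j)) ((cos_smooth j).of_le (by norm_num))
      (cos_per j) b (fun x t => ?_) P hP per
    simp [hjb]
  fin_cases i
  · change ∫ x in Icc (0 : Fin 6 → ℝ) 1, along (MX 0) P x = 0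
    simp only [along, MX0]
    exact int_partial P hP per 0
  · change ∫ x in Icc (0 : Fin 6 → ℝ) 1, along (MX 1) P x = 0
    have h1 : (fun x => along (MX 1) P x) = fun x => fderiv ℝ P x (Pi.single 1 1)
        + ((Real.cos (2 * π * x 0) : ℝ) : ℂ) * fderiv ℝ P x (Pi.single 2 1) := by
      funext x
      simp only [along, MX1, map_add, map_smul, Complex.real_smul]
    rw [h1, integral_add (hi 1) (hi2 0 2), int_partial P hP per 1, hs 0 2 (by decide), add_zero]
  · change ∫ x in Icc (0 : Fin 6 → ℝ) 1, along (MX 2) P x = 0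
    simp only [along, MX2]
    exact int_partial P hP per 3
  · change ∫ x in Icc (0 : Fin 6 → ℝ) 1, along (MX 3) P x = 0
    have h1 : (fun x => along (MX 3) P x) = fun x => fderiv ℝ P x (Pi.single 4 1)
        + ((Real.cos (2 * π * x 3) : ℝ) : ℂ) * fderiv ℝ P x (Pi.single 5 1) := by
      funext x
      simp only [along, MX3, map_add, map_smul, Complex.real_smul]
    rw [h1, integral_add (hi 4) (hi2 3 5), int_partial P hP per 4, hs 3 5 (by decide), add_zero]

theorem along_smooth (i : Fin 4) {P : (Fin 6 → ℝ) → ℂ} (hP : ContDiff ℝ ∞ P) :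
    ContDiff ℝ ∞ (along (MX i) P) :=
  (hP.fderiv_right (by norm_num)).clm_apply (MX_smooth i)

theorem along_per (i : Fin 4) {P : (Fin 6 → ℝ) → ℂ} (per : Per P) : Per (along (MX i) P) := by
  intro x a
  unfold along
  rw [MX_per]
  have h : (fun y => P (y + Pi.single a 1)) = P := funext fun y => per y a
  rw [← fderiv_comp_add_right, h]

theorem along_mul (i : Fin 4) {P Q : (Fin 6 → ℝ) → ℂ} (hP : ContDiff ℝ ∞ P)
    (hQ : ContDiff ℝ ∞ Q) (x : Fin 6 → ℝ) :
    along (MX i) (fun y => conj (P y) * Q y) x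
      = conj (along (MX i) P x) * Q x + conj (P x) * along (MX i) Q x := by
  have hdP : DifferentiableAt ℝ P x := hP.differentiable (by norm_num) x
  have hdQ : DifferentiableAt ℝ Q x := hQ.differentiable (by norm_num) x
  have h1 : HasFDerivAt (fun y => conj (P y)) ((Complex.conjCLE : ℂ →L[ℝ] ℂ).comp (fderiv ℝ P x))
      x := (Complex.conjCLE : ℂ →L[ℝ] ℂ).hasFDerivAt.comp x hdP.hasFDerivAt
  have h2 := h1.mul hdQ.hasFDerivAt
  unfold along
  have h3 : fderiv ℝ (fun y => conj (P y) * Q y) x = _ := h2.fderiv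
  rw [h3]
  simp
  ring

theorem conj_smooth {P : (Fin 6 → ℝ) → ℂ} (hP : ContDiff ℝ ∞ P) :
    ContDiff ℝ ∞ fun x => conj (P x) :=
  (Complex.conjCLE : ℂ →L[ℝ] ℂ).contDiff.comp hP

theorem parts (i : Fin 4) {P Q : (Fin 6 → ℝ) → ℂ} (hP : ContDiff ℝ ∞ P) (hQ : ContDiff ℝ ∞ Q)
    (pP : Per P) (pQ : Per Q) :
    (∫ x in Icc (0 : Fin 6 → ℝ) 1, conj (along (MX i) P x) * Q x)
      = - ∫ x in Icc (0 : Fin 6 → ℝ) 1, conj (P x) * along (MX i) Q x := by
  have h1 := int_along i (fun y => conj (P y) * Q y)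
    (((conj_smooth hP).mul hQ).of_le (by norm_num)) (fun x a => by
      simp only [pP x a, pQ x a])
  have h2 : (fun x => along (MX i) (fun y => conj (P y) * Q y) x)
      = fun x => conj (along (MX i) P x) * Q x + conj (P x) * along (MX i) Q x :=
    funext fun x => along_mul i hP hQ x
  rw [h2, integral_add] at h1
  · exact eq_neg_of_add_eq_zero_left h1
  · exact (((conj_smooth (along_smooth i hP)).mul hQ).continuous).continuousOn.integrableOn_compact
      isCompact_Icc
  · exact (((conj_smooth hP).mul (along_smooth i hQ)).continuous).continuousOn.integrableOn_compact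
      isCompact_Icc

theorem symm_box {P Q : (Fin 6 → ℝ) → ℂ} (hP : ContDiff ℝ ∞ P) (hQ : ContDiff ℝ ∞ Q)
    (pP : Per P) (pQ : Per Q) :
    (∫ x in Icc (0 : Fin 6 → ℝ) 1, conj (mlap P x) * Q x)
      = ∫ x in Icc (0 : Fin 6 → ℝ) 1, conj (P x) * mlap Q x := by
  have e1 : (fun x => conj (mlap P x) * Q x)
      = fun x => ∑ i, -(conj (along (MX i) (along (MX i) P) x) * Q x) := by
    funext x
    simp only [mlap, map_neg, map_sum, neg_mul, Finset.sum_mul, Finset.sum_neg_distrib]
  have e2 : (fun x => conj (P x) * mlap Q x)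
      = fun x => ∑ i, -(conj (P x) * along (MX i) (along (MX i) Q) x) := by
    funext x
    simp only [mlap, mul_neg, Finset.mul_sum, Finset.sum_neg_distrib]
  rw [e1, e2, integral_finsetSum, integral_finsetSum]
  · refine Finset.sum_congr rfl fun i _ => ?_
    rw [integral_neg, integral_neg, parts i (along_smooth i hP) hQ (along_per i pP) pQ,
      parts i hP (along_smooth i hQ) pP (along_per i pQ), neg_neg]
  · intro i _
    exact (((conj_smooth hP).mul (along_smooth i (along_smooth i
      hQ))).neg.continuous).continuousOn.integrableOn_compact isCompact_Icc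
  · intro i _
    exact (((conj_smooth (along_smooth i (along_smooth i hP))).mul
      hQ).neg.continuous).continuousOn.integrableOn_compact isCompact_Icc

theorem proj_per (F : C(Tor 6, ℂ)) : Per fun x => F (proj x) := by
  intro x a
  have : proj (x + Pi.single a 1) = proj x := by
    funext j
    unfold proj
    rcases eq_or_ne j a with rfl | h
    · simp only [Pi.add_apply, Pi.single_eq_same]
      exact AddCircle.coe_add_period 1 (x j)
    · simp [h]
  simp only [this]

section

noncomputable local instance : MeasureSpace UnitAddCircle := ⟨AddCircle.haarAddCircle⟩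

theorem inner_box (F G : C(Tor 6, ℂ)) : inner ℂ (cls F) (cls G)
    = ∫ x in Icc (0 : Fin 6 → ℝ) 1, conj (F (proj x)) * G (proj x) := by
  have h1 : inner ℂ (cls F) (cls G) = ∫ x, G x * conj (F x) ∂(vol 6) :=
    ContinuousMap.inner_toLp (vol 6) F G
  have h2 : ∫ x, G x * conj (F x) ∂(vol 6)
      = ∫ (x : Fin 6 → ℝ) in {x : Fin 6 → ℝ | ∀ i, x i ∈ Ioc ((0 : Fin 6 → ℝ) i) ((0 : Fin 6 → ℝ) i + 1)},
        G (fun i => x i) * conj (F (fun i => x i)) :=
    UnitAddTorus.integral_preimage (d := Fin 6) (fun x => G x * conj (F x)) 0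
  rw [h1, h2]
  have h3 : ({x : Fin 6 → ℝ | ∀ i, x i ∈ Ioc ((0 : Fin 6 → ℝ) i) ((0 : Fin 6 → ℝ) i + 1)}
      : Set (Fin 6 → ℝ)) =ᵐ[volume] Icc (0 : Fin 6 → ℝ) 1 := by
    have h4 : ({x : Fin 6 → ℝ | ∀ i, x i ∈ Ioc ((0 : Fin 6 → ℝ) i) ((0 : Fin 6 → ℝ) i + 1)}
      : Set (Fin 6 → ℝ)) = Set.pi Set.univ fun i => Ioc ((0 : Fin 6 → ℝ) i) ((1 : Fin 6 → ℝ) i) := by
      ext x; simp
    rw [h4]
    exact Measure.univ_pi_Ioc_ae_eq_Icc
  rw [setIntegral_congr_set h3]
  congr 1
  funext x
  rw [mul_comm]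
  rfl

end

end SymL

open SymL in
theorem t_SYM : S_SYM := by
  intro F G l l' hF hG hl hl' hne
  rw [inner_box]
  have h := symm_box hF hG (proj_per F) (proj_per G)
  simp only [hl, hl', map_mul, Complex.conj_ofReal] at h
  have h1 : (fun x : Fin 6 → ℝ => (l : ℂ) * conj (F (proj x)) * G (proj x))
      = fun x => (l : ℂ) * (conj (F (proj x)) * G (proj x)) := by funext x; ring
  have h2 : (fun x : Fin 6 → ℝ => conj (F (proj x)) * ((l' : ℂ) * G (proj x)))
      = fun x => (l' : ℂ) * (conj (F (proj x)) * G (proj x)) := by funext x; ring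
  rw [h1, h2, integral_const_mul, integral_const_mul] at h
  have h3 : ((l : ℂ) - l') * ∫ x in Icc (0 : Fin 6 → ℝ) 1, conj (F (proj x)) * G (proj x) = 0 := by
    rw [sub_mul, h, sub_self]
  rcases mul_eq_zero.1 h3 with h4 | h4
  · exfalso
    apply hne
    have := sub_eq_zero.1 h4
    exact_mod_cast this
  · exact h4

end Pool.Agent.H223.SR
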