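import Pool.Agent.H223.SR.Stm

set_option autoImplicit false

open MeasureTheory Set Filter Topology
open scoped ContDiff Real ComplexConjugate

namespace Pool.Agent.H223.SR

namespace Ten

theorem inner_tens (g h : Fin 6 → C(UnitAddCircle, ℂ)) :
    (inner ℂ (cls (tens g)) (cls (tens h)) : ℂ) = ∏ i, ∫ t, conj (g i t) * h i t ∂hm := by
  rw [ContinuousMap.inner_toLp]
  have h1 : ∀ x : Tor 6, tens h x * (starRingEnd ℂ) (tens g x) =
      ∏ i, (fun (i : Fin 6) (t : UnitAddCircle) => conj (g i t) * h i t) i (x i) := by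
    intro x
    simp only [tens, ContinuousMap.coe_mk, map_prod]
    rw [← Finset.prod_mul_distrib]
    exact Finset.prod_congr rfl fun i _ => mul_comm _ _
  simp only [h1]
  exact integral_fintype_prod_eq_prod (fun (i : Fin 6) (t : UnitAddCircle) => conj (g i t) * h i t)

theorem int_fourier (m n : ℤ) :
    ∫ t, conj (fourier m t : ℂ) * fourier n t ∂hm = if m = n then 1 else 0 := by
  have h1 := (orthonormal_iff_ite.mp <| orthonormal_fourier (T := 1)) m n
  rw [ContinuousMap.inner_toLp] at h1
  rw [← h1]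
  exact integral_congr_ae (Filter.Eventually.of_forall fun t => mul_comm _ _)

/-- the integral of the square -/
noncomputable def sq (h : C(UnitAddCircle, ℂ)) : ℝ := ∫ t, ‖h t‖ ^ 2 ∂hm

theorem sq_nonneg (h : C(UnitAddCircle, ℂ)) : 0 ≤ sq h :=
  integral_nonneg fun t => by positivity

theorem sq_eq (h : C(UnitAddCircle, ℂ)) : ∫ t, conj (h t) * h t ∂hm = (sq h : ℂ) := by
  unfold sq
  rw [← integral_complex_ofReal]
  refine integral_congr_ae (Filter.Eventually.of_forall fun t => ?_)
  simp only
  rw [mul_comm, Complex.mul_conj, Complex.normSq_eq_norm_sq]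

theorem norm_tens (g : Fin 6 → C(UnitAddCircle, ℂ)) : ‖cls (tens g)‖ ^ 2 = ∏ i, sq (g i) := by
  have h1 := inner_tens g g
  rw [inner_self_eq_norm_sq_to_K] at h1
  have h2 : ∏ i, ∫ t, conj (g i t) * g i t ∂hm = ((∏ i, sq (g i) : ℝ) : ℂ) := by
    rw [Complex.ofReal_prod]
    exact Finset.prod_congr rfl fun i _ => sq_eq _
  rw [h2] at h1
  apply Complex.ofReal_injective
  rw [← h1, Complex.ofReal_pow]
  rfl

theorem tens_upd (g : Fin 6 → C(UnitAddCircle, ℂ)) (j : Fin 6) (h : C(UnitAddCircle, ℂ))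
    (x : Tor 6) : tens (Function.update g j h) x =
      h (x j) * ∏ i ∈ Finset.univ.erase j, g i (x i) := by
  simp only [tens, ContinuousMap.coe_mk]
  rw [← Finset.mul_prod_erase Finset.univ _ (Finset.mem_univ j), Function.update_self]
  congr 1
  refine Finset.prod_congr rfl fun i hi => ?_
  rw [Function.update_of_ne (Finset.ne_of_mem_erase hi)]

/-- the slot map -/
noncomputable def slot (g : Fin 6 → C(UnitAddCircle, ℂ)) (j : Fin 6) :
    C(UnitAddCircle, ℂ) →ₗ[ℂ] L2 6 :=
  (ContinuousMap.toLp 2 (vol 6) ℂ : C(Tor 6, ℂ) →L[ℂ] L2 6).toLinearMap.comp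
    { toFun := fun h => tens (Function.update g j h)
      map_add' := fun h h' => by
        ext x
        rw [ContinuousMap.add_apply, tens_upd, tens_upd, tens_upd, ContinuousMap.add_apply, add_mul]
      map_smul' := fun c h => by
        ext x
        rw [RingHom.id_apply, ContinuousMap.smul_apply, tens_upd, tens_upd,
          ContinuousMap.smul_apply, smul_eq_mul, smul_eq_mul, mul_assoc] }

theorem slot_apply (g : Fin 6 → C(UnitAddCircle, ℂ)) (j : Fin 6) (h : C(UnitAddCircle, ℂ)) :
    slot g j h = cls (tens (Function.update g j h)) := rfl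

theorem norm_slot (g : Fin 6 → C(UnitAddCircle, ℂ)) (j : Fin 6) (h : C(UnitAddCircle, ℂ)) :
    ‖slot g j h‖ ^ 2 = sq h * ∏ i ∈ Finset.univ.erase j, sq (g i) := by
  rw [slot_apply, norm_tens, ← Finset.mul_prod_erase Finset.univ _ (Finset.mem_univ j),
    Function.update_self]
  congr 1
  refine Finset.prod_congr rfl fun i hi => ?_
  rw [Function.update_of_ne (Finset.ne_of_mem_erase hi)]

theorem upd3 {T : Type} (a0 a1 a2 a3 a4 a5 h : T) :
    Function.update ![a0, a1, a2, a3, a4, a5] 3 h = ![a0, a1, a2, h, a4, a5] := by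
  funext a
  fin_cases a <;> rfl

theorem upd0 {T : Type} (a0 a1 a2 a3 a4 a5 h : T) :
    Function.update ![a0, a1, a2, a3, a4, a5] 0 h = ![h, a1, a2, a3, a4, a5] := by
  funext a
  fin_cases a <;> rfl

theorem slot_mem {V : Submodule ℂ (L2 6)} (hV : IsClosed (V : Set (L2 6)))
    (g : Fin 6 → C(UnitAddCircle, ℂ)) (j : Fin 6) (u : ℕ → C(UnitAddCircle, ℂ)) (k : ℤ)
    (hu : ∀ i, slot g j (u i) ∈ V)
    (hc : ∀ ε : ℝ, 0 < ε → ∃ (s : Finset ℕ) (c : ℕ → ℂ),
      ∫ t, ‖fourier k t - ∑ i ∈ s, c i * u i t‖ ^ 2 ∂hm ≤ ε) :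
    slot g j (fourier k) ∈ V := by
  rw [← SetLike.mem_coe, ← hV.closure_eq, Metric.mem_closure_iff]
  intro ε hε
  set C : ℝ := ∏ i ∈ Finset.univ.erase j, sq (g i) with hC
  have hC0 : 0 ≤ C := Finset.prod_nonneg fun i _ => sq_nonneg _
  obtain ⟨s, c, hs⟩ := hc (ε ^ 2 / (2 * (C + 1))) (by positivity)
  refine ⟨slot g j (∑ i ∈ s, c i • u i), ?_, ?_⟩
  · rw [map_sum]
    refine V.sum_mem fun i _ => ?_
    rw [map_smul]
    exact V.smul_mem _ (hu i)
  · rw [dist_eq_norm, ← map_sub]
    have h1 := norm_slot g j (fourier k - ∑ i ∈ s, c i • u i)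
    have h2 : sq (fourier k - ∑ i ∈ s, c i • u i) ≤ ε ^ 2 / (2 * (C + 1)) := by
      refine le_trans (le_of_eq ?_) hs
      unfold sq
      refine integral_congr_ae (Filter.Eventually.of_forall fun t => ?_)
      simp only [ContinuousMap.sub_apply, ContinuousMap.sum_apply, ContinuousMap.smul_apply,
        smul_eq_mul]
    have h3 : ‖slot g j (fourier k - ∑ i ∈ s, c i • u i)‖ ^ 2 < ε ^ 2 := by
      rw [h1]
      calc sq (fourier k - ∑ i ∈ s, c i • u i) * C ≤ ε ^ 2 / (2 * (C + 1)) * C :=
            mul_le_mul_of_nonneg_right h2 hC0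
        _ < ε ^ 2 := by
            rw [div_mul_eq_mul_div, div_lt_iff₀ (by positivity)]
            nlinarith [sq_pos_of_pos hε]
    exact lt_of_pow_lt_pow_left₀ 2 hε.le h3

end Ten

open Ten

theorem t_TEN : S_TEN := by
  intro u E hu
  have horth : Orthonormal ℂ (fun γ : I3 × I3 => cls (psi u γ)) := by
    rw [orthonormal_iff_ite]
    rintro ⟨⟨m, n, i⟩, ⟨m', n', i'⟩⟩ ⟨⟨p, r, j⟩, ⟨p', r', j'⟩⟩
    unfold psi
    rw [inner_tens]
    simp only [Fin.prod_univ_succ, Fin.prod_univ_zero, Matrix.cons_val_zero, Matrix.cons_val_succ,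
      int_fourier, mul_one]
    by_cases h1 : m = p
    · subst h1
      by_cases h2 : n = r
      · subst h2
        by_cases h3 : m' = p'
        · subst h3
          by_cases h4 : n' = r'
          · subst h4
            rw [(hu m n).orth, (hu m' n').orth]
            by_cases h5 : i = j
            · by_cases h6 : i' = j'
              · simp [h5, h6]
              · simp [h5, h6]
            · simp [h5]
          · simp [h4]
        · simp [h3]
      · simp [h2]
    · simp [h1]
  have hspan : ⊤ ≤ (Submodule.span ℂ (range fun γ : I3 × I3 => cls (psi u γ))).topologicalClosure := by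
    set V := (Submodule.span ℂ (range fun γ : I3 × I3 => cls (psi u γ))).topologicalClosure with hV
    have hVc : IsClosed (V : Set (L2 6)) := Submodule.isClosed_topologicalClosure _
    have hpsi : ∀ γ, cls (psi u γ) ∈ V := fun γ =>
      Submodule.le_topologicalClosure _ (Submodule.subset_span ⟨γ, rfl⟩)
    have hmono : ∀ κ : Fin 6 → ℤ, UnitAddTorus.mFourierLp 2 κ ∈ V := by
      intro κ
      -- first slot 3
      have hA : ∀ i, cls (tens ![u (κ 1) (κ 2) i, fourier (κ 1), fourier (κ 2), fourier (κ 3),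
          fourier (κ 4), fourier (κ 5)]) ∈ V := by
        intro i
        have h1 := slot_mem hVc ![u (κ 1) (κ 2) i, fourier (κ 1), fourier (κ 2), fourier (κ 3),
          fourier (κ 4), fourier (κ 5)] 3 (u (κ 4) (κ 5)) (κ 3) (fun l => by
            have h2 := hpsi ((κ 1, κ 2, i), (κ 4, κ 5, l))
            rw [slot_apply, upd3]
            exact h2) ((hu (κ 4) (κ 5)).compl (κ 3))
        rw [slot_apply, upd3] at h1
        exact h1
      have h1 := slot_mem hVc ![fourier (κ 0), fourier (κ 1), fourier (κ 2), fourier (κ 3),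
          fourier (κ 4), fourier (κ 5)] 0 (u (κ 1) (κ 2)) (κ 0) (fun l => by
            have h2 := hA l
            rw [slot_apply, upd0]
            exact h2) ((hu (κ 1) (κ 2)).compl (κ 0))
      rw [slot_apply, upd0] at h1
      have h3 : UnitAddTorus.mFourier κ = tens ![fourier (κ 0), fourier (κ 1), fourier (κ 2),
          fourier (κ 3), fourier (κ 4), fourier (κ 5)] := by
        ext x
        simp only [UnitAddTorus.mFourier, tens, ContinuousMap.coe_mk]
        refine Finset.prod_congr rfl fun a _ => ?_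
        fin_cases a <;> rfl
      show cls (UnitAddTorus.mFourier κ) ∈ V
      rw [h3]
      exact h1
    have htop := UnitAddTorus.span_mFourierLp_closure_eq_top (d := Fin 6) (p := 2) (by simp)
    rw [← htop]
    refine Submodule.topologicalClosure_minimal _ ?_ hVc
    rw [Submodule.span_le]
    rintro _ ⟨κ, rfl⟩
    exact hmono κ
  refine ⟨HilbertBasis.mk horth hspan, fun γ => ?_⟩
  rw [HilbertBasis.coe_mk]

end Pool.Agent.H223.SR
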