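import Pool.Agent.H223.SR.Stm

/-!
# (F2) the means over the eigenfunctions do not depend on the eigenbasis (by helper604)
-/

set_option autoImplicit false

open MeasureTheory Set Filter Topology
open scoped ContDiff Real ComplexConjugate

namespace Pool.Agent.H223.SR

/-- the trace over a finite part of a Hilbert basis -/
theorem trace_aux {H : Type*} [NormedAddCommGroup H] [InnerProductSpace ℂ H] [CompleteSpace H]
    {ι ι' : Type*} (b : HilbertBasis ι ℂ H) (b' : HilbertBasis ι' ℂ H) (s : Finset ι)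
    (s' : Finset ι') (h1 : ∀ j ∈ s, ∀ j', j' ∉ s' → inner ℂ (b j) (b' j') = 0)
    (h2 : ∀ j, j ∉ s → ∀ j' ∈ s', inner ℂ (b j) (b' j') = 0) (A : H →L[ℂ] H) :
    ∑ j ∈ s, inner ℂ (A (b j)) (b j) = ∑ j' ∈ s', inner ℂ (A (b' j')) (b' j') := by
  have hexp : ∀ j ∈ s, b j = ∑ k ∈ s', (inner ℂ (b' k) (b j)) • b' k := by
    intro j hj
    have h3 := b'.hasSum_repr (b j)
    have h4 : HasSum (fun k => b'.repr (b j) k • b' k) (∑ k ∈ s', b'.repr (b j) k • b' k) := by
      apply hasSum_sum_of_ne_finset_zero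
      intro k hk
      have h5 : inner ℂ (b' k) (b j) = 0 := by
        rw [← inner_conj_symm, h1 j hj k hk, map_zero]
      rw [b'.repr_apply_apply, h5, zero_smul]
    have h6 := h3.unique h4
    calc b j = ∑ k ∈ s', b'.repr (b j) k • b' k := h6
      _ = _ := Finset.sum_congr rfl fun k _ => by rw [b'.repr_apply_apply]
  have hstep : ∀ j ∈ s, inner ℂ (A (b j)) (b j) =
      ∑ k ∈ s', inner ℂ (b' k) (b j) * inner ℂ (b j) ((ContinuousLinearMap.adjoint A) (b' k)) := by
    intro j hj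
    have hx : ∀ x : H, inner ℂ x (b j) = ∑ k ∈ s', inner ℂ (b' k) (b j) * inner ℂ x (b' k) := by
      intro x
      calc inner ℂ x (b j) = inner ℂ x (∑ k ∈ s', (inner ℂ (b' k) (b j)) • b' k) := by
            rw [← hexp j hj]
        _ = _ := by
            rw [inner_sum]
            exact Finset.sum_congr rfl fun k _ => by rw [inner_smul_right]
    rw [hx]
    refine Finset.sum_congr rfl fun k _ => ?_
    rw [ContinuousLinearMap.adjoint_inner_right]
  rw [Finset.sum_congr rfl hstep, Finset.sum_comm]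
  refine Finset.sum_congr rfl fun k hk => ?_
  have h3 := b.hasSum_inner_mul_inner (b' k) ((ContinuousLinearMap.adjoint A) (b' k))
  have h4 : HasSum (fun j => inner ℂ (b' k) (b j) *
      inner ℂ (b j) ((ContinuousLinearMap.adjoint A) (b' k)))
      (∑ j ∈ s, inner ℂ (b' k) (b j) *
        inner ℂ (b j) ((ContinuousLinearMap.adjoint A) (b' k))) := by
    apply hasSum_sum_of_ne_finset_zero
    intro j hj
    have h5 : inner ℂ (b' k) (b j) = 0 := by
      rw [← inner_conj_symm, h2 j hj k hk, map_zero]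
    rw [h5, zero_mul]
  rw [h4.unique h3, ContinuousLinearMap.adjoint_inner_right]

theorem t_TRACE : S_TRACE := by
  intro ι ι' b b' lam lam' horth hfin hfin' A Λ
  have h1 : ∀ j ∈ (hfin Λ).toFinset, ∀ j', j' ∉ (hfin' Λ).toFinset →
      inner ℂ (b j) (b' j') = 0 := by
    intro j hj j' hj'
    rw [Set.Finite.mem_toFinset, Set.mem_ofPred_eq] at hj hj'
    exact horth j j' (fun h => hj' (h ▸ hj))
  have h2 : ∀ j, j ∉ (hfin Λ).toFinset → ∀ j' ∈ (hfin' Λ).toFinset,
      inner ℂ (b j) (b' j') = 0 := by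
    intro j hj j' hj'
    rw [Set.Finite.mem_toFinset, Set.mem_ofPred_eq] at hj hj'
    exact horth j j' (fun h => hj (h ▸ hj'))
  have hsum := trace_aux b b' _ _ h1 h2 A
  have hid := trace_aux b b' _ _ h1 h2 (ContinuousLinearMap.id ℂ (L2 6))
  have hb : ∀ j, inner ℂ (b j) (b j) = (1 : ℂ) := fun j => by
    rw [inner_self_eq_norm_sq_to_K, b.orthonormal.1 j]; simp
  have hb' : ∀ j, inner ℂ (b' j) (b' j) = (1 : ℂ) := fun j => by
    rw [inner_self_eq_norm_sq_to_K, b'.orthonormal.1 j]; simp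
  simp only [ContinuousLinearMap.coe_id', id_eq, hb, hb', Finset.sum_const, nsmul_eq_mul,
    mul_one] at hid
  have e1 : (∑ᶠ (j) (_ : lam j ≤ Λ), inner ℂ (A (b j)) (b j)) =
      ∑ j ∈ (hfin Λ).toFinset, inner ℂ (A (b j)) (b j) :=
    finsum_mem_eq_finite_toFinset_sum (s := {j | lam j ≤ Λ}) _ (hfin Λ)
  have e2 : (∑ᶠ (j) (_ : lam' j ≤ Λ), inner ℂ (A (b' j)) (b' j)) =
      ∑ j ∈ (hfin' Λ).toFinset, inner ℂ (A (b' j)) (b' j) :=
    finsum_mem_eq_finite_toFinset_sum (s := {j | lam' j ≤ Λ}) _ (hfin' Λ)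
  unfold mean
  rw [e1, e2, hsum, Set.ncard_eq_toFinset_card _ (hfin Λ),
    Set.ncard_eq_toFinset_card _ (hfin' Λ), hid]

end Pool.Agent.H223.SR
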