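import Pool.Agent.H223.SR.Stm

set_option autoImplicit false

open MeasureTheory Set Filter Topology
open scoped ContDiff Real ComplexConjugate

namespace Pool.Agent.H223.SR

lemma up_int (f : UnitAddCircle → ℝ) :
    ∫ t, f t ∂hm = ∫ x in (0 : ℝ)..1, f (x : UnitAddCircle) := by
  have h := UnitAddCircle.intervalIntegral_preimage 0 f
  rw [zero_add] at h
  rw [h]
  have h2 := AddCircle.volume_eq_smul_haarAddCircle (T := (1 : ℝ))
  rw [h2]
  simp [hm]

lemma up_cont (v : C(UnitAddCircle, ℂ)) : Continuous fun x : ℝ => ‖v (x : UnitAddCircle)‖ ^ 2 := by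
  have : Continuous fun x : ℝ => (x : UnitAddCircle) := AddCircle.continuous_mk' 1
  fun_prop

lemma up_norm {m n : ℤ} {u : ℕ → C(UnitAddCircle, ℂ)} {E : ℕ → ℝ} (h : OneD m n u E) (i : ℕ) :
    ∫ x in (0 : ℝ)..1, ‖u i x‖ ^ 2 = 1 := by
  have h1 := h.orth i i
  simp only [if_true] at h1
  rw [← up_int (fun t => ‖u i t‖ ^ 2)]
  have h2 : (fun t => conj (u i t) * u i t) = fun t => (((‖u i t‖ ^ 2 : ℝ)) : ℂ) := by
    funext t
    rw [Complex.conj_mul']
    push_cast
    rfl
  rw [h2, integral_complex_ofReal] at h1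
  exact_mod_cast h1

lemma up_count (F : Finset ℤ) (c r : ℝ) (hr : 0 ≤ r) (h : ∀ m ∈ F, |(m : ℝ) + c| < r) :
    (F.card : ℝ) ≤ 2 * r + 1 := by
  have hsub : F ⊆ Finset.Icc ⌈-c - r⌉ ⌊-c + r⌋ := by
    intro m hm
    have := h m hm
    rw [abs_lt] at this
    rw [Finset.mem_Icc]
    exact ⟨Int.ceil_le.2 (by linarith), Int.le_floor.2 (by linarith)⟩
  have h1 : F.card ≤ (⌊-c + r⌋ + 1 - ⌈-c - r⌉).toNat := by
    rw [← Int.card_Icc]
    exact Finset.card_le_card hsub
  have h2 : ((⌊-c + r⌋ : ℤ) : ℝ) ≤ -c + r := Int.floor_le _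
  have h3 : -c - r ≤ ((⌈-c - r⌉ : ℤ) : ℝ) := Int.le_ceil _
  have h4 : (F.card : ℝ) ≤ ((⌊-c + r⌋ + 1 - ⌈-c - r⌉).toNat : ℝ) := by exact_mod_cast h1
  rcases le_total 0 (⌊-c + r⌋ + 1 - ⌈-c - r⌉) with h5 | h5
  · have h6 : (((⌊-c + r⌋ + 1 - ⌈-c - r⌉).toNat : ℤ) : ℝ) = ((⌊-c + r⌋ + 1 - ⌈-c - r⌉ : ℤ) : ℝ) := by
      rw [Int.toNat_of_nonneg h5]
    push_cast at h6
    rw [h6] at h4
    linarith
  · rw [Int.toNat_of_nonpos h5] at h4
    simp only [Nat.cast_zero] at h4
    linarith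

lemma up_pot (m n : ℤ) (x s : ℝ) (hs : 0 ≤ s) (h : pot m n x < 4 * s ^ 2) :
    |(m : ℝ) + n * Real.cos (2 * π * x)| < s / π := by
  have hpi : 0 < π := Real.pi_pos
  unfold pot at h
  rw [lt_div_iff₀ hpi]
  have h1 : (|(m : ℝ) + n * Real.cos (2 * π * x)| * π) ^ 2 < s ^ 2 := by
    rw [mul_pow, sq_abs]
    nlinarith
  exact lt_of_pow_lt_pow_left₀ 2 hs h1

/-- pointwise bound -/
lemma up_pt (hSUP : S_SUP) {u : ℤ → ℤ → ℕ → C(UnitAddCircle, ℂ)} {E : ℤ → ℤ → ℕ → ℝ}
    (h : ∀ m n, OneD m n (u m n) (E m n)) {s : ℝ} (hs : 1 ≤ s) (n : ℤ) (S : Finset (ℤ × ℕ))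
    (hS : ∀ p ∈ S, E p.1 n p.2 ≤ s ^ 2) (x : ℝ) :
    ∑ p ∈ S with pot p.1 n x < 4 * s ^ 2, ‖u p.1 n p.2 x‖ ^ 2 ≤ 6 * s ^ 2 := by
  classical
  set S' := S.filter (fun p => pot p.1 n x < 4 * s ^ 2) with hS'
  have hsub : ∀ p ∈ S', p.1 ∈ S'.image Prod.fst := fun p hp => Finset.mem_image_of_mem _ hp
  rw [← Finset.sum_fiberwise_of_maps_to hsub]
  have hs0 : (0 : ℝ) ≤ s := by linarith
  have hsq : √(s ^ 2) = s := Real.sqrt_sq hs0
  have hinner : ∀ m ∈ S'.image Prod.fst,
      ∑ p ∈ S' with p.1 = m, ‖u p.1 n p.2 x‖ ^ 2 ≤ 3 * s := by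
    intro m _
    have h1 : ∑ p ∈ S' with p.1 = m, ‖u p.1 n p.2 x‖ ^ 2 =
        ∑ i ∈ (S'.filter (fun p => p.1 = m)).image Prod.snd, ‖u m n i x‖ ^ 2 := by
      rw [Finset.sum_image]
      · apply Finset.sum_congr rfl
        intro p hp
        rw [Finset.mem_filter] at hp
        rw [hp.2]
      · intro p hp q hq hpq
        simp only [Finset.coe_filter, mem_ofPred_eq] at hp hq
        exact Prod.ext (hp.2.trans hq.2.symm) hpq
    rw [h1]
    have h2 := hSUP m n (u m n) (E m n) (h m n) (s ^ 2) (by positivity)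
      ((S'.filter (fun p => p.1 = m)).image Prod.snd) (by
        intro i hi
        rw [Finset.mem_image] at hi
        obtain ⟨p, hp, rfl⟩ := hi
        rw [Finset.mem_filter, hS', Finset.mem_filter] at hp
        have := hS p hp.1.1
        rw [hp.2] at this
        exact this) x
    rw [hsq] at h2
    linarith
  have hcard : ((S'.image Prod.fst).card : ℝ) ≤ 2 * s := by
    have hpi : 3 < π := Real.pi_gt_three
    have h1 := up_count (S'.image Prod.fst) (n * Real.cos (2 * π * x)) (s / π) (by positivity) (by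
      intro m hm
      rw [Finset.mem_image] at hm
      obtain ⟨p, hp, rfl⟩ := hm
      rw [hS', Finset.mem_filter] at hp
      exact up_pot p.1 n x s hs0 hp.2)
    have h2 : s / π ≤ s / 3 := by gcongr
    linarith
  calc ∑ m ∈ S'.image Prod.fst, ∑ p ∈ S' with p.1 = m, ‖u p.1 n p.2 x‖ ^ 2
      ≤ ∑ m ∈ S'.image Prod.fst, 3 * s := Finset.sum_le_sum hinner
    _ = (S'.image Prod.fst).card * (3 * s) := by rw [Finset.sum_const, nsmul_eq_mul]
    _ ≤ 2 * s * (3 * s) := by gcongr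
    _ = 6 * s ^ 2 := by ring

/-- the measure on `(0,1]` -/
noncomputable abbrev upμ : Measure ℝ := volume.restrict (Ioc (0 : ℝ) 1)

lemma up_integrable {f : ℝ → ℝ} (hf : Continuous f) : Integrable f upμ :=
  (hf.integrableOn_Icc (a := 0) (b := 1)).mono_set Ioc_subset_Icc_self

lemma up_ii (f : ℝ → ℝ) : ∫ x in (0 : ℝ)..1, f x = ∫ x, f x ∂upμ :=
  intervalIntegral.integral_of_le zero_le_one

lemma up_potc (m n : ℤ) : Continuous (pot m n) := by
  unfold pot; fun_prop

/-- main counting estimate -/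
lemma up_main (hEN : S_ENERGY) (hSUP : S_SUP) {u : ℤ → ℤ → ℕ → C(UnitAddCircle, ℂ)}
    {E : ℤ → ℤ → ℕ → ℝ} (h : ∀ m n, OneD m n (u m n) (E m n)) {s : ℝ} (hs : 1 ≤ s) (n : ℤ)
    (T : Set ℝ) (hT : MeasurableSet T)
    (hTu : ∀ m i, E m n i ≤ s ^ 2 → ∫ x, (Tᶜ).indicator (fun x : ℝ => ‖u m n i x‖ ^ 2) x ∂upμ ≤ 1 / 4)
    (S : Finset (ℤ × ℕ)) (hS : ∀ p ∈ S, E p.1 n p.2 ≤ s ^ 2) :
    (S.card : ℝ) ≤ 12 * s ^ 2 * upμ.real T := by
  classical
  have hs0 : (0 : ℝ) < s := by linarith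
  set P : ℤ × ℕ → Set ℝ := fun p => {x | pot p.1 n x < 4 * s ^ 2} with hP
  have hPm : ∀ p, MeasurableSet (P p) := fun p =>
    (isOpen_lt (up_potc p.1 n) continuous_const).measurableSet
  set f : ℤ × ℕ → ℝ → ℝ := fun p x => ‖u p.1 n p.2 x‖ ^ 2 with hf
  have hfc : ∀ p, Continuous (f p) := fun p => up_cont _
  have hfi : ∀ p, Integrable (f p) upμ := fun p => up_integrable (hfc p)
  have hf0 : ∀ p x, 0 ≤ f p x := fun p x => by positivity
  set g : ℤ × ℕ → ℝ → ℝ := fun p => (T ∩ P p).indicator (f p) with hg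
  have hgi : ∀ p, Integrable (g p) upμ := fun p => (hfi p).indicator (hT.inter (hPm p))
  -- lower bound
  have hlow : ∀ p ∈ S, 1 / 2 ≤ ∫ x, g p x ∂upμ := by
    intro p hp
    have hE := hS p hp
    have h1 : ∫ x, f p x ∂upμ = 1 := by
      rw [← up_ii]; exact up_norm (h p.1 n) p.2
    have h2 : ∫ x, pot p.1 n x * f p x ∂upμ ≤ s ^ 2 := by
      rw [← up_ii]
      exact ((hEN p.1 n (u p.1 n) (E p.1 n) (h p.1 n) p.2).2.2).trans hE
    have h3 := hTu p.1 p.2 hE
    have hi2 : Integrable (fun x => pot p.1 n x * f p x) upμ :=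
      up_integrable ((up_potc p.1 n).mul (hfc p))
    have hi3 : Integrable ((Tᶜ).indicator (f p)) upμ := (hfi p).indicator hT.compl
    have hle : ∫ x, f p x ∂upμ ≤
        ∫ x, (g p x + (pot p.1 n x * f p x) * (1 / (4 * s ^ 2)) + (Tᶜ).indicator (f p) x) ∂upμ := by
      apply integral_mono (hfi p) (((hgi p).add (hi2.mul_const _)).add hi3)
      intro x
      simp only [hg, Pi.add_apply]
      have hpp : 0 ≤ pot p.1 n x := by unfold pot; positivity
      have h5 : 0 ≤ pot p.1 n x * f p x * (1 / (4 * s ^ 2)) :=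
        mul_nonneg (mul_nonneg hpp (hf0 p x)) (by positivity)
      have h6 : 0 ≤ (Tᶜ).indicator (f p) x := indicator_nonneg (fun x _ => hf0 p x) x
      have h7 : 0 ≤ (T ∩ P p).indicator (f p) x := indicator_nonneg (fun x _ => hf0 p x) x
      by_cases hxT : x ∈ T
      · by_cases hxP : x ∈ P p
        · rw [indicator_of_mem (show x ∈ T ∩ P p from ⟨hxT, hxP⟩)]
          linarith
        · have h8 : 4 * s ^ 2 ≤ pot p.1 n x := not_lt.1 hxP
          have h9 : f p x ≤ pot p.1 n x * f p x * (1 / (4 * s ^ 2)) := by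
            rw [mul_one_div, le_div_iff₀ (by positivity)]
            nlinarith [hf0 p x]
          linarith
      · rw [indicator_of_mem (show x ∈ Tᶜ from hxT)]
        linarith
    have hsplit : ∫ x, (g p x + (pot p.1 n x * f p x) * (1 / (4 * s ^ 2)) +
        (Tᶜ).indicator (f p) x) ∂upμ = ∫ x, g p x ∂upμ +
          (∫ x, pot p.1 n x * f p x ∂upμ) * (1 / (4 * s ^ 2)) +
          ∫ x, (Tᶜ).indicator (f p) x ∂upμ := by
      rw [integral_add (f := fun x => g p x + pot p.1 n x * f p x * (1 / (4 * s ^ 2)))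
        ((hgi p).add (hi2.mul_const _)) hi3, integral_add (hgi p) (hi2.mul_const _),
        integral_mul_const]
    rw [hsplit, h1] at hle
    have h10 : (∫ x, pot p.1 n x * f p x ∂upμ) * (1 / (4 * s ^ 2)) ≤ 1 / 4 := by
      rw [mul_one_div, div_le_iff₀ (by positivity)]
      linarith
    have h11 : ∫ x, (Tᶜ).indicator (f p) x ∂upμ ≤ 1 / 4 := h3
    linarith
  -- upper bound
  have hup : ∑ p ∈ S, ∫ x, g p x ∂upμ ≤ 6 * s ^ 2 * upμ.real T := by
    rw [← integral_finsetSum _ (fun p _ => hgi p)]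
    have hc : ∫ x, T.indicator (fun _ => 6 * s ^ 2) x ∂upμ = 6 * s ^ 2 * upμ.real T := by
      rw [integral_indicator hT, setIntegral_const, smul_eq_mul, mul_comm]
    rw [← hc]
    apply integral_mono (integrable_finsetSum _ fun p _ => hgi p)
      ((integrable_const _).indicator hT)
    intro x
    simp only
    by_cases hxT : x ∈ T
    · rw [indicator_of_mem hxT]
      refine le_trans (le_of_eq ?_) (up_pt hSUP h hs n S hS x)
      rw [Finset.sum_filter]
      apply Finset.sum_congr rfl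
      intro p _
      simp only [hg]
      by_cases hxP : pot p.1 n x < 4 * s ^ 2
      · rw [indicator_of_mem (show x ∈ T ∩ P p from ⟨hxT, hxP⟩), if_pos hxP]
      · rw [indicator_of_notMem (fun hh => hxP hh.2), if_neg hxP]
    · rw [indicator_of_notMem hxT]
      apply Finset.sum_nonpos
      intro p _
      simp only [hg]
      rw [indicator_of_notMem (fun hh => hxT hh.1)]
  have h12 : (S.card : ℝ) * (1 / 2) ≤ ∑ p ∈ S, ∫ x, g p x ∂upμ := by
    rw [← nsmul_eq_mul]
    exact Finset.card_nsmul_le_sum S _ _ hlow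
  linarith

lemma up_sin {x : ℝ} (h0 : 0 ≤ x) (h1 : x ≤ 1 / 4) : 4 * x ≤ Real.sin (2 * π * x) := by
  have hpi := Real.pi_pos
  have h := Real.mul_le_sin (x := 2 * π * x) (by positivity) (by nlinarith)
  have h2 : 2 / π * (2 * π * x) = 4 * x := by field_simp; ring
  linarith

/-- sublevel sets of the sine -/
lemma up_sub (a : ℝ) (ha : 0 ≤ a) :
    upμ.real {x | |Real.sin (2 * π * x)| < a} ≤ a := by
  have hsub : {x | |Real.sin (2 * π * x)| < a} ∩ Ioc 0 1 ⊆
      Ico 0 (a / 4) ∪ Ioo (1 / 2 - a / 4) (1 / 2 + a / 4) ∪ Ioc (1 - a / 4) 1 := by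
    rintro x ⟨hx, hx0, hx1⟩
    have hx' : |Real.sin (2 * π * x)| < a := hx
    rcases le_total x (1 / 4) with h1 | h1
    · have := up_sin hx0.le h1
      have h2 := le_abs_self (Real.sin (2 * π * x))
      exact Or.inl (Or.inl ⟨hx0.le, by linarith⟩)
    · rcases le_total x (1 / 2) with h2 | h2
      · have h3 := up_sin (x := 1 / 2 - x) (by linarith) (by linarith)
        have h4 : Real.sin (2 * π * (1 / 2 - x)) = Real.sin (2 * π * x) := by
          rw [← Real.sin_pi_sub]; congr 1; ring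
        rw [h4] at h3
        have h5 := le_abs_self (Real.sin (2 * π * x))
        have ha' : 0 < a := lt_of_le_of_lt (abs_nonneg _) hx'
        exact Or.inl (Or.inr ⟨by linarith, by linarith⟩)
      · rcases le_total x (3 / 4) with h3 | h3
        · have h4 := up_sin (x := x - 1 / 2) (by linarith) (by linarith)
          have h5 : Real.sin (2 * π * (x - 1 / 2)) = -Real.sin (2 * π * x) := by
            rw [← Real.sin_sub_pi]; congr 1; ring
          rw [h5] at h4
          have h6 := neg_le_abs (Real.sin (2 * π * x))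
          have ha' : 0 < a := lt_of_le_of_lt (abs_nonneg _) hx'
          exact Or.inl (Or.inr ⟨by linarith, by linarith⟩)
        · have h4 := up_sin (x := 1 - x) (by linarith) (by linarith)
          have h5 : Real.sin (2 * π * (1 - x)) = -Real.sin (2 * π * x) := by
            rw [← Real.sin_two_pi_sub]; congr 1; ring
          rw [h5] at h4
          have h6 := neg_le_abs (Real.sin (2 * π * x))
          exact Or.inr ⟨by linarith, hx1⟩
  have hmeas : MeasurableSet {x | |Real.sin (2 * π * x)| < a} :=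
    (isOpen_lt (by fun_prop) continuous_const).measurableSet
  rw [Measure.real, Measure.restrict_apply hmeas]
  have h1 : volume (Ico 0 (a / 4) ∪ Ioo (1 / 2 - a / 4) (1 / 2 + a / 4) ∪ Ioc (1 - a / 4) 1) ≤
      ENNReal.ofReal a := by
    refine (measure_union_le _ _).trans ?_
    refine (add_le_add_left (measure_union_le _ _) _).trans ?_
    rw [Real.volume_Ico, Real.volume_Ioo, Real.volume_Ioc, ← ENNReal.ofReal_add (by linarith)
      (by linarith), ← ENNReal.ofReal_add (by linarith) (by linarith)]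
    apply ENNReal.ofReal_le_ofReal
    linarith
  exact ENNReal.toReal_le_of_le_ofReal ha ((measure_mono hsub).trans h1)

lemma up_loc (hLOC : S_LOC) {m n : ℤ} {u : ℕ → C(UnitAddCircle, ℂ)} {E : ℕ → ℝ}
    (h : OneD m n u E) (hn : n ≠ 0) {s : ℝ} (hs : 1 ≤ s) {i : ℕ} (hE : E i ≤ s ^ 2) {ε : ℝ}
    (hε : 0 < ε) :
    ∫ x, |Real.sin (2 * π * x)| * ‖u i x‖ ^ 2 ∂upμ ≤
      ε + s ^ 2 / (4 * π ^ 2 * |(n : ℝ)|) + s / (2 * π * |(n : ℝ)| * ε) := by
  have h1 := hLOC m n u E h i ε hε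
  rw [up_ii] at h1
  set I := ∫ x, |Real.sin (2 * π * x)| * ‖u i x‖ ^ 2 ∂upμ with hI
  have hn' : 0 < |(n : ℝ)| := abs_pos.2 (by exact_mod_cast hn)
  have hpi := Real.pi_pos
  have hsq : √(E i) ≤ s := by
    rw [← Real.sqrt_sq (show (0 : ℝ) ≤ s by linarith)]
    exact Real.sqrt_le_sqrt hE
  have h2 : (2 * π) ^ 2 * |(n : ℝ)| * (I - ε) ≤ s ^ 2 + 2 * π / ε * s := by
    refine h1.trans ?_
    gcongr
  have h3 : I - ε ≤ (s ^ 2 + 2 * π / ε * s) / ((2 * π) ^ 2 * |(n : ℝ)|) := by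
    rw [le_div_iff₀ (by positivity)]
    linarith
  have h4 : (s ^ 2 + 2 * π / ε * s) / ((2 * π) ^ 2 * |(n : ℝ)|) =
      s ^ 2 / (4 * π ^ 2 * |(n : ℝ)|) + s / (2 * π * |(n : ℝ)| * ε) := by
    field_simp
    ring
  linarith

/-- no eigenvalue for large `|n|` -/
lemma up_none (hLOC : S_LOC) (hSUP : S_SUP) {m n : ℤ} {u : ℕ → C(UnitAddCircle, ℂ)} {E : ℕ → ℝ}
    (h : OneD m n u E) {s : ℝ} (hs : 1 ≤ s) (hn : 200 * s ^ 3 ≤ |(n : ℝ)|) (i : ℕ) :
    ¬ E i ≤ s ^ 2 := by
  intro hE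
  have hs0 : (0 : ℝ) < s := by linarith
  have hn0 : n ≠ 0 := by
    rintro rfl
    simp only [Int.cast_zero, abs_zero] at hn
    have : 0 < 200 * s ^ 3 := by positivity
    linarith
  have hN : 0 < |(n : ℝ)| := abs_pos.2 (by exact_mod_cast hn0)
  have hpi : 3 < π := Real.pi_gt_three
  have h1 := up_loc hLOC h hn0 hs hE (ε := 1 / (35 * s)) (by positivity)
  have h2 : s ^ 2 / (4 * π ^ 2 * |(n : ℝ)|) ≤ 1 / (7200 * s) := by
    rw [div_le_div_iff₀ (by positivity) (by positivity)]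
    have : 9 * (200 * s ^ 3) ≤ π ^ 2 * |(n : ℝ)| := by
      apply mul_le_mul _ hn (by positivity) (by positivity)
      nlinarith
    nlinarith
  have h3 : s / (2 * π * |(n : ℝ)| * (1 / (35 * s))) ≤ 35 / (1200 * s) := by
    rw [div_le_div_iff₀ (by positivity) (by positivity)]
    have h4 : 3 * (200 * s ^ 3) ≤ π * |(n : ℝ)| :=
      mul_le_mul hpi.le hn (by positivity) (by positivity)
    have h5 : 35 * (2 * π * |(n : ℝ)| * (1 / (35 * s))) = 2 * (π * |(n : ℝ)|) / s := by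
      field_simp
    rw [h5, le_div_iff₀ hs0]
    nlinarith
  have h6 : ∫ x, |Real.sin (2 * π * x)| * ‖u i x‖ ^ 2 ∂upμ ≤ 6 / (100 * s) := by
    refine h1.trans ?_
    refine (add_le_add (add_le_add le_rfl h2) h3).trans ?_
    have : 1 / (35 * s) + 1 / (7200 * s) + 35 / (1200 * s) = (1 / 35 + 1 / 7200 + 35 / 1200) / s := by
      field_simp
    rw [this]
    have h7 : 6 / (100 * s) = (6 / 100) / s := by field_simp
    rw [h7]
    gcongr
    norm_num
  -- the contradiction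
  have hf0 : ∀ x : ℝ, 0 ≤ ‖u i x‖ ^ 2 := fun x => by positivity
  have hsup : ∀ x : ℝ, ‖u i x‖ ^ 2 ≤ 3 * s := by
    intro x
    have := hSUP m n u E h (s ^ 2) (by positivity) {i} (by
      intro j hj
      rw [Finset.mem_singleton] at hj
      subst hj
      exact hE) x
    rw [Finset.sum_singleton, Real.sqrt_sq hs0.le] at this
    linarith
  set T : Set ℝ := {x | |Real.sin (2 * π * x)| < 1 / (6 * s)} with hTdef
  have hT : MeasurableSet T := (isOpen_lt (by fun_prop) continuous_const).measurableSet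
  have hTm : upμ.real T ≤ 1 / (6 * s) := up_sub _ (by positivity)
  have hi1 : Integrable (fun x : ℝ => |Real.sin (2 * π * x)| * ‖u i x‖ ^ 2) upμ :=
    up_integrable ((by fun_prop : Continuous fun x : ℝ => |Real.sin (2 * π * x)|).mul (up_cont _))
  have hle : ∫ x, ‖u i x‖ ^ 2 ∂upμ ≤ ∫ x, (T.indicator (fun _ => 3 * s) x +
      (|Real.sin (2 * π * x)| * ‖u i x‖ ^ 2) * (6 * s)) ∂upμ := by
    apply integral_mono (up_integrable (up_cont _))
      (((integrable_const _).indicator hT).add (hi1.mul_const _))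
    intro x
    simp only [Pi.add_apply]
    by_cases hx : x ∈ T
    · rw [indicator_of_mem hx]
      have h8 : 0 ≤ |Real.sin (2 * π * x)| * ‖u i x‖ ^ 2 * (6 * s) := by positivity
      linarith [hsup x]
    · rw [indicator_of_notMem hx]
      have h8 : 1 / (6 * s) ≤ |Real.sin (2 * π * x)| := not_lt.1 hx
      rw [div_le_iff₀ (by positivity)] at h8
      nlinarith [hf0 x]
  rw [integral_add ((integrable_const _).indicator hT) (hi1.mul_const _), integral_mul_const,
    integral_indicator hT, setIntegral_const, smul_eq_mul, ← up_ii, up_norm h i] at hle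
  have h9 : upμ.real T * (3 * s) ≤ 1 / 2 := by
    calc upμ.real T * (3 * s) ≤ 1 / (6 * s) * (3 * s) := by gcongr
      _ = 1 / 2 := by field_simp; norm_num
  have h10 : (∫ x, |Real.sin (2 * π * x)| * ‖u i x‖ ^ 2 ∂upμ) * (6 * s) ≤ 36 / 100 := by
    calc (∫ x, |Real.sin (2 * π * x)| * ‖u i x‖ ^ 2 ∂upμ) * (6 * s) ≤ 6 / (100 * s) * (6 * s) := by
          gcongr
      _ = 36 / 100 := by field_simp; norm_num
  linarith

theorem t_UP : S_ENERGY → S_LOC → S_SUP → S_UP := by
  intro hEN hLOC hSUP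
  refine ⟨600, by norm_num, ?_⟩
  intro u E h Λ hΛ n
  obtain ⟨s, hs, rfl⟩ : ∃ s : ℝ, 1 ≤ s ∧ Λ = s ^ 2 :=
    ⟨√Λ, Real.one_le_sqrt.2 hΛ, (Real.sq_sqrt (by linarith)).symm⟩
  have hs0 : (0 : ℝ) < s := by linarith
  have hpow : (s ^ 2) ^ (3 / 2 : ℝ) = s ^ 3 := by
    rw [← Real.rpow_natCast s 2, ← Real.rpow_mul hs0.le, ← Real.rpow_natCast s 3]
    norm_num
  rw [hpow]
  -- (1) bound for finite subsets
  have hb1 : ∀ S : Finset (ℤ × ℕ), (∀ p ∈ S, E p.1 n p.2 ≤ s ^ 2) → (S.card : ℝ) ≤ 12 * s ^ 2 := by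
    intro S hS
    have := up_main hEN hSUP h hs n univ MeasurableSet.univ (by
      intro m i _
      simp) S hS
    have h1 : upμ.real univ = 1 := by
      rw [Measure.real, Measure.restrict_apply MeasurableSet.univ, univ_inter, Real.volume_Ioc]
      simp
    rw [h1, mul_one] at this
    exact this
  have hfin : {p : ℤ × ℕ | E p.1 n p.2 ≤ s ^ 2}.Finite := by
    by_contra hinf
    obtain ⟨t, ht, htc⟩ := Set.Infinite.exists_subset_card_eq hinf (⌊12 * s ^ 2⌋₊ + 1)
    have h1 := hb1 t (fun p hp => ht hp)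
    rw [htc] at h1
    push_cast at h1
    have h2 := Nat.lt_floor_add_one (12 * s ^ 2)
    linarith
  have hcard : ({p : ℤ × ℕ | E p.1 n p.2 ≤ s ^ 2}.ncard : ℝ) = (hfin.toFinset.card : ℝ) := by
    rw [Set.ncard_eq_toFinset_card _ hfin]
  have hmem : ∀ p ∈ hfin.toFinset, E p.1 n p.2 ≤ s ^ 2 := by
    intro p hp
    exact (Set.Finite.mem_toFinset hfin).1 hp
  have hempty : 200 * s ^ 3 ≤ |(n : ℝ)| → {p : ℤ × ℕ | E p.1 n p.2 ≤ s ^ 2} = ∅ := by
    intro hn
    apply Set.eq_empty_of_forall_notMem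
    intro p hp
    exact up_none hLOC hSUP (h p.1 n) hs hn p.2 hp
  refine ⟨hfin, ?_, ?_, hempty⟩
  · rw [hcard]
    have := hb1 _ hmem
    nlinarith [sq_nonneg s]
  · intro hn0
    have hN : 0 < |(n : ℝ)| := abs_pos.2 (by exact_mod_cast hn0)
    rcases le_total (200 * s ^ 3) |(n : ℝ)| with hn | hn
    · rw [hempty hn, Set.ncard_empty]
      simp only [Nat.cast_zero]
      positivity
    · have hpi : 3 < π := Real.pi_gt_three
      set τ : ℝ := 12 * s ^ 2 / |(n : ℝ)| with hτ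
      have hτ0 : 0 < τ := by positivity
      have hloc : ∀ m i, E m n i ≤ s ^ 2 →
          ∫ x, |Real.sin (2 * π * x)| * ‖u m n i x‖ ^ 2 ∂upμ ≤ τ := by
        intro m i hE
        have h1 := up_loc hLOC (h m n) hn0 hs hE (ε := 5 * s ^ 2 / |(n : ℝ)|) (by positivity)
        have h2 : s ^ 2 / (4 * π ^ 2 * |(n : ℝ)|) ≤ (1 / 36) * (s ^ 2 / |(n : ℝ)|) := by
          rw [div_mul_div_comm, one_mul]
          gcongr
          nlinarith
        have h3 : s / (2 * π * |(n : ℝ)| * (5 * s ^ 2 / |(n : ℝ)|)) ≤ (200 / 30) * (s ^ 2 / |(n : ℝ)|) := by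
          have h4 : 2 * π * |(n : ℝ)| * (5 * s ^ 2 / |(n : ℝ)|) = 10 * π * s ^ 2 := by
            field_simp
            ring
          rw [h4, div_mul_div_comm, div_le_div_iff₀ (by positivity) (by positivity)]
          have h5 : s * (30 * |(n : ℝ)|) ≤ s * (30 * (200 * s ^ 3)) := by gcongr
          have h6 : s * (30 * (200 * s ^ 3)) ≤ 200 * s ^ 2 * (10 * π * s ^ 2) := by
            have : 0 < s ^ 4 := by positivity
            nlinarith
          linarith
        have h7 : τ = 12 * (s ^ 2 / |(n : ℝ)|) := by rw [hτ]; ring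
        have h8 : 5 * s ^ 2 / |(n : ℝ)| = 5 * (s ^ 2 / |(n : ℝ)|) := by ring
        have h9 : 0 < s ^ 2 / |(n : ℝ)| := by positivity
        rw [h8] at h1 h3
        rw [h7]
        nlinarith
      set T : Set ℝ := {x | |Real.sin (2 * π * x)| < 4 * τ} with hTdef
      have hT : MeasurableSet T := (isOpen_lt (by fun_prop) continuous_const).measurableSet
      have hTm : upμ.real T ≤ 4 * τ := up_sub _ (by positivity)
      have hmain := up_main hEN hSUP h hs n T hT (by
        intro m i hE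
        have h1 := hloc m i hE
        have hi1 : Integrable (fun x : ℝ => |Real.sin (2 * π * x)| * ‖u m n i x‖ ^ 2) upμ :=
          up_integrable ((by fun_prop : Continuous fun x : ℝ => |Real.sin (2 * π * x)|).mul
            (up_cont _))
        have h2 : ∫ x, (Tᶜ).indicator (fun x : ℝ => ‖u m n i x‖ ^ 2) x ∂upμ ≤
            ∫ x, (|Real.sin (2 * π * x)| * ‖u m n i x‖ ^ 2) * (1 / (4 * τ)) ∂upμ := by
          apply integral_mono ((up_integrable (up_cont _)).indicator hT.compl) (hi1.mul_const _)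
          intro x
          simp only
          by_cases hx : x ∈ T
          · rw [indicator_of_notMem (by simpa using hx)]
            positivity
          · rw [indicator_of_mem (show x ∈ Tᶜ from hx), mul_one_div, le_div_iff₀ (by positivity)]
            have h8 : 4 * τ ≤ |Real.sin (2 * π * x)| := not_lt.1 hx
            nlinarith [show 0 ≤ ‖u m n i x‖ ^ 2 by positivity]
        rw [integral_mul_const] at h2
        refine h2.trans ?_
        rw [mul_one_div, div_le_iff₀ (by positivity)]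
        linarith) hfin.toFinset hmem
      rw [hcard]
      refine hmain.trans ?_
      calc 12 * s ^ 2 * upμ.real T ≤ 12 * s ^ 2 * (4 * τ) := by gcongr
        _ = 576 * (s ^ 2) ^ 2 / |(n : ℝ)| := by rw [hτ]; ring
        _ ≤ 600 * (s ^ 2) ^ 2 / |(n : ℝ)| := by gcongr; norm_num

end Pool.Agent.H223.SR
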