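import Pool.Agent.H223.SR.Stm

set_option autoImplicit false

open MeasureTheory Set Filter Topology
open scoped ContDiff Real ComplexConjugate

namespace Pool.Agent.H223.SR

namespace WL

/-- the factors of the measure with the label `l` -/
noncomputable def mu (l : Lab) : Fin 6 → Measure UnitAddCircle :=
  ![Measure.dirac (pos l.1 l.2.1), hm, hm, Measure.dirac (pos l.2.2.1 l.2.2.2.1), hm, hm]

instance mu_prob (l : Lab) (i : Fin 6) : IsProbabilityMeasure (mu l i) := by
  fin_cases i
  · show IsProbabilityMeasure (Measure.dirac _); infer_instance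
  · show IsProbabilityMeasure hm; infer_instance
  · show IsProbabilityMeasure hm; infer_instance
  · show IsProbabilityMeasure (Measure.dirac _); infer_instance
  · show IsProbabilityMeasure hm; infer_instance
  · show IsProbabilityMeasure hm; infer_instance

lemma abs_sg (b : Bool) : |sg b| = 1 := by
  cases b <;> simp [sg]

lemma norm_dir (l : Lab) : ‖dir l‖ = 1 := by
  apply le_antisymm
  · rw [pi_norm_le_iff_of_nonneg (by norm_num)]
    intro i
    unfold dir
    split <;> fin_cases i <;> simp [abs_sg, Real.norm_eq_abs]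
  · by_cases h : l.2.2.2.2 = true
    · have : ‖dir l 1‖ ≤ ‖dir l‖ := norm_le_pi_norm (dir l) 1
      have h2 : ‖dir l 1‖ = 1 := by
        unfold dir; rw [if_pos h]; simp [abs_sg, Real.norm_eq_abs]
      linarith
    · have : ‖dir l 4‖ ≤ ‖dir l‖ := norm_le_pi_norm (dir l) 4
      have h2 : ‖dir l 4‖ = 1 := by
        unfold dir; rw [if_neg h]; simp [abs_sg, Real.norm_eq_abs]
      linarith

/-- the direction as a point of the sphere -/
noncomputable def dirS (l : Lab) : Sph 6 := ⟨dir l, by simp [norm_dir]⟩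

/-- the measure with the label `l` -/
noncomputable def M (l : Lab) : Measure (Tor 6 × Sph 6) :=
  (Measure.pi (mu l)).prod (Measure.dirac (dirS l))

instance M_prob (l : Lab) : IsProbabilityMeasure (M l) := by
  unfold M; infer_instance

/-- the Weyl measure -/
noncomputable def W : Measure (Tor 6 × Sph 6) := (32 : ENNReal)⁻¹ • ∑ l : Lab, M l

lemma card_Lab : Fintype.card Lab = 32 := by decide

lemma W_prob : IsProbabilityMeasure W := by
  constructor
  unfold W
  rw [Measure.smul_apply, Measure.finsetSum_apply]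
  simp only [measure_univ, Finset.sum_const, Finset.card_univ, card_Lab, smul_eq_mul, nsmul_eq_mul,
    mul_one]
  exact ENNReal.inv_mul_cancel (by norm_num) (by simp)

lemma continuous_val (e : Elem) : Continuous (fun p : Tor 6 × Sph 6 => e.val p.1 p.2) := by
  unfold Elem.val
  apply Continuous.mul
  · apply continuous_finsetProd
    intro i _
    exact (e.g i).continuous.comp ((continuous_apply i).comp continuous_fst)
  · have h := e.smoothβ.continuousOn
    apply h.comp_continuous (by fun_prop)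
    intro p hp
    have : ‖(p.2 : Fin 6 → ℝ)‖ = 1 := by simp
    rw [hp] at this
    simp at this

lemma integrable_val (e : Elem) (l : Lab) :
    Integrable (fun p : Tor 6 × Sph 6 => e.val p.1 p.2) (M l) := by
  have hc := continuous_val e
  have : IsCompact (univ : Set (Tor 6 × Sph 6)) := isCompact_univ
  have h := (hc.continuousOn (s := univ)).integrableOn_compact (μ := M l) this
  rwa [integrableOn_univ] at h

lemma integral_val (e : Elem) (l : Lab) : ∫ p, e.val p.1 p.2 ∂(M l) = e.at l := by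
  unfold M Elem.val
  rw [integral_prod_mul (fun x : Tor 6 => ∏ i, e.g i (x i)) (fun ξ : Sph 6 => e.β ξ),
    integral_fintype_prod_eq_prod (fun i (x : UnitAddCircle) => e.g i x), integral_dirac]
  unfold Elem.at
  rw [Fin.prod_univ_six]
  have h0 : ∫ x, e.g 0 x ∂(mu l 0) = e.g 0 (pos l.1 l.2.1) := integral_dirac _ _
  have h1 : ∫ x, e.g 1 x ∂(mu l 1) = ∫ t, e.g 1 t ∂hm := rfl
  have h2 : ∫ x, e.g 2 x ∂(mu l 2) = ∫ t, e.g 2 t ∂hm := rfl
  have h3 : ∫ x, e.g 3 x ∂(mu l 3) = e.g 3 (pos l.2.2.1 l.2.2.2.1) := integral_dirac _ _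
  have h4 : ∫ x, e.g 4 x ∂(mu l 4) = ∫ t, e.g 4 t ∂hm := rfl
  have h5 : ∫ x, e.g 5 x ∂(mu l 5) = ∫ t, e.g 5 t ∂hm := rfl
  rw [h0, h1, h2, h3, h4, h5]
  rfl

lemma M_null (l : Lab) :
    M l {p : Tor 6 × Sph 6 | p.1 3 ≠ 0 ∧ p.1 3 ≠ ((1 / 2 : ℝ) : UnitAddCircle)} = 0 := by
  have e : {p : Tor 6 × Sph 6 | p.1 3 ≠ 0 ∧ p.1 3 ≠ ((1 / 2 : ℝ) : UnitAddCircle)} =
      ((Function.eval 3) ⁻¹' {t : UnitAddCircle | t ≠ 0 ∧ t ≠ ((1 / 2 : ℝ) : UnitAddCircle)}) ×ˢ
        univ := by
    ext p; simp
  rw [e]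
  unfold M
  rw [Measure.prod_prod]
  have hn : mu l 3 {t : UnitAddCircle | t ≠ 0 ∧ t ≠ ((1 / 2 : ℝ) : UnitAddCircle)} = 0 := by
    show Measure.dirac (pos l.2.2.1 l.2.2.2.1) _ = 0
    have hm : MeasurableSet {t : UnitAddCircle | t ≠ 0 ∧ t ≠ ((1 / 2 : ℝ) : UnitAddCircle)} := by
      apply IsOpen.measurableSet
      exact (isOpen_ne (x := (0 : UnitAddCircle))).inter isOpen_ne
    rw [Measure.dirac_apply' _ hm, Set.indicator_of_notMem]
    unfold pos
    split <;> simp
  rw [Measure.pi_eval_preimage_null _ hn, zero_mul]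

end WL

theorem t_W : S_W := by
  refine ⟨WL.W, WL.W_prob, fun e => ?_, fun p h0 h1 => ?_⟩
  · unfold WL.W
    rw [integral_smul_measure, integral_finsetSum_measure (fun l _ => WL.integrable_val e l)]
    simp only [WL.integral_val]
    simp only [ENNReal.toReal_inv, smul_eq_mul]
    have : (32 : ENNReal).toReal = 32 := by simp
    rw [this]
    ring
  · rw [Measure.notMem_support_iff_exists]
    refine ⟨{p : Tor 6 × Sph 6 | p.1 3 ≠ 0 ∧ p.1 3 ≠ ((1 / 2 : ℝ) : UnitAddCircle)}, ?_, ?_⟩
    · have hc : Continuous (fun p : Tor 6 × Sph 6 => p.1 3) := by fun_prop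
      have ho : IsOpen {p : Tor 6 × Sph 6 | p.1 3 ≠ 0 ∧ p.1 3 ≠ ((1 / 2 : ℝ) : UnitAddCircle)} :=
        (isOpen_ne.preimage hc).inter (isOpen_ne.preimage hc)
      exact ho.mem_nhds ⟨h0, h1⟩
    · unfold WL.W
      rw [Measure.smul_apply, Measure.finsetSum_apply,
        Finset.sum_eq_zero (fun l _ => WL.M_null l), smul_zero]

end Pool.Agent.H223.SR
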