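import Pool.Agent.H223.SR.T_GEO
import Pool.Agent.H223.SR.T_EIG
import Pool.Agent.H223.SR.T_FAM
import Pool.Agent.H223.SR.T_ENERGY
import Pool.Agent.H223.SR.T_LOC
import Pool.Agent.H223.SR.T_UP
import Pool.Agent.H223.SR.T_LOWER
import Pool.Agent.H223.SR.T_PAIR
import Pool.Agent.H223.SR.T_TEN
import Pool.Agent.H223.SR.T_EQ
import Pool.Agent.H223.SR.T_SYM
import Pool.Agent.H223.SR.T_TRACE
import Pool.Agent.H223.SR.T_SW
import Pool.Agent.H223.SR.T_CPT
import Pool.Agent.H223.SR.T_LOC1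
import Pool.Agent.H223.SR.T_OPEST
import Pool.Agent.H223.SR.T_MAT
import Pool.Agent.H223.SR.T_LAB
import Pool.Agent.H223.SR.T_AVG
import Pool.Agent.H223.SR.T_W

/-! # Assembly: the Weyl measure of the model -/

set_option autoImplicit false

open MeasureTheory Set Filter Topology
open scoped ContDiff Real ComplexConjugate

namespace Pool.Agent.H223.SR

namespace Asm

/-! ### Elementary symbols -/

/-- an elementary symbol as a symbol -/
noncomputable def toSymbol (e : Elem) : Symbol 6 where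
  f := e.val
  smooth := by
    unfold Elem.val
    refine ContDiffOn.mul ?_ ?_
    · refine ContDiff.contDiffOn ?_
      refine contDiff_prod fun i _ => ?_
      exact (e.smooth i).comp ((contDiff_apply ℝ ℝ i).comp contDiff_fst)
    · exact e.smoothβ.comp contDiff_snd.contDiffOn fun p hp => hp
  homog := by
    intro x ξ t ht
    unfold Elem.val
    rw [e.homog ξ t ht]

/-- sums of symbols -/
def addS (a b : Symbol 6) : Symbol 6 where
  f := fun x ξ => a.f x ξ + b.f x ξ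
  smooth := a.smooth.add b.smooth
  homog := by
    intro x ξ t ht
    rw [a.homog x ξ t ht, b.homog x ξ t ht]

/-- multiples of symbols -/
def smulS (t : ℝ) (a : Symbol 6) : Symbol 6 where
  f := fun x ξ => t * a.f x ξ
  smooth := contDiffOn_const.mul a.smooth
  homog := by
    intro x ξ s hs
    rw [a.homog x ξ s hs]

/-- the constant symbol -/
def oneS : Symbol 6 where
  f := fun _ _ => 1
  smooth := contDiffOn_const
  homog := fun _ _ _ _ => rfl

/-- finite sums -/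
noncomputable def sumS : (N : ℕ) → (Fin N → Elem) → Symbol 6
  | 0, _ => smulS 0 oneS
  | N + 1, e => addS (sumS N fun l => e l.castSucc) (toSymbol (e (Fin.last N)))

lemma sumS_f (N : ℕ) (e : Fin N → Elem) (x : Tor 6) (ξ : Fin 6 → ℝ) :
    (sumS N e).f x ξ = ∑ l, (e l).val x ξ := by
  induction N with
  | zero => simp [sumS, smulS]
  | succ N ih =>
    rw [Fin.sum_univ_castSucc, ← ih]
    rfl

/-- boundedness of the matrix elements -/
lemma posq_est {Op : Symbol 6 → (L2 6 →L[ℂ] L2 6)} (hOp : IsPosQuant Op) (a g : Symbol 6) (ε : ℝ)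
    (h : ∀ x ξ, ξ ≠ 0 → |a.f x ξ - g.f x ξ| ≤ ε) (φ : L2 6) (hφ : ‖φ‖ = 1) :
    ‖(inner ℂ (Op a φ) φ : ℂ) - inner ℂ (Op g φ) φ‖ ≤ ε * ‖Op oneS‖ := by
  -- the symbols
  set sp := addS (smulS ε oneS) (addS a (smulS (-1) g)) with hsp
  set sm := addS (smulS ε oneS) (addS (smulS (-1) a) g) with hsm
  have p1 : (Op sp).IsPositive := hOp.pos sp (by
    intro x ξ hξ
    have := abs_le.1 (h x ξ hξ)
    simp only [hsp, addS, smulS, oneS]
    linarith)
  have p2 : (Op sm).IsPositive := hOp.pos sm (by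
    intro x ξ hξ
    have := abs_le.1 (h x ξ hξ)
    simp only [hsm, addS, smulS, oneS]
    linarith)
  have p0 : (Op oneS).IsPositive := hOp.pos oneS fun x ξ _ => zero_le_one
  have e1 : Op sp = (ε : ℂ) • Op oneS + (Op a + ((-1 : ℝ) : ℂ) • Op g) := by
    rw [hOp.add (smulS ε oneS) (addS a (smulS (-1) g)) sp fun _ _ _ => rfl,
      hOp.add a (smulS (-1) g) (addS a (smulS (-1) g)) fun _ _ _ => rfl,
      hOp.smul ε oneS (smulS ε oneS) fun _ _ _ => rfl,
      hOp.smul (-1) g (smulS (-1) g) fun _ _ _ => rfl]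
  have e2 : Op sm = (ε : ℂ) • Op oneS + (((-1 : ℝ) : ℂ) • Op a + Op g) := by
    rw [hOp.add (smulS ε oneS) (addS (smulS (-1) a) g) sm fun _ _ _ => rfl,
      hOp.add (smulS (-1) a) g (addS (smulS (-1) a) g) fun _ _ _ => rfl,
      hOp.smul ε oneS (smulS ε oneS) fun _ _ _ => rfl,
      hOp.smul (-1) a (smulS (-1) a) fun _ _ _ => rfl]
  have i1 := p1.inner_nonneg_left φ
  have i2 := p2.inner_nonneg_left φ
  have i0 := p0.inner_nonneg_left φ
  have hb : ‖(inner ℂ (Op oneS φ) φ : ℂ)‖ ≤ ‖Op oneS‖ := by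
    refine (norm_inner_le_norm _ _).trans ?_
    rw [hφ, mul_one]
    refine ((Op oneS).le_opNorm φ).trans ?_
    rw [hφ, mul_one]
  rw [e1] at i1
  rw [e2] at i2
  simp only [ContinuousLinearMap.add_apply, ContinuousLinearMap.smul_apply, inner_add_left,
    inner_smul_left, Complex.conj_ofReal] at i1 i2
  rw [Complex.le_def] at i0 i1 i2
  simp only [Complex.zero_re, Complex.zero_im, Complex.add_re, Complex.add_im, Complex.mul_re,
    Complex.mul_im, Complex.ofReal_re, Complex.ofReal_im, zero_mul, sub_zero, add_zero,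
    neg_mul, one_mul] at i0 i1 i2
  set P := (inner ℂ (Op a φ) φ : ℂ)
  set Q := (inner ℂ (Op g φ) φ : ℂ)
  set R := (inner ℂ (Op oneS φ) φ : ℂ)
  have him : (P - Q).im = 0 := by
    rw [Complex.sub_im]
    have := i1.2
    have := i0.2
    rw [← this] at *
    linarith [i1.2]
  have hre : |(P - Q).re| ≤ ε * R.re := by
    rw [Complex.sub_re, abs_le]
    constructor <;> linarith [i1.1, i2.1]
  have hR : R.re ≤ ‖Op oneS‖ := (Complex.re_le_norm R).trans hb
  have hε : 0 ≤ ε := (abs_nonneg _).trans (h 0 1 (by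
    intro h0
    have := congrFun h0 0
    simp at this))
  have hn : ‖P - Q‖ = |(P - Q).re| := by
    have : P - Q = (((P - Q).re : ℝ) : ℂ) := by
      apply Complex.ext
      · simp
      · simpa using him
    rw [this, Complex.norm_real, Real.norm_eq_abs, Complex.ofReal_re]
  rw [hn]
  exact hre.trans (mul_le_mul_of_nonneg_left hR hε)

/-! ### The limits for elementary symbols -/

lemma lab_unique (γ : I3 × I3) (l l' : Lab) (h : HasLab γ l) (h' : HasLab γ l') : l = l' := by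
  obtain ⟨-, -, -, -, -, a1, a2, a3, a4, a5⟩ := h
  obtain ⟨-, -, -, -, -, b1, b2, b3, b4, b5⟩ := h'
  have key : ∀ (p : Prop) (x y : Bool), (p ↔ x = true) → (p ↔ y = true) → x = y := by
    intro p x y hx hy
    cases x <;> cases y <;> simp_all
  refine Prod.ext (key _ _ _ a1 b1) (Prod.ext (key _ _ _ a2 b2) (Prod.ext (key _ _ _ a3 b3)
    (Prod.ext (key _ _ _ a4 b4) (key _ _ _ a5 b5))))

/-- the limit of the means for an elementary symbol -/
lemma lim_elem (hMAT : S_MAT) (hCPT : S_CPT) (hPAIR : S_PAIR) (hLAB : S_LAB) (hAVG : S_AVG)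
    (u : ℤ → ℤ → ℕ → C(UnitAddCircle, ℂ)) (E : ℤ → ℤ → ℕ → ℝ) (hF : Fam u E)
    (b : HilbertBasis (I3 × I3) ℂ (L2 6)) (hb : ∀ γ, b γ = cls (psi u γ))
    {Op : Symbol 6 → (L2 6 →L[ℂ] L2 6)} (hOp : IsPosQuant Op) (e : Elem) :
    Tendsto (mean b (fun γ => ev E γ.1 + ev E γ.2) (Op (toSymbol e))) atTop
      (𝓝 ((∑ l : Lab, (e.at l : ℂ)) / 32)) := by
  obtain ⟨K, hK, hKq⟩ := hOp.quant (toSymbol e)
  obtain ⟨hfin, hinf, hgood⟩ := hPAIR u E hF
  have hA : ∀ κ : Fin 6 → ℤ, κ ≠ 0 → ((Op (toSymbol e) - K) (mono κ) : L2 6) =ᵐ[vol 6]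
      fun x => (e.val x (fun i => (κ i : ℝ)) : ℂ) * UnitAddTorus.mFourier κ x := by
    intro κ hκ
    exact hKq κ hκ
  have hmat := hMAT u E hF.one e (Op (toSymbol e) - K) hA
  have hlab : Fintype.card Lab = 32 := by decide
  have hav := hAVG (I3 × I3) (lev E) Lab HasLab
    (fun γ => inner ℂ (Op (toSymbol e) (b γ)) (b γ)) ‖Op (toSymbol e)‖ (fun l => (e.at l : ℂ))
    ⟨(true, true, true, true, true)⟩ hfin hinf (fun γ l l' => lab_unique γ l l')
    (fun Λ l l' => hLAB u E hF Λ l l') ?_ ?_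
  · rw [hlab] at hav
    exact hav
  · intro γ
    have h1 : ‖b γ‖ = 1 := b.orthonormal.1 γ
    refine (norm_inner_le_norm _ _).trans ?_
    rw [h1, mul_one]
    refine ((Op (toSymbol e)).le_opNorm _).trans ?_
    rw [h1, mul_one]
  · intro η hη
    obtain ⟨K0, ε, hK0, hε, hmain⟩ := hmat (η / 2) (half_pos hη)
    have hg := hgood K0 ε hK0 hε
    have hcp := hCPT K hK (I3 × I3) b (η / 2) (half_pos hη)
    set S1 := {j | η / 2 ≤ ‖(inner ℂ (K (b j)) (b j) : ℂ)‖} with hS1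
    have hz : Tendsto (fun Λ => ((lev E Λ ∩ {γ | ¬ Good K0 ε Λ γ}).ncard : ℝ) /
        ((lev E Λ).ncard : ℝ) + (S1.ncard : ℝ) / ((lev E Λ).ncard : ℝ)) atTop (𝓝 0) := by
      have := hg.add (hinf.const_div_atTop (S1.ncard : ℝ))
      simpa using this
    refine squeeze_zero' (Eventually.of_forall fun Λ => by positivity) ?_ hz
    filter_upwards [eventually_ge_atTop (1 : ℝ)] with Λ hΛ
    rw [← add_div]
    refine div_le_div_of_nonneg_right ?_ (Nat.cast_nonneg _)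
    have hsub : lev E Λ ∩ {i | ¬ ∃ l, HasLab i l ∧
        ‖(inner ℂ (Op (toSymbol e) (b i)) (b i) : ℂ) - (e.at l : ℂ)‖ ≤ η} ⊆
        (lev E Λ ∩ {γ | ¬ Good K0 ε Λ γ}) ∪ S1 := by
      rintro γ ⟨h1, h2⟩
      by_cases h3 : γ ∈ S1
      · exact Or.inr h3
      · refine Or.inl ⟨h1, fun h4 => h2 ?_⟩
        obtain ⟨l, hl, hle⟩ := hmain Λ hΛ γ h1 h4
        refine ⟨l, hl, ?_⟩
        have h5 : ‖(inner ℂ (K (b γ)) (b γ) : ℂ)‖ < η / 2 := by
          by_contra h6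
          exact h3 (not_lt.1 h6)
        rw [← hb] at hle
        have h7 : (inner ℂ (Op (toSymbol e) (b γ)) (b γ) : ℂ) - (e.at l : ℂ) =
            ((inner ℂ ((Op (toSymbol e) - K) (b γ)) (b γ) : ℂ) - (e.at l : ℂ)) +
              inner ℂ (K (b γ)) (b γ) := by
          rw [ContinuousLinearMap.sub_apply, inner_sub_left]
          ring
        rw [h7]
        refine (norm_add_le _ _).trans ?_
        linarith
    have h8 := Set.ncard_le_ncard hsub (((hfin Λ).inter_of_left _).union hcp)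
    have h9 := Set.ncard_union_le (lev E Λ ∩ {γ | ¬ Good K0 ε Λ γ}) S1
    exact_mod_cast h8.trans h9

/-- means are additive -/
lemma mean_add (b : HilbertBasis (I3 × I3) ℂ (L2 6)) (lam : I3 × I3 → ℝ)
    (hfin : ∀ Λ, {j | lam j ≤ Λ}.Finite) (A B : L2 6 →L[ℂ] L2 6) (Λ : ℝ) :
    mean b lam (A + B) Λ = mean b lam A Λ + mean b lam B Λ := by
  unfold mean
  rw [← add_div]
  congr 1
  have h : ∀ T : L2 6 →L[ℂ] L2 6, (∑ᶠ (j) (_ : lam j ≤ Λ), (inner ℂ (T (b j)) (b j) : ℂ)) =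
      ∑ j ∈ (hfin Λ).toFinset, inner ℂ (T (b j)) (b j) := by
    intro T
    rw [← finsum_mem_eq_finite_toFinset_sum _ (hfin Λ)]
    rfl
  rw [h, h, h, ← Finset.sum_add_distrib]
  refine Finset.sum_congr rfl fun j _ => ?_
  rw [ContinuousLinearMap.add_apply, inner_add_left]

/-- difference of means -/
lemma mean_diff (b : HilbertBasis (I3 × I3) ℂ (L2 6)) (lam : I3 × I3 → ℝ)
    (hfin : ∀ Λ, {j | lam j ≤ Λ}.Finite) (A B : L2 6 →L[ℂ] L2 6) (C Λ : ℝ) (hC : 0 ≤ C)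
    (h : ∀ j, ‖(inner ℂ (A (b j)) (b j) : ℂ) - inner ℂ (B (b j)) (b j)‖ ≤ C) :
    ‖mean b lam A Λ - mean b lam B Λ‖ ≤ C := by
  unfold mean
  rw [← sub_div]
  have h1 : ∀ T : L2 6 →L[ℂ] L2 6, (∑ᶠ (j) (_ : lam j ≤ Λ), (inner ℂ (T (b j)) (b j) : ℂ)) =
      ∑ j ∈ (hfin Λ).toFinset, inner ℂ (T (b j)) (b j) := by
    intro T
    rw [← finsum_mem_eq_finite_toFinset_sum _ (hfin Λ)]
    rfl
  rw [h1, h1, ← Finset.sum_sub_distrib, norm_div, Complex.norm_natCast,
    Set.ncard_eq_toFinset_card _ (hfin Λ)]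
  rcases (Finset.card (hfin Λ).toFinset).eq_zero_or_pos with h0 | h0
  · rw [h0]
    simpa using hC
  · rw [div_le_iff₀ (by exact_mod_cast h0)]
    refine (norm_sum_le _ _).trans ?_
    refine (Finset.sum_le_card_nsmul _ _ C fun j _ => h j).trans ?_
    rw [nsmul_eq_mul, mul_comm]

/-! ### The limits for all symbols -/

lemma integrable_symbol (hCONT : S_CONT) (W : Measure (Tor 6 × Sph 6)) [IsFiniteMeasure W]
    (a : Symbol 6) : Integrable (fun p : Tor 6 × Sph 6 => a.f p.1 p.2) W :=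
  (hCONT a).integrable_of_hasCompactSupport (HasCompactSupport.of_compactSpace _)

lemma sph_ne (ξ : Sph 6) : (ξ : Fin 6 → ℝ) ≠ 0 := by
  intro h
  have h1 : ‖(ξ : Fin 6 → ℝ)‖ = 1 := mem_sphere_zero_iff_norm.1 ξ.2
  rw [h, norm_zero] at h1
  exact zero_ne_one h1

lemma lim_sum (hMAT : S_MAT) (hCPT : S_CPT) (hPAIR : S_PAIR) (hLAB : S_LAB) (hAVG : S_AVG)
    (hCONT : S_CONT) (W : Measure (Tor 6 × Sph 6)) [IsProbabilityMeasure W]
    (hW : ∀ e : Elem, ∫ p, e.val p.1 p.2 ∂W = (∑ l : Lab, e.at l) / 32)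
    (u : ℤ → ℤ → ℕ → C(UnitAddCircle, ℂ)) (E : ℤ → ℤ → ℕ → ℝ) (hF : Fam u E)
    (b : HilbertBasis (I3 × I3) ℂ (L2 6)) (hb : ∀ γ, b γ = cls (psi u γ))
    {Op : Symbol 6 → (L2 6 →L[ℂ] L2 6)} (hOp : IsPosQuant Op) (N : ℕ) (e : Fin N → Elem) :
    Tendsto (mean b (fun γ => ev E γ.1 + ev E γ.2) (Op (sumS N e))) atTop
      (𝓝 ((∫ p, (sumS N e).f p.1 p.2 ∂W : ℝ) : ℂ)) := by
  have hfin := (hPAIR u E hF).1
  induction N with
  | zero =>
    have h0 : Op (sumS 0 e) = 0 := by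
      rw [hOp.smul 0 oneS (sumS 0 e) fun _ _ _ => rfl]
      simp
    have h1 : mean b (fun γ => ev E γ.1 + ev E γ.2) (Op (sumS 0 e)) = fun _ => 0 := by
      funext Λ
      rw [h0]
      simp [mean]
    have h2 : ∫ p : Tor 6 × Sph 6, (sumS 0 e).f p.1 p.2 ∂W = 0 := by
      simp [sumS, smulS]
    rw [h1, h2]
    simp
  | succ N ih =>
    have h0 : Op (sumS (N + 1) e) = Op (sumS N fun l => e l.castSucc) +
        Op (toSymbol (e (Fin.last N))) := hOp.add _ _ _ fun _ _ _ => rfl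
    have h1 : mean b (fun γ => ev E γ.1 + ev E γ.2) (Op (sumS (N + 1) e)) = fun Λ =>
        mean b (fun γ => ev E γ.1 + ev E γ.2) (Op (sumS N fun l => e l.castSucc)) Λ +
        mean b (fun γ => ev E γ.1 + ev E γ.2) (Op (toSymbol (e (Fin.last N)))) Λ := by
      funext Λ
      rw [h0, mean_add b _ hfin]
    have h2 : ∫ p : Tor 6 × Sph 6, (sumS (N + 1) e).f p.1 p.2 ∂W =
        (∫ p : Tor 6 × Sph 6, (sumS N fun l => e l.castSucc).f p.1 p.2 ∂W) +
          (∑ l : Lab, (e (Fin.last N)).at l) / 32 := by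
      rw [← hW]
      exact integral_add (integrable_symbol hCONT W (sumS N fun l => e l.castSucc))
        (integrable_symbol hCONT W (toSymbol (e (Fin.last N))))
    rw [h1, h2]
    push_cast
    exact (ih _).add (lim_elem hMAT hCPT hPAIR hLAB hAVG u E hF b hb hOp _)

lemma lim_all (hMAT : S_MAT) (hCPT : S_CPT) (hPAIR : S_PAIR) (hLAB : S_LAB) (hAVG : S_AVG)
    (hCONT : S_CONT) (hSW : S_SW) (W : Measure (Tor 6 × Sph 6)) [IsProbabilityMeasure W]
    (hW : ∀ e : Elem, ∫ p, e.val p.1 p.2 ∂W = (∑ l : Lab, e.at l) / 32)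
    (u : ℤ → ℤ → ℕ → C(UnitAddCircle, ℂ)) (E : ℤ → ℤ → ℕ → ℝ) (hF : Fam u E)
    (b : HilbertBasis (I3 × I3) ℂ (L2 6)) (hb : ∀ γ, b γ = cls (psi u γ))
    {Op : Symbol 6 → (L2 6 →L[ℂ] L2 6)} (hOp : IsPosQuant Op) (a : Symbol 6) :
    Tendsto (mean b (fun γ => ev E γ.1 + ev E γ.2) (Op a)) atTop
      (𝓝 ((∫ p, a.f p.1 p.2 ∂W : ℝ) : ℂ)) := by
  have hfin := (hPAIR u E hF).1
  rw [Metric.tendsto_atTop']
  intro ε hε
  set M := ‖Op oneS‖ with hM
  have hM0 : 0 ≤ M := norm_nonneg _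
  obtain ⟨δ, hδ, hδ'⟩ : ∃ δ : ℝ, 0 < δ ∧ δ * (M + 1) = ε / 2 :=
    ⟨ε / (2 * (M + 1)), by positivity, by field_simp⟩
  obtain ⟨N, e, he⟩ := hSW a δ hδ
  have hlim := lim_sum hMAT hCPT hPAIR hLAB hAVG hCONT W hW u E hF b hb hOp N e
  rw [Metric.tendsto_atTop'] at hlim
  obtain ⟨Λ0, hΛ0⟩ := hlim (ε / 2) (half_pos hε)
  refine ⟨Λ0, fun Λ hΛ => ?_⟩
  have h1 := hΛ0 Λ hΛ
  have hag : ∀ x ξ, ξ ≠ 0 → |a.f x ξ - (sumS N e).f x ξ| ≤ δ := by
    intro x ξ hξ
    rw [sumS_f]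
    exact he x ξ hξ
  have h2 := mean_diff b (fun γ => ev E γ.1 + ev E γ.2) hfin (Op a) (Op (sumS N e)) (δ * M) Λ
    (by positivity) fun j => posq_est hOp a (sumS N e) δ hag (b j) (b.orthonormal.1 j)
  have h3 : |(∫ p : Tor 6 × Sph 6, (sumS N e).f p.1 p.2 ∂W) -
      ∫ p : Tor 6 × Sph 6, a.f p.1 p.2 ∂W| ≤ δ := by
    rw [← integral_sub (integrable_symbol hCONT W _) (integrable_symbol hCONT W _)]
    have := norm_integral_le_of_norm_le_const (μ := W)
      (f := fun p : Tor 6 × Sph 6 => (sumS N e).f p.1 p.2 - a.f p.1 p.2) (C := δ)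
      (Eventually.of_forall fun p => by
        rw [Real.norm_eq_abs, abs_sub_comm]
        exact hag _ _ (sph_ne _))
    simpa using this
  rw [dist_eq_norm] at h1 ⊢
  set X := mean b (fun γ => ev E γ.1 + ev E γ.2) (Op a) Λ
  set Y := mean b (fun γ => ev E γ.1 + ev E γ.2) (Op (sumS N e)) Λ
  set P := ∫ p : Tor 6 × Sph 6, (sumS N e).f p.1 p.2 ∂W
  set Q := ∫ p : Tor 6 × Sph 6, a.f p.1 p.2 ∂W
  have h4 : ‖(P : ℂ) - (Q : ℂ)‖ ≤ δ := by
    rw [← Complex.ofReal_sub, Complex.norm_real]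
    exact h3
  have h5 : X - (Q : ℂ) = (X - Y) + (Y - (P : ℂ)) + ((P : ℂ) - (Q : ℂ)) := by ring
  calc ‖X - (Q : ℂ)‖ ≤ ‖X - Y‖ + ‖Y - (P : ℂ)‖ + ‖(P : ℂ) - (Q : ℂ)‖ := by
        rw [h5]
        exact norm_add₃_le
    _ < δ * M + ε / 2 + δ := by linarith
    _ = δ * (M + 1) + ε / 2 := by ring
    _ = ε := by rw [hδ']; ring

end Asm

open Asm in
/-- the main theorem: the Weyl measure of the model exists and its support is not `SΣ_{r-1}` -/
theorem main_model : ∃ S : SubRiem 6 4,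
    (∃ (ι : Type) (b : HilbertBasis ι ℂ (L2 6)) (lam : ι → ℝ), IsEigenbasis S b lam) ∧
    ∃ W : Measure (Tor 6 × Sph 6), IsWeylMeasure S W ∧
    ∃ r, IsLeast {r | ∀ q, flag S.X r q = ⊤} r ∧ W.support ≠ SSigma S (r - 1) := by
  have hEN := t_ENERGY.1
  have hLOC := t_LOC hEN
  have hUP := t_UP hEN hLOC t_ENERGY.2
  have hPAIR := t_PAIR hUP t_LOWER hEN
  have hLOC1 := t_LOC1 hEN hLOC
  have hMAT := t_MAT hLOC1 t_OPEST hEN
  obtain ⟨S, hX, hlap, hr, hSS⟩ := t_GEO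
  obtain ⟨u, E, hF⟩ := t_FAM t_EIG
  obtain ⟨b, hb⟩ := t_TEN u E hF.one
  obtain ⟨W, hWp, hWe, hWs⟩ := t_W
  have hfin := (hPAIR u E hF).1
  have heig : IsEigenbasis S b fun γ => ev E γ.1 + ev E γ.2 := by
    refine ⟨fun γ => ⟨psi u γ, (t_EQ u E hF.one γ).1, hb γ, fun x => ?_⟩, hfin⟩
    rw [hlap]
    exact (t_EQ u E hF.one γ).2 x
  refine ⟨S, ⟨_, b, _, heig⟩, W, ⟨hWp, ?_⟩, 3, hr, ?_⟩
  · intro ι b' lam' hb' Op hOp a
    have hmean : mean b' lam' (Op a) = mean b (fun γ => ev E γ.1 + ev E γ.2) (Op a) := by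
      funext Λ
      refine t_TRACE ι (I3 × I3) b' b lam' _ ?_ hb'.fin hfin (Op a) Λ
      intro j γ hne
      obtain ⟨F, hFs, hFb, hFe⟩ := hb'.eig j
      rw [hFb, hb γ]
      refine t_SYM F (psi u γ) (lam' j) (ev E γ.1 + ev E γ.2) hFs (t_EQ u E hF.one γ).1 ?_
        (t_EQ u E hF.one γ).2 hne
      intro x
      rw [← hlap]
      exact hFe x
    rw [hmean]
    exact lim_all hMAT t_CPT hPAIR t_LAB t_AVG t_SW.1 t_SW.2 W hWe u E hF b hb hOp a
  · intro hsupp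
    -- the point
    have hv : ‖(![0, -1, 1, 0, 0, 0] : Fin 6 → ℝ)‖ = 1 := by
      refine le_antisymm ?_ ?_
      · rw [pi_norm_le_iff_of_nonneg zero_le_one]
        intro i
        fin_cases i <;> simp
      · have := norm_le_pi_norm (![0, -1, 1, 0, 0, 0] : Fin 6 → ℝ) 1
        simpa using this
    set p : Tor 6 × Sph 6 := (fun i => if i = 3 then ((1 / 4 : ℝ) : UnitAddCircle) else 0,
      ⟨![0, -1, 1, 0, 0, 0], mem_sphere_zero_iff_norm.2 hv⟩) with hp
    have h1 : p ∈ SSigma S 2 := hSS p (by simp [hp]) rfl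
    have h2 : p ∉ W.support := by
      refine hWs p ?_ ?_
      · simp only [hp, if_true]
        rw [Ne, AddCircle.coe_eq_zero_iff]
        rintro ⟨n, hn⟩
        rw [zsmul_eq_mul, mul_one] at hn
        have h3 : (4 * n : ℝ) = 1 := by linarith
        have h4 : 4 * n = 1 := by exact_mod_cast h3
        omega
      · simp only [hp, if_true]
        intro h
        have h5 : (((1 / 4 : ℝ) - 1 / 2 : ℝ) : UnitAddCircle) = 0 := by
          rw [AddCircle.coe_sub, h, sub_self]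
        rw [AddCircle.coe_eq_zero_iff] at h5
        obtain ⟨n, hn⟩ := h5
        rw [zsmul_eq_mul, mul_one] at hn
        have h3 : (4 * n : ℝ) = -1 := by linarith
        have h4 : 4 * n = -1 := by exact_mod_cast h3
        omega
    rw [hsupp] at h2
    exact h2 h1

end Pool.Agent.H223.SR
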