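import Pool.Agent.H223.SR.Defs

/-!
# Eigenbases, positive quantizations and the microlocal Weyl measure

The definitions of `Pool.Agent.H223.SR.Defs` which involve `L²(Tor d; ℂ)`, written with a named
Hilbert space `HS d` (so that the statements print in a short form).
-/

set_option autoImplicit false

open MeasureTheory Set Filter Topology
open scoped ContDiff

namespace Pool.Agent.H223.SR

/-- the Hilbert space `L²(Tor d; ℂ)` (with respect to the Lebesgue measure) -/
def HS (d : ℕ) : Type := Lp ℂ 2 (vol d)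

/-- the norm of `L²` -/
noncomputable instance instNormHS (d : ℕ) : NormedAddCommGroup (HS d) :=
  (inferInstance : NormedAddCommGroup (Lp ℂ 2 (vol d)))

/-- the inner product of `L²` -/
noncomputable instance instInnerHS (d : ℕ) : InnerProductSpace ℂ (HS d) :=
  (inferInstance : InnerProductSpace ℂ (Lp ℂ 2 (vol d)))

/-- a representative of an element of `L²` -/
noncomputable def HS.fn {d : ℕ} (u : HS d) : Tor d → ℂ := ⇑(show Lp ℂ 2 (vol d) from u)

/-- the bounded operators of `L²` -/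
abbrev BO (d : ℕ) : Type := HS d →L[ℂ] HS d

/-- An orthonormal basis `b` of `L²` which consists of `C^∞` eigenfunctions of `-Δ` with the
eigenvalues `lam`, and every half-line `(-∞, Λ]` contains only finitely many of them. -/
structure EigenBasis {d k : ℕ} (S : SubRiem d k) {ι : Type} (b : HilbertBasis ι ℂ (HS d))
    (lam : ι → ℝ) : Prop where
  eig : ∀ j, ∃ F : C(Tor d, ℂ), IsSmooth F ∧ (b j).fn =ᵐ[vol d] F ∧
    ∀ x, -S.lap (fun y => F (proj y)) x = lam j * F (proj x)
  fin : ∀ Λ : ℝ, {j | lam j ≤ Λ}.Finite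

/-- the operator `A` is given on the monomials `e_κ(x) = exp (2 π i κ · x)`, `κ ≠ 0`, by the
standard quantization of the symbol `a`: `A e_κ = a(·, κ) e_κ` -/
def IsStd {d : ℕ} (a : Symbol d) (A : BO d) : Prop :=
  ∀ (κ : Fin d → ℤ) (u : HS d), κ ≠ 0 → u.fn =ᵐ[vol d] UnitAddTorus.mFourier κ →
    (A u).fn =ᵐ[vol d] fun x => (a.f x (fun i => (κ i : ℝ)) : ℂ) * UnitAddTorus.mFourier κ x

/-- A positive quantization: a real linear map from the symbols to the bounded operators of `L²`
which takes nonnegative symbols to nonnegative operators and which coincides up to compact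
operators with the standard quantization `e_κ ↦ a(·, κ) e_κ` of the torus. -/
structure PosQuant {d : ℕ} (Op : Symbol d → BO d) : Prop where
  add : ∀ a b c : Symbol d, (∀ x ξ, ξ ≠ 0 → c.f x ξ = a.f x ξ + b.f x ξ) → Op c = Op a + Op b
  smul : ∀ (t : ℝ) (a b : Symbol d), (∀ x ξ, ξ ≠ 0 → b.f x ξ = t * a.f x ξ) →
    Op b = (t : ℂ) • Op a
  pos : ∀ a : Symbol d, (∀ x ξ, ξ ≠ 0 → 0 ≤ a.f x ξ) → (Op a).IsPositive
  quant : ∀ a : Symbol d, ∃ K : BO d, IsCompactOperator K ∧ IsStd a (Op a - K)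

/-- the mean of `⟨A φ_j, φ_j⟩` over the eigenfunctions `φ_j` with eigenvalue at most `Λ` -/
noncomputable def avg {d : ℕ} {ι : Type} (b : HilbertBasis ι ℂ (HS d)) (lam : ι → ℝ)
    (A : BO d) (Λ : ℝ) : ℂ :=
  (∑ᶠ (j) (_ : lam j ≤ Λ), inner ℂ (A (b j)) (b j)) / ({j | lam j ≤ Λ}.ncard : ℂ)

/-- `W` is the microlocal Weyl measure of the structure `S` -/
def WeylMeasure {d k : ℕ} (S : SubRiem d k) (W : Measure (Tor d × Sph d)) : Prop :=
  IsProbabilityMeasure W ∧
  ∀ (ι : Type) (b : HilbertBasis ι ℂ (HS d)) (lam : ι → ℝ), EigenBasis S b lam →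
  ∀ Op : Symbol d → BO d, PosQuant Op → ∀ a : Symbol d,
    Tendsto (avg b lam (Op a)) atTop (𝓝 ((∫ p, a.f p.1 p.2 ∂W : ℝ) : ℂ))

/-- there are an eigenbasis of `-Δ` and a positive quantization -/
def Exist {d k : ℕ} (S : SubRiem d k) : Prop :=
  (∃ (ι : Type) (b : HilbertBasis ι ℂ (HS d)) (lam : ι → ℝ), EigenBasis S b lam) ∧
    ∃ Op : Symbol d → BO d, PosQuant Op

end Pool.Agent.H223.SR
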