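import Pool.Agent.H223.SR.Defs

/-!
# The model `Tor 6` with `D = span (∂₀, ∂₁ + cos(2πq₀) ∂₂, ∂₃, ∂₄ + cos(2πq₃) ∂₅)`

Exact statements (as `Prop`s) of all modules. Everything in terms of the one dimensional operators
`-u'' + (2π)² (m + n cos(2πx))² u` on the circle.
-/

set_option autoImplicit false

open MeasureTheory Set Filter Topology
open scoped ContDiff Real ComplexConjugate

namespace Pool.Agent.H223.SR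

/-! ### The model -/

/-- the frame -/
noncomputable def MX : Fin 4 → (Fin 6 → ℝ) → (Fin 6 → ℝ)
  | 0 => fun _ => ![1, 0, 0, 0, 0, 0]
  | 1 => fun q => ![0, 1, Real.cos (2 * π * q 0), 0, 0, 0]
  | 2 => fun _ => ![0, 0, 0, 1, 0, 0]
  | 3 => fun q => ![0, 0, 0, 0, 1, Real.cos (2 * π * q 3)]

/-- `-Δ` of the model (all divergences vanish) -/
noncomputable def mlap (Φ : (Fin 6 → ℝ) → ℂ) (x : Fin 6 → ℝ) : ℂ :=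
  -∑ i, along (MX i) (along (MX i) Φ) x

/-- geometry of the model -/
def S_GEO : Prop := ∃ S : SubRiem 6 4, S.X = MX ∧ (∀ Φ x, -S.lap Φ x = mlap Φ x) ∧
  IsLeast {r | ∀ q, flag S.X r q = ⊤} 3 ∧
  ∀ p : Tor 6 × Sph 6, p.1 0 = 0 → (p.2 : Fin 6 → ℝ) = ![0, -1, 1, 0, 0, 0] → p ∈ SSigma S 2

/-! ### The one dimensional operators -/

/-- the Haar probability measure of the circle -/
noncomputable abbrev hm : Measure UnitAddCircle := AddCircle.haarAddCircle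

/-- the potential `(2π)² (m + n cos(2πx))²` -/
noncomputable def pot (m n : ℤ) (x : ℝ) : ℝ :=
  (2 * π) ^ 2 * ((m : ℝ) + n * Real.cos (2 * π * x)) ^ 2

/-- `u` is an orthonormal basis of `L²` of the circle, consisting of `C^∞` eigenfunctions of
`-u'' + pot m n u` with the eigenvalues `E` -/
structure OneD (m n : ℤ) (u : ℕ → C(UnitAddCircle, ℂ)) (E : ℕ → ℝ) : Prop where
  smooth : ∀ i, ContDiff ℝ ∞ fun x : ℝ => u i x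
  eqn : ∀ i (x : ℝ), -deriv (deriv fun t : ℝ => u i t) x + (pot m n x : ℂ) * u i x = E i * u i x
  orth : ∀ i j, ∫ t, conj (u i t) * u j t ∂hm = if i = j then 1 else 0
  compl : ∀ (k : ℤ) (ε : ℝ), 0 < ε → ∃ (s : Finset ℕ) (c : ℕ → ℂ),
    ∫ t, ‖fourier k t - ∑ i ∈ s, c i * u i t‖ ^ 2 ∂hm ≤ ε
  fin : ∀ Λ : ℝ, {i | E i ≤ Λ}.Finite

/-- families for all integers `m`, `n`, with spectra depending only on `|m|`, `|n|` -/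
structure Fam (u : ℤ → ℤ → ℕ → C(UnitAddCircle, ℂ)) (E : ℤ → ℤ → ℕ → ℝ) : Prop where
  one : ∀ m n, OneD m n (u m n) (E m n)
  symm : ∀ m n i, E m n i = E |m| |n| i

/-- (A) existence of the eigenbases for natural `m`, `n` -/
def S_EIG : Prop := ∀ m n : ℕ, ∃ (u : ℕ → C(UnitAddCircle, ℂ)) (E : ℕ → ℝ), OneD m n u E

/-- (A') existence of the families -/
def S_FAM : Prop := ∃ (u : ℤ → ℤ → ℕ → C(UnitAddCircle, ℂ)) (E : ℤ → ℤ → ℕ → ℝ), Fam u E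

/-- (B1) energy -/
def S_ENERGY : Prop := ∀ (m n : ℤ) (u : ℕ → C(UnitAddCircle, ℂ)) (E : ℕ → ℝ), OneD m n u E →
  ∀ i, 0 ≤ E i ∧ ∫ x in (0 : ℝ)..1, ‖deriv (fun t : ℝ => u i t) x‖ ^ 2 ≤ E i ∧
    ∫ x in (0 : ℝ)..1, pot m n x * ‖u i x‖ ^ 2 ≤ E i

/-- (B2) localization -/
def S_LOC : Prop := ∀ (m n : ℤ) (u : ℕ → C(UnitAddCircle, ℂ)) (E : ℕ → ℝ), OneD m n u E →
  ∀ i (ε : ℝ), 0 < ε →
    (2 * π) ^ 2 * |(n : ℝ)| * ((∫ x in (0 : ℝ)..1, |Real.sin (2 * π * x)| * ‖u i x‖ ^ 2) - ε) ≤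
      E i + 2 * π / ε * √(E i)

/-- (B3) pointwise bound for the spectral function -/
def S_SUP : Prop := ∀ (m n : ℤ) (u : ℕ → C(UnitAddCircle, ℂ)) (E : ℕ → ℝ), OneD m n u E →
  ∀ Λ : ℝ, 0 ≤ Λ → ∀ s : Finset ℕ, (∀ i ∈ s, E i ≤ Λ) → ∀ x : ℝ,
    ∑ i ∈ s, ‖u i x‖ ^ 2 ≤ 1 + 2 * √Λ

/-- (C) upper bounds for the counting functions -/
def S_UP : Prop := ∃ C : ℝ, 0 < C ∧ ∀ (u : ℤ → ℤ → ℕ → C(UnitAddCircle, ℂ)) (E : ℤ → ℤ → ℕ → ℝ),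
  (∀ m n, OneD m n (u m n) (E m n)) → ∀ Λ : ℝ, 1 ≤ Λ → ∀ n : ℤ,
    {p : ℤ × ℕ | E p.1 n p.2 ≤ Λ}.Finite ∧
    ({p : ℤ × ℕ | E p.1 n p.2 ≤ Λ}.ncard : ℝ) ≤ C * Λ ∧
    (n ≠ 0 → ({p : ℤ × ℕ | E p.1 n p.2 ≤ Λ}.ncard : ℝ) ≤ C * Λ ^ 2 / |(n : ℝ)|) ∧
    (200 * Λ ^ (3 / 2 : ℝ) ≤ |(n : ℝ)| → {p : ℤ × ℕ | E p.1 n p.2 ≤ Λ} = ∅)

/-- (D) at least one eigenvalue `≤ Λ` for many `m`, `n` -/
def S_LOWER : Prop := ∀ (m n : ℤ) (u : ℕ → C(UnitAddCircle, ℂ)) (E : ℕ → ℝ), OneD m n u E →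
  ∀ Λ : ℝ, 100 ≤ Λ → n ≠ 0 → |(n : ℝ)| ≤ Λ ^ (3 / 2 : ℝ) / 3000 → |(m : ℝ)| ≤ |(n : ℝ)| →
    |(n : ℝ)| - |(m : ℝ)| ≤ Λ ^ 2 / (100000 * |(n : ℝ)|) → ∃ i, E i ≤ Λ

/-! ### Counting pairs -/

/-- index of an eigenfunction of one factor: `(m, n, i)` -/
abbrev I3 : Type := ℤ × ℤ × ℕ

/-- eigenvalue of the index `(m, n, i)` -/
def ev (E : ℤ → ℤ → ℕ → ℝ) (α : I3) : ℝ := E α.1 α.2.1 α.2.2

/-- the pairs with eigenvalue at most `Λ` -/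
def lev (E : ℤ → ℤ → ℕ → ℝ) (Λ : ℝ) : Set (I3 × I3) := {γ | ev E γ.1 + ev E γ.2 ≤ Λ}

/-- both `|n₁|, |n₂|` are at least `K Λ`, and one of them is much larger than the other -/
def Good (K ε Λ : ℝ) (γ : I3 × I3) : Prop :=
  K * Λ ≤ |(γ.1.2.1 : ℝ)| ∧ K * Λ ≤ |(γ.2.2.1 : ℝ)| ∧
    (|(γ.2.2.1 : ℝ)| ≤ ε * |(γ.1.2.1 : ℝ)| ∨ |(γ.1.2.1 : ℝ)| ≤ ε * |(γ.2.2.1 : ℝ)|)

/-- (G) almost all pairs are good -/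
def S_PAIR : Prop := ∀ (u : ℤ → ℤ → ℕ → C(UnitAddCircle, ℂ)) (E : ℤ → ℤ → ℕ → ℝ), Fam u E →
  (∀ Λ, (lev E Λ).Finite) ∧ Tendsto (fun Λ => ((lev E Λ).ncard : ℝ)) atTop atTop ∧
  ∀ K ε : ℝ, 0 < K → 0 < ε →
    Tendsto (fun Λ => ((lev E Λ ∩ {γ | ¬ Good K ε Λ γ}).ncard : ℝ) / ((lev E Λ).ncard : ℝ)) atTop
      (𝓝 0)

/-! ### The basis of `L²(Tor 6)` -/

/-- product of functions of one variable -/
noncomputable def tens (g : Fin 6 → C(UnitAddCircle, ℂ)) : C(Tor 6, ℂ) :=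
  ⟨fun x => ∏ i, g i (x i), by fun_prop⟩

/-- the eigenfunctions of the model -/
noncomputable def psi (u : ℤ → ℤ → ℕ → C(UnitAddCircle, ℂ)) (γ : I3 × I3) : C(Tor 6, ℂ) :=
  tens ![u γ.1.1 γ.1.2.1 γ.1.2.2, fourier γ.1.1, fourier γ.1.2.1,
    u γ.2.1 γ.2.2.1 γ.2.2.2, fourier γ.2.1, fourier γ.2.2.1]

/-- (E1) -/
def S_TEN : Prop := ∀ (u : ℤ → ℤ → ℕ → C(UnitAddCircle, ℂ)) (E : ℤ → ℤ → ℕ → ℝ),
  (∀ m n, OneD m n (u m n) (E m n)) →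
    ∃ b : HilbertBasis (I3 × I3) ℂ (L2 6), ∀ γ, b γ = cls (psi u γ)

/-- (E2) -/
def S_EQ : Prop := ∀ (u : ℤ → ℤ → ℕ → C(UnitAddCircle, ℂ)) (E : ℤ → ℤ → ℕ → ℝ),
  (∀ m n, OneD m n (u m n) (E m n)) → ∀ γ, IsSmooth (psi u γ) ∧
    ∀ x, mlap (fun y => psi u γ (proj y)) x = (ev E γ.1 + ev E γ.2 : ℝ) * psi u γ (proj x)

/-- (F1) eigenfunctions with different eigenvalues are orthogonal -/
def S_SYM : Prop := ∀ (F G : C(Tor 6, ℂ)) (l l' : ℝ), IsSmooth F → IsSmooth G →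
  (∀ x, mlap (fun y => F (proj y)) x = l * F (proj x)) →
  (∀ x, mlap (fun y => G (proj y)) x = l' * G (proj x)) → l ≠ l' → inner ℂ (cls F) (cls G) = 0

/-- (F2) the means do not depend on the eigenbasis -/
def S_TRACE : Prop := ∀ (ι ι' : Type) (b : HilbertBasis ι ℂ (L2 6)) (b' : HilbertBasis ι' ℂ (L2 6))
  (lam : ι → ℝ) (lam' : ι' → ℝ), (∀ j j', lam j ≠ lam' j' → inner ℂ (b j) (b' j') = 0) →
  (∀ Λ : ℝ, {j | lam j ≤ Λ}.Finite) → (∀ Λ : ℝ, {j | lam' j ≤ Λ}.Finite) →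
  ∀ (A : L2 6 →L[ℂ] L2 6) (Λ : ℝ), mean b lam A Λ = mean b' lam' A Λ

/-! ### Symbols -/

/-- (I0) symbols are continuous functions on the cosphere bundle -/
def S_CONT : Prop := ∀ a : Symbol 6, Continuous fun p : Tor 6 × Sph 6 => a.f p.1 p.2

/-- elementary symbols `∏ g_i(x_i) · β(ξ)` -/
structure Elem where
  /-- functions of the coordinates -/
  g : Fin 6 → C(UnitAddCircle, ℝ)
  smooth : ∀ i, ContDiff ℝ ∞ fun x : ℝ => g i x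
  /-- function of the direction -/
  β : (Fin 6 → ℝ) → ℝ
  smoothβ : ContDiffOn ℝ ∞ β {ξ | ξ ≠ 0}
  homog : ∀ ξ (t : ℝ), 0 < t → β (t • ξ) = β ξ

/-- the value of an elementary symbol -/
noncomputable def Elem.val (e : Elem) (x : Tor 6) (ξ : Fin 6 → ℝ) : ℝ :=
  (∏ i, e.g i (x i)) * e.β ξ

/-- (I2) approximation by sums of elementary symbols -/
def S_SW : Prop := ∀ (a : Symbol 6) (ε : ℝ), 0 < ε → ∃ (N : ℕ) (e : Fin N → Elem),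
  ∀ x ξ, ξ ≠ 0 → |a.f x ξ - ∑ l, (e l).val x ξ| ≤ ε

/-- (I1) compact operators -/
def S_CPT : Prop := ∀ K : L2 6 →L[ℂ] L2 6, IsCompactOperator K →
  ∀ (ι : Type) (b : HilbertBasis ι ℂ (L2 6)) (ε : ℝ), 0 < ε →
    {j | ε ≤ ‖(inner ℂ (K (b j)) (b j) : ℂ)‖}.Finite

/-! ### Localization of the eigenfunctions -/

/-- the point near which `u m n i` is concentrated -/
noncomputable def xs (m n : ℤ) : UnitAddCircle := if 0 < m * n then ((1 / 2 : ℝ) : UnitAddCircle) else 0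

/-- (H1) -/
def S_LOC1 : Prop := ∀ (u : ℤ → ℤ → ℕ → C(UnitAddCircle, ℂ)) (E : ℤ → ℤ → ℕ → ℝ),
  (∀ m n, OneD m n (u m n) (E m n)) →
  (∀ δ : ℝ, 0 < δ → ∃ K : ℝ, 0 < K ∧ ∀ Λ : ℝ, 1 ≤ Λ → ∀ m n i, E m n i ≤ Λ →
    K * Λ ≤ |(n : ℝ)| → |(|(m : ℝ)| - |(n : ℝ)|)| ≤ δ * |(n : ℝ)|) ∧
  (∀ (g : C(UnitAddCircle, ℝ)) (η : ℝ), 0 < η → ∃ K : ℝ, 0 < K ∧ ∀ Λ : ℝ, 1 ≤ Λ → ∀ m n i,
    E m n i ≤ Λ → K * Λ ≤ |(n : ℝ)| → |(∫ t, g t * ‖u m n i t‖ ^ 2 ∂hm) - g (xs m n)| ≤ η) ∧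
  (∀ δ η : ℝ, 0 < δ → 0 < η → ∃ K : ℝ, 0 < K ∧ ∀ Λ : ℝ, 1 ≤ Λ → ∀ m n i, E m n i ≤ Λ →
    K * Λ ≤ |(n : ℝ)| → ∀ s : Finset ℤ, (∀ k ∈ s, δ * |(n : ℝ)| ≤ |(k : ℝ)|) →
      ∑ k ∈ s, ‖fourierCoeff (u m n i) k‖ ^ 2 ≤ η)

/-- (H2a) matrix elements of quantized products -/
def S_OPEST : Prop := ∀ (A : L2 6 →L[ℂ] L2 6) (f : C(Tor 6, ℝ)) (Bf : ℝ) (c : (Fin 6 → ℤ) → ℝ)
  (B c0 : ℝ) (ψ : C(Tor 6, ℂ)) (ρ : ℝ), (∀ x, |f x| ≤ Bf) → (∀ κ, |c κ| ≤ B) → 0 ≤ ρ →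
  (∀ κ, inner ℂ (mono κ) (cls ψ) ≠ (0 : ℂ) →
    (A (mono κ) : L2 6) =ᵐ[vol 6] fun x => ((f x * c κ : ℝ) : ℂ) * UnitAddTorus.mFourier κ x) →
  (∀ s : Finset (Fin 6 → ℤ),
    ∑ κ ∈ s, (c κ - c0) ^ 2 * ‖(inner ℂ (mono κ) (cls ψ) : ℂ)‖ ^ 2 ≤ ρ ^ 2) →
  ‖(inner ℂ (A (cls ψ)) (cls ψ) : ℂ) - ((c0 * ∫ x, f x * ‖ψ x‖ ^ 2 ∂vol 6 : ℝ) : ℂ)‖ ≤
    Bf * ρ * ‖cls ψ‖

/-! ### Labels -/

/-- signs of `m₁, n₁, m₂, n₂` (`true` = positive) and `|n₂| < |n₁|` -/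
abbrev Lab : Type := Bool × Bool × Bool × Bool × Bool

/-- the pair `γ` has the label `l` -/
def HasLab (γ : I3 × I3) (l : Lab) : Prop :=
  γ.1.1 ≠ 0 ∧ γ.1.2.1 ≠ 0 ∧ γ.2.1 ≠ 0 ∧ γ.2.2.1 ≠ 0 ∧ |γ.1.2.1| ≠ |γ.2.2.1| ∧
  (0 < γ.1.1 ↔ l.1 = true) ∧ (0 < γ.1.2.1 ↔ l.2.1 = true) ∧ (0 < γ.2.1 ↔ l.2.2.1 = true) ∧
  (0 < γ.2.2.1 ↔ l.2.2.2.1 = true) ∧ (|γ.2.2.1| < |γ.1.2.1| ↔ l.2.2.2.2 = true)

/-- (M2) all labels are equally frequent -/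
def S_LAB : Prop := ∀ (u : ℤ → ℤ → ℕ → C(UnitAddCircle, ℂ)) (E : ℤ → ℤ → ℕ → ℝ), Fam u E →
  ∀ (Λ : ℝ) (l l' : Lab), (lev E Λ ∩ {γ | HasLab γ l}).ncard = (lev E Λ ∩ {γ | HasLab γ l'}).ncard

/-- sign of a `Bool` -/
def sg (b : Bool) : ℝ := if b then 1 else -1

/-- position in one factor -/
noncomputable def pos (a b : Bool) : UnitAddCircle :=
  if a = b then ((1 / 2 : ℝ) : UnitAddCircle) else 0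

/-- direction with a given label -/
def dir (l : Lab) : Fin 6 → ℝ :=
  if l.2.2.2.2 then ![0, sg l.1, sg l.2.1, 0, 0, 0] else ![0, 0, 0, 0, sg l.2.2.1, sg l.2.2.2.1]

/-- the value of an elementary symbol at a label -/
noncomputable def Elem.at (e : Elem) (l : Lab) : ℝ :=
  e.g 0 (pos l.1 l.2.1) * (∫ t, e.g 1 t ∂hm) * (∫ t, e.g 2 t ∂hm) *
    e.g 3 (pos l.2.2.1 l.2.2.2.1) * (∫ t, e.g 4 t ∂hm) * (∫ t, e.g 5 t ∂hm) * e.β (dir l)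

/-- (M) averaging -/
def S_AVG : Prop := ∀ (I : Type) (lv : ℝ → Set I) (L : Type) [Fintype L] (lab : I → L → Prop)
  (x : I → ℂ) (B : ℝ) (v : L → ℂ), Nonempty L → (∀ Λ, (lv Λ).Finite) →
  Tendsto (fun Λ => ((lv Λ).ncard : ℝ)) atTop atTop → (∀ i l l', lab i l → lab i l' → l = l') →
  (∀ Λ l l', (lv Λ ∩ {i | lab i l}).ncard = (lv Λ ∩ {i | lab i l'}).ncard) →
  (∀ i, ‖x i‖ ≤ B) →
  (∀ η : ℝ, 0 < η → Tendsto (fun Λ =>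
    ((lv Λ ∩ {i | ¬ ∃ l, lab i l ∧ ‖x i - v l‖ ≤ η}).ncard : ℝ) / ((lv Λ).ncard : ℝ)) atTop
      (𝓝 0)) →
  Tendsto (fun Λ => (∑ᶠ (i) (_ : i ∈ lv Λ), x i) / ((lv Λ).ncard : ℂ)) atTop
    (𝓝 ((∑ l, v l) / (Fintype.card L : ℂ)))

/-- (K) the Weyl measure of the model -/
def S_W : Prop := ∃ W : Measure (Tor 6 × Sph 6), IsProbabilityMeasure W ∧
  (∀ e : Elem, ∫ p, e.val p.1 p.2 ∂W = (∑ l : Lab, e.at l) / 32) ∧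
  ∀ p : Tor 6 × Sph 6, p.1 3 ≠ 0 → p.1 3 ≠ ((1 / 2 : ℝ) : UnitAddCircle) → p ∉ W.support

/-- (H2) the matrix elements of a quantized elementary symbol for good pairs -/
def S_MAT : Prop := ∀ (u : ℤ → ℤ → ℕ → C(UnitAddCircle, ℂ)) (E : ℤ → ℤ → ℕ → ℝ),
  (∀ m n, OneD m n (u m n) (E m n)) → ∀ (e : Elem) (A : L2 6 →L[ℂ] L2 6),
  (∀ κ : Fin 6 → ℤ, κ ≠ 0 → (A (mono κ) : L2 6) =ᵐ[vol 6]
      fun x => (e.val x (fun i => (κ i : ℝ)) : ℂ) * UnitAddTorus.mFourier κ x) →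
  ∀ η : ℝ, 0 < η → ∃ K ε : ℝ, 0 < K ∧ 0 < ε ∧ ∀ Λ : ℝ, 1 ≤ Λ → ∀ γ : I3 × I3, γ ∈ lev E Λ →
    Good K ε Λ γ → ∃ l, HasLab γ l ∧
      ‖(inner ℂ (A (cls (psi u γ))) (cls (psi u γ)) : ℂ) - (e.at l : ℂ)‖ ≤ η

end Pool.Agent.H223.SR
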