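import Pool.Agent.H223.SR.Stm

/-!
# Existence of a positive quantization on the torus: statements

`Op a = Σ_κ T_κ M_{a(·, κ)} T_κ` (sum over `κ ≠ 0`), where `T_κ` is the Fourier multiplier with the
finitely supported multiplier `p ↦ G κ p`.
-/

set_option autoImplicit false

open MeasureTheory Set Filter Topology
open scoped ContDiff Real ComplexConjugate

namespace Pool.Agent.H223.SR

/-- indices of the monomials -/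
abbrev Z6 : Type := Fin 6 → ℤ

/-- the real vector of an index -/
def rv (κ : Z6) : Fin 6 → ℝ := fun i => (κ i : ℝ)

/-- Fourier coefficients in `x` of the symbol `a` for fixed `ξ` -/
noncomputable def fc (a : Symbol 6) (ξ : Fin 6 → ℝ) (m : Z6) : ℂ :=
  UnitAddTorus.mFourierCoeff (fun x => (a.f x ξ : ℂ)) m

/-- (Q1) decay of the Fourier coefficients -/
def S_DECAY : Prop := ∀ a : Symbol 6, ∃ C : ℝ, 0 ≤ C ∧ ∀ (ξ : Fin 6 → ℝ) (m : Z6), ξ ≠ 0 →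
  ‖fc a ξ m‖ ≤ C * ∏ i, (1 + (m i : ℝ) ^ 2)⁻¹

/-- (Q2) uniform continuity in the direction -/
def S_NEARBY : Prop := ∀ (a : Symbol 6) (η : ℝ), 0 < η → ∃ ε : ℝ, 0 < ε ∧ ∀ ξ ξ' : Fin 6 → ℝ,
  ξ ≠ 0 → ξ' ≠ 0 → ‖ξ - ξ'‖ ≤ ε * ‖ξ'‖ → ∀ x, |a.f x ξ - a.f x ξ'| ≤ η

/-- weights of a family of multipliers -/
structure IsWeight (G : Z6 → Z6 → ℝ) : Prop where
  nonneg : ∀ κ p, 0 ≤ G κ p
  fin : ∀ p, {κ | G κ p ≠ 0}.Finite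
  one : ∀ p, ∑ᶠ κ, G κ p ^ 2 = 1
  shift : ∀ m, Tendsto (fun p => ∑ᶠ κ, G κ p * G κ (p + m)) cofinite (𝓝 1)
  near : ∀ ε : ℝ, 0 < ε → ∀ᶠ p in cofinite, ∀ κ, G κ p ≠ 0 → ‖rv κ - rv p‖ ≤ ε * ‖rv p‖

/-- (Q3) existence of weights: `G κ p = (2 L + 1) ^ (-3)` for `|κ - p|_∞ ≤ L = ⌊√|p|_∞⌋`, otherwise
`0` -/
def S_WEIGHT : Prop := ∃ G, IsWeight G

/-- (Q4) weighted shifts -/
def S_SHIFT : Prop := ∀ (m : Z6) (w : Z6 → ℂ) (C : ℝ), 0 ≤ C → (∀ p, ‖w p‖ ≤ C) →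
  ∃ T : L2 6 →L[ℂ] L2 6, (∀ p, T (mono p) = w p • mono (p + m)) ∧ ‖T‖ ≤ C ∧
    (Tendsto w cofinite (𝓝 0) → IsCompactOperator T)

/-- the coefficient `⟨Op a e_p, e_{p+m}⟩` -/
noncomputable def wp (G : Z6 → Z6 → ℝ) (a : Symbol 6) (m p : Z6) : ℂ :=
  ∑ᶠ κ, ((G κ p * G κ (p + m) : ℝ) : ℂ) * (if κ = 0 then 0 else fc a (rv κ) m)

/-- (Q5) symmetry and positivity -/
def S_POSF : Prop := ∀ G, IsWeight G → ∀ a : Symbol 6,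
  (∀ p q, wp G a (p - q) q = conj (wp G a (q - p) p)) ∧
  ((∀ x ξ, ξ ≠ 0 → 0 ≤ a.f x ξ) → ∀ (s : Finset Z6) (c : Z6 → ℂ),
    0 ≤ (∑ p ∈ s, ∑ q ∈ s, c p * conj (c q) * wp G a (q - p) p).re)

/-- (Q6) bound and limit of the coefficients -/
def S_LIM : Prop := ∀ G, IsWeight G → ∀ (a : Symbol 6) (m : Z6),
  (∀ C : ℝ, 0 ≤ C → (∀ ξ, ξ ≠ 0 → ‖fc a ξ m‖ ≤ C) → ∀ p, ‖wp G a m p‖ ≤ C) ∧
  Tendsto (fun p => wp G a m p - (if p = 0 then 0 else fc a (rv p) m)) cofinite (𝓝 0)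

/-- (Q7) there is a positive quantization -/
def S_QUANT : Prop := ∃ Op : Symbol 6 → (L2 6 →L[ℂ] L2 6), IsPosQuant Op

end Pool.Agent.H223.SR
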