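import Pool.Agent.H223.SR.Stm2

set_option autoImplicit false

open MeasureTheory Set Filter Topology
open scoped ContDiff Real ComplexConjugate

namespace Pool.Agent.H223.SR

namespace DEC

/-- the shift by `t` in the coordinate `i` -/
noncomputable def sh (i : Fin 6) (t : ℝ) : Tor 6 := proj (Pi.single i t)

theorem sh_add (i : Fin 6) (s t : ℝ) : sh i (s + t) = sh i s + sh i t := by
  funext j
  change ((Pi.single i (s + t) : Fin 6 → ℝ) j : UnitAddCircle) =
    ((Pi.single i s : Fin 6 → ℝ) j : UnitAddCircle) + ((Pi.single i t : Fin 6 → ℝ) j : UnitAddCircle)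
  rw [Pi.single_add, Pi.add_apply, AddCircle.coe_add]

theorem sh_zero (i : Fin 6) : sh i 0 = 0 := by
  funext j
  change ((Pi.single i (0 : ℝ) : Fin 6 → ℝ) j : UnitAddCircle) = 0
  rw [Pi.single_zero, Pi.zero_apply, AddCircle.coe_zero]

theorem proj_shift (x : Fin 6 → ℝ) (i : Fin 6) (t : ℝ) :
    proj x + sh i t = proj (x + Pi.single i t) := by
  funext j
  change (x j : UnitAddCircle) + ((Pi.single i t : Fin 6 → ℝ) j : UnitAddCircle) =
    ((x + Pi.single i t : Fin 6 → ℝ) j : UnitAddCircle)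
  rw [Pi.add_apply, AddCircle.coe_add]

theorem proj_surj (x : Tor 6) : ∃ y : Fin 6 → ℝ, proj y = x := by
  choose y hy using fun i => QuotientAddGroup.mk_surjective (x i)
  exact ⟨y, funext hy⟩

/-- the lifted function -/
def FF (a : Symbol 6) (p : (Fin 6 → ℝ) × (Fin 6 → ℝ)) : ℝ := a.f (proj p.1) p.2

theorem isOpen_U : IsOpen {p : (Fin 6 → ℝ) × (Fin 6 → ℝ) | p.2 ≠ 0} :=
  isOpen_ne_fun continuous_snd continuous_const

theorem FF_diff (a : Symbol 6) {p : (Fin 6 → ℝ) × (Fin 6 → ℝ)} (hp : p.2 ≠ 0) :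
    DifferentiableAt ℝ (FF a) p :=
  (a.smooth.contDiffAt (isOpen_U.mem_nhds hp)).differentiableAt (by norm_num)

/-- the direction of the coordinate `i` -/
def vv (i : Fin 6) : (Fin 6 → ℝ) × (Fin 6 → ℝ) := (Pi.single i 1, 0)

theorem line_eq (a : Symbol 6) (i : Fin 6) (x ξ : Fin 6 → ℝ) (t : ℝ) :
    a.f (proj x + sh i t) ξ = FF a ((x, ξ) + t • vv i) := by
  rw [proj_shift]
  unfold FF vv
  have h1 : (((x, ξ) + t • ((Pi.single i 1, 0) : (Fin 6 → ℝ) × (Fin 6 → ℝ))).1 : Fin 6 → ℝ) =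
      x + Pi.single i t := by
    change x + t • (Pi.single i (1 : ℝ) : Fin 6 → ℝ) = x + Pi.single i t
    rw [← Pi.single_smul, smul_eq_mul, mul_one]
  have h2 : (((x, ξ) + t • ((Pi.single i 1, 0) : (Fin 6 → ℝ) × (Fin 6 → ℝ))).2 : Fin 6 → ℝ) =
      ξ := by
    change ξ + t • (0 : Fin 6 → ℝ) = ξ
    rw [smul_zero, add_zero]
  rw [h1, h2]

theorem hasDeriv_lift (a : Symbol 6) (i : Fin 6) (x ξ : Fin 6 → ℝ) (hξ : ξ ≠ 0) :
    HasDerivAt (fun t : ℝ => a.f (proj x + sh i t) ξ) (fderiv ℝ (FF a) (x, ξ) (vv i)) 0 := by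
  have h1 : (fun t : ℝ => a.f (proj x + sh i t) ξ) = fun t : ℝ => FF a ((x, ξ) + t • vv i) := by
    funext t
    exact line_eq a i x ξ t
  rw [h1]
  have h2 : HasFDerivAt (FF a) (fderiv ℝ (FF a) (x, ξ)) ((x, ξ) + (0 : ℝ) • vv i) := by
    rw [zero_smul, add_zero]
    exact (FF_diff a (p := (x, ξ)) hξ).hasFDerivAt
  have h3 : HasDerivAt (fun t : ℝ => (x, ξ) + t • vv i) (vv i) 0 := by
    have := ((hasDerivAt_id (0 : ℝ)).smul_const (vv i)).const_add ((x, ξ) : (Fin 6 → ℝ) × (Fin 6 → ℝ))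
    simpa using this
  exact h2.comp_hasDerivAt 0 h3

/-- the derivative of a symbol -/
noncomputable def ds (i : Fin 6) (a : Symbol 6) : Symbol 6 where
  f x ξ := deriv (fun t : ℝ => a.f (x + sh i t) ξ) 0
  smooth := by
    have h1 : ContDiffOn ℝ ∞ (fun p => fderiv ℝ (FF a) p (vv i))
        {p : (Fin 6 → ℝ) × (Fin 6 → ℝ) | p.2 ≠ 0} :=
      (a.smooth.fderiv_of_isOpen isOpen_U (by norm_num)).clm_apply contDiffOn_const
    refine h1.congr fun p hp => ?_
    exact (hasDeriv_lift a i p.1 p.2 hp).deriv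
  homog x ξ t ht := by
    congr 1
    funext s
    exact a.homog _ _ t ht

theorem hasDeriv_ds (a : Symbol 6) (i : Fin 6) (x : Tor 6) (ξ : Fin 6 → ℝ) (hξ : ξ ≠ 0) (t : ℝ) :
    HasDerivAt (fun t : ℝ => a.f (x + sh i t) ξ) ((ds i a).f (x + sh i t) ξ) t := by
  obtain ⟨y, hy⟩ := proj_surj (x + sh i t)
  have h1 := hasDeriv_lift a i y ξ hξ
  have h2 : (ds i a).f (x + sh i t) ξ = fderiv ℝ (FF a) (y, ξ) (vv i) := by
    rw [← hy]
    exact h1.deriv
  rw [h2]
  have h3 : HasDerivAt (fun s : ℝ => s - t) 1 t := (hasDerivAt_id t).sub_const t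
  have h4 : HasDerivAt (fun t : ℝ => a.f (proj y + sh i t) ξ)
      (fderiv ℝ (FF a) (y, ξ) (vv i)) (t - t) := by
    rw [sub_self]
    exact h1
  have h5 := HasDerivAt.comp (h := fun s : ℝ => s - t) t h4 h3
  rw [mul_one] at h5
  have h6 : (fun t : ℝ => a.f (x + sh i t) ξ) =
      (fun s : ℝ => a.f (proj y + sh i s) ξ) ∘ fun s => s - t := by
    funext s
    change _ = a.f (proj y + sh i (s - t)) ξ
    rw [hy, add_assoc, ← sh_add, add_sub_cancel]
  rw [h6]
  exact h5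

/-- symbols are bounded -/
theorem bdd (hC : S_CONT) (a : Symbol 6) : ∃ C : ℝ, 0 ≤ C ∧ ∀ x ξ, ξ ≠ 0 → |a.f x ξ| ≤ C := by
  have h := hC a
  obtain ⟨C, hC'⟩ := (isCompact_univ (X := Tor 6 × Sph 6)).exists_bound_of_continuousOn
    h.continuousOn
  refine ⟨max C 0, le_max_right _ _, fun x ξ hξ => ?_⟩
  have hn : 0 < ‖ξ‖ := norm_pos_iff.2 hξ
  have hs : ‖ξ‖⁻¹ • ξ ∈ Metric.sphere (0 : Fin 6 → ℝ) 1 := by
    rw [mem_sphere_zero_iff_norm, norm_smul, norm_inv, norm_norm, inv_mul_cancel₀ hn.ne']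
  have h1 := hC' (x, ⟨‖ξ‖⁻¹ • ξ, hs⟩) (mem_univ _)
  have h2 : a.f x (‖ξ‖⁻¹ • ξ) = a.f x ξ := a.homog x ξ _ (inv_pos.2 hn)
  change ‖a.f x (‖ξ‖⁻¹ • ξ)‖ ≤ C at h1
  rw [h2, Real.norm_eq_abs] at h1
  exact h1.trans (le_max_left _ _)

/-- symbols are continuous functions of the position -/
theorem cont (a : Symbol 6) (hC : S_CONT) (ξ : Fin 6 → ℝ) (hξ : ξ ≠ 0) :
    Continuous fun x : Tor 6 => a.f x ξ := by
  have hn : 0 < ‖ξ‖ := norm_pos_iff.2 hξ
  have hs : ‖ξ‖⁻¹ • ξ ∈ Metric.sphere (0 : Fin 6 → ℝ) 1 := by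
    rw [mem_sphere_zero_iff_norm, norm_smul, norm_inv, norm_norm, inv_mul_cancel₀ hn.ne']
  have h1 : Continuous fun x : Tor 6 => a.f x (‖ξ‖⁻¹ • ξ) :=
    (hC a).comp (Continuous.prodMk_left (⟨‖ξ‖⁻¹ • ξ, hs⟩ : Sph 6))
  have h2 : (fun x : Tor 6 => a.f x (‖ξ‖⁻¹ • ξ)) = fun x => a.f x ξ := by
    funext x
    exact a.homog x ξ _ (inv_pos.2 hn)
  rwa [h2] at h1

theorem fc_eq (a : Symbol 6) (ξ : Fin 6 → ℝ) (m : Z6) :
    fc a ξ m = ∫ x, UnitAddTorus.mFourier (-m) x * (a.f x ξ : ℂ) ∂vol 6 := rfl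

theorem mF_sh (m : Z6) (x : Tor 6) (i : Fin 6) (t : ℝ) :
    UnitAddTorus.mFourier (-m) (x + sh i t) =
      UnitAddTorus.mFourier (-m) x * Complex.exp (-(2 * π * Complex.I * m i * t)) := by
  change ∏ j, fourier ((-m) j) ((x + sh i t) j) = (∏ j, fourier ((-m) j) (x j)) * _
  have h1 : ∀ j, fourier ((-m) j) ((x + sh i t) j) = fourier ((-m) j) (x j) *
      (if j = i then Complex.exp (-(2 * π * Complex.I * m i * t)) else 1) := by
    intro j
    rw [Pi.add_apply]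
    have h2 : fourier ((-m) j) (x j + sh i t j) = fourier ((-m) j) (x j) *
        fourier ((-m) j) (sh i t j) := by
      rw [fourier_apply, fourier_apply, fourier_apply, smul_add, AddCircle.toCircle_add,
        Circle.coe_mul]
    rw [h2]
    congr 1
    by_cases hj : j = i
    · subst hj
      rw [if_pos rfl]
      change fourier ((-m) j) (((Pi.single j t : Fin 6 → ℝ) j : ℝ) : UnitAddCircle) = _
      rw [Pi.single_eq_same, fourier_coe_apply]
      congr 1
      simp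
    · rw [if_neg hj]
      change fourier ((-m) j) (((Pi.single i t : Fin 6 → ℝ) j : ℝ) : UnitAddCircle) = _
      rw [Pi.single_eq_of_ne hj, AddCircle.coe_zero, fourier_eval_zero]
  rw [Finset.prod_congr rfl fun j _ => h1 j, Finset.prod_mul_distrib]
  congr 1
  rw [Finset.prod_ite_eq' Finset.univ i, if_pos (Finset.mem_univ i)]

/-- translation of the Fourier coefficients -/
theorem fc_shift (a : Symbol 6) (ξ : Fin 6 → ℝ) (m : Z6) (i : Fin 6) (t : ℝ) :
    ∫ x, UnitAddTorus.mFourier (-m) x * (a.f (x + sh i t) ξ : ℂ) ∂vol 6 =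
      Complex.exp (2 * π * Complex.I * m i * t) * fc a ξ m := by
  have h1 := integral_add_right_eq_self (μ := vol 6)
    (fun x => UnitAddTorus.mFourier (-m) x * (a.f x ξ : ℂ)) (sh i t)
  rw [fc_eq, ← h1, ← integral_const_mul]
  refine integral_congr_ae (Eventually.of_forall fun x => ?_)
  change _ = Complex.exp (2 * π * Complex.I * m i * t) *
    (UnitAddTorus.mFourier (-m) (x + sh i t) * (a.f (x + sh i t) ξ : ℂ))
  rw [mF_sh]
  have h2 : Complex.exp (2 * π * Complex.I * m i * t) *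
      Complex.exp (-(2 * π * Complex.I * m i * t)) = 1 := by
    rw [← Complex.exp_add, add_neg_cancel, Complex.exp_zero]
  calc UnitAddTorus.mFourier (-m) x * (a.f (x + sh i t) ξ : ℂ)
      = (Complex.exp (2 * π * Complex.I * m i * t) *
        Complex.exp (-(2 * π * Complex.I * m i * t))) *
        (UnitAddTorus.mFourier (-m) x * (a.f (x + sh i t) ξ : ℂ)) := by rw [h2, one_mul]
    _ = _ := by ring

/-- Fourier coefficients of the derivative -/
theorem fc_ds (hC : S_CONT) (a : Symbol 6) (ξ : Fin 6 → ℝ) (hξ : ξ ≠ 0) (m : Z6) (i : Fin 6) :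
    fc (ds i a) ξ m = (2 * π * Complex.I * m i) * fc a ξ m := by
  obtain ⟨C, hC0, hCb⟩ := bdd hC (ds i a)
  have hc := cont a hC ξ hξ
  have hc' := cont (ds i a) hC ξ hξ
  have hm : Continuous fun x : Tor 6 => UnitAddTorus.mFourier (-m) x :=
    (UnitAddTorus.mFourier (-m)).continuous
  have hmn : ∀ x : Tor 6, ‖UnitAddTorus.mFourier (-m) x‖ ≤ 1 := fun x => by
    exact ((UnitAddTorus.mFourier (-m)).norm_coe_le_norm x).trans_eq UnitAddTorus.mFourier_norm
  have hF : ∀ t : ℝ, Continuous fun x : Tor 6 =>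
      UnitAddTorus.mFourier (-m) x * (a.f (x + sh i t) ξ : ℂ) := fun t =>
    hm.mul (Complex.continuous_ofReal.comp (hc.comp (continuous_add_const _)))
  have hF' : Continuous fun x : Tor 6 =>
      UnitAddTorus.mFourier (-m) x * ((ds i a).f (x + sh i 0) ξ : ℂ) :=
    hm.mul (Complex.continuous_ofReal.comp (hc'.comp (continuous_add_const _)))
  have hint : ∀ {F : Tor 6 → ℂ}, Continuous F → Integrable F (vol 6) := fun {F} hF =>
    hF.integrable_of_hasCompactSupport (HasCompactSupport.of_compactSpace F)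
  have h1 := (hasDerivAt_integral_of_dominated_loc_of_deriv_le (μ := vol 6) (x₀ := (0 : ℝ))
    (s := univ) (bound := fun _ => C)
    (F := fun t x => UnitAddTorus.mFourier (-m) x * (a.f (x + sh i t) ξ : ℂ))
    (F' := fun t x => UnitAddTorus.mFourier (-m) x * ((ds i a).f (x + sh i t) ξ : ℂ))
    univ_mem (Eventually.of_forall fun t => (hF t).aestronglyMeasurable) (hint (hF 0))
    hF'.aestronglyMeasurable
    (Eventually.of_forall fun x t _ => by
      rw [norm_mul, Complex.norm_real, Real.norm_eq_abs]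
      calc _ ≤ 1 * C := mul_le_mul (hmn x) (hCb _ _ hξ) (abs_nonneg _) zero_le_one
        _ = C := one_mul C)
    (integrable_const C)
    (Eventually.of_forall fun x t _ =>
      ((hasDeriv_ds a i x ξ hξ t).ofReal_comp).const_mul _)).2
  have h2 : (fun t : ℝ => ∫ x, UnitAddTorus.mFourier (-m) x * (a.f (x + sh i t) ξ : ℂ) ∂vol 6) =
      fun t : ℝ => Complex.exp (2 * π * Complex.I * m i * t) * fc a ξ m := by
    funext t
    exact fc_shift a ξ m i t
  have h3 : ∫ x, UnitAddTorus.mFourier (-m) x * ((ds i a).f (x + sh i 0) ξ : ℂ) ∂vol 6 =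
      fc (ds i a) ξ m := by
    rw [sh_zero, fc_eq]
    simp only [add_zero]
  rw [h2, h3] at h1
  have h4 : HasDerivAt (fun t : ℝ => Complex.exp (2 * π * Complex.I * m i * t) * fc a ξ m)
      ((2 * π * Complex.I * m i) * fc a ξ m) 0 := by
    have h5 : HasDerivAt (fun t : ℝ => (2 * π * Complex.I * m i * t : ℂ))
        (2 * π * Complex.I * m i) 0 := by
      have h6 := (Complex.ofRealCLM.hasDerivAt (x := (0 : ℝ))).const_mul (2 * π * Complex.I * m i)
      simpa using h6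
    have h7 := (h5.cexp).mul_const (fc a ξ m)
    simpa using h7
  exact h1.unique h4

/-- `(1 - ∂_i ^ 2) a` -/
noncomputable def op (i : Fin 6) (a : Symbol 6) : Symbol 6 where
  f x ξ := a.f x ξ - (ds i (ds i a)).f x ξ
  smooth := a.smooth.sub (ds i (ds i a)).smooth
  homog x ξ t ht := by rw [a.homog x ξ t ht, (ds i (ds i a)).homog x ξ t ht]

theorem fc_op (hC : S_CONT) (a : Symbol 6) (ξ : Fin 6 → ℝ) (hξ : ξ ≠ 0) (m : Z6) (i : Fin 6) :
    fc (op i a) ξ m = ((1 + (2 * π * m i) ^ 2 : ℝ) : ℂ) * fc a ξ m := by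
  have hint : ∀ b : Symbol 6, Integrable
      (fun x : Tor 6 => UnitAddTorus.mFourier (-m) x * (b.f x ξ : ℂ)) (vol 6) := fun b => by
    have hF : Continuous fun x : Tor 6 => UnitAddTorus.mFourier (-m) x * (b.f x ξ : ℂ) :=
      (UnitAddTorus.mFourier (-m)).continuous.mul
        (Complex.continuous_ofReal.comp (cont b hC ξ hξ))
    exact hF.integrable_of_hasCompactSupport (HasCompactSupport.of_compactSpace _)
  have h1 : fc (op i a) ξ m = fc a ξ m - fc (ds i (ds i a)) ξ m := by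
    rw [fc_eq, fc_eq, fc_eq, ← integral_sub (hint a) (hint _)]
    refine integral_congr_ae (Eventually.of_forall fun x => ?_)
    change UnitAddTorus.mFourier (-m) x * ((a.f x ξ - (ds i (ds i a)).f x ξ : ℝ) : ℂ) = _
    push_cast
    ring
  rw [h1, fc_ds hC _ ξ hξ, fc_ds hC _ ξ hξ]
  push_cast
  have h2 : Complex.I * Complex.I = -1 := Complex.I_mul_I
  linear_combination (-(2 * π * (m i : ℂ)) ^ 2 * fc a ξ m) * h2

theorem fc_foldr (hC : S_CONT) (m : Z6) (a : Symbol 6) (ξ : Fin 6 → ℝ) (hξ : ξ ≠ 0)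
    (l : List (Fin 6)) : fc (l.foldr op a) ξ m =
      (((l.map fun i => (1 + (2 * π * m i) ^ 2 : ℝ)).prod : ℝ) : ℂ) * fc a ξ m := by
  induction l with
  | nil => simp
  | cons i l ih =>
    rw [List.foldr_cons, fc_op hC _ ξ hξ, ih, List.map_cons, List.prod_cons]
    push_cast
    ring

theorem fc_bd (hC : S_CONT) (a : Symbol 6) : ∃ C : ℝ, 0 ≤ C ∧ ∀ (ξ : Fin 6 → ℝ) (m : Z6), ξ ≠ 0 →
    ‖fc a ξ m‖ ≤ C := by
  obtain ⟨C, hC0, hCb⟩ := bdd hC a
  refine ⟨C, hC0, fun ξ m hξ => ?_⟩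
  have hmn : ∀ x : Tor 6, ‖UnitAddTorus.mFourier (-m) x‖ ≤ 1 := fun x =>
    ((UnitAddTorus.mFourier (-m)).norm_coe_le_norm x).trans_eq UnitAddTorus.mFourier_norm
  rw [fc_eq]
  have h1 : ∀ᵐ x ∂vol 6, ‖UnitAddTorus.mFourier (-m) x * (a.f x ξ : ℂ)‖ ≤ C :=
    Eventually.of_forall fun x => by
      rw [norm_mul, Complex.norm_real, Real.norm_eq_abs]
      calc _ ≤ 1 * C := mul_le_mul (hmn x) (hCb _ _ hξ) (abs_nonneg _) zero_le_one
        _ = C := one_mul C
  have h2 := norm_integral_le_of_norm_le_const h1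
  simpa using h2

end DEC

open DEC in
theorem t_DECAY : S_CONT → S_DECAY := by
  intro hC a
  obtain ⟨C, hC0, hCb⟩ := fc_bd hC ((List.finRange 6).foldr op a)
  refine ⟨C, hC0, fun ξ m hξ => ?_⟩
  have h1 := fc_foldr hC m a ξ hξ (List.finRange 6)
  have h2 := hCb ξ m hξ
  have h3 : ((List.finRange 6).map fun i => (1 + (2 * π * m i) ^ 2 : ℝ)).prod =
      ∏ i, (1 + (2 * π * m i) ^ 2 : ℝ) := by
    rw [← List.prod_ofFn, List.ofFn_eq_map]
  have hpos : ∀ i, 0 < (1 + (2 * π * m i) ^ 2 : ℝ) := fun i => by positivity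
  have hpos' : 0 < ∏ i, (1 + (2 * π * m i) ^ 2 : ℝ) := Finset.prod_pos fun i _ => hpos i
  rw [h1, h3, norm_mul, Complex.norm_real, Real.norm_eq_abs, abs_of_pos hpos'] at h2
  have h4 : ‖fc a ξ m‖ ≤ C * ∏ i, (1 + (2 * π * m i) ^ 2 : ℝ)⁻¹ := by
    rw [Finset.prod_inv_distrib, ← div_eq_mul_inv, le_div_iff₀ hpos', mul_comm]
    exact h2
  refine h4.trans (mul_le_mul_of_nonneg_left ?_ hC0)
  refine Finset.prod_le_prod (fun i _ => (inv_pos.2 (hpos i)).le) fun i _ => ?_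
  refine inv_anti₀ (by positivity) ?_
  have h5 : (m i : ℝ) ^ 2 ≤ (2 * π * m i) ^ 2 := by
    rw [mul_pow]
    have h6 : (1 : ℝ) ≤ (2 * π) ^ 2 := by
      have := Real.pi_gt_three
      nlinarith
    nlinarith [sq_nonneg (m i : ℝ)]
  linarith

end Pool.Agent.H223.SR
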