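import Pool.Agent.H223.SR.Stm

set_option autoImplicit false

open MeasureTheory Set Filter Topology
open scoped ContDiff Real ComplexConjugate

namespace Pool.Agent.H223.SR

namespace Geo

/-- unit vectors -/
noncomputable def e (i : Fin 6) : Fin 6 → ℝ := Pi.single i 1

/-- a field depending on one coordinate -/
noncomputable def fld (c w : Fin 6 → ℝ) (k : Fin 6) (f : ℝ → ℝ) (q : Fin 6 → ℝ) : Fin 6 → ℝ :=
  c + f (q k) • w

theorem fld_hasFDerivAt (c w : Fin 6 → ℝ) (k : Fin 6) (f : ℝ → ℝ) (f' : ℝ) (q : Fin 6 → ℝ)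
    (h : HasDerivAt f f' (q k)) :
    HasFDerivAt (fld c w k f)
      ((f' • (ContinuousLinearMap.proj (R := ℝ) (φ := fun _ : Fin 6 => ℝ) k)).smulRight w) q := by
  have h1 : HasFDerivAt (fun q : Fin 6 → ℝ => q k)
      (ContinuousLinearMap.proj (R := ℝ) (φ := fun _ : Fin 6 => ℝ) k) q :=
    (ContinuousLinearMap.proj (R := ℝ) (φ := fun _ : Fin 6 => ℝ) k).hasFDerivAt
  have h2 := h.comp_hasFDerivAt q h1
  exact (h2.smul_const w).const_add c

theorem fld_fderiv (c w : Fin 6 → ℝ) (k : Fin 6) (f : ℝ → ℝ) (f' : ℝ) (q : Fin 6 → ℝ)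
    (h : HasDerivAt f f' (q k)) (v : Fin 6 → ℝ) :
    fderiv ℝ (fld c w k f) q v = (f' * v k) • w := by
  rw [(fld_hasFDerivAt c w k f f' q h).fderiv]
  simp

theorem MX0 : MX 0 = fld (e 0) 0 0 (fun _ => 0) := by
  funext q j
  fin_cases j <;> simp [MX, fld, e]

theorem MX1 : MX 1 = fld (e 1) (e 2) 0 (fun t => Real.cos (2 * π * t)) := by
  funext q j
  fin_cases j <;> simp [MX, fld, e, Pi.single_apply]

theorem MX2 : MX 2 = fld (e 3) 0 0 (fun _ => 0) := by
  funext q j
  fin_cases j <;> simp [MX, fld, e, Pi.single_apply]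

theorem MX3 : MX 3 = fld (e 4) (e 5) 3 (fun t => Real.cos (2 * π * t)) := by
  funext q j
  fin_cases j <;> simp [MX, fld, e, Pi.single_apply]

theorem fld_smooth (c w : Fin 6 → ℝ) (k : Fin 6) (f : ℝ → ℝ) (h : ContDiff ℝ ∞ f) :
    ContDiff ℝ ∞ (fld c w k f) := by
  unfold fld
  have h1 : ContDiff ℝ ∞ fun q : Fin 6 → ℝ => q k := contDiff_apply ℝ ℝ k
  exact contDiff_const.add ((h.comp h1).smul contDiff_const)

theorem cos_smooth : ContDiff ℝ ∞ fun t : ℝ => Real.cos (2 * π * t) := by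
  fun_prop

theorem cos_int (t : ℝ) (n : ℤ) : Real.cos (2 * π * (t + n)) = Real.cos (2 * π * t) := by
  have : 2 * π * (t + n) = 2 * π * t + n * (2 * π) := by ring
  rw [this, Real.cos_add_int_mul_two_pi]

theorem smooth (i : Fin 4) : ContDiff ℝ ∞ (MX i) := by
  fin_cases i
  · change ContDiff ℝ ∞ (MX 0); rw [MX0]; exact fld_smooth _ _ _ _ contDiff_const
  · change ContDiff ℝ ∞ (MX 1); rw [MX1]; exact fld_smooth _ _ _ _ cos_smooth
  · change ContDiff ℝ ∞ (MX 2); rw [MX2]; exact fld_smooth _ _ _ _ contDiff_const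
  · change ContDiff ℝ ∞ (MX 3); rw [MX3]; exact fld_smooth _ _ _ _ cos_smooth

theorem periodic (i : Fin 4) (x : Fin 6 → ℝ) (a : Fin 6 → ℤ) :
    MX i (fun j => x j + a j) = MX i x := by
  fin_cases i
  · rfl
  · change MX 1 _ = MX 1 _
    rw [MX1]
    simp only [fld, cos_int]
  · rfl
  · change MX 3 _ = MX 3 _
    rw [MX3]
    simp only [fld, cos_int]

theorem indep (x : Fin 6 → ℝ) : LinearIndependent ℝ fun i => MX i x := by
  rw [Fintype.linearIndependent_iff]
  intro g hg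
  have h0 := congrFun hg 0
  have h1 := congrFun hg 1
  have h2 := congrFun hg 3
  have h3 := congrFun hg 4
  simp [Fin.sum_univ_four, MX] at h0 h1 h2 h3
  intro i
  fin_cases i
  · exact h0
  · exact h1
  · exact h2
  · exact h3

theorem isSection (i : Fin 4) : IsSection MX (MX i) :=
  ⟨smooth i, periodic i, fun x => Submodule.subset_span ⟨i, rfl⟩⟩

theorem isBracket_one (i : Fin 4) : IsBracket MX 1 (MX i) := IsBracket.one (isSection i)

theorem sin_deriv (c t : ℝ) :
    HasDerivAt (fun t => c * Real.sin (2 * π * t)) (c * (Real.cos (2 * π * t) * (2 * π))) t := by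
  have h1 : HasDerivAt (fun t : ℝ => 2 * π * t) (2 * π) t := by
    simpa using (hasDerivAt_id t).const_mul (2 * π)
  exact (h1.sin).const_mul c

theorem cos_deriv (t : ℝ) :
    HasDerivAt (fun t => Real.cos (2 * π * t)) (-Real.sin (2 * π * t) * (2 * π)) t := by
  have h1 : HasDerivAt (fun t : ℝ => 2 * π * t) (2 * π) t := by
    simpa using (hasDerivAt_id t).const_mul (2 * π)
  exact h1.cos

/-- the first bracket, general position -/
theorem br1 (c w a : Fin 6 → ℝ) (k : Fin 6) (ha : a k = 1) :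
    VectorField.lieBracket ℝ (fld a 0 0 (fun _ => 0))
      (fld c w k (fun t => Real.cos (2 * π * t))) =
      fld 0 w k (fun t => (-(2 * π)) * Real.sin (2 * π * t)) := by
  funext q
  unfold VectorField.lieBracket
  rw [fld_fderiv c w k _ _ q (cos_deriv (q k)), fld_fderiv a 0 0 _ 0 q (hasDerivAt_const _ _)]
  simp only [fld, smul_zero, add_zero, sub_zero, zero_add, ha]
  congr 1
  ring

theorem br2 (w a : Fin 6 → ℝ) (k : Fin 6) (ha : a k = 1) :
    VectorField.lieBracket ℝ (fld 0 w k (fun t => (-(2 * π)) * Real.sin (2 * π * t)))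
      (fld a 0 0 (fun _ => 0)) =
      fun q => ((2 * π) ^ 2 * Real.cos (2 * π * q k)) • w := by
  funext q
  unfold VectorField.lieBracket
  rw [fld_fderiv 0 w k _ _ q (sin_deriv (-(2 * π)) (q k)),
    fld_fderiv a 0 0 _ 0 q (hasDerivAt_const _ _)]
  simp only [fld, smul_zero, add_zero, zero_sub, ha]
  rw [← neg_smul]
  congr 1
  ring

theorem mem_flag {j : ℕ} {Z : (Fin 6 → ℝ) → (Fin 6 → ℝ)} (h : IsBracket MX j Z) (r : ℕ)
    (hj : j ≤ r) (q : Fin 6 → ℝ) : Z q ∈ flag MX r q :=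
  Submodule.subset_span ⟨j, hj, Z, h, rfl⟩

/-- the direction `w` is in the flag -/
theorem w_mem (i i' : Fin 4) (c w a : Fin 6 → ℝ) (k : Fin 6) (ha : a k = 1)
    (hi : MX i = fld a 0 0 (fun _ => 0)) (hi' : MX i' = fld c w k (fun t => Real.cos (2 * π * t)))
    (q : Fin 6 → ℝ) : w ∈ flag MX 3 q := by
  have b1 := IsBracket.succ (isBracket_one i) (isSection i')
  have b2 := IsBracket.succ b1 (isSection i)
  rw [hi, hi', br1 c w a k ha] at b1
  rw [hi, hi', br1 c w a k ha, br2 w a k ha] at b2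
  have m1 := mem_flag b1 3 (by norm_num) q
  have m2 := mem_flag b2 3 (by norm_num) q
  simp only [fld, zero_add] at m1
  have h1 : w = (-Real.sin (2 * π * q k) / (2 * π)) •
      ((-(2 * π) * Real.sin (2 * π * q k)) • w) +
      (Real.cos (2 * π * q k) / (2 * π) ^ 2) •
        (((2 * π) ^ 2 * Real.cos (2 * π * q k)) • w) := by
    rw [smul_smul, smul_smul, ← add_smul]
    have hpi : (2 * π) ≠ 0 := by positivity
    have : -Real.sin (2 * π * q k) / (2 * π) * (-(2 * π) * Real.sin (2 * π * q k)) +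
        Real.cos (2 * π * q k) / (2 * π) ^ 2 * ((2 * π) ^ 2 * Real.cos (2 * π * q k)) = 1 := by
      field_simp
      exact Real.sin_sq_add_cos_sq _
    rw [this, one_smul]
  rw [h1]
  exact Submodule.add_mem _ (Submodule.smul_mem _ _ m1) (Submodule.smul_mem _ _ m2)

theorem flag3 (q : Fin 6 → ℝ) : flag MX 3 q = ⊤ := by
  have e2 : e 2 ∈ flag MX 3 q := w_mem 0 1 (e 1) (e 2) (e 0) 0 (by simp [e]) MX0 MX1 q
  have e5 : e 5 ∈ flag MX 3 q := w_mem 2 3 (e 4) (e 5) (e 3) 3 (by simp [e]) MX2 MX3 q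
  have m0 := mem_flag (isBracket_one 0) 3 (by norm_num) q
  have m1 := mem_flag (isBracket_one 1) 3 (by norm_num) q
  have m2 := mem_flag (isBracket_one 2) 3 (by norm_num) q
  have m3 := mem_flag (isBracket_one 3) 3 (by norm_num) q
  rw [MX0] at m0
  rw [MX1] at m1
  rw [MX2] at m2
  rw [MX3] at m3
  simp only [fld, smul_zero, add_zero] at m0 m1 m2 m3
  have e1 : e 1 ∈ flag MX 3 q := by
    have := Submodule.sub_mem _ m1 (Submodule.smul_mem _ (Real.cos (2 * π * q 0)) e2)
    rwa [add_sub_cancel_right] at this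
  have e4 : e 4 ∈ flag MX 3 q := by
    have := Submodule.sub_mem _ m3 (Submodule.smul_mem _ (Real.cos (2 * π * q 3)) e5)
    rwa [add_sub_cancel_right] at this
  have hall : ∀ i : Fin 6, e i ∈ flag MX 3 q := by
    intro i
    fin_cases i
    · exact m0
    · exact e1
    · exact e2
    · exact m2
    · exact e4
    · exact e5
  rw [eq_top_iff]
  intro v _
  have hv : v = ∑ i, v i • e i := by
    funext j
    simp [Finset.sum_apply, e, Pi.single_apply]
  rw [hv]
  exact Submodule.sum_mem _ fun i _ => Submodule.smul_mem _ _ (hall i)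

/-- sections satisfy one linear equation -/
theorem section_eq {Z : (Fin 6 → ℝ) → (Fin 6 → ℝ)} (h : IsSection MX Z) (y : Fin 6 → ℝ) :
    Z y 2 = Real.cos (2 * π * y 0) * Z y 1 := by
  have h1 := h.2.2 y
  refine Submodule.span_induction (p := fun v _ => v 2 = Real.cos (2 * π * y 0) * v 1)
    ?_ ?_ ?_ ?_ h1
  · rintro v ⟨i, rfl⟩
    fin_cases i <;> simp [MX]
  · simp
  · intro v w _ _ hv hw
    simp only [Pi.add_apply, hv, hw]
    ring
  · intro c v _ hv
    simp only [Pi.smul_apply, smul_eq_mul, hv]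
    ring

theorem section_deriv {Z : (Fin 6 → ℝ) → (Fin 6 → ℝ)} (h : IsSection MX Z) (x : Fin 6 → ℝ)
    (hx : Real.cos (2 * π * x 0) = 1) (u : Fin 6 → ℝ) :
    fderiv ℝ Z x u 2 = fderiv ℝ Z x u 1 := by
  have hs : Real.sin (2 * π * x 0) = 0 := by
    have := Real.sin_sq_add_cos_sq (2 * π * x 0)
    rw [hx] at this
    nlinarith
  have hZ : DifferentiableAt ℝ Z x := (h.1.differentiable (by simp)) x
  have h1 : HasFDerivAt (fun y => Z y 1)
      ((ContinuousLinearMap.proj (R := ℝ) (φ := fun _ : Fin 6 => ℝ) 1).comp (fderiv ℝ Z x)) x :=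
    ((ContinuousLinearMap.proj (R := ℝ) (φ := fun _ : Fin 6 => ℝ) 1).hasFDerivAt).comp x
      hZ.hasFDerivAt
  have h2 : HasFDerivAt (fun y => Z y 2)
      ((ContinuousLinearMap.proj (R := ℝ) (φ := fun _ : Fin 6 => ℝ) 2).comp (fderiv ℝ Z x)) x :=
    ((ContinuousLinearMap.proj (R := ℝ) (φ := fun _ : Fin 6 => ℝ) 2).hasFDerivAt).comp x
      hZ.hasFDerivAt
  have h3 : HasFDerivAt (fun q : Fin 6 → ℝ => q 0)
      (ContinuousLinearMap.proj (R := ℝ) (φ := fun _ : Fin 6 => ℝ) 0) x :=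
    (ContinuousLinearMap.proj (R := ℝ) (φ := fun _ : Fin 6 => ℝ) 0).hasFDerivAt
  have h4 := (cos_deriv (x 0)).comp_hasFDerivAt x h3
  have h5 := h4.mul h1
  have h6 : (fun y => Z y 2) = fun y => ((fun t => Real.cos (2 * π * t)) ∘ fun q : Fin 6 → ℝ => q 0) y * Z y 1 := by
    funext y
    exact section_eq h y
  rw [h6] at h2
  have h7 := h2.unique h5
  have h8 := congrArg (fun L : (Fin 6 → ℝ) →L[ℝ] ℝ => L u) h7
  simp [hx, hs] at h8
  exact h8

theorem not_bracket_zero {Z : (Fin 6 → ℝ) → (Fin 6 → ℝ)} : ¬ IsBracket MX 0 Z := by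
  intro h
  cases h

theorem bracket_one {Z : (Fin 6 → ℝ) → (Fin 6 → ℝ)} (h : IsBracket MX 1 Z) : IsSection MX Z := by
  cases h with
  | one h => exact h
  | succ h _ => exact absurd h not_bracket_zero

theorem flag2 (x : Fin 6 → ℝ) (hx : Real.cos (2 * π * x 0) = 1) (v : Fin 6 → ℝ)
    (hv : v ∈ flag MX 2 x) : v 2 = v 1 := by
  refine Submodule.span_induction (p := fun v _ => v 2 = v 1) ?_ ?_ ?_ ?_ hv
  · rintro v ⟨j, hj, Z, hZ, rfl⟩
    have hs : ∀ {Z : (Fin 6 → ℝ) → (Fin 6 → ℝ)}, IsSection MX Z → Z x 2 = Z x 1 := by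
      intro Z hZ
      rw [section_eq hZ x, hx, one_mul]
    cases hZ with
    | one h => exact hs h
    | succ hY hW =>
      rename_i i Y W
      have hi : i = 0 ∨ i = 1 := by omega
      rcases hi with rfl | rfl
      · exact absurd hY not_bracket_zero
      · have hY' := bracket_one hY
        unfold VectorField.lieBracket
        simp only [Pi.sub_apply]
        rw [section_deriv hW x hx, section_deriv hY' x hx]
  · rfl
  · intro v w _ _ hv hw
    simp only [Pi.add_apply, hv, hw]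
  · intro c v _ hv
    simp only [Pi.smul_apply, hv]

theorem flag_mono (q : Fin 6 → ℝ) {r s : ℕ} (h : r ≤ s) : flag MX r q ≤ flag MX s q := by
  refine Submodule.span_mono ?_
  rintro v ⟨j, hj, Z, hZ, rfl⟩
  exact ⟨j, hj.trans h, Z, hZ, rfl⟩

theorem fld_divg (c w : Fin 6 → ℝ) (k : Fin 6) (f : ℝ → ℝ) (f' : ℝ) (q : Fin 6 → ℝ)
    (h : HasDerivAt f f' (q k)) (hw : w k = 0) : divg (fld c w k f) q = 0 := by
  unfold divg
  refine Finset.sum_eq_zero fun j _ => ?_
  rw [fld_fderiv c w k f f' q h]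
  by_cases hj : j = k
  · subst hj
    simp [hw]
  · simp [Pi.single_apply, Ne.symm hj]

theorem divg_zero (i : Fin 4) (x : Fin 6 → ℝ) : divg (MX i) x = 0 := by
  fin_cases i
  · change divg (MX 0) x = 0
    rw [MX0]; exact fld_divg _ _ _ _ 0 _ (hasDerivAt_const _ _) rfl
  · change divg (MX 1) x = 0
    rw [MX1]; exact fld_divg _ _ _ _ _ _ (cos_deriv _) (by simp [e])
  · change divg (MX 2) x = 0
    rw [MX2]; exact fld_divg _ _ _ _ 0 _ (hasDerivAt_const _ _) rfl
  · change divg (MX 3) x = 0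
    rw [MX3]; exact fld_divg _ _ _ _ _ _ (cos_deriv _) (by simp [e])

/-- the structure -/
noncomputable def S : SubRiem 6 4 where
  X := MX
  smooth := smooth
  periodic := periodic
  indep := indep
  generating := ⟨3, flag3⟩

theorem cos_of_int (x : Fin 6 → ℝ) (hx : proj x 0 = 0) : Real.cos (2 * π * x 0) = 1 := by
  unfold proj at hx
  have h1 : ((x 0 : ℝ) : UnitAddCircle) = 0 := hx
  rw [AddCircle.coe_eq_zero_iff] at h1
  obtain ⟨n, hn⟩ := h1
  rw [← hn]
  simp only [zsmul_eq_mul, mul_one]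
  have : 2 * π * (n : ℝ) = n * (2 * π) := by ring
  rw [this, Real.cos_int_mul_two_pi]

end Geo

theorem t_GEO : S_GEO := by
  refine ⟨Geo.S, rfl, fun Φ x => ?_, ⟨fun q => Geo.flag3 q, ?_⟩, ?_⟩
  · unfold SubRiem.lap mlap
    congr 1
    refine Finset.sum_congr rfl fun i _ => ?_
    change along (MX i) (along (MX i) Φ) x + (divg (MX i) x : ℂ) * along (MX i) Φ x = _
    rw [Geo.divg_zero]
    simp
  · intro r hr
    by_contra hlt
    have hr2 : r ≤ 2 := by omega
    have h1 : flag MX 2 0 = ⊤ := by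
      rw [eq_top_iff, ← hr 0]
      exact Geo.flag_mono 0 hr2
    have h2 : Geo.e 2 ∈ flag MX 2 0 := by rw [h1]; trivial
    have h3 := Geo.flag2 0 (by simp) _ h2
    simp [Geo.e] at h3
  · rintro ⟨p, ξ⟩ hp hξ x hx v hv
    simp only at hp hξ hx
    have h1 := Geo.flag2 x (Geo.cos_of_int x (by rw [hx]; exact hp)) v hv
    rw [hξ]
    simp [Fin.sum_univ_six, h1]

end Pool.Agent.H223.SR
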