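import Pool.Agent.H223.SR.Stm2

set_option autoImplicit false

open MeasureTheory Set Filter Topology
open scoped ContDiff Real ComplexConjugate

namespace Pool.Agent.H223.SR

/-! (Q6). Bound: Cauchy-Schwarz `Σ_κ G κ p G κ (p+m) ≤ (Σ G κ p ^2)^{1/2} (Σ G κ (p+m) ^2)^{1/2} = 1`.
Limit: `wp - fc(p) = Σ_κ G κ p G κ (p+m) (fc(κ) - fc(p)) + (Σ_κ G κ p G κ (p+m) - 1) fc(p)`; for large
`p` every `κ` with `G κ p ≠ 0` satisfies `‖κ - p‖ ≤ ε ‖p‖` (field `near`, so `κ ≠ 0` for `ε < 1`, `p ≠ 0`),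
hence `|fc(κ) - fc(p)| ≤ η` by S_NEARBY. `fc(p)` is bounded (S_CONT, compactness, homogeneity). -/

namespace LimAux

/-- direction -/
noncomputable def nrm (ξ : Fin 6 → ℝ) (h : ξ ≠ 0) : Sph 6 :=
  ⟨‖ξ‖⁻¹ • ξ, by
    have : ‖ξ‖ ≠ 0 := norm_ne_zero_iff.2 h
    simp [norm_smul, this]⟩

theorem f_nrm (a : Symbol 6) (x : Tor 6) (ξ : Fin 6 → ℝ) (h : ξ ≠ 0) :
    a.f x ξ = a.f x (nrm ξ h : Fin 6 → ℝ) :=
  (a.homog x ξ _ (inv_pos.2 (norm_pos_iff.2 h))).symm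

theorem cont_x (hc : S_CONT) (a : Symbol 6) (ξ : Fin 6 → ℝ) (h : ξ ≠ 0) :
    Continuous fun x => a.f x ξ := by
  have h1 : (fun x => a.f x ξ) =
      (fun p : Tor 6 × Sph 6 => a.f p.1 p.2) ∘ fun x => (x, nrm ξ h) := by
    funext x
    exact f_nrm a x ξ h
  rw [h1]
  exact (hc a).comp (by fun_prop)

theorem bdd (hc : S_CONT) (a : Symbol 6) :
    ∃ B : ℝ, 0 ≤ B ∧ ∀ x ξ, ξ ≠ 0 → |a.f x ξ| ≤ B := by
  have h1 : ∃ B : ℝ, ∀ p : Tor 6 × Sph 6, |a.f p.1 p.2| ≤ B := by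
    have := (isCompact_univ (X := Tor 6 × Sph 6)).exists_bound_of_continuousOn
      (hc a).continuousOn
    obtain ⟨B, hB⟩ := this
    exact ⟨B, fun p => by simpa using hB p (mem_univ _)⟩
  obtain ⟨B, hB⟩ := h1
  refine ⟨|B|, abs_nonneg _, fun x ξ h => ?_⟩
  rw [f_nrm a x ξ h]
  exact (hB (x, nrm ξ h)).trans (le_abs_self B)

theorem int_x (hc : S_CONT) (a : Symbol 6) (ξ : Fin 6 → ℝ) (h : ξ ≠ 0) (m : Z6) :
    Integrable (fun x : Tor 6 => UnitAddTorus.mFourier (-m) x • ((a.f x ξ : ℝ) : ℂ)) (vol 6) := by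
  have h1 : Continuous
      (fun x : Tor 6 => UnitAddTorus.mFourier (-m) x • ((a.f x ξ : ℝ) : ℂ)) :=
    (UnitAddTorus.mFourier (-m)).continuous.smul
      (Complex.continuous_ofReal.comp (cont_x hc a ξ h))
  exact h1.integrable_of_hasCompactSupport (HasCompactSupport.of_compactSpace _)

theorem fc_def (a : Symbol 6) (ξ : Fin 6 → ℝ) (m : Z6) :
    fc a ξ m = ∫ x : Tor 6, UnitAddTorus.mFourier (-m) x • ((a.f x ξ : ℝ) : ℂ) ∂(vol 6) := rfl

theorem fc_bd (a : Symbol 6) (ξ : Fin 6 → ℝ) (m : Z6) (B : ℝ)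
    (hB : ∀ x, |a.f x ξ| ≤ B) : ‖fc a ξ m‖ ≤ B := by
  rw [fc_def]
  have := norm_integral_le_of_norm_le_const (μ := vol 6)
    (f := fun x : Tor 6 => UnitAddTorus.mFourier (-m) x • ((a.f x ξ : ℝ) : ℂ)) (C := B)
    (Eventually.of_forall fun x => by
      rw [norm_smul]
      have h1 : ‖UnitAddTorus.mFourier (-m) x‖ ≤ 1 := by
        have := (UnitAddTorus.mFourier (-m)).norm_coe_le_norm x
        rwa [UnitAddTorus.mFourier_norm] at this
      have h2 : ‖((a.f x ξ : ℝ) : ℂ)‖ ≤ B := by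
        rw [Complex.norm_real]; exact hB x
      have h3 : 0 ≤ ‖((a.f x ξ : ℝ) : ℂ)‖ := norm_nonneg _
      nlinarith)
  simpa using this

theorem fc_sub (hc : S_CONT) (a : Symbol 6) (ξ ξ' : Fin 6 → ℝ) (h : ξ ≠ 0) (h' : ξ' ≠ 0)
    (m : Z6) (B : ℝ) (hB : ∀ x, |a.f x ξ - a.f x ξ'| ≤ B) : ‖fc a ξ m - fc a ξ' m‖ ≤ B := by
  rw [fc_def, fc_def, ← integral_sub (int_x hc a ξ h m) (int_x hc a ξ' h' m)]
  have := norm_integral_le_of_norm_le_const (μ := vol 6)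
    (f := fun x : Tor 6 => UnitAddTorus.mFourier (-m) x • ((a.f x ξ : ℝ) : ℂ) -
      UnitAddTorus.mFourier (-m) x • ((a.f x ξ' : ℝ) : ℂ)) (C := B)
    (Eventually.of_forall fun x => by
      rw [← smul_sub, norm_smul]
      have h1 : ‖UnitAddTorus.mFourier (-m) x‖ ≤ 1 := by
        have := (UnitAddTorus.mFourier (-m)).norm_coe_le_norm x
        rwa [UnitAddTorus.mFourier_norm] at this
      have h2 : ‖((a.f x ξ : ℝ) : ℂ) - ((a.f x ξ' : ℝ) : ℂ)‖ ≤ B := by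
        rw [← Complex.ofReal_sub, Complex.norm_real]; exact hB x
      have h3 : 0 ≤ ‖((a.f x ξ : ℝ) : ℂ) - ((a.f x ξ' : ℝ) : ℂ)‖ := norm_nonneg _
      nlinarith)
  simpa using this

/-- Cauchy-Schwarz for the weights -/
theorem cs (G : Z6 → Z6 → ℝ) (hG : IsWeight G) (p q : Z6) (s : Finset Z6) :
    ∑ κ ∈ s, G κ p * G κ q ≤ 1 := by
  have key : ∀ (r : Z6), ∑ κ ∈ s, G κ r ^ 2 ≤ 1 := by
    intro r
    rw [← hG.one r]
    have hfin : (Function.support fun κ => G κ r ^ 2).Finite :=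
      (hG.fin r).subset (fun κ hκ => by
        simp only [Function.mem_support, mem_ofPred_eq] at hκ ⊢
        intro h0
        exact hκ (by rw [h0]; norm_num))
    rw [finsum_eq_sum_of_support_subset _ (s := s ∪ hfin.toFinset)
      (by intro κ hκ; simp only [Finset.coe_union, Finite.coe_toFinset]; exact Or.inr hκ)]
    exact Finset.sum_le_sum_of_subset_of_nonneg Finset.subset_union_left
      (fun _ _ _ => sq_nonneg _)
  have h1 : ∀ κ ∈ s, G κ p * G κ q ≤ (G κ p ^ 2 + G κ q ^ 2) / 2 := fun κ _ => by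
    nlinarith [sq_nonneg (G κ p - G κ q)]
  have h2 := Finset.sum_le_sum h1
  rw [← Finset.sum_div, Finset.sum_add_distrib] at h2
  have := key p
  have := key q
  linarith

/-- coefficient with cut-off -/
noncomputable def cc (a : Symbol 6) (m p : Z6) : ℂ := if p = 0 then 0 else fc a (rv p) m

theorem rv_ne (p : Z6) (h : p ≠ 0) : rv p ≠ 0 := by
  intro h0
  apply h
  funext i
  have := congrFun h0 i
  simpa [rv] using this

theorem cc_bd (a : Symbol 6) (m : Z6) (C : ℝ) (hC : 0 ≤ C)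
    (h : ∀ ξ, ξ ≠ 0 → ‖fc a ξ m‖ ≤ C) (p : Z6) : ‖cc a m p‖ ≤ C := by
  unfold cc
  split_ifs with h0
  · simpa using hC
  · exact h _ (rv_ne p h0)

theorem wp_eq (G : Z6 → Z6 → ℝ) (hG : IsWeight G) (a : Symbol 6) (m p : Z6) :
    wp G a m p = ∑ κ ∈ (hG.fin p).toFinset, ((G κ p * G κ (p + m) : ℝ) : ℂ) * cc a m κ := by
  unfold wp
  rw [finsum_eq_sum_of_support_subset _ (s := (hG.fin p).toFinset)]
  · rfl
  · intro κ hκ
    simp only [Finite.coe_toFinset, mem_ofPred_eq]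
    intro h0
    apply hκ
    simp [h0]

theorem gg_eq (G : Z6 → Z6 → ℝ) (hG : IsWeight G) (m p : Z6) :
    ∑ᶠ κ, G κ p * G κ (p + m) = ∑ κ ∈ (hG.fin p).toFinset, G κ p * G κ (p + m) := by
  rw [finsum_eq_sum_of_support_subset _ (s := (hG.fin p).toFinset)]
  intro κ hκ
  simp only [Finite.coe_toFinset, mem_ofPred_eq]
  intro h0
  apply hκ
  simp [h0]

theorem sum_bd (G : Z6 → Z6 → ℝ) (hG : IsWeight G) (p q : Z6) (s : Finset Z6) (g : Z6 → ℂ)
    (C : ℝ) (hC : 0 ≤ C) (h : ∀ κ ∈ s, ‖g κ‖ ≤ C) :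
    ‖∑ κ ∈ s, ((G κ p * G κ q : ℝ) : ℂ) * g κ‖ ≤ C := by
  calc ‖∑ κ ∈ s, ((G κ p * G κ q : ℝ) : ℂ) * g κ‖
      ≤ ∑ κ ∈ s, ‖((G κ p * G κ q : ℝ) : ℂ) * g κ‖ := norm_sum_le _ _
    _ ≤ ∑ κ ∈ s, (G κ p * G κ q) * C := by
        apply Finset.sum_le_sum
        intro κ hκ
        rw [norm_mul, Complex.norm_real, Real.norm_of_nonneg
          (mul_nonneg (hG.nonneg _ _) (hG.nonneg _ _))]
        exact mul_le_mul_of_nonneg_left (h κ hκ) (mul_nonneg (hG.nonneg _ _) (hG.nonneg _ _))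
    _ = (∑ κ ∈ s, (G κ p * G κ q)) * C := by rw [Finset.sum_mul]
    _ ≤ 1 * C := mul_le_mul_of_nonneg_right (cs G hG p q s) hC
    _ = C := one_mul C

end LimAux

open LimAux in
theorem t_LIM : S_CONT → S_NEARBY → S_LIM := by
  intro hc hn G hG a m
  refine ⟨fun C hC hb p => ?_, ?_⟩
  · rw [wp_eq G hG]
    exact sum_bd G hG p (p + m) _ _ C hC (fun κ _ => cc_bd a m C hC hb κ)
  obtain ⟨B, hB0, hB⟩ := bdd hc a
  have hfb : ∀ ξ, ξ ≠ 0 → ‖fc a ξ m‖ ≤ B := fun ξ hξ => fc_bd a ξ m B (fun x => hB x ξ hξ)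
  rw [Metric.tendsto_nhds]
  intro η hη
  obtain ⟨ε, hε, hε2⟩ := hn a (η / 3) (by positivity)
  have hnear := hG.near (min ε (1 / 2)) (by positivity)
  have hsh := (Metric.tendsto_nhds.1 (hG.shift m)) (η / (3 * (B + 1))) (by positivity)
  have h0 : ∀ᶠ p : Z6 in cofinite, p ≠ 0 := by
    have : ({0} : Set Z6).Finite := Set.finite_singleton _
    exact this.compl_mem_cofinite
  filter_upwards [hnear, hsh, h0] with p hp1 hp2 hp3
  rw [dist_zero_right]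
  rw [dist_eq_norm, gg_eq G hG] at hp2
  have hcp : (if p = 0 then 0 else fc a (rv p) m) = cc a m p := rfl
  rw [hcp]
  have hrp := rv_ne p hp3
  have hrp' : 0 < ‖rv p‖ := norm_pos_iff.2 hrp
  have hsplit : wp G a m p - cc a m p =
      (∑ κ ∈ (hG.fin p).toFinset, ((G κ p * G κ (p + m) : ℝ) : ℂ) * (cc a m κ - cc a m p)) +
      ((∑ κ ∈ (hG.fin p).toFinset, G κ p * G κ (p + m) - 1 : ℝ) : ℂ) * cc a m p := by
    rw [wp_eq G hG]
    simp only [mul_sub, Finset.sum_sub_distrib, ← Finset.sum_mul]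
    push_cast
    ring
  rw [hsplit]
  have e1 : ‖∑ κ ∈ (hG.fin p).toFinset,
      ((G κ p * G κ (p + m) : ℝ) : ℂ) * (cc a m κ - cc a m p)‖ ≤ η / 3 := by
    apply sum_bd G hG p (p + m) _ _ (η / 3) (by positivity)
    intro κ hκ
    have hκ' : G κ p ≠ 0 := by simpa using hκ
    have hd := hp1 κ hκ'
    have hκ0 : κ ≠ 0 := by
      intro h0
      rw [h0] at hd
      have h1 : rv (0 : Z6) = 0 := by funext i; simp [rv]
      rw [h1, zero_sub, norm_neg] at hd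
      have h2 : min ε (1 / 2) ≤ 1 / 2 := min_le_right _ _
      nlinarith
    have hc1 : cc a m κ = fc a (rv κ) m := if_neg hκ0
    have hc2 : cc a m p = fc a (rv p) m := if_neg hp3
    rw [hc1, hc2]
    apply fc_sub hc a _ _ (rv_ne κ hκ0) hrp
    apply hε2 _ _ (rv_ne κ hκ0) hrp
    exact hd.trans (mul_le_mul_of_nonneg_right (min_le_left _ _) hrp'.le)
  have e2 : ‖((∑ κ ∈ (hG.fin p).toFinset, G κ p * G κ (p + m) - 1 : ℝ) : ℂ) * cc a m p‖
      ≤ η / 3 := by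
    rw [norm_mul, Complex.norm_real]
    have hb := cc_bd a m B hB0 hfb p
    calc _ ≤ (η / (3 * (B + 1))) * B := mul_le_mul hp2.le hb (norm_nonneg _) (by positivity)
      _ ≤ (η / (3 * (B + 1))) * (B + 1) :=
        mul_le_mul_of_nonneg_left (by linarith) (by positivity)
      _ = η / 3 := by field_simp
  calc _ ≤ η / 3 + η / 3 := (norm_add_le _ _).trans (add_le_add e1 e2)
    _ < η := by linarith

end Pool.Agent.H223.SR
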