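import Pool.Agent.H223.SR.Stm

set_option autoImplicit false

open MeasureTheory Set Filter Topology
open scoped ContDiff Real ComplexConjugate

namespace Pool.Agent.H223.SR

namespace LOC1L

lemma hm_int (f : UnitAddCircle → ℝ) :
    ∫ t, f t ∂hm = ∫ x in (0 : ℝ)..1, f (x : UnitAddCircle) := by
  rw [AddCircle.integral_haarAddCircle, ← UnitAddCircle.intervalIntegral_preimage 0 f]
  simp

/-- the density -/
noncomputable def v (w : C(UnitAddCircle, ℂ)) (x : ℝ) : ℝ := ‖w (x : UnitAddCircle)‖ ^ 2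

lemma v_cont (w : C(UnitAddCircle, ℂ)) : Continuous (v w) := by
  unfold v
  exact ((w.continuous.comp (AddCircle.continuous_mk' 1)).norm).pow 2

lemma v_nonneg (w : C(UnitAddCircle, ℂ)) (x : ℝ) : 0 ≤ v w x := by
  unfold v
  positivity

lemma v_int {m n : ℤ} {u : ℕ → C(UnitAddCircle, ℂ)} {E : ℕ → ℝ} (h : OneD m n u E) (i : ℕ) :
    ∫ x in (0 : ℝ)..1, v (u i) x = 1 := by
  have h1 := h.orth i i
  rw [if_pos rfl] at h1
  have h2 : (fun t => conj (u i t) * u i t) = fun t => ((‖u i t‖ ^ 2 : ℝ) : ℂ) := by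
    funext t
    rw [Complex.conj_mul']
    push_cast
    rfl
  rw [h2, integral_complex_ofReal] at h1
  have h3 : ∫ t, ‖u i t‖ ^ 2 ∂hm = 1 := by exact_mod_cast h1
  rw [hm_int] at h3
  exact h3

lemma mono (w : C(UnitAddCircle, ℂ)) {f g : ℝ → ℝ} (hf : Continuous f) (hg : Continuous g)
    (h : ∀ x, f x ≤ g x) :
    ∫ x in (0 : ℝ)..1, f x * v w x ≤ ∫ x in (0 : ℝ)..1, g x * v w x := by
  apply intervalIntegral.integral_mono_on zero_le_one
  · exact (hf.mul (v_cont w)).intervalIntegrable _ _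
  · exact (hg.mul (v_cont w)).intervalIntegrable _ _
  · intro x _
    exact mul_le_mul_of_nonneg_right (h x) (v_nonneg w x)

lemma key (hE : S_ENERGY) (hL : S_LOC) (θ : ℝ) (hθ : 0 < θ) : ∃ K : ℝ, 1 ≤ K ∧
    ∀ (m n : ℤ) (u : ℕ → C(UnitAddCircle, ℂ)) (E : ℕ → ℝ), OneD m n u E → ∀ Λ : ℝ, 1 ≤ Λ →
      ∀ i, E i ≤ Λ → K * Λ ≤ |(n : ℝ)| →
      (∫ x in (0 : ℝ)..1, |Real.sin (2 * π * x)| * v (u i) x) ≤ θ ∧
      (∫ x in (0 : ℝ)..1, ((m : ℝ) / n + Real.cos (2 * π * x)) ^ 2 * v (u i) x) ≤ θ := by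
  have hpi := Real.pi_pos
  have hpi3 := Real.pi_gt_three
  set ε : ℝ := θ / 2 with hε
  have hε0 : 0 < ε := by positivity
  set P : ℝ := 1 + 2 * π / ε with hP
  have hP0 : 0 < P := by positivity
  set K : ℝ := max 1 (max (P / ((2 * π) ^ 2 * ε)) (1 / θ)) with hK
  have hK1 : 1 ≤ K := le_max_left _ _
  have hK2 : P / ((2 * π) ^ 2 * ε) ≤ K := (le_max_left _ _).trans (le_max_right _ _)
  have hK3 : 1 / θ ≤ K := (le_max_right _ _).trans (le_max_right _ _)
  refine ⟨K, hK1, ?_⟩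
  intro m n u E h Λ hΛ i hEi hn
  have hn1 : 1 ≤ |(n : ℝ)| := by nlinarith
  have hn0 : (n : ℝ) ≠ 0 := by
    intro hc
    rw [hc, abs_zero] at hn1
    linarith
  have hΛ0 : 0 < Λ := by linarith
  constructor
  · have h1 := hL m n u E h i ε hε0
    have h2 : √(E i) ≤ Λ := (Real.sqrt_le_sqrt hEi).trans (Real.sqrt_le_self_iff.mpr (Or.inr hΛ))
    have h3 : E i + 2 * π / ε * √(E i) ≤ P * Λ := by
      have : 2 * π / ε * √(E i) ≤ 2 * π / ε * Λ := by
        apply mul_le_mul_of_nonneg_left h2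
        positivity
      rw [hP]
      linarith
    have h4 : P ≤ (2 * π) ^ 2 * ε * K := by
      rw [div_le_iff₀ (by positivity)] at hK2
      linarith
    have h5 : P * Λ ≤ (2 * π) ^ 2 * ε * |(n : ℝ)| := by
      calc P * Λ ≤ (2 * π) ^ 2 * ε * K * Λ := mul_le_mul_of_nonneg_right h4 hΛ0.le
        _ = (2 * π) ^ 2 * ε * (K * Λ) := by ring
        _ ≤ (2 * π) ^ 2 * ε * |(n : ℝ)| := mul_le_mul_of_nonneg_left hn (by positivity)
    have h6 : (2 * π) ^ 2 * |(n : ℝ)| *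
        ((∫ x in (0 : ℝ)..1, |Real.sin (2 * π * x)| * ‖u i x‖ ^ 2) - ε)
        ≤ (2 * π) ^ 2 * |(n : ℝ)| * ε := by
      linarith
    have h7 := le_of_mul_le_mul_left h6 (by positivity)
    have h8 : (∫ x in (0 : ℝ)..1, |Real.sin (2 * π * x)| * v (u i) x)
        = ∫ x in (0 : ℝ)..1, |Real.sin (2 * π * x)| * ‖u i x‖ ^ 2 := rfl
    rw [h8]
    linarith
  · obtain ⟨_, _, h1⟩ := hE m n u E h i
    have h2 : ∫ x in (0 : ℝ)..1, pot m n x * ‖u i x‖ ^ 2
        = (2 * π) ^ 2 * (n : ℝ) ^ 2 *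
          ∫ x in (0 : ℝ)..1, ((m : ℝ) / n + Real.cos (2 * π * x)) ^ 2 * v (u i) x := by
      rw [← intervalIntegral.integral_const_mul]
      congr 1
      funext x
      unfold pot v
      field_simp
    rw [h2] at h1
    have h3 : Λ ≤ (2 * π) ^ 2 * (n : ℝ) ^ 2 * θ := by
      have h4 : 1 ≤ θ * K := by
        rw [div_le_iff₀ hθ] at hK3
        linarith
      have h5 : Λ ≤ θ * |(n : ℝ)| := by
        calc Λ ≤ θ * K * Λ := by nlinarith
          _ = θ * (K * Λ) := by ring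
          _ ≤ θ * |(n : ℝ)| := mul_le_mul_of_nonneg_left hn hθ.le
      have h6 : |(n : ℝ)| ≤ (2 * π) ^ 2 * (n : ℝ) ^ 2 := by
        rw [← sq_abs (n : ℝ)]
        have : (1 : ℝ) ≤ (2 * π) ^ 2 := by nlinarith
        have h7 : |(n : ℝ)| ≤ |(n : ℝ)| ^ 2 := by nlinarith
        nlinarith [sq_nonneg |(n : ℝ)|]
      calc Λ ≤ θ * |(n : ℝ)| := h5
        _ ≤ θ * ((2 * π) ^ 2 * (n : ℝ) ^ 2) := mul_le_mul_of_nonneg_left h6 hθ.le
        _ = _ := by ring
    have h4 := (h1.trans hEi).trans h3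
    exact le_of_mul_le_mul_left h4 (by positivity)

lemma part1 (hE : S_ENERGY) (hL : S_LOC) (δ : ℝ) (hδ : 0 < δ) : ∃ K : ℝ, 1 ≤ K ∧
    ∀ (m n : ℤ) (u : ℕ → C(UnitAddCircle, ℂ)) (E : ℕ → ℝ), OneD m n u E → ∀ Λ : ℝ, 1 ≤ Λ →
      ∀ i, E i ≤ Λ → K * Λ ≤ |(n : ℝ)| → |(|(m : ℝ) / n| - 1)| ≤ δ := by
  obtain ⟨K, hK, hkey⟩ := key hE hL (min (δ ^ 2 / 4) (δ / 4)) (by positivity)
  refine ⟨K, hK, ?_⟩
  intro m n u E h Λ hΛ i hEi hn
  obtain ⟨h1, h2⟩ := hkey m n u E h Λ hΛ i hEi hn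
  set r : ℝ := (m : ℝ) / n with hr
  have hpt : ∀ x : ℝ, |(|r| - 1)| ≤
      (1 / δ) * (r + Real.cos (2 * π * x)) ^ 2 + δ / 4 + |Real.sin (2 * π * x)| := by
    intro x
    set c := Real.cos (2 * π * x)
    set s := Real.sin (2 * π * x)
    have hcs : c ^ 2 + s ^ 2 = 1 := Real.cos_sq_add_sin_sq _
    have hc1 : |c| ≤ 1 := Real.abs_cos_le_one _
    have hs1 : |s| ≤ 1 := Real.abs_sin_le_one _
    have h3 : 1 - |c| ≤ |s| := by
      have e1 : c ^ 2 ≤ |c| := by
        rw [← sq_abs c]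
        nlinarith [abs_nonneg c]
      have e2 : s ^ 2 ≤ |s| := by
        rw [← sq_abs s]
        nlinarith [abs_nonneg s]
      linarith
    have h4 : |(|r| - |c|)| ≤ |r + c| := by
      have := abs_abs_sub_abs_le_abs_sub r (-c)
      rwa [abs_neg, sub_neg_eq_add] at this
    have h5 : |(|r| - 1)| ≤ |(|r| - |c|)| + (1 - |c|) := by
      have : |r| - 1 = (|r| - |c|) + -(1 - |c|) := by ring
      rw [this]
      refine (abs_add_le _ _).trans ?_
      rw [abs_neg, abs_of_nonneg (sub_nonneg.mpr hc1)]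
    have h6 : |r + c| ≤ (1 / δ) * (r + c) ^ 2 + δ / 4 := by
      rw [← sq_abs (r + c)]
      set y := |r + c|
      have : 0 ≤ (1 / δ) * (y - δ / 2) ^ 2 := by positivity
      have e : (1 / δ) * (y - δ / 2) ^ 2 = (1 / δ) * y ^ 2 + δ / 4 - y := by
        field_simp
        ring
      linarith
    linarith
  have hm := mono (u i) (f := fun _ => |(|r| - 1)|)
    (g := fun x => (1 / δ) * (r + Real.cos (2 * π * x)) ^ 2 + δ / 4 + |Real.sin (2 * π * x)|)
    continuous_const (by fun_prop) hpt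
  have e1 : ∫ x in (0 : ℝ)..1, |(|r| - 1)| * v (u i) x = |(|r| - 1)| := by
    rw [intervalIntegral.integral_const_mul, v_int h i, mul_one]
  have hc1 : Continuous fun x : ℝ => (r + Real.cos (2 * π * x)) ^ 2 * v (u i) x :=
    Continuous.mul (by fun_prop) (v_cont _)
  have hc2 : Continuous fun x : ℝ => |Real.sin (2 * π * x)| * v (u i) x :=
    Continuous.mul (by fun_prop) (v_cont _)
  have e2 : ∫ x in (0 : ℝ)..1, ((1 / δ) * (r + Real.cos (2 * π * x)) ^ 2 + δ / 4 +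
      |Real.sin (2 * π * x)|) * v (u i) x
      = (1 / δ) * (∫ x in (0 : ℝ)..1, (r + Real.cos (2 * π * x)) ^ 2 * v (u i) x)
        + δ / 4 * (∫ x in (0 : ℝ)..1, v (u i) x)
        + ∫ x in (0 : ℝ)..1, |Real.sin (2 * π * x)| * v (u i) x := by
    rw [← intervalIntegral.integral_const_mul, ← intervalIntegral.integral_const_mul,
      ← intervalIntegral.integral_add, ← intervalIntegral.integral_add]
    · congr 1
      funext x
      ring
    · exact ((hc1.const_mul _).add ((v_cont _).const_mul _)).intervalIntegrable _ _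
    · exact hc2.intervalIntegrable _ _
    · exact (hc1.const_mul _).intervalIntegrable _ _
    · exact ((v_cont _).const_mul _).intervalIntegrable _ _
  rw [e1, e2, v_int h i] at hm
  have h3 : (1 / δ) * (∫ x in (0 : ℝ)..1, (r + Real.cos (2 * π * x)) ^ 2 * v (u i) x)
      ≤ δ / 4 := by
    have : (1 / δ) * (∫ x in (0 : ℝ)..1, (r + Real.cos (2 * π * x)) ^ 2 * v (u i) x)
        ≤ (1 / δ) * (δ ^ 2 / 4) :=
      mul_le_mul_of_nonneg_left (h2.trans (min_le_left _ _)) (by positivity)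
    refine this.trans (le_of_eq ?_)
    field_simp
  have h4 := h1.trans (min_le_right _ _)
  linarith

lemma cpt (g : C(UnitAddCircle, ℝ)) (G : UnitAddCircle → ℝ) (hG : Continuous G)
    (h0 : ∀ t, 0 ≤ G t) (x0 : UnitAddCircle) (hx0 : ∀ t, G t = 0 → t = x0) (η : ℝ) (hη : 0 < η) :
    ∃ C : ℝ, 0 < C ∧ ∀ t, |g t - g x0| ≤ η + C * G t := by
  set S : Set UnitAddCircle := {t | η ≤ |g t - g x0|} with hS
  have hcl : IsClosed S := isClosed_le continuous_const (by fun_prop)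
  have hcp : IsCompact S := hcl.isCompact
  by_cases hne : S.Nonempty
  · obtain ⟨t1, ht1, hmin⟩ := hcp.exists_isMinOn hne hG.continuousOn
    have hpos : 0 < G t1 := by
      rcases (h0 t1).lt_or_eq with h | h
      · exact h
      · exfalso
        have := hx0 t1 h.symm
        rw [this] at ht1
        have h2 : η ≤ |g x0 - g x0| := ht1
        rw [sub_self, abs_zero] at h2
        linarith
    refine ⟨2 * ‖g‖ / G t1 + 1, by positivity, ?_⟩
    intro t
    by_cases ht : t ∈ S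
    · have h1 : G t1 ≤ G t := hmin ht
      have h2 : |g t - g x0| ≤ 2 * ‖g‖ := by
        refine (abs_sub _ _).trans ?_
        have e1 := g.norm_coe_le_norm t
        have e2 := g.norm_coe_le_norm x0
        rw [Real.norm_eq_abs] at e1 e2
        linarith
      have h3 : 2 * ‖g‖ ≤ (2 * ‖g‖ / G t1 + 1) * G t := by
        calc 2 * ‖g‖ = 2 * ‖g‖ / G t1 * G t1 := by field_simp
          _ ≤ 2 * ‖g‖ / G t1 * G t := mul_le_mul_of_nonneg_left h1 (by positivity)
          _ ≤ (2 * ‖g‖ / G t1 + 1) * G t := by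
            have := h0 t
            linarith [add_mul (2 * ‖g‖ / G t1) 1 (G t)]
      linarith
    · have h1 : |g t - g x0| < η := not_le.mp ht
      have h2 : 0 ≤ (2 * ‖g‖ / G t1 + 1) * G t := mul_nonneg (by positivity) (h0 t)
      linarith
  · refine ⟨1, one_pos, fun t => ?_⟩
    have : t ∉ S := fun h => hne ⟨t, h⟩
    have h1 : |g t - g x0| < η := not_le.mp this
    have := h0 t
    linarith

/-- the weight -/
noncomputable def GG (σ : ℝ) (t : UnitAddCircle) : ℝ :=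
  |(fourier 1 t : ℂ).im| + max (σ * (fourier 1 t : ℂ).re) 0

lemma GG_cont (σ : ℝ) : Continuous (GG σ) := by
  unfold GG
  fun_prop

lemma GG_nonneg (σ : ℝ) (t : UnitAddCircle) : 0 ≤ GG σ t := by
  unfold GG
  positivity

lemma fourier_re (x : ℝ) : (fourier 1 (x : UnitAddCircle) : ℂ).re = Real.cos (2 * π * x) := by
  rw [fourier_coe_apply]
  have : (2 * π * Complex.I * (1 : ℤ) * x / (1 : ℝ) : ℂ) = ((2 * π * x : ℝ) : ℂ) * Complex.I := by
    push_cast
    ring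
  rw [this, Complex.exp_ofReal_mul_I_re]

lemma fourier_im (x : ℝ) : (fourier 1 (x : UnitAddCircle) : ℂ).im = Real.sin (2 * π * x) := by
  rw [fourier_coe_apply]
  have : (2 * π * Complex.I * (1 : ℤ) * x / (1 : ℝ) : ℂ) = ((2 * π * x : ℝ) : ℂ) * Complex.I := by
    push_cast
    ring
  rw [this, Complex.exp_ofReal_mul_I_im]

lemma GG_coe (σ x : ℝ) : GG σ (x : UnitAddCircle) =
    |Real.sin (2 * π * x)| + max (σ * Real.cos (2 * π * x)) 0 := by
  unfold GG
  rw [fourier_re, fourier_im]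

lemma eq_of_re_im {s t : UnitAddCircle} (h1 : (fourier 1 s : ℂ).re = (fourier 1 t : ℂ).re)
    (h2 : (fourier 1 s : ℂ).im = (fourier 1 t : ℂ).im) : s = t := by
  have h := Complex.ext h1 h2
  rw [fourier_one, fourier_one] at h
  exact AddCircle.injective_toCircle one_ne_zero (Subtype.ext h)

lemma GG_zero {σ : ℝ} (hσ : σ = 1 ∨ σ = -1) {x0 : ℝ} (h1 : Real.cos (2 * π * x0) = -σ)
    (h2 : Real.sin (2 * π * x0) = 0) (t : UnitAddCircle) (h : GG σ t = 0) :
    t = (x0 : UnitAddCircle) := by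
  induction t using QuotientAddGroup.induction_on with
  | H x =>
  change GG σ (x : UnitAddCircle) = 0 at h
  rw [GG_coe] at h
  have e1 : |Real.sin (2 * π * x)| = 0 := by
    have := abs_nonneg (Real.sin (2 * π * x))
    have := le_max_right (σ * Real.cos (2 * π * x)) 0
    linarith
  have e2 : σ * Real.cos (2 * π * x) ≤ 0 := by
    have := abs_nonneg (Real.sin (2 * π * x))
    have := le_max_left (σ * Real.cos (2 * π * x)) 0
    linarith
  have e3 : Real.sin (2 * π * x) = 0 := abs_eq_zero.mp e1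
  have e4 := Real.sin_sq_add_cos_sq (2 * π * x)
  rw [e3] at e4
  have e5 : (Real.cos (2 * π * x) - 1) * (Real.cos (2 * π * x) + 1) = 0 := by linarith
  have e6 : Real.cos (2 * π * x) = -σ := by
    rcases mul_eq_zero.mp e5 with h3 | h3
    · rcases hσ with rfl | rfl
      · exfalso
        have : Real.cos (2 * π * x) = 1 := by linarith
        rw [this] at e2
        linarith
      · linarith
    · rcases hσ with rfl | rfl
      · linarith
      · exfalso
        have : Real.cos (2 * π * x) = -1 := by linarith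
        rw [this] at e2
        linarith
  apply eq_of_re_im
  · rw [fourier_re, fourier_re, h1, e6]
  · rw [fourier_im, fourier_im, h2, e3]

lemma max_le_sq {σ r c : ℝ} (hσ : (σ = 1 ∧ 1 / 2 ≤ r) ∨ (σ = -1 ∧ r ≤ -(1 / 2))) :
    max (σ * c) 0 ≤ (r + c) ^ 2 := by
  apply max_le _ (sq_nonneg _)
  rcases hσ with ⟨rfl, hr⟩ | ⟨rfl, hr⟩
  · by_cases hc : 0 ≤ c
    · nlinarith
    · nlinarith [sq_nonneg (r + c)]
  · by_cases hc : 0 ≤ c
    · nlinarith [sq_nonneg (r + c)]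
    · nlinarith

lemma part2 (hE : S_ENERGY) (hL : S_LOC) (g : C(UnitAddCircle, ℝ)) (η : ℝ) (hη : 0 < η) :
    ∃ K : ℝ, 1 ≤ K ∧ ∀ (m n : ℤ) (u : ℕ → C(UnitAddCircle, ℂ)) (E : ℕ → ℝ), OneD m n u E →
      ∀ Λ : ℝ, 1 ≤ Λ → ∀ i, E i ≤ Λ → K * Λ ≤ |(n : ℝ)| →
      |(∫ t, g t * ‖u i t‖ ^ 2 ∂hm) - g (xs m n)| ≤ η := by
  have hpi := Real.pi_pos
  obtain ⟨C1, hC1, hg1⟩ := cpt g (GG 1) (GG_cont 1) (GG_nonneg 1) (((1 / 2 : ℝ) : UnitAddCircle))
    (GG_zero (Or.inl rfl) (by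
      have : 2 * π * (1 / 2) = π := by ring
      rw [this, Real.cos_pi]) (by
      have : 2 * π * (1 / 2) = π := by ring
      rw [this, Real.sin_pi])) (η / 2) (by positivity)
  obtain ⟨C2, hC2, hg2⟩ := cpt g (GG (-1)) (GG_cont (-1)) (GG_nonneg (-1))
    (((0 : ℝ) : UnitAddCircle))
    (GG_zero (Or.inr rfl) (by simp) (by simp)) (η / 2) (by positivity)
  set C : ℝ := max C1 C2 with hC
  have hC0 : 0 < C := lt_of_lt_of_le hC1 (le_max_left _ _)
  obtain ⟨K1, hK1, hk1⟩ := part1 hE hL (1 / 2) (by norm_num)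
  obtain ⟨K2, hK2, hk2⟩ := key hE hL (η / (4 * C)) (by positivity)
  refine ⟨max K1 K2, le_trans hK1 (le_max_left _ _), ?_⟩
  intro m n u E h Λ hΛ i hEi hn
  have hΛ0 : 0 < Λ := by linarith
  have hn1 : K1 * Λ ≤ |(n : ℝ)| :=
    le_trans (mul_le_mul_of_nonneg_right (le_max_left _ _) hΛ0.le) hn
  have hn2 : K2 * Λ ≤ |(n : ℝ)| :=
    le_trans (mul_le_mul_of_nonneg_right (le_max_right _ _) hΛ0.le) hn
  have hr := hk1 m n u E h Λ hΛ i hEi hn1
  obtain ⟨ht1, ht2⟩ := hk2 m n u E h Λ hΛ i hEi hn2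
  have hn3 : 1 ≤ |(n : ℝ)| := by nlinarith
  have hn0 : (n : ℝ) ≠ 0 := by
    intro hc
    rw [hc, abs_zero] at hn3
    linarith
  set r : ℝ := (m : ℝ) / n with hrd
  have hmn : (m : ℝ) * n = r * (n : ℝ) ^ 2 := by
    rw [hrd]
    field_simp
  have hn2pos : 0 < (n : ℝ) ^ 2 := by positivity
  obtain ⟨x0, σ, hx0, hσ, hpt⟩ : ∃ (x0 : UnitAddCircle) (σ : ℝ), xs m n = x0 ∧
      ((σ = 1 ∧ 1 / 2 ≤ r) ∨ (σ = -1 ∧ r ≤ -(1 / 2))) ∧
      ∀ t, |g t - g x0| ≤ η / 2 + C * GG σ t := by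
    by_cases hs : 0 < m * n
    · refine ⟨((1 / 2 : ℝ) : UnitAddCircle), 1, by simp [xs, hs], Or.inl ⟨rfl, ?_⟩, ?_⟩
      · have hs' : (0 : ℝ) < (m : ℝ) * n := by exact_mod_cast hs
        rw [hmn] at hs'
        have hr0 : 0 < r := by
          by_contra hc
          push Not at hc
          nlinarith
        rw [abs_of_pos hr0, abs_le] at hr
        linarith
      · intro t
        have h1 := hg1 t
        have h2 : C1 * GG 1 t ≤ C * GG 1 t :=
          mul_le_mul_of_nonneg_right (le_max_left _ _) (GG_nonneg _ _)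
        linarith
    · refine ⟨((0 : ℝ) : UnitAddCircle), -1, by simp [xs, hs], Or.inr ⟨rfl, ?_⟩, ?_⟩
      · have hs' : (m : ℝ) * n ≤ 0 := by exact_mod_cast not_lt.mp hs
        rw [hmn] at hs'
        have hr0 : r ≤ 0 := by
          by_contra hc
          push Not at hc
          nlinarith [mul_pos hc hn2pos]
        rw [abs_of_nonpos hr0, abs_le] at hr
        linarith
      · intro t
        have h1 := hg2 t
        have h2 : C2 * GG (-1) t ≤ C * GG (-1) t :=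
          mul_le_mul_of_nonneg_right (le_max_right _ _) (GG_nonneg _ _)
        linarith
  rw [hx0]
  have hpt2 : ∀ x : ℝ, |g (x : UnitAddCircle) - g x0| ≤
      η / 2 + C * |Real.sin (2 * π * x)| + C * (r + Real.cos (2 * π * x)) ^ 2 := by
    intro x
    have h1 := hpt (x : UnitAddCircle)
    rw [GG_coe] at h1
    have h2 := max_le_sq (c := Real.cos (2 * π * x)) hσ
    nlinarith
  have hgc : Continuous fun x : ℝ => g (x : UnitAddCircle) :=
    g.continuous.comp (AddCircle.continuous_mk' 1)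
  have hmo := mono (u i) (f := fun x => |g (x : UnitAddCircle) - g x0|)
    (g := fun x => η / 2 + C * |Real.sin (2 * π * x)| + C * (r + Real.cos (2 * π * x)) ^ 2)
    (by fun_prop) (by fun_prop) hpt2
  have hc1 : Continuous fun x : ℝ => (r + Real.cos (2 * π * x)) ^ 2 * v (u i) x :=
    Continuous.mul (by fun_prop) (v_cont _)
  have hc2 : Continuous fun x : ℝ => |Real.sin (2 * π * x)| * v (u i) x :=
    Continuous.mul (by fun_prop) (v_cont _)
  have e2 : ∫ x in (0 : ℝ)..1, (η / 2 + C * |Real.sin (2 * π * x)| +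
      C * (r + Real.cos (2 * π * x)) ^ 2) * v (u i) x
      = η / 2 * (∫ x in (0 : ℝ)..1, v (u i) x)
        + C * (∫ x in (0 : ℝ)..1, |Real.sin (2 * π * x)| * v (u i) x)
        + C * ∫ x in (0 : ℝ)..1, (r + Real.cos (2 * π * x)) ^ 2 * v (u i) x := by
    rw [← intervalIntegral.integral_const_mul, ← intervalIntegral.integral_const_mul,
      ← intervalIntegral.integral_const_mul,
      ← intervalIntegral.integral_add, ← intervalIntegral.integral_add]
    · congr 1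
      funext x
      ring
    · exact (((v_cont _).const_mul _).add (hc2.const_mul _)).intervalIntegrable _ _
    · exact (hc1.const_mul _).intervalIntegrable _ _
    · exact ((v_cont _).const_mul _).intervalIntegrable _ _
    · exact (hc2.const_mul _).intervalIntegrable _ _
  rw [e2, v_int h i] at hmo
  have hC3 : C * (η / (4 * C)) = η / 4 := by field_simp
  have hC4 := mul_le_mul_of_nonneg_left ht1 hC0.le
  have hC5 := mul_le_mul_of_nonneg_left ht2 hC0.le
  rw [hC3] at hC4 hC5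
  have h9 : (∫ t, g t * ‖u i t‖ ^ 2 ∂hm) - g x0
      = ∫ x in (0 : ℝ)..1, (g (x : UnitAddCircle) - g x0) * v (u i) x := by
    have e3 : g x0 = ∫ x in (0 : ℝ)..1, g x0 * v (u i) x := by
      rw [intervalIntegral.integral_const_mul, v_int h i, mul_one]
    rw [hm_int, e3]
    rw [← intervalIntegral.integral_sub]
    · congr 1
      funext x
      rw [← e3]
      unfold v
      ring
    · exact (hgc.mul (v_cont (u i))).intervalIntegrable _ _
    · exact ((v_cont (u i)).const_mul _).intervalIntegrable _ _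
  rw [h9]
  have h10 : |∫ x in (0 : ℝ)..1, (g (x : UnitAddCircle) - g x0) * v (u i) x|
      ≤ ∫ x in (0 : ℝ)..1, |g (x : UnitAddCircle) - g x0| * v (u i) x := by
    refine (intervalIntegral.abs_integral_le_integral_abs zero_le_one).trans (le_of_eq ?_)
    congr 1
    funext x
    rw [abs_mul, abs_of_nonneg (v_nonneg _ _)]
  linarith

lemma coeff {w : C(UnitAddCircle, ℂ)} (hw : ContDiff ℝ ∞ fun x : ℝ => w x) (k : ℤ) :
    (2 * π * k) ^ 2 * ‖fourierCoeff w k‖ ^ 2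
      = ‖fourierCoeffOn (zero_lt_one (α := ℝ)) (deriv fun t : ℝ => w t) k‖ ^ 2 ∨ k = 0 := by
  by_cases hk : k = 0
  · exact Or.inr hk
  left
  have hd : ∀ x : ℝ, HasDerivAt (fun t : ℝ => w t) (deriv (fun t : ℝ => w t) x) x := fun x =>
    ((hw.differentiable (by simp)) x).hasDerivAt
  have hcont : Continuous (deriv fun t : ℝ => w t) := hw.continuous_deriv (by simp)
  have h1 := fourierCoeffOn_of_hasDerivAt (zero_lt_one (α := ℝ)) (f := fun t : ℝ => w t) hk
    (fun x _ => hd x) (hcont.intervalIntegrable 0 1)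
  have h2 : w ((1 : ℝ) : UnitAddCircle) = w ((0 : ℝ) : UnitAddCircle) := by
    have : ((1 : ℝ) : UnitAddCircle) = ((0 : ℝ) : UnitAddCircle) := by
      simp
    rw [this]
  have h3 : fourierCoeffOn (zero_lt_one (α := ℝ)) (fun t : ℝ => w t) k = fourierCoeff w k := by
    rw [fourierCoeffOn_eq_integral, fourierCoeff_eq_intervalIntegral _ _ 0]
    simp
  rw [h3, h2] at h1
  rw [h1]
  simp only [sub_self, mul_zero, zero_sub]
  have h7 : ‖(1 : ℂ) / (-2 * π * Complex.I * k) *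
      -((((1 : ℝ) : ℂ) - ((0 : ℝ) : ℂ)) * fourierCoeffOn (zero_lt_one (α := ℝ))
        (deriv fun t : ℝ => w t) k)‖
      = ‖(1 : ℂ) / (-2 * π * Complex.I * k)‖ *
        ‖fourierCoeffOn (zero_lt_one (α := ℝ)) (deriv fun t : ℝ => w t) k‖ := by
    rw [norm_mul, norm_neg]
    simp
  rw [h7]
  have h4 : ‖(1 : ℂ) / (-2 * π * Complex.I * k)‖ = 1 / |2 * π * (k : ℝ)| := by
    rw [norm_div, norm_one]
    congr 1
    simp [abs_mul]
  rw [h4]
  have hk' : (k : ℝ) ≠ 0 := by exact_mod_cast hk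
  have h5 : |2 * π * (k : ℝ)| ^ 2 = (2 * π * (k : ℝ)) ^ 2 := sq_abs _
  have h6 : (2 * π * (k : ℝ)) ^ 2 ≠ 0 := by
    have := Real.pi_pos
    positivity
  rw [mul_pow (1 / |2 * π * (k : ℝ)|), div_pow, one_pow, h5]
  field_simp

lemma bessel {w : C(UnitAddCircle, ℂ)} (hw : ContDiff ℝ ∞ fun x : ℝ => w x) (s : Finset ℤ) :
    ∑ k ∈ s, (2 * π * k) ^ 2 * ‖fourierCoeff w k‖ ^ 2
      ≤ ∫ x in (0 : ℝ)..1, ‖deriv (fun t : ℝ => w t) x‖ ^ 2 := by
  have hcont : Continuous (deriv fun t : ℝ => w t) := hw.continuous_deriv (by simp)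
  have hL2 : MemLp (deriv fun t : ℝ => w t) 2 (volume.restrict (Ioc (0 : ℝ) 1)) := by
    obtain ⟨B, hB⟩ := isCompact_Icc.exists_bound_of_continuousOn (s := Icc (0 : ℝ) 1)
      hcont.continuousOn
    refine MemLp.of_bound hcont.aestronglyMeasurable B ?_
    rw [ae_restrict_iff' measurableSet_Ioc]
    exact Filter.Eventually.of_forall fun x hx => hB x (Ioc_subset_Icc_self hx)
  have h := hasSum_sq_fourierCoeffOn (zero_lt_one (α := ℝ)) hL2
  have h1 : ∑ k ∈ s, (2 * π * k) ^ 2 * ‖fourierCoeff w k‖ ^ 2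
      ≤ ∑ k ∈ s, ‖fourierCoeffOn (zero_lt_one (α := ℝ)) (deriv fun t : ℝ => w t) k‖ ^ 2 := by
    apply Finset.sum_le_sum
    intro k _
    rcases coeff hw k with h2 | h2
    · exact h2.le
    · rw [h2]
      simp
  refine h1.trans ?_
  have h2 := sum_le_hasSum s (fun k _ => by positivity) h
  simpa using h2

lemma part3 (hE : S_ENERGY) (δ η : ℝ) (hδ : 0 < δ) (hη : 0 < η) :
    ∃ K : ℝ, 1 ≤ K ∧ ∀ (m n : ℤ) (u : ℕ → C(UnitAddCircle, ℂ)) (E : ℕ → ℝ), OneD m n u E →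
      ∀ Λ : ℝ, 1 ≤ Λ → ∀ i, E i ≤ Λ → K * Λ ≤ |(n : ℝ)| →
      ∀ s : Finset ℤ, (∀ k ∈ s, δ * |(n : ℝ)| ≤ |(k : ℝ)|) →
        ∑ k ∈ s, ‖fourierCoeff (u i) k‖ ^ 2 ≤ η := by
  have hpi := Real.pi_gt_three
  refine ⟨max 1 (1 / (δ ^ 2 * η)), le_max_left _ _, ?_⟩
  intro m n u E h Λ hΛ i hEi hn s hs
  set K := max 1 (1 / (δ ^ 2 * η)) with hK
  have hK1 : 1 ≤ K := le_max_left _ _
  have hK2 : 1 / (δ ^ 2 * η) ≤ K := le_max_right _ _
  have hΛ0 : 0 < Λ := by linarith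
  have hn1 : 1 ≤ |(n : ℝ)| := by nlinarith
  have h1 := (bessel (h.smooth i) s).trans ((hE m n u E h i).2.1)
  have h2 : (δ * |(n : ℝ)|) ^ 2 * ∑ k ∈ s, ‖fourierCoeff (u i) k‖ ^ 2
      ≤ ∑ k ∈ s, (2 * π * k) ^ 2 * ‖fourierCoeff (u i) k‖ ^ 2 := by
    rw [Finset.mul_sum]
    apply Finset.sum_le_sum
    intro k hk
    apply mul_le_mul_of_nonneg_right _ (by positivity)
    have h3 := hs k hk
    have h4 : (δ * |(n : ℝ)|) ^ 2 ≤ |(k : ℝ)| ^ 2 := pow_le_pow_left₀ (by positivity) h3 2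
    rw [sq_abs] at h4
    have h5 : (k : ℝ) ^ 2 ≤ (2 * π * k) ^ 2 := by
      rw [mul_pow]
      have : (1 : ℝ) ≤ (2 * π) ^ 2 := by nlinarith
      nlinarith [sq_nonneg (k : ℝ)]
    linarith
  have h3 : Λ ≤ (δ * |(n : ℝ)|) ^ 2 * η := by
    have h4 : 1 ≤ δ ^ 2 * η * K := by
      rw [div_le_iff₀ (by positivity)] at hK2
      linarith
    calc Λ ≤ δ ^ 2 * η * K * Λ := by nlinarith
      _ = δ ^ 2 * η * (K * Λ) := by ring
      _ ≤ δ ^ 2 * η * |(n : ℝ)| := mul_le_mul_of_nonneg_left hn (by positivity)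
      _ ≤ δ ^ 2 * η * |(n : ℝ)| ^ 2 := by
        apply mul_le_mul_of_nonneg_left _ (by positivity)
        nlinarith
      _ = _ := by ring
  have h4 : (δ * |(n : ℝ)|) ^ 2 * ∑ k ∈ s, ‖fourierCoeff (u i) k‖ ^ 2
      ≤ (δ * |(n : ℝ)|) ^ 2 * η := by linarith
  exact le_of_mul_le_mul_left h4 (by positivity)

end LOC1L

open LOC1L in
theorem t_LOC1 : S_ENERGY → S_LOC → S_LOC1 := by
  intro hE hL u E h
  refine ⟨?_, ?_, ?_⟩
  · intro δ hδ
    obtain ⟨K, hK, hk⟩ := part1 hE hL δ hδ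
    refine ⟨K, by linarith, ?_⟩
    intro Λ hΛ m n i hEi hn
    have h1 := hk m n _ _ (h m n) Λ hΛ i hEi hn
    have hn1 : 1 ≤ |(n : ℝ)| := by nlinarith
    have hn0 : |(n : ℝ)| ≠ 0 := by linarith
    have h2 : |(m : ℝ)| - |(n : ℝ)| = (|(m : ℝ) / n| - 1) * |(n : ℝ)| := by
      rw [abs_div, sub_mul, div_mul_cancel₀ _ hn0, one_mul]
    rw [h2, abs_mul, abs_abs]
    exact mul_le_mul_of_nonneg_right h1 (abs_nonneg _)
  · intro g η hη
    obtain ⟨K, hK, hk⟩ := part2 hE hL g η hη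
    refine ⟨K, by linarith, ?_⟩
    intro Λ hΛ m n i hEi hn
    exact hk m n _ _ (h m n) Λ hΛ i hEi hn
  · intro δ η hδ hη
    obtain ⟨K, hK, hk⟩ := part3 hE δ η hδ hη
    refine ⟨K, by linarith, ?_⟩
    intro Λ hΛ m n i hEi hn s hs
    exact hk m n _ _ (h m n) Λ hΛ i hEi hn s hs

end Pool.Agent.H223.SR
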