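import Pool.Agent.H223.SR.Stm2

set_option autoImplicit false

open MeasureTheory Set Filter Topology
open scoped ContDiff Real ComplexConjugate

namespace Pool.Agent.H223.SR

namespace NearbyAux

/-- the directions of `ξ` and `ξ'` differ by at most `2 ‖ξ - ξ'‖ / ‖ξ'‖` -/
theorem dir_sub {E : Type*} [NormedAddCommGroup E] [NormedSpace ℝ E] (u v : E) (hu : u ≠ 0)
    (hv : v ≠ 0) : ‖‖u‖⁻¹ • u - ‖v‖⁻¹ • v‖ ≤ 2 * (‖v‖⁻¹ * ‖u - v‖) := by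
  have hu' : (0 : ℝ) < ‖u‖ := norm_pos_iff.2 hu
  have hv' : (0 : ℝ) < ‖v‖ := norm_pos_iff.2 hv
  have h1 : ‖u‖⁻¹ • u - ‖v‖⁻¹ • v = ‖v‖⁻¹ • (u - v) + (‖u‖⁻¹ - ‖v‖⁻¹) • u := by
    rw [smul_sub, sub_smul]; abel
  have h2 : ‖(‖u‖⁻¹ - ‖v‖⁻¹) • u‖ ≤ ‖v‖⁻¹ * ‖u - v‖ := by
    rw [norm_smul, Real.norm_eq_abs]
    have e : |‖u‖⁻¹ - ‖v‖⁻¹| * ‖u‖ = ‖v‖⁻¹ * |‖v‖ - ‖u‖| := by
      have e1 : ‖u‖⁻¹ - ‖v‖⁻¹ = ‖u‖⁻¹ * ‖v‖⁻¹ * (‖v‖ - ‖u‖) := by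
        field_simp
      rw [e1, abs_mul, abs_of_pos (mul_pos (inv_pos.2 hu') (inv_pos.2 hv'))]
      field_simp
    rw [e]
    refine mul_le_mul_of_nonneg_left ?_ (inv_pos.2 hv').le
    rw [norm_sub_rev u v]
    exact abs_norm_sub_norm_le v u
  rw [h1]
  refine (norm_add_le _ _).trans ?_
  have h3 : ‖‖v‖⁻¹ • (u - v)‖ = ‖v‖⁻¹ * ‖u - v‖ := by
    rw [norm_smul, norm_inv, norm_norm]
  rw [h3]
  linarith

/-- the direction of a covector -/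
noncomputable def nbdir {d : ℕ} (u : Fin d → ℝ) (hu : u ≠ 0) : Sph d :=
  ⟨‖u‖⁻¹ • u, by
    rw [mem_sphere_zero_iff_norm, norm_smul, norm_inv, norm_norm]
    exact inv_mul_cancel₀ (norm_ne_zero_iff.2 hu)⟩

end NearbyAux

open NearbyAux in
theorem t_NEARBY : S_CONT → S_NEARBY := by
  intro hC a η hη
  have huc : UniformContinuous fun p : Tor 6 × Sph 6 => a.f p.1 p.2 :=
    CompactSpace.uniformContinuous_of_continuous (hC a)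
  obtain ⟨δ, hδ, h⟩ := Metric.uniformContinuous_iff.1 huc η hη
  refine ⟨δ / 4, by positivity, ?_⟩
  intro ξ ξ' hξ hξ' hle x
  have hn' : (0 : ℝ) < ‖ξ'‖ := norm_pos_iff.2 hξ'
  have hn : (0 : ℝ) < ‖ξ‖ := norm_pos_iff.2 hξ
  have hd : dist (x, nbdir ξ hξ) (x, nbdir ξ' hξ') < δ := by
    rw [Prod.dist_eq, dist_self]
    refine max_lt hδ ?_
    rw [Subtype.dist_eq, dist_eq_norm]
    have h1 := dir_sub ξ ξ' hξ hξ'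
    have h2 : ‖ξ'‖⁻¹ * ‖ξ - ξ'‖ ≤ δ / 4 := by
      rw [inv_mul_le_iff₀ hn']
      linarith
    calc ‖(nbdir ξ hξ : Fin 6 → ℝ) - (nbdir ξ' hξ' : Fin 6 → ℝ)‖
        ≤ 2 * (‖ξ'‖⁻¹ * ‖ξ - ξ'‖) := h1
      _ ≤ 2 * (δ / 4) := by linarith
      _ < δ := by linarith
  have h4 := h hd
  rw [Real.dist_eq] at h4
  have e1 : a.f x (nbdir ξ hξ : Fin 6 → ℝ) = a.f x ξ := a.homog x ξ _ (inv_pos.2 hn)
  have e2 : a.f x (nbdir ξ' hξ' : Fin 6 → ℝ) = a.f x ξ' := a.homog x ξ' _ (inv_pos.2 hn')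
  rw [← e1, ← e2]
  exact h4.le

end Pool.Agent.H223.SR
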