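import Pool.Agent.H223.SR.Stm2

set_option autoImplicit false

open MeasureTheory Set Filter Topology
open scoped ContDiff Real ComplexConjugate

namespace Pool.Agent.H223.SR

/-! (Q5) symmetry and positivity of the form (helper200) -/

namespace POSF

lemma fc_eq (a : Symbol 6) (ξ : Fin 6 → ℝ) (m : Z6) :
    fc a ξ m = ∫ t, UnitAddTorus.mFourier (-m) t * (a.f t ξ : ℂ) ∂(vol 6) := rfl

lemma fc_neg (a : Symbol 6) (ξ : Fin 6 → ℝ) (m : Z6) : fc a ξ (-m) = conj (fc a ξ m) := by
  rw [fc_eq, fc_eq, ← integral_conj]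
  refine integral_congr_ae (Eventually.of_forall fun t => ?_)
  simp only [map_mul, Complex.conj_ofReal, ← UnitAddTorus.mFourier_neg]

lemma cont (h : S_CONT) (a : Symbol 6) {ξ : Fin 6 → ℝ} (hξ : ξ ≠ 0) :
    Continuous fun x : Tor 6 => a.f x ξ := by
  have hn : 0 < ‖ξ‖ := norm_pos_iff.2 hξ
  have h1 : ‖(‖ξ‖⁻¹ • ξ)‖ = 1 := by
    rw [norm_smul, norm_inv, norm_norm, inv_mul_cancel₀ hn.ne']
  have h2 := (h a).comp (Continuous.prodMk continuous_id
    (continuous_const (y := (⟨‖ξ‖⁻¹ • ξ, by simpa using h1⟩ : Sph 6))))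
  exact h2.congr fun x => a.homog x ξ ‖ξ‖⁻¹ (inv_pos.2 hn)

lemma pos_one (h : S_CONT) (a : Symbol 6) {ξ : Fin 6 → ℝ} (hξ : ξ ≠ 0) (ha : ∀ x, 0 ≤ a.f x ξ)
    (s : Finset Z6) (c : Z6 → ℂ) :
    0 ≤ (∑ p ∈ s, ∑ q ∈ s, c p * conj (c q) * fc a ξ (q - p)).re := by
  have hc := cont h a hξ
  have hint : ∀ p q : Z6, Integrable (fun t : Tor 6 => c p * conj (c q) *
      (UnitAddTorus.mFourier (-(q - p)) t * (a.f t ξ : ℂ))) (vol 6) := by
    intro p q
    refine Continuous.integrable_of_hasCompactSupport ?_ (HasCompactSupport.of_compactSpace _)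
    exact continuous_const.mul ((ContinuousMap.continuous _).mul
      (Complex.continuous_ofReal.comp hc))
  have key : ∑ p ∈ s, ∑ q ∈ s, c p * conj (c q) * fc a ξ (q - p) =
      ∫ t, ((a.f t ξ * ‖∑ p ∈ s, c p * UnitAddTorus.mFourier p t‖ ^ 2 : ℝ) : ℂ) ∂(vol 6) := by
    calc ∑ p ∈ s, ∑ q ∈ s, c p * conj (c q) * fc a ξ (q - p)
        = ∑ p ∈ s, ∑ q ∈ s, ∫ t, c p * conj (c q) *
            (UnitAddTorus.mFourier (-(q - p)) t * (a.f t ξ : ℂ)) ∂(vol 6) := by
          refine Finset.sum_congr rfl fun p _ => Finset.sum_congr rfl fun q _ => ?_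
          rw [fc_eq, integral_const_mul]
      _ = ∫ t, ∑ p ∈ s, ∑ q ∈ s, c p * conj (c q) *
            (UnitAddTorus.mFourier (-(q - p)) t * (a.f t ξ : ℂ)) ∂(vol 6) := by
          rw [integral_finsetSum _ fun p _ => integrable_finsetSum _ fun q _ => hint p q]
          refine Finset.sum_congr rfl fun p _ => ?_
          rw [integral_finsetSum _ fun q _ => hint p q]
      _ = _ := by
          refine integral_congr_ae (Eventually.of_forall fun t => ?_)
          simp only
          rw [Complex.ofReal_mul, Complex.ofReal_pow, ← Complex.mul_conj', map_sum,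
            Finset.sum_mul_sum, Finset.mul_sum]
          refine Finset.sum_congr rfl fun p _ => ?_
          rw [Finset.mul_sum]
          refine Finset.sum_congr rfl fun q _ => ?_
          rw [neg_sub, sub_eq_add_neg, UnitAddTorus.mFourier_add, UnitAddTorus.mFourier_neg,
            map_mul]
          ring
  rw [key, integral_complex_ofReal, Complex.ofReal_re]
  exact integral_nonneg fun t => mul_nonneg (ha t) (by positivity)

end POSF

theorem t_POSF : S_CONT → S_POSF := by
  intro h G hG a
  constructor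
  · intro p q
    unfold wp
    have e1 : q + (p - q) = p := by abel
    have e2 : p + (q - p) = q := by abel
    rw [e1, e2]
    have hf : Set.Finite (Function.support fun κ => ((G κ p * G κ q : ℝ) : ℂ) *
        (if κ = 0 then 0 else fc a (rv κ) (q - p))) := by
      refine (hG.fin p).subset fun κ hκ => ?_
      intro h0
      apply hκ
      simp only [h0, zero_mul, Complex.ofReal_zero]
    have h3 : conj (∑ᶠ κ, ((G κ p * G κ q : ℝ) : ℂ) *
        (if κ = 0 then 0 else fc a (rv κ) (q - p))) =
        ∑ᶠ κ, conj (((G κ p * G κ q : ℝ) : ℂ) * (if κ = 0 then 0 else fc a (rv κ) (q - p))) :=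
      AddMonoidHom.map_finsum (starRingEnd ℂ : ℂ →+* ℂ).toAddMonoidHom hf
    rw [h3]
    refine finsum_congr fun κ => ?_
    rw [map_mul, Complex.conj_ofReal, mul_comm (G κ q) (G κ p)]
    congr 1
    split_ifs with hκ
    · simp
    · rw [← POSF.fc_neg, neg_sub]
  · intro ha s c
    let K : Finset Z6 := s.biUnion fun p => (hG.fin p).toFinset
    have hK : ∀ p ∈ s, ∀ κ, G κ p ≠ 0 → κ ∈ K := by
      intro p hp κ hκ
      exact Finset.mem_biUnion.2 ⟨p, hp, (hG.fin p).mem_toFinset.2 hκ⟩
    have hwp : ∀ p ∈ s, ∀ q, wp G a (q - p) p = ∑ κ ∈ K, ((G κ p * G κ q : ℝ) : ℂ) *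
        (if κ = 0 then 0 else fc a (rv κ) (q - p)) := by
      intro p hp q
      unfold wp
      have e1 : p + (q - p) = q := by abel
      rw [e1]
      refine finsum_eq_sum_of_support_subset _ fun κ hκ => ?_
      rw [Finset.mem_coe]
      apply hK p hp
      intro h0
      apply hκ
      simp only [h0, zero_mul, Complex.ofReal_zero]
    have h4 : ∑ p ∈ s, ∑ q ∈ s, c p * conj (c q) * wp G a (q - p) p =
        ∑ κ ∈ K, (if κ = 0 then 0 else ∑ p ∈ s, ∑ q ∈ s,
          (c p * (G κ p : ℂ)) * conj (c q * (G κ q : ℂ)) * fc a (rv κ) (q - p)) := by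
      calc ∑ p ∈ s, ∑ q ∈ s, c p * conj (c q) * wp G a (q - p) p
          = ∑ p ∈ s, ∑ q ∈ s, ∑ κ ∈ K, c p * conj (c q) * (((G κ p * G κ q : ℝ) : ℂ) *
              (if κ = 0 then 0 else fc a (rv κ) (q - p))) := by
            refine Finset.sum_congr rfl fun p hp => Finset.sum_congr rfl fun q _ => ?_
            rw [hwp p hp q, Finset.mul_sum]
        _ = ∑ κ ∈ K, ∑ p ∈ s, ∑ q ∈ s, c p * conj (c q) * (((G κ p * G κ q : ℝ) : ℂ) *
              (if κ = 0 then 0 else fc a (rv κ) (q - p))) := by
            rw [Finset.sum_comm (s := K) (t := s)]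
            refine Finset.sum_congr rfl fun p _ => ?_
            exact Finset.sum_comm
        _ = _ := by
            refine Finset.sum_congr rfl fun κ _ => ?_
            split_ifs with hκ
            · simp
            · refine Finset.sum_congr rfl fun p hp => Finset.sum_congr rfl fun q _ => ?_
              rw [map_mul, Complex.conj_ofReal]
              push_cast
              ring
    rw [h4, Complex.re_sum]
    refine Finset.sum_nonneg fun κ _ => ?_
    split_ifs with hκ
    · simp
    · have hr : rv κ ≠ 0 := by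
        intro h0
        apply hκ
        funext i
        have := congrFun h0 i
        simpa [rv] using this
      exact POSF.pos_one h a hr (fun x => ha x _ hr) s fun p => c p * (G κ p : ℂ)

end Pool.Agent.H223.SR
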