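import Pool.Agent.H223.SR.Stm2

set_option autoImplicit false

open MeasureTheory Set Filter Topology
open scoped ContDiff Real ComplexConjugate

namespace Pool.Agent.H223.SR

namespace QU

open UnitAddTorus

/-- the Fourier basis -/
noncomputable def B : HilbertBasis Z6 ℂ (L2 6) := mFourierBasis (d := Fin 6)

lemma B_apply (κ : Z6) : B κ = mono κ := by
  have h := congrFun (coe_mFourierBasis (d := Fin 6)) κ
  exact h

/-- the decay function -/
noncomputable def D (m : Z6) : ℝ := ∏ i, (1 + (m i : ℝ) ^ 2)⁻¹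

lemma D_nonneg (m : Z6) : 0 ≤ D m := Finset.prod_nonneg fun i _ => by positivity

lemma summable_one : Summable fun k : ℤ => (1 + (k : ℝ) ^ 2)⁻¹ := by
  have h1 : Summable fun k : ℤ => 1 / |(k : ℝ)| ^ (2 : ℝ) :=
    Real.summable_one_div_int_add_rpow 0 2 |>.2 (by norm_num) |>.congr (fun k => by simp)
  refine (h1.add (summable_of_ne_finset_zero (s := {0})
    (f := fun k : ℤ => if k = 0 then (1 : ℝ) else 0) ?_)).of_nonneg_of_le
    (fun k => by positivity) (fun k => ?_)
  · intro b hb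
    simp only [Finset.mem_singleton] at hb
    simp [hb]
  · by_cases hk : k = 0
    · subst hk; simp
    · simp only [hk, if_false, add_zero]
      have hk' : (0 : ℝ) < |(k : ℝ)| := abs_pos.2 (by exact_mod_cast hk)
      rw [one_div, Real.rpow_two]
      refine inv_anti₀ (by positivity) ?_
      rw [sq_abs]; linarith

/-- the coordinates of a finite set -/
def co (s : Finset Z6) (i : Fin 6) : Finset ℤ := s.image (fun m : Z6 => m i)

lemma summable_D : Summable D := by
  classical
  refine summable_of_sum_le (c := (∑' k : ℤ, (1 + (k : ℝ) ^ 2)⁻¹) ^ 6) D_nonneg (fun s => ?_)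
  have hsub : s ⊆ Fintype.piFinset (co s) := by
    intro m hm
    rw [Fintype.mem_piFinset]
    intro i
    exact Finset.mem_image_of_mem _ hm
  calc ∑ m ∈ s, D m ≤ ∑ m ∈ Fintype.piFinset (co s), D m :=
        Finset.sum_le_sum_of_subset_of_nonneg hsub (fun m _ _ => D_nonneg m)
    _ = ∏ i : Fin 6, ∑ k ∈ co s i, (1 + (k : ℝ) ^ 2)⁻¹ := by
        rw [Finset.prod_univ_sum]
        rfl
    _ ≤ ∏ i : Fin 6, ∑' k : ℤ, (1 + (k : ℝ) ^ 2)⁻¹ := by
        refine Finset.prod_le_prod (fun i _ => Finset.sum_nonneg fun k _ => by positivity)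
          (fun i _ => summable_one.sum_le_tsum _ (fun k _ => by positivity))
    _ = _ := by simp

lemma eq_of_mono {S T : L2 6 →L[ℂ] L2 6} (h : ∀ p, S (mono p) = T (mono p)) : S = T := by
  refine ContinuousLinearMap.ext_on (s := Set.range (fun p : Z6 => (B p : L2 6))) ?_ ?_
  · have := B.dense_span
    rw [← Submodule.dense_iff_topologicalClosure_eq_top] at this
    exact this
  · rintro _ ⟨p, rfl⟩
    simp only [B_apply]
    exact h p

lemma inner_mono (p q : Z6) : (inner ℂ (mono p) (mono q) : ℂ) = if p = q then 1 else 0 := by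
  have := B.orthonormal
  rw [orthonormal_iff_ite] at this
  have h := this p q
  simpa only [B_apply] using h

lemma exists_op (hS : S_SHIFT) (w : Z6 → Z6 → ℂ) (C : ℝ) (hC : 0 ≤ C)
    (hw : ∀ m p, ‖w m p‖ ≤ C * D m) :
    ∃ A : L2 6 →L[ℂ] L2 6, (∀ p, HasSum (fun m => w m p • mono (p + m)) (A (mono p))) ∧
      ((∀ m, Tendsto (w m) cofinite (𝓝 0)) → IsCompactOperator A) := by
  choose T hT hn hc using fun m => hS m (w m) (C * D m) (mul_nonneg hC (D_nonneg m)) (hw m)
  have hsum : Summable T := Summable.of_norm_bounded (summable_D.mul_left C) hn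
  refine ⟨∑' m, T m, fun p => ?_, fun h0 => ?_⟩
  · have h1 := hsum.hasSum.mapL (ContinuousLinearMap.apply ℂ (L2 6) (mono p))
    simpa [hT] using h1
  · have h2 : Tendsto (fun s : Finset Z6 => ∑ m ∈ s, T m) atTop (𝓝 (∑' m, T m)) := hsum.hasSum
    refine isCompactOperator_of_tendsto h2 (Eventually.of_forall fun s => ?_)
    classical
    induction s using Finset.induction_on with
    | empty => simpa using isCompactOperator_zero
    | insert m s hm ih =>
      rw [Finset.sum_insert hm]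
      exact (hc m (h0 m)).add ih

lemma inner_op {w : Z6 → Z6 → ℂ} {A : L2 6 →L[ℂ] L2 6} {p : Z6}
    (h : HasSum (fun m => w m p • mono (p + m)) (A (mono p))) (q : Z6) :
    (inner ℂ (mono q) (A (mono p)) : ℂ) = w (q - p) p := by
  have h1 := h.mapL (innerSL ℂ (mono q))
  simp only [innerSL_apply_apply, inner_smul_right, inner_mono] at h1
  have h2 : HasSum (fun m => w m p * if q = p + m then (1 : ℂ) else 0) (w (q - p) p) := by
    convert hasSum_single (q - p) ?_ using 1
    · simp
    · intro m hm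
      rw [if_neg, mul_zero]
      intro hq
      exact hm (by rw [hq]; abel)
  exact h1.unique h2

lemma cont_sym (hc : S_CONT) (a : Symbol 6) (ξ : Fin 6 → ℝ) (hξ : ξ ≠ 0) :
    Continuous fun x => a.f x ξ := by
  have hn : 0 < ‖ξ‖ := norm_pos_iff.2 hξ
  let θ : Sph 6 := ⟨‖ξ‖⁻¹ • ξ, by
    simp [norm_smul, hn.ne']⟩
  have h1 : Continuous fun x : Tor 6 => a.f x (θ : Fin 6 → ℝ) :=
    (hc a).comp (by fun_prop : Continuous fun x : Tor 6 => ((x, θ) : Tor 6 × Sph 6))
  refine h1.congr (fun x => ?_)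
  exact a.homog x ξ _ (inv_pos.2 hn)

/-- the symbol for fixed `ξ` as a continuous function -/
noncomputable def F (hc : S_CONT) (a : Symbol 6) (ξ : Fin 6 → ℝ) (hξ : ξ ≠ 0) : C(Tor 6, ℂ) :=
  ⟨fun x => (a.f x ξ : ℂ), Complex.continuous_ofReal.comp (cont_sym hc a ξ hξ)⟩

lemma fc_def (a : Symbol 6) (ξ : Fin 6 → ℝ) (m : Z6) :
    fc a ξ m = ∫ t, mFourier (-m) t * (a.f t ξ : ℂ) ∂(vol 6) := rfl

lemma fc_add (hc : S_CONT) {a b c : Symbol 6} (h : ∀ x ξ, ξ ≠ 0 → c.f x ξ = a.f x ξ + b.f x ξ)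
    (ξ : Fin 6 → ℝ) (hξ : ξ ≠ 0) (m : Z6) : fc c ξ m = fc a ξ m + fc b ξ m := by
  rw [fc_def, fc_def, fc_def, ← integral_add]
  · congr 1
    ext t
    rw [h t ξ hξ]
    push_cast
    ring
  · exact ((mFourier (-m)).continuous.mul (F hc a ξ hξ).continuous).integrable_of_hasCompactSupport
      (HasCompactSupport.of_compactSpace _)
  · exact ((mFourier (-m)).continuous.mul (F hc b ξ hξ).continuous).integrable_of_hasCompactSupport
      (HasCompactSupport.of_compactSpace _)

lemma fc_smul {a b : Symbol 6} {t : ℝ} (h : ∀ x ξ, ξ ≠ 0 → b.f x ξ = t * a.f x ξ)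
    (ξ : Fin 6 → ℝ) (hξ : ξ ≠ 0) (m : Z6) : fc b ξ m = t * fc a ξ m := by
  rw [fc_def, fc_def, ← integral_const_mul]
  congr 1
  ext x
  rw [h x ξ hξ]
  push_cast
  ring

lemma rv_ne {κ : Z6} (h : κ ≠ 0) : rv κ ≠ 0 := by
  intro h0
  apply h
  ext i
  have := congrFun h0 i
  simpa [rv] using this

lemma wp_supp {G : Z6 → Z6 → ℝ} (hG : IsWeight G) (a : Symbol 6) (m p : Z6) :
    (Function.support fun κ =>
      ((G κ p * G κ (p + m) : ℝ) : ℂ) * (if κ = 0 then 0 else fc a (rv κ) m)).Finite := by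
  refine (hG.fin p).subset ?_
  intro κ hκ
  simp only [Function.mem_support] at hκ
  intro h0
  apply hκ
  simp [h0]

lemma wp_add (hc : S_CONT) {G : Z6 → Z6 → ℝ} (hG : IsWeight G) {a b c : Symbol 6}
    (h : ∀ x ξ, ξ ≠ 0 → c.f x ξ = a.f x ξ + b.f x ξ) (m p : Z6) :
    wp G c m p = wp G a m p + wp G b m p := by
  unfold wp
  rw [← finsum_add_distrib (wp_supp hG a m p) (wp_supp hG b m p)]
  refine finsum_congr fun κ => ?_
  by_cases hκ : κ = 0
  · simp [hκ]
  · simp only [hκ, if_false]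
    rw [fc_add hc h (rv κ) (rv_ne hκ) m]
    ring

lemma wp_smul {G : Z6 → Z6 → ℝ} (hG : IsWeight G) {a b : Symbol 6} {t : ℝ}
    (h : ∀ x ξ, ξ ≠ 0 → b.f x ξ = t * a.f x ξ) (m p : Z6) :
    wp G b m p = t * wp G a m p := by
  unfold wp
  rw [mul_finsum' _ _ (wp_supp hG a m p)]
  refine finsum_congr fun κ => ?_
  by_cases hκ : κ = 0
  · simp [hκ]
  · simp only [hκ, if_false]
    rw [fc_smul h (rv κ) (rv_ne hκ) m]
    ring

/-- Fourier series of `a(·, ξ) e_κ` -/
lemma hasSum_fourier (f : C(Tor 6, ℂ)) (κ : Z6) :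
    HasSum (fun m => mFourierCoeff f m • mono (κ + m)) (cls (f * mFourier κ)) := by
  have h1 : HasSum (fun i : Z6 => mFourierCoeff (cls (f * mFourier κ)) i • mono i)
      (cls (f * mFourier κ)) := hasSum_mFourier_series_L2 (cls (f * mFourier κ))
  have h2 := (Equiv.addLeft κ).hasSum_iff.2 h1
  have h3 : ((fun i : Z6 => mFourierCoeff (cls (f * mFourier κ)) i • mono i) ∘ (Equiv.addLeft κ)) =
      fun m => mFourierCoeff f m • mono (κ + m) := by
    ext1 m
    simp only [Function.comp_apply, Equiv.coe_addLeft]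
    congr 1
    have h4 : mFourierCoeff (cls (f * mFourier κ)) (κ + m) = mFourierCoeff (f * mFourier κ) (κ + m) :=
      mFourierCoeff_toLp (f * mFourier κ) (κ + m)
    rw [h4]
    unfold mFourierCoeff
    congr 1
    ext t
    have e1 : (mFourier (-m) : C(Tor 6, ℂ)) t = mFourier (-(κ + m)) t * mFourier κ t := by
      rw [← mFourier_add]
      congr 2
      abel
    simp only [ContinuousMap.mul_apply, smul_eq_mul]
    rw [e1]
    ring
  rw [h3] at h2
  exact h2

lemma isPositive_of {A : L2 6 →L[ℂ] L2 6} {w : Z6 → Z6 → ℂ}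
    (hA : ∀ p q, (inner ℂ (mono q) (A (mono p)) : ℂ) = w (q - p) p)
    (hs : ∀ p q, w (p - q) q = conj (w (q - p) p))
    (hp : ∀ (s : Finset Z6) (c : Z6 → ℂ),
      0 ≤ (∑ p ∈ s, ∑ q ∈ s, c p * conj (c q) * w (q - p) p).re) : A.IsPositive := by
  rw [ContinuousLinearMap.isPositive_def']
  refine ⟨?_, fun x => ?_⟩
  · rw [ContinuousLinearMap.isSelfAdjoint_iff']
    refine eq_of_mono fun p => ?_
    apply B.repr.injective
    ext q
    rw [B.repr_apply_apply, B.repr_apply_apply, B_apply, ContinuousLinearMap.adjoint_inner_right,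
      hA, ← inner_conj_symm, hA, hs p q]
    simp
  · have h1 := B.hasSum_repr x
    have h2 : Tendsto (fun s : Finset Z6 => A.reApplyInnerSelf (∑ i ∈ s, B.repr x i • B i)) atTop
        (𝓝 (A.reApplyInnerSelf x)) :=
      (A.reApplyInnerSelf_continuous.tendsto x).comp h1
    refine ge_of_tendsto' h2 fun s => ?_
    rw [ContinuousLinearMap.reApplyInnerSelf_apply]
    have h3 := hp s (fun p => B.repr x p)
    have h4 : (inner ℂ (A (∑ i ∈ s, B.repr x i • B i)) (∑ i ∈ s, B.repr x i • B i) : ℂ) =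
        conj (∑ p ∈ s, ∑ q ∈ s, B.repr x p * conj (B.repr x q) * w (q - p) p) := by
      rw [map_sum, sum_inner, map_sum]
      refine Finset.sum_congr rfl fun p _ => ?_
      rw [inner_sum, map_sum]
      refine Finset.sum_congr rfl fun q _ => ?_
      rw [map_smul, inner_smul_left, inner_smul_right, B_apply, B_apply, ← inner_conj_symm, hA]
      simp only [map_mul, Complex.conj_conj]
      ring
    rw [h4]
    exact h3.trans_eq (Complex.conj_re _).symm

end QU

open QU in
theorem t_QUANT : S_CONT → S_DECAY → S_WEIGHT → S_SHIFT → S_POSF → S_LIM → S_QUANT := by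
  intro hc hdec hwt hsh hpos hlim
  obtain ⟨G, hG⟩ := hwt
  choose C hC0 hC using hdec
  have hb : ∀ (a : Symbol 6) m p, ‖wp G a m p‖ ≤ C a * D m := fun a m p =>
    (hlim G hG a m).1 (C a * D m) (mul_nonneg (hC0 a) (D_nonneg m)) (fun ξ hξ => hC a ξ m hξ) p
  choose Op hOp _ using fun a : Symbol 6 => exists_op hsh (wp G a) (C a) (hC0 a) (hb a)
  refine ⟨Op, ⟨fun a b c h => ?_, fun t a b h => ?_, fun a h => ?_, fun a => ?_⟩⟩
  · refine eq_of_mono fun p => ?_
    rw [add_apply]
    refine (hOp c p).unique ?_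
    convert (hOp a p).add (hOp b p) using 1
    ext1 m
    rw [wp_add hc hG h, add_smul]
  · refine eq_of_mono fun p => ?_
    rw [smul_apply]
    refine (hOp b p).unique ?_
    convert (hOp a p).const_smul (t : ℂ) using 1
    ext1 m
    rw [wp_smul hG h, mul_smul]
  · exact isPositive_of (w := wp G a) (fun p q => inner_op (hOp a p) q) (hpos G hG a).1
      ((hpos G hG a).2 h)
  · have hb' : ∀ m p, ‖wp G a m p - (if p = 0 then 0 else fc a (rv p) m)‖ ≤ (2 * C a) * D m := by
      intro m p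
      refine (norm_sub_le _ _).trans ?_
      have h1 := hb a m p
      have h2 : ‖(if p = 0 then 0 else fc a (rv p) m : ℂ)‖ ≤ C a * D m := by
        split_ifs with h0
        · simpa using mul_nonneg (hC0 a) (D_nonneg m)
        · exact hC a (rv p) m (rv_ne h0)
      linarith
    obtain ⟨K, hK, hKc⟩ := exists_op hsh
      (fun m p => wp G a m p - (if p = 0 then 0 else fc a (rv p) m)) (2 * C a)
      (mul_nonneg zero_le_two (hC0 a)) hb'
    refine ⟨K, hKc fun m => (hlim G hG a m).2, fun κ hκ => ?_⟩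
    have h1 := (hOp a κ).sub (hK κ)
    have h2 : HasSum (fun m => fc a (rv κ) m • mono (κ + m)) (Op a (mono κ) - K (mono κ)) := by
      convert h1 using 1
      ext1 m
      simp only [hκ, if_false]
      rw [sub_smul]
      abel
    have h3 := h2.unique (hasSum_fourier (F hc a (rv κ) (rv_ne hκ)) κ)
    rw [h3]
    exact ContinuousMap.coeFn_toLp (vol 6)
      (F hc a (rv κ) (rv_ne hκ) * UnitAddTorus.mFourier κ)

end Pool.Agent.H223.SR
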