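import Pool.Agent.H223.SR.Stm2

set_option autoImplicit false

open MeasureTheory Set Filter Topology
open scoped ContDiff Real ComplexConjugate

namespace Pool.Agent.H223.SR

namespace ShiftAux

variable {ι : Type*} {E : Type*} [NormedAddCommGroup E] [InnerProductSpace ℂ E] [CompleteSpace E]

theorem sum_sq (f : lp (fun _ : ι => ℂ) 2) : Summable fun q => ‖f q‖ ^ 2 := by
  have h := lp.memℓp f
  have h2 := (memℓp_gen_iff (p := 2) (by norm_num)).1 h
  simpa using h2

theorem norm_sq (f : lp (fun _ : ι => ℂ) 2) : ‖f‖ ^ 2 = ∑' q, ‖f q‖ ^ 2 := by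
  have h := lp.norm_rpow_eq_tsum (p := 2) (by norm_num) f
  simpa using h

theorem sum_shift (σ : ι ≃ ι) (w : ι → ℂ) (C : ℝ) (hw : ∀ p, ‖w p‖ ≤ C)
    (f : lp (fun _ : ι => ℂ) 2) : Summable fun q => ‖w (σ q) * f (σ q)‖ ^ 2 := by
  have h1 : Summable fun q => C ^ 2 * ‖f (σ q)‖ ^ 2 :=
    ((σ.summable_iff (f := fun q => ‖f q‖ ^ 2)).2 (sum_sq f)).mul_left _
  refine Summable.of_nonneg_of_le (fun q => sq_nonneg _) (fun q => ?_) h1
  rw [norm_mul, mul_pow]
  exact mul_le_mul_of_nonneg_right (pow_le_pow_left₀ (norm_nonneg _) (hw _) 2) (sq_nonneg _)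

/-- the shifted vector in `ℓ²` -/
noncomputable def vec (σ : ι ≃ ι) (w : ι → ℂ) (C : ℝ) (hw : ∀ p, ‖w p‖ ≤ C)
    (f : lp (fun _ : ι => ℂ) 2) : lp (fun _ : ι => ℂ) 2 :=
  ⟨fun q => w (σ q) * f (σ q), (memℓp_gen_iff (p := 2) (by norm_num)).2
    (by simpa using sum_shift σ w C hw f)⟩

theorem vec_apply (σ : ι ≃ ι) (w : ι → ℂ) (C : ℝ) (hw : ∀ p, ‖w p‖ ≤ C)
    (f : lp (fun _ : ι => ℂ) 2) (q : ι) : vec σ w C hw f q = w (σ q) * f (σ q) := rfl

theorem vec_norm (σ : ι ≃ ι) (w : ι → ℂ) (C : ℝ) (hC : 0 ≤ C) (hw : ∀ p, ‖w p‖ ≤ C)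
    (f : lp (fun _ : ι => ℂ) 2) : ‖vec σ w C hw f‖ ≤ C * ‖f‖ := by
  have h1 : ‖vec σ w C hw f‖ ^ 2 ≤ (C * ‖f‖) ^ 2 := by
    rw [norm_sq, mul_pow, norm_sq f, ← tsum_mul_left,
      ← σ.tsum_eq (fun q => C ^ 2 * ‖f q‖ ^ 2)]
    refine Summable.tsum_le_tsum (fun q => ?_) (sum_shift σ w C hw f)
      ((σ.summable_iff (f := fun q => C ^ 2 * ‖f q‖ ^ 2)).2 ((sum_sq f).mul_left _))
    rw [vec_apply, norm_mul, mul_pow]
    exact mul_le_mul_of_nonneg_right (pow_le_pow_left₀ (norm_nonneg _) (hw _) 2) (sq_nonneg _)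
  exact (pow_le_pow_iff_left₀ (norm_nonneg _) (mul_nonneg hC (norm_nonneg _)) two_ne_zero).1 h1

/-- the weighted shift -/
noncomputable def op (b : HilbertBasis ι ℂ E) (σ : ι ≃ ι) (w : ι → ℂ) (C : ℝ) (hC : 0 ≤ C)
    (hw : ∀ p, ‖w p‖ ≤ C) : E →L[ℂ] E :=
  LinearMap.mkContinuous
    { toFun := fun x => b.repr.symm (vec σ w C hw (b.repr x))
      map_add' := by
        intro x y
        rw [← map_add]
        congr 1
        ext q
        simp only [vec_apply, map_add, lp.coeFn_add, Pi.add_apply]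
        ring
      map_smul' := by
        intro c x
        simp only [RingHom.id_apply]
        rw [← map_smul]
        congr 1
        ext q
        simp only [vec_apply, map_smul, lp.coeFn_smul, Pi.smul_apply, smul_eq_mul]
        ring } C
    (by
      intro x
      change ‖b.repr.symm (vec σ w C hw (b.repr x))‖ ≤ C * ‖x‖
      rw [LinearIsometryEquiv.norm_map]
      simpa using vec_norm σ w C hC hw (b.repr x))

theorem op_apply (b : HilbertBasis ι ℂ E) (σ : ι ≃ ι) (w : ι → ℂ) (C : ℝ) (hC : 0 ≤ C)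
    (hw : ∀ p, ‖w p‖ ≤ C) (x : E) :
    op b σ w C hC hw x = b.repr.symm (vec σ w C hw (b.repr x)) := rfl

theorem repr_op (b : HilbertBasis ι ℂ E) (σ : ι ≃ ι) (w : ι → ℂ) (C : ℝ) (hC : 0 ≤ C)
    (hw : ∀ p, ‖w p‖ ≤ C) (x : E) (q : ι) :
    b.repr (op b σ w C hC hw x) q = w (σ q) * b.repr x (σ q) := by
  rw [op_apply, LinearIsometryEquiv.apply_symm_apply, vec_apply]

theorem norm_op (b : HilbertBasis ι ℂ E) (σ : ι ≃ ι) (w : ι → ℂ) (C : ℝ) (hC : 0 ≤ C)
    (hw : ∀ p, ‖w p‖ ≤ C) : ‖op b σ w C hC hw‖ ≤ C :=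
  LinearMap.mkContinuous_norm_le _ hC _

theorem op_basis [DecidableEq ι] (b : HilbertBasis ι ℂ E) (σ : ι ≃ ι) (w : ι → ℂ) (C : ℝ)
    (hC : 0 ≤ C) (hw : ∀ p, ‖w p‖ ≤ C) (p : ι) :
    op b σ w C hC hw (b p) = w p • b (σ.symm p) := by
  apply b.repr.injective
  ext q
  rw [repr_op, map_smul, b.repr_self, b.repr_self]
  simp only [lp.coeFn_smul, Pi.smul_apply, smul_eq_mul, lp.coeFn_single, Pi.single_apply]
  by_cases h : σ q = p
  · subst h
    simp
  · have h2 : q ≠ σ.symm p := fun hq => h (by rw [hq]; simp)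
    simp [h, h2]

theorem sum_compact {κ : Type*} (s : Finset κ) (T : κ → E →L[ℂ] E)
    (hT : ∀ p ∈ s, IsCompactOperator (T p)) : IsCompactOperator (∑ p ∈ s, T p : E →L[ℂ] E) := by
  classical
  induction s using Finset.induction_on with
  | empty =>
    rw [Finset.sum_empty]
    exact isCompactOperator_zero
  | insert a s ha ih =>
    rw [Finset.sum_insert ha]
    exact (hT a (Finset.mem_insert_self a s)).add
      (ih fun p hp => hT p (Finset.mem_insert_of_mem hp))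

/-- finitely supported weights give compact operators -/
theorem compact_fin [DecidableEq ι] (b : HilbertBasis ι ℂ E) (σ : ι ≃ ι) (w : ι → ℂ) (C : ℝ)
    (hC : 0 ≤ C) (hw : ∀ p, ‖w p‖ ≤ C) (s : Finset ι) (hs : ∀ p, p ∉ s → w p = 0) :
    IsCompactOperator (op b σ w C hC hw) := by
  have h1 : op b σ w C hC hw =
      ∑ p ∈ s, ((ContinuousLinearMap.toSpanSingleton ℂ (w p • b (σ.symm p))).comp
        (innerSL ℂ (b p))) := by
    ext x
    apply b.repr.injective
    ext q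
    rw [repr_op]
    simp only [sum_apply, ContinuousLinearMap.comp_apply,
      ContinuousLinearMap.toSpanSingleton_apply, innerSL_apply_apply, map_sum, map_smul,
      b.repr_self]
    have h3 : ((∑ p ∈ s, (inner ℂ (b p) x : ℂ) • w p • lp.single 2 (σ.symm p) (1 : ℂ) :
        lp (fun _ : ι => ℂ) 2) : ι → ℂ) q =
        ∑ p ∈ s, (inner ℂ (b p) x : ℂ) * (w p * (Pi.single (σ.symm p) (1 : ℂ) : ι → ℂ) q) := by
      rw [lp.coeFn_sum, Finset.sum_apply]
      simp only [lp.coeFn_smul, Pi.smul_apply, smul_eq_mul, lp.coeFn_single]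
    rw [h3]
    by_cases hq : σ q ∈ s
    · rw [Finset.sum_eq_single (σ q)]
      · simp [b.repr_apply_apply, mul_comm]
      · intro p _ hp
        have : q ≠ σ.symm p := fun hh => hp (by rw [hh]; simp)
        simp [this]
      · intro h
        exact absurd hq h
    · rw [hs _ hq, zero_mul, Finset.sum_eq_zero]
      intro p hp
      have : q ≠ σ.symm p := fun hh => hq (by rw [hh]; simpa using hp)
      simp [this]
  rw [h1]
  refine sum_compact s _ fun p _ => ?_
  exact (isCompactOperator_of_locallyCompactSpace_rng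
    (ContinuousLinearMap.toSpanSingleton ℂ (w p • b (σ.symm p)))).comp_clm (innerSL ℂ (b p))

theorem compact_of_tendsto [DecidableEq ι] (b : HilbertBasis ι ℂ E) (σ : ι ≃ ι) (w : ι → ℂ)
    (C : ℝ) (hC : 0 ≤ C) (hw : ∀ p, ‖w p‖ ≤ C) (hlim : Tendsto w cofinite (𝓝 0)) :
    IsCompactOperator (op b σ w C hC hw) := by
  have hcl := isClosed_setOfPred_isCompactOperator (𝕜₁ := ℂ) (𝕜₂ := ℂ) (σ₁₂ := RingHom.id ℂ)
    (M₁ := E) (M₂ := E)
  refine hcl.closure_subset (Metric.mem_closure_iff.2 fun ε hε => ?_)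
  have hfin : {p | ε / 2 ≤ ‖w p‖}.Finite := by
    have h1 := (Metric.tendsto_nhds.1 hlim) (ε / 2) (by positivity)
    have h2 : {p | ¬ dist (w p) 0 < ε / 2}.Finite := h1
    refine h2.subset fun p hp => ?_
    simpa using hp
  set s := hfin.toFinset with hs
  set w1 : ι → ℂ := fun p => if p ∈ s then w p else 0 with hw1
  set w2 : ι → ℂ := fun p => if p ∈ s then 0 else w p with hw2
  have hb1 : ∀ p, ‖w1 p‖ ≤ C := by
    intro p
    simp only [hw1]
    split_ifs
    · exact hw p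
    · simpa using hC
  have hb2 : ∀ p, ‖w2 p‖ ≤ ε / 2 := by
    intro p
    simp only [hw2]
    split_ifs with h
    · simpa using (half_pos hε).le
    · have : ¬ ε / 2 ≤ ‖w p‖ := fun h' => h (by rw [hs]; simpa using h')
      exact (not_le.1 this).le
  refine ⟨op b σ w1 C hC hb1, compact_fin b σ w1 C hC hb1 s (fun p hp => by simp [hw1, hp]), ?_⟩
  have hsub : op b σ w C hC hw - op b σ w1 C hC hb1 = op b σ w2 (ε / 2) (half_pos hε).le hb2 := by
    ext x
    apply b.repr.injective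
    ext q
    rw [repr_op, sub_apply, map_sub, lp.coeFn_sub, Pi.sub_apply, repr_op,
      repr_op]
    simp only [hw1, hw2]
    split_ifs <;> ring
  rw [dist_eq_norm, hsub]
  exact (norm_op b σ w2 (ε / 2) (half_pos hε).le hb2).trans_lt (half_lt_self hε)

end ShiftAux

theorem t_SHIFT : S_SHIFT := by
  classical
  intro m w C hC hw
  set b : HilbertBasis Z6 ℂ (L2 6) := UnitAddTorus.mFourierBasis with hb
  have hmono : ∀ p : Z6, (mono p : L2 6) = b p := by
    intro p
    rw [hb, UnitAddTorus.coe_mFourierBasis]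
    rfl
  set σ : Z6 ≃ Z6 := Equiv.subRight m with hσ
  refine ⟨ShiftAux.op b σ w C hC hw, fun p => ?_, ShiftAux.norm_op b σ w C hC hw, fun h => ?_⟩
  · rw [hmono, hmono, ShiftAux.op_basis]
    rfl
  · exact ShiftAux.compact_of_tendsto b σ w C hC hw h

end Pool.Agent.H223.SR
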