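import Pool.Agent.H223.SR.Stm2

set_option autoImplicit false

open MeasureTheory Set Filter Topology
open scoped ContDiff Real ComplexConjugate

namespace Pool.Agent.H223.SR

namespace WEIGHTaux

/-- sup norm as a natural number -/
noncomputable def nn (p : Z6) : ℕ := Finset.univ.sup fun i => (p i).natAbs

/-- radius of the cube -/
noncomputable def L (p : Z6) : ℕ := Nat.sqrt (nn p)

/-- cube of radius `r` around `p` -/
noncomputable def cube (p : Z6) (r : ℕ) : Finset Z6 := Fintype.piFinset fun i => Finset.Icc (p i - r) (p i + r)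

theorem mem_cube {p κ : Z6} {r : ℕ} : κ ∈ cube p r ↔ ∀ i, |κ i - p i| ≤ r := by
  simp only [cube, Fintype.mem_piFinset, Finset.mem_Icc]
  refine forall_congr' fun i => ?_
  rw [abs_le]
  constructor <;> rintro ⟨h1, h2⟩ <;> constructor <;> linarith

theorem card_cube (p : Z6) (r : ℕ) : (cube p r).card = (2 * r + 1) ^ 6 := by
  simp only [cube, Fintype.card_piFinset, Int.card_Icc]
  have : ∀ i : Fin 6, (p i + r + 1 - (p i - r)).toNat = 2 * r + 1 := by
    intro i
    have : p i + r + 1 - (p i - r) = ((2 * r + 1 : ℕ) : ℤ) := by push_cast; ring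
    rw [this, Int.toNat_natCast]
  simp [this]

/-- the weights -/
noncomputable def G (κ p : Z6) : ℝ :=
  if κ ∈ cube p (L p) then ((2 * (L p : ℝ) + 1) ^ 3)⁻¹ else 0

theorem le_nn (p : Z6) (i : Fin 6) : (p i).natAbs ≤ nn p :=
  Finset.le_sup (f := fun i => (p i).natAbs) (Finset.mem_univ i)

theorem tendsto_nn : Tendsto nn cofinite atTop := by
  rw [tendsto_atTop]
  intro K
  rw [eventually_cofinite]
  refine Set.Finite.subset (cube 0 K).finite_toSet ?_
  intro p hp
  rw [Set.mem_ofPred_eq, not_le] at hp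
  rw [Finset.mem_coe, mem_cube]
  intro i
  have h := le_nn p i
  have h2 : |p i| = ((p i).natAbs : ℤ) := Int.abs_eq_natAbs _
  rw [Pi.zero_apply, sub_zero, h2]
  exact_mod_cast (h.trans hp.le)

theorem tendsto_L : Tendsto L cofinite atTop := by
  have h : Tendsto Nat.sqrt atTop atTop :=
    tendsto_atTop_atTop.2 fun b => ⟨b ^ 2, fun a ha => Nat.le_sqrt'.2 ha⟩
  exact h.comp tendsto_nn

theorem nn_add (p m : Z6) : nn (p + m) ≤ nn p + nn m := by
  refine Finset.sup_le fun i _ => ?_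
  have h1 := le_nn p i
  have h2 := le_nn m i
  have h3 : ((p + m) i).natAbs ≤ (p i).natAbs + (m i).natAbs := Int.natAbs_add_le _ _
  omega

theorem nn_neg (m : Z6) : nn (-m) = nn m := by simp [nn]

theorem sqrt_add (a b : ℕ) : Nat.sqrt (a + b) ≤ Nat.sqrt a + b := by
  have h1 : a < (Nat.sqrt a + 1) * (Nat.sqrt a + 1) := Nat.lt_succ_sqrt a
  rw [← Nat.lt_succ_iff, Nat.sqrt_lt]
  nlinarith [Nat.zero_le (Nat.sqrt a), Nat.zero_le b]

theorem L_add (p m : Z6) : L (p + m) ≤ L p + nn m :=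
  (Nat.sqrt_le_sqrt (nn_add p m)).trans (sqrt_add _ _)

theorem L_le (p m : Z6) : L p ≤ L (p + m) + nn m := by
  have h := L_add (p + m) (-m)
  rw [add_neg_cancel_right, nn_neg] at h
  exact h

theorem sum_eq (f : Z6 → ℝ) (s : Finset Z6) (h : ∀ κ, κ ∉ s → f κ = 0) :
    ∑ᶠ κ, f κ = ∑ κ ∈ s, f κ :=
  finsum_eq_finsetSum_of_support_subset f fun κ hκ => by
    by_contra hc
    exact hκ (h κ hc)

theorem G_pos (p : Z6) : 0 < ((2 * (L p : ℝ) + 1) ^ 3)⁻¹ := by positivity

theorem one (p : Z6) : ∑ᶠ κ, G κ p ^ 2 = 1 := by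
  rw [sum_eq _ (cube p (L p)) fun κ hκ => by simp [G, hκ]]
  have h : ∀ κ ∈ cube p (L p), G κ p ^ 2 = ((2 * (L p : ℝ) + 1) ^ 6)⁻¹ := by
    intro κ hκ
    simp only [G, hκ, if_true]
    rw [inv_pow, ← pow_mul]
  rw [Finset.sum_congr rfl h, Finset.sum_const, card_cube, nsmul_eq_mul]
  push_cast
  have : (0 : ℝ) < (2 * (L p : ℝ) + 1) ^ 6 := by positivity
  field_simp

theorem pair (p m : Z6) : ∑ᶠ κ, G κ p * G κ (p + m) =
    ((cube p (L p) ∩ cube (p + m) (L (p + m))).card : ℝ) *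
      (((2 * (L p : ℝ) + 1) ^ 3)⁻¹ * ((2 * (L (p + m) : ℝ) + 1) ^ 3)⁻¹) := by
  classical
  rw [sum_eq _ (cube p (L p) ∩ cube (p + m) (L (p + m))) fun κ hκ => by
    rw [Finset.mem_inter, not_and_or] at hκ
    rcases hκ with h | h <;> simp [G, h]]
  have h : ∀ κ ∈ cube p (L p) ∩ cube (p + m) (L (p + m)), G κ p * G κ (p + m) =
      ((2 * (L p : ℝ) + 1) ^ 3)⁻¹ * ((2 * (L (p + m) : ℝ) + 1) ^ 3)⁻¹ := by
    intro κ hκ
    rw [Finset.mem_inter] at hκ
    simp only [G, hκ.1, hκ.2, if_true]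
  rw [Finset.sum_congr rfl h, Finset.sum_const, nsmul_eq_mul]

theorem upper (p m : Z6) : ∑ᶠ κ, G κ p * G κ (p + m) ≤ 1 := by
  rw [pair]
  set x : ℝ := 2 * (L p : ℝ) + 1 with hx
  set y : ℝ := 2 * (L (p + m) : ℝ) + 1 with hy
  have hx0 : 0 < x := by positivity
  have hy0 : 0 < y := by positivity
  have h1 : ((cube p (L p) ∩ cube (p + m) (L (p + m))).card : ℝ) ≤ x ^ 6 := by
    have := Finset.card_le_card (Finset.inter_subset_left (s₁ := cube p (L p))
      (s₂ := cube (p + m) (L (p + m))))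
    rw [card_cube] at this
    rw [hx]
    exact_mod_cast this
  have h2 : ((cube p (L p) ∩ cube (p + m) (L (p + m))).card : ℝ) ≤ y ^ 6 := by
    have := Finset.card_le_card (Finset.inter_subset_right (s₁ := cube p (L p))
      (s₂ := cube (p + m) (L (p + m))))
    rw [card_cube] at this
    rw [hy]
    exact_mod_cast this
  have h3 : ((cube p (L p) ∩ cube (p + m) (L (p + m))).card : ℝ) ≤ x ^ 3 * y ^ 3 := by
    rcases le_total x y with h | h
    · refine h1.trans ?_
      calc x ^ 6 = x ^ 3 * x ^ 3 := by ring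
        _ ≤ x ^ 3 * y ^ 3 := by gcongr
    · refine h2.trans ?_
      calc y ^ 6 = y ^ 3 * y ^ 3 := by ring
        _ ≤ x ^ 3 * y ^ 3 := by gcongr
  rw [← mul_inv]
  exact mul_inv_le_one_of_le₀ h3 (by positivity)

theorem lower (p m : Z6) (h : 2 * nn m ≤ L p) :
    (1 - 6 * (nn m : ℝ) / (2 * ((L p : ℝ) + nn m) + 1)) ^ 6 ≤ ∑ᶠ κ, G κ p * G κ (p + m) := by
  rw [pair]
  set x : ℝ := 2 * (L p : ℝ) + 1 with hx
  set y : ℝ := 2 * (L (p + m) : ℝ) + 1 with hy
  set z : ℝ := 2 * ((L p : ℝ) + nn m) + 1 with hz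
  have hx0 : 0 < x := by positivity
  have hy0 : 0 < y := by positivity
  have hz0 : 0 < z := by positivity
  have hxz : x ≤ z := by
    have : (0 : ℝ) ≤ nn m := Nat.cast_nonneg _
    rw [hx, hz]; linarith
  have hyz : y ≤ z := by
    have : (L (p + m) : ℝ) ≤ L p + nn m := by exact_mod_cast L_add p m
    rw [hy, hz]; linarith
  have hsub : cube p (L p - 2 * nn m) ⊆ cube p (L p) ∩ cube (p + m) (L (p + m)) := by
    intro κ hκ
    rw [mem_cube] at hκ
    rw [Finset.mem_inter, mem_cube, mem_cube]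
    have h4 := L_le p m
    have h5 : ((L p - 2 * nn m : ℕ) : ℤ) = (L p : ℤ) - 2 * nn m := by
      push_cast [Nat.cast_sub h]; ring
    have h6 : (L p : ℤ) ≤ L (p + m) + nn m := by exact_mod_cast h4
    have h7 : (0 : ℤ) ≤ nn m := by positivity
    refine ⟨fun i => ?_, fun i => ?_⟩
    · have := hκ i
      rw [h5] at this
      linarith
    · have h8 := hκ i
      rw [h5] at h8
      have h9 : |m i| ≤ nn m := by
        rw [Int.abs_eq_natAbs]
        exact_mod_cast le_nn m i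
      have h10 : κ i - (p + m) i = (κ i - p i) - m i := by
        rw [Pi.add_apply]; ring
      rw [h10]
      have h11 := abs_sub (κ i - p i) (m i)
      linarith
  have h1 : (z - 6 * nn m) ^ 6 ≤ ((cube p (L p) ∩ cube (p + m) (L (p + m))).card : ℝ) := by
    have h2 := Finset.card_le_card hsub
    rw [card_cube] at h2
    have h3 : z - 6 * nn m = ((2 * (L p - 2 * nn m) + 1 : ℕ) : ℝ) := by
      push_cast [Nat.cast_sub h]
      rw [hz]; ring
    rw [h3]
    exact_mod_cast h2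
  have h2 : 1 - 6 * (nn m : ℝ) / z = (z - 6 * nn m) / z := by field_simp
  rw [h2, div_pow, div_eq_mul_inv]
  have h3 : (z ^ 6)⁻¹ ≤ (x ^ 3)⁻¹ * (y ^ 3)⁻¹ := by
    rw [← mul_inv]
    refine inv_anti₀ (by positivity) ?_
    calc x ^ 3 * y ^ 3 ≤ z ^ 3 * z ^ 3 := by gcongr
      _ = z ^ 6 := by ring
  exact mul_le_mul h1 h3 (by positivity) (by positivity)

theorem shift (m : Z6) : Tendsto (fun p => ∑ᶠ κ, G κ p * G κ (p + m)) cofinite (𝓝 1) := by
  have h1 : Tendsto (fun p => (1 - 6 * (nn m : ℝ) / (2 * ((L p : ℝ) + nn m) + 1)) ^ 6) cofinite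
      (𝓝 1) := by
    have h2 : Tendsto (fun p => 2 * ((L p : ℝ) + nn m) + 1) cofinite atTop :=
      tendsto_atTop_add_const_right _ _ (Tendsto.const_mul_atTop (by norm_num)
        (tendsto_atTop_add_const_right _ _ (tendsto_natCast_atTop_atTop.comp tendsto_L)))
    have h3 : Tendsto (fun p => 6 * (nn m : ℝ) / (2 * ((L p : ℝ) + nn m) + 1)) cofinite (𝓝 0) :=
      h2.const_div_atTop _
    have h4 := (tendsto_const_nhds (x := (1 : ℝ))).sub h3
    rw [sub_zero] at h4
    simpa using h4.pow 6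
  refine tendsto_of_tendsto_of_tendsto_of_le_of_le' h1 tendsto_const_nhds ?_
    (Eventually.of_forall fun p => upper p m)
  filter_upwards [tendsto_L.eventually_ge_atTop (2 * nn m)] with p hp
  exact lower p m hp

theorem nn_le_norm (p : Z6) : (nn p : ℝ) ≤ ‖rv p‖ := by
  have h : nn p ≤ ⌊‖rv p‖⌋₊ := by
    refine Finset.sup_le fun i _ => Nat.le_floor ?_
    have h1 := norm_le_pi_norm (rv p) i
    have h2 : ((p i).natAbs : ℝ) = ‖rv p i‖ := by
      rw [rv, Real.norm_eq_abs, Nat.cast_natAbs, Int.cast_abs]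
    rw [h2]
    exact h1
  exact (Nat.cast_le.2 h).trans (Nat.floor_le (norm_nonneg _))

theorem near (ε : ℝ) (hε : 0 < ε) :
    ∀ᶠ p in cofinite, ∀ κ, G κ p ≠ 0 → ‖rv κ - rv p‖ ≤ ε * ‖rv p‖ := by
  obtain ⟨K, hK⟩ := exists_nat_gt (1 / ε)
  filter_upwards [tendsto_L.eventually_ge_atTop (K + 1)] with p hp κ hκ
  have hmem : κ ∈ cube p (L p) := by
    by_contra hc
    exact hκ (by simp [G, hc])
  rw [mem_cube] at hmem
  have h1 : ‖rv κ - rv p‖ ≤ L p := by
    refine (pi_norm_le_iff_of_nonneg (Nat.cast_nonneg _)).2 fun i => ?_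
    have := hmem i
    rw [Pi.sub_apply, rv, rv, Real.norm_eq_abs]
    exact_mod_cast this
  have hL : 1 / ε ≤ (L p : ℝ) := by
    have : ((K + 1 : ℕ) : ℝ) ≤ L p := by exact_mod_cast hp
    push_cast at this
    linarith
  have hL0 : 0 < (L p : ℝ) := lt_of_lt_of_le (by positivity) hL
  have h2 : (L p : ℝ) * L p ≤ nn p := by exact_mod_cast Nat.sqrt_le (nn p)
  have h3 : 1 ≤ ε * L p := by
    rw [div_le_iff₀ hε] at hL
    linarith
  calc ‖rv κ - rv p‖ ≤ L p := h1
    _ ≤ (ε * L p) * L p := by nlinarith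
    _ = ε * (L p * L p) := by ring
    _ ≤ ε * nn p := by gcongr
    _ ≤ ε * ‖rv p‖ := by
        have := nn_le_norm p
        gcongr

end WEIGHTaux

theorem t_WEIGHT : S_WEIGHT := by
  refine ⟨WEIGHTaux.G, fun κ p => ?_, fun p => ?_, WEIGHTaux.one, WEIGHTaux.shift,
    WEIGHTaux.near⟩
  · unfold WEIGHTaux.G
    split_ifs
    · positivity
    · exact le_rfl
  · refine Set.Finite.subset (WEIGHTaux.cube p (WEIGHTaux.L p)).finite_toSet fun κ hκ => ?_
    by_contra hc
    exact hκ (by simp only [WEIGHTaux.G]; rw [if_neg]; exact hc)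

end Pool.Agent.H223.SR
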