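import Pool.Agent.H223.SR.Small
import Pool.Agent.H223.SR.Final
import Pool.Agent.H223.SR.T_NEARBY
import Pool.Agent.H223.SR.T_WEIGHT
import Pool.Agent.H223.SR.T_POSF
import Pool.Agent.H223.SR.T_LIM
import Pool.Agent.H223.SR.T_SHIFT
import Pool.Agent.H223.SR.T_DECAY
import Pool.Agent.H223.SR.T_QUANT

/-! # Translation of the definitions of `Defs` into those of `Small` -/

set_option autoImplicit false

open MeasureTheory Set Filter Topology
open scoped ContDiff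

namespace Pool.Agent.H223.SR

lemma fn_iff {d : ℕ} (u : L2 d) (F : C(Tor d, ℂ)) :
    HS.fn u =ᵐ[vol d] F ↔ u = cls F := by
  have h0 : (⇑(cls F) : Tor d → ℂ) =ᵐ[vol d] F := ContinuousMap.coeFn_toLp (p := 2) (𝕜 := ℂ) (vol d) F
  constructor
  · intro h
    exact Lp.ext (h.trans h0.symm)
  · intro h
    subst h
    exact h0

lemma eig_iff {d k : ℕ} (S : SubRiem d k) {ι : Type} (b : HilbertBasis ι ℂ (L2 d)) (lam : ι → ℝ) :
    EigenBasis S (show HilbertBasis ι ℂ (HS d) from b) lam ↔ IsEigenbasis S b lam := by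
  constructor
  · intro h
    refine ⟨fun j => ?_, h.fin⟩
    obtain ⟨F, h1, h2, h3⟩ := h.eig j
    exact ⟨F, h1, (fn_iff (b j) F).1 h2, h3⟩
  · intro h
    refine ⟨fun j => ?_, h.fin⟩
    obtain ⟨F, h1, h2, h3⟩ := h.eig j
    exact ⟨F, h1, (fn_iff (b j) F).2 h2, h3⟩

lemma std_iff {d : ℕ} (a : Symbol d) (A : L2 d →L[ℂ] L2 d) :
    IsStd a (show BO d from A) ↔ ∀ κ : Fin d → ℤ, κ ≠ 0 → (A (mono κ) : L2 d) =ᵐ[vol d]
      fun x => (a.f x (fun i => (κ i : ℝ)) : ℂ) * UnitAddTorus.mFourier κ x := by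
  constructor
  · intro h κ hκ
    exact h κ (mono κ) hκ ((fn_iff (mono κ) (UnitAddTorus.mFourier κ)).2 rfl)
  · intro h κ u hκ hu
    have h1 := (fn_iff u (UnitAddTorus.mFourier κ)).1 hu
    subst h1
    exact h κ hκ

lemma quant_iff {d : ℕ} (Op : Symbol d → (L2 d →L[ℂ] L2 d)) :
    PosQuant (show Symbol d → BO d from Op) ↔ IsPosQuant Op := by
  constructor
  · intro h
    refine ⟨h.add, h.smul, h.pos, fun a => ?_⟩
    obtain ⟨K, hK, h1⟩ := h.quant a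
    exact ⟨(show L2 d →L[ℂ] L2 d from K), hK,
      (std_iff a (Op a - (show L2 d →L[ℂ] L2 d from K))).1 h1⟩
  · intro h
    refine ⟨h.add, h.smul, h.pos, fun a => ?_⟩
    obtain ⟨K, hK, h1⟩ := h.quant a
    exact ⟨K, hK, (std_iff a (Op a - K)).2 h1⟩

/-- the main theorem in terms of the definitions of `Small` -/
theorem main_small : ∃ S : SubRiem 6 4, Exist S ∧
    ∃ W : Measure (Tor 6 × Sph 6), WeylMeasure S W ∧
    ∃ r, IsLeast {r | ∀ q, flag S.X r q = ⊤} r ∧ W.support ≠ SSigma S (r - 1) := by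
  obtain ⟨S, ⟨ι, b, lam, h1⟩, W, ⟨h2, h3⟩, h4⟩ := main_model
  obtain ⟨Op, hOp⟩ := t_QUANT t_SW.1 (t_DECAY t_SW.1) t_WEIGHT t_SHIFT (t_POSF t_SW.1)
    (t_LIM t_SW.1 (t_NEARBY t_SW.1))
  refine ⟨S, ⟨⟨ι, b, lam, (eig_iff S b lam).2 h1⟩, ⟨Op, (quant_iff Op).2 hOp⟩⟩, W, ⟨h2, ?_⟩, h4⟩
  intro ι' b' lam' hb' Op' hOp' a
  exact h3 ι' b' lam' ((eig_iff S b' lam').1 hb') Op' ((quant_iff Op').1 hOp') a

end Pool.Agent.H223.SR
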